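import Pool.Agent.Lib.MP_c77da8_nt.DL.Cls
import Pool.Agent.Lib.MP_c77da8_nt.SZ.Sz

/-!
# DL-Words: the numbers `b (m j)^d n - 1` for given `m 0, ..., m (k-1)`

PROOF.  Let `N` be the dimension of the density Hales-Jewett theorem for the alphabet `Fin k` and the density `1/3000`,
`K = k^N` the number of words.  To every word `w` belongs the number `wt w = ∏ m (w x) ^ (r x)` and a part `F_w` of `F` with
`s = C^(K T)` elements, the parts being disjoint; the forms `b (wt w) n - 1`, `b ∈ F_w`, are pairwise different.  By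
`classes` for infinitely many `n` at least `K/3000` words are good (at least `T` of the `b (wt w) n - 1`, `b ∈ F_w`, are
prime); one set of good words occurs for infinitely many `n`, and it contains a combinatorial line `w_0, ..., w_(k-1)`:
`wt w_j = c (m j)^d`, `d` the sum of the `r x` over the variable coordinates `x`.  Put `n' = c n`.
-/

set_option autoImplicit false

namespace Pool.DL

open Finset

/-- weight of a word -/
def wt {k N : ℕ} (m : Fin k → ℕ) (r : Fin N → ℕ) (w : Fin N → Fin k) : ℕ := ∏ x, m (w x) ^ r x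

theorem wt_pos {k N : ℕ} (m : Fin k → ℕ) (r : Fin N → ℕ) (hm : ∀ j, 1 ≤ m j) (w : Fin N → Fin k) :
    1 ≤ wt m r w :=
  Finset.one_le_prod' fun x _ => Nat.one_le_pow _ _ (hm (w x))

theorem wt_eq {k N : ℕ} (m : Fin k → ℕ) (r : Fin N → ℕ) (w : Fin N → Fin k) :
    wt m r w = ∏ j, m j ^ (∑ x ∈ univ.filter (fun x => w x = j), r x) := by
  unfold wt
  rw [← Finset.prod_fiberwise_of_maps_to (s := univ) (t := univ) (g := w) (fun x _ => mem_univ (w x))]
  refine Finset.prod_congr rfl fun j _ => ?_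
  rw [← Finset.prod_pow_eq_pow_sum]
  refine Finset.prod_congr rfl fun x hx => ?_
  rw [(mem_filter.1 hx).2]

theorem wt_line {k N : ℕ} (m : Fin k → ℕ) (r : Fin N → ℕ) (W : Fin N → Fin k ⊕ Unit) (y : Fin k) :
    wt m r (Pool.SZ.ev W (fun _ => y)) =
      (∏ x, Sum.elim m (fun _ => 1) (W x) ^ r x) *
        m y ^ (∑ x ∈ univ.filter (fun x => W x = Sum.inr ()), r x) := by
  unfold wt
  have h1 : m y ^ (∑ x ∈ univ.filter (fun x => W x = Sum.inr ()), r x) =
      ∏ x, m y ^ (if W x = Sum.inr () then r x else 0) := by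
    rw [Finset.prod_pow_eq_pow_sum, Finset.sum_filter]
  rw [h1, ← Finset.prod_mul_distrib]
  refine Finset.prod_congr rfl fun x _ => ?_
  unfold Pool.SZ.ev
  cases h : W x with
  | inl a => simp
  | inr u => simp

theorem words_pos (k : ℕ) : ∃ C N : ℕ, ∀ (m : Fin (k + 1) → ℕ), (∀ j, 1 ≤ m j) → ∀ (r : Fin N → ℕ) (T : ℕ)
    (F : Finset ℕ), 1 ≤ T → (∀ b ∈ F, 1 ≤ b) →
    (∀ b ∈ F, ∀ b' ∈ F, ∀ u v : Fin (k + 1) → ℕ, b * ∏ j, m j ^ u j = b' * ∏ j, m j ^ v j → b = b') →
    C ^ T ≤ F.card → ∃ X : Finset (Fin N), X.Nonempty ∧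
      {n : ℕ | ∀ j, T ≤ (F.filter (fun b => (b * m j ^ (∑ x ∈ X, r x) * n - 1).Prime)).card}.Infinite := by
  obtain ⟨C₀, hC₀, hcl⟩ := classes
  obtain ⟨N, hN⟩ := Pool.SZ.dhj_fin k (1 / 3000) (by norm_num)
  obtain ⟨K, hK⟩ : ∃ K, K = Fintype.card (Fin N → Fin (k + 1)) := ⟨_, rfl⟩
  have hK1 : 1 ≤ K := by
    rw [hK]
    exact Fintype.card_pos
  have e : Fin K ≃ (Fin N → Fin (k + 1)) := by
    rw [hK]
    exact (Fintype.equivFin _).symm
  refine ⟨K * C₀ ^ K, N, fun m hm r T F hT hF hgen hcard => ?_⟩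
  obtain ⟨s, hs⟩ : ∃ s, s = C₀ ^ (K * T) := ⟨_, rfl⟩
  have hsF : K * s ≤ F.card := by
    refine le_trans ?_ hcard
    rw [mul_pow, ← pow_mul, hs]
    exact Nat.mul_le_mul_right _ (Nat.le_self_pow (by omega) K)
  -- the injection
  obtain ⟨β, hβF, hβi⟩ : ∃ β : Fin K → Fin s → ℕ, (∀ i h, β i h ∈ F) ∧
      ∀ i h i' h', β i h = β i' h' → i = i' ∧ h = h' := by
    have h1 : Fintype.card (Fin K × Fin s) ≤ Fintype.card F := by
      rw [Fintype.card_prod, Fintype.card_fin, Fintype.card_fin, Fintype.card_coe]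
      exact hsF
    obtain ⟨g⟩ := Function.Embedding.nonempty_of_card_le h1
    refine ⟨fun i h => (g (i, h) : ℕ), fun i h => (g (i, h)).2, fun i h i' h' heq => ?_⟩
    have h2 := g.injective (Subtype.ext heq)
    rw [Prod.mk.injEq] at h2
    exact h2
  have h := hcl K T s hs.ge (fun i h => β i h * wt m r (e i)) (fun _ _ => -1)
    (fun i h => Nat.succ_le_of_lt (Nat.mul_pos (hF _ (hβF i h)) (wt_pos m r hm _)))
    (fun i h i' h' hne heq => by
      have h1 : β i h * wt m r (e i) = β i' h' * wt m r (e i') := by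
        have h2 : ((β i h * wt m r (e i) : ℕ) : ℤ) = ((β i' h' * wt m r (e i') : ℕ) : ℤ) := by
          linarith
        exact_mod_cast h2
      rw [wt_eq, wt_eq] at h1
      have h3 := hgen _ (hβF i h) _ (hβF i' h') _ _ h1
      obtain ⟨h4, h5⟩ := hβi _ _ _ _ h3
      apply hne
      rw [h4, h5])
    (fun p hp => ⟨0, fun i h hdvd => by
      simp only [mul_zero, zero_add, Int.dvd_neg] at hdvd
      have h1 : (p : ℤ) ∣ ((1 : ℕ) : ℤ) := by simpa using hdvd
      exact hp.one_lt.ne' (Nat.dvd_one.1 (Int.natCast_dvd_natCast.1 h1))⟩)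
  -- one set of good words
  obtain ⟨S, hS⟩ : ∃ S : Finset (Fin K), {n : ℕ | (univ.filter (fun i : Fin K =>
      T ≤ (univ.filter (fun h : Fin s =>
        (((β i h * wt m r (e i) : ℕ) : ℤ) * n + -1).toNat.Prime)).card)) = S ∧
      K ≤ 3000 * S.card}.Infinite := by
    by_contra hcon
    push Not at hcon
    apply h
    have h2 : {n : ℕ | K ≤ 3000 * (univ.filter (fun i : Fin K =>
        T ≤ (univ.filter (fun h : Fin s =>
          (((β i h * wt m r (e i) : ℕ) : ℤ) * n + -1).toNat.Prime)).card)).card} ⊆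
        ⋃ S : Finset (Fin K), {n : ℕ | (univ.filter (fun i : Fin K =>
          T ≤ (univ.filter (fun h : Fin s =>
            (((β i h * wt m r (e i) : ℕ) : ℤ) * n + -1).toNat.Prime)).card)) = S ∧
          K ≤ 3000 * S.card} := by
      intro n hn
      exact Set.mem_iUnion.2 ⟨_, rfl, hn⟩
    refine (Set.finite_iUnion fun S => ?_).subset h2
    exact hcon S
  obtain ⟨n0, hn0⟩ := hS.nonempty
  have hKS : K ≤ 3000 * S.card := hn0.2
  obtain ⟨W, hW, hWS⟩ := hN (Fin N) (by rw [Fintype.card_fin]) (S.map e.toEmbedding) (by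
    unfold Pool.SZ.dn Pool.SZ.nn
    rw [card_map, ← hK, le_div_iff₀ (by exact_mod_cast hK1)]
    have : (K : ℝ) ≤ 3000 * (S.card : ℝ) := by exact_mod_cast hKS
    linarith)
  refine ⟨univ.filter (fun x => W x = Sum.inr ()), ?_, ?_⟩
  · obtain ⟨x, hx⟩ := hW ()
    exact ⟨x, mem_filter.2 ⟨mem_univ _, hx⟩⟩
  · obtain ⟨c, hc⟩ : ∃ c, c = ∏ x, Sum.elim m (fun _ => 1) (W x) ^ r x := ⟨_, rfl⟩
    have hc1 : 1 ≤ c := by
      rw [hc]
      refine Finset.one_le_prod' fun x _ => ?_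
      have h5 : 1 ≤ Sum.elim m (fun _ => 1) (W x) := by
        cases W x with
        | inl a => exact hm a
        | inr u => exact le_rfl
      exact Nat.one_le_pow _ _ h5
    have hinj : Function.Injective (fun n : ℕ => c * n) := by
      intro x y hxy
      exact Nat.eq_of_mul_eq_mul_left (by omega) hxy
    refine (hS.image hinj.injOn).mono ?_
    rintro _ ⟨n, ⟨hn, -⟩, rfl⟩
    intro j
    have h3 := hWS (fun _ => j)
    rw [mem_map] at h3
    obtain ⟨i, hi, hi2⟩ := h3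
    have hi3 : e i = Pool.SZ.ev W (fun _ => j) := hi2
    rw [← hn, mem_filter] at hi
    refine hi.2.trans ?_
    apply Finset.card_le_card_of_injOn (β i)
    · intro h hh
      simp only [coe_filter, mem_univ, true_and, Set.mem_ofPred_eq] at hh
      simp only [coe_filter, Set.mem_ofPred_eq]
      refine ⟨hβF i h, ?_⟩
      rw [hi3, wt_line, ← hc] at hh
      have h7 : ∀ q : ℕ, (((β i h * (c * m j ^ q) : ℕ) : ℤ) * (n : ℤ) + -1).toNat
          = β i h * m j ^ q * (c * n) - 1 := by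
        intro q
        have h8 : ((β i h * (c * m j ^ q) : ℕ) : ℤ) * (n : ℤ) = ((β i h * m j ^ q * (c * n) : ℕ) : ℤ) := by
          push_cast
          ring
        rw [h8]
        omega
      rw [h7] at hh
      exact hh
    · intro h _ h' _ heq
      exact (hβi _ _ _ _ heq).2

/-- **Chains of powers.** -/
theorem words (k : ℕ) : ∃ C N : ℕ, ∀ (m : Fin k → ℕ), (∀ j, 1 ≤ m j) → ∀ (r : Fin N → ℕ) (T : ℕ) (F : Finset ℕ),
    (∀ b ∈ F, 1 ≤ b) →
    (∀ b ∈ F, ∀ b' ∈ F, ∀ u v : Fin k → ℕ, b * ∏ j, m j ^ u j = b' * ∏ j, m j ^ v j → b = b') →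
    C ^ T ≤ F.card → ∃ X : Finset (Fin N), X.Nonempty ∧
      {n : ℕ | ∀ j, T ≤ (F.filter (fun b => (b * m j ^ (∑ x ∈ X, r x) * n - 1).Prime)).card}.Infinite := by
  rcases k with _ | k
  · refine ⟨0, 1, fun m _ r T F _ _ _ => ⟨univ, univ_nonempty, ?_⟩⟩
    have h : {n : ℕ | ∀ j : Fin 0, T ≤ (F.filter
        (fun b => (b * m j ^ (∑ x ∈ (univ : Finset (Fin 1)), r x) * n - 1).Prime)).card} = Set.univ := by
      ext n
      simp
    rw [h]
    exact Set.infinite_univ
  obtain ⟨C, N, hCN⟩ := words_pos k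
  refine ⟨C, N + 1, fun m hm r T F hF hgen hcard => ?_⟩
  rcases Nat.eq_zero_or_pos T with hT | hT
  · refine ⟨univ, univ_nonempty, ?_⟩
    have h : {n : ℕ | ∀ j : Fin (k + 1), T ≤ (F.filter
        (fun b => (b * m j ^ (∑ x ∈ (univ : Finset (Fin (N + 1))), r x) * n - 1).Prime)).card} = Set.univ := by
      ext n
      simp [hT]
    rw [h]
    exact Set.infinite_univ
  · obtain ⟨X, hX, hinf⟩ := hCN m hm (fun x => r x.castSucc) T F hT hF hgen hcard
    refine ⟨X.map Fin.castSuccEmb, hX.map, ?_⟩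
    simp only [sum_map, Fin.coe_castSuccEmb]
    exact hinf

end Pool.DL
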