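import Pool.Agent.Lib.MP_c77da8_nt.DL.Sum

/-!
# DL-Expd: expansion of `Λ_y` in the indicators `[d ≤ ξ]`
-/

set_option autoImplicit false

namespace Pool.DL

open Finset

variable {P J : Type} [Fintype P] [DecidableEq P] [Fintype J] [DecidableEq J]

/-- an indicator of `le` as a product -/
theorem le_prod (d ξ : P → Option J) :
    (if le d ξ then (1 : ℝ) else 0) = ∏ p, (if d p = none ∨ d p = ξ p then (1 : ℝ) else 0) := by
  by_cases h : le d ξ
  · rw [if_pos h, Finset.prod_congr rfl fun p _ => if_pos (h p)]
    simp
  · rw [if_neg h]
    unfold le at h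
    push Not at h
    obtain ⟨p, hp1, hp2⟩ := h
    symm
    apply Finset.prod_eq_zero (mem_univ p)
    rw [if_neg]
    push Not
    exact ⟨hp1, hp2⟩

theorem vl_sum (t : ℝ) (a b : Option J) :
    vl t a b = ∑ c : Option J, (if c = none ∨ c = a then (1 : ℝ) else 0) *
      ((if c = none then (1 : ℝ) else -(t - 1)) * (if c = none ∨ c = b then (1 : ℝ) else 0)) := by
  rw [Fintype.sum_option]
  simp only [true_or, if_true, reduceCtorEq, false_or, if_false]
  unfold vl
  rcases a with _ | j
  · simp
  · simp only [reduceCtorEq, if_false, Option.some.injEq]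
    have h1 : ∀ x : J, (if x = j then (1 : ℝ) else 0) * (-(t - 1) * (if some x = b then (1 : ℝ) else 0)) =
        if x = j then -(t - 1) * (if some x = b then (1 : ℝ) else 0) else 0 := by
      intro x
      split_ifs <;> simp
    rw [Finset.sum_congr rfl fun x _ => h1 x, Finset.sum_ite_eq']
    by_cases hb : b = some j
    · rw [if_pos hb]
      simp [hb]
      ring
    · rw [if_neg hb]
      have : ¬ some j = b := fun h => hb h.symm
      simp [this]

theorem prod_vl (q : P → ℝ) (r ξ : P → Option J) :
    ∏ p, vl (q p) (r p) (ξ p) = ∑ d : P → Option J, (if le d r then (1 : ℝ) else 0) *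
      (cprod (fun p => -(q p - 1)) d * (if le d ξ then (1 : ℝ) else 0)) := by
  rw [Finset.prod_congr rfl fun p _ => vl_sum (q p) (r p) (ξ p)]
  rw [← sum_prod (fun p c => (if c = none ∨ c = r p then (1 : ℝ) else 0) *
      ((if c = none then (1 : ℝ) else -(q p - 1)) * (if c = none ∨ c = ξ p then (1 : ℝ) else 0)))]
  refine Finset.sum_congr rfl fun d _ => ?_
  rw [le_prod, le_prod, Finset.prod_mul_distrib, Finset.prod_mul_distrib]
  rfl

theorem Lam_eq (q : P → ℝ) (y : (P → Option J) → ℝ) (ξ : P → Option J) :
    Lam q y ξ = ∑ d : P → Option J, lam q y d * (if le d ξ then 1 else 0) := by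
  unfold Lam lam
  have h1 : ∀ r : P → Option J, y r * cprod (xx q) r * ∏ p, vl (q p) (r p) (ξ p) =
      ∑ d : P → Option J, cprod (fun p => -(q p - 1)) d *
        ((if le d r then y r * cprod (xx q) r else 0)) * (if le d ξ then (1 : ℝ) else 0) := by
    intro r
    rw [prod_vl, Finset.mul_sum]
    refine Finset.sum_congr rfl fun d _ => ?_
    split_ifs <;> ring
  rw [Finset.sum_congr rfl fun r _ => h1 r, Finset.sum_comm]
  refine Finset.sum_congr rfl fun d _ => ?_
  rw [← Finset.sum_mul, ← Finset.mul_sum, ← Finset.sum_filter]

theorem le_and (d e ξ : P → Option J) : (le d ξ ∧ le e ξ) ↔ (comp d e ∧ le (join d e) ξ) := by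
  unfold le comp join
  constructor
  · rintro ⟨h1, h2⟩
    refine ⟨fun p => ?_, fun p => ?_⟩
    · rcases h1 p with h | h
      · exact Or.inl h
      · rcases h2 p with h' | h'
        · exact Or.inr (Or.inl h')
        · exact Or.inr (Or.inr (h.trans h'.symm))
    · by_cases hd : d p = none
      · simp only [hd, if_true]
        exact h2 p
      · simp only [hd, if_false, false_or]
        rcases h1 p with h | h
        · exact absurd h hd
        · exact h
  · rintro ⟨h1, h2⟩
    refine ⟨fun p => ?_, fun p => ?_⟩
    · by_cases hd : d p = none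
      · exact Or.inl hd
      · have := h2 p
        simp only [hd, if_false, false_or] at this
        exact Or.inr this
    · by_cases he : e p = none
      · exact Or.inl he
      · have h3 := h2 p
        by_cases hd : d p = none
        · simp only [hd, if_true] at h3
          exact h3
        · simp only [hd, if_false, false_or] at h3
          rcases h1 p with h | h | h
          · exact absurd h hd
          · exact absurd h he
          · exact Or.inr (h.symm.trans h3)

/-- expectation of the product of two indicators for local measures of mass one -/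
theorem EE_le (μ : P → Option J → ℝ) (hμ : ∀ p, ∑ b, μ p b = 1) (d e : P → Option J) :
    EE μ (fun ξ => (if le d ξ then 1 else 0) * (if le e ξ then 1 else 0)) =
      if comp d e then ∏ p ∈ supp (join d e), μ p (join d e p) else 0 := by
  have h1 : ∀ ξ : P → Option J, ((if le d ξ then (1 : ℝ) else 0) * (if le e ξ then 1 else 0)) =
      if comp d e then (if le (join d e) ξ then 1 else 0) else 0 := by
    intro ξ
    have h := le_and d e ξ
    by_cases h2 : le d ξ <;> by_cases h3 : le e ξ <;> by_cases h4 : comp d e <;>
      by_cases h5 : le (join d e) ξ <;> simp_all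
  unfold EE
  simp only [h1]
  by_cases hc : comp d e
  · simp only [if_pos hc]
    have h2 : ∀ ξ : P → Option J, (∏ p, μ p (ξ p)) * (if le (join d e) ξ then (1 : ℝ) else 0) =
        ∏ p, (μ p (ξ p) * (if join d e p = none ∨ join d e p = ξ p then (1 : ℝ) else 0)) := by
      intro ξ
      rw [le_prod, Finset.prod_mul_distrib]
    rw [Finset.sum_congr rfl fun ξ _ => h2 ξ,
      sum_prod (fun p b => μ p b * (if join d e p = none ∨ join d e p = b then (1 : ℝ) else 0))]
    have h3 : ∀ p, ∑ b, μ p b * (if join d e p = none ∨ join d e p = b then (1 : ℝ) else 0) =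
        if p ∈ supp (join d e) then μ p (join d e p) else 1 := by
      intro p
      by_cases hp : join d e p = none
      · have : p ∉ supp (join d e) := by simp [supp, hp]
        rw [if_neg this]
        simp only [hp, true_or, if_true, mul_one]
        exact hμ p
      · have : p ∈ supp (join d e) := by simp [supp, hp]
        rw [if_pos this]
        simp only [hp, false_or, mul_ite, mul_one, mul_zero]
        rw [Finset.sum_ite_eq]
        simp
    rw [Finset.prod_congr rfl fun p _ => h3 p, Finset.prod_ite_mem, Finset.univ_inter]
  · simp only [if_neg hc, mul_zero, Finset.sum_const_zero]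

theorem mass_I (t : ℝ) (ht : 0 < t) : ∑ b : Option J, muI J t b = 1 := by
  rw [Fintype.sum_option]
  simp only [muI, if_true, reduceCtorEq, if_false, Finset.sum_const, Finset.card_univ, nsmul_eq_mul]
  field_simp
  ring

theorem mass_P (i : J) (t : ℝ) (ht : 1 < t) : ∑ b : Option J, muP i t b = 1 := by
  have ht1 : t - 1 ≠ 0 := by linarith
  rw [Fintype.sum_option]
  have h1 : ∀ j : J, muP i t (some j) = 1 / (t - 1) - (if j = i then 1 / (t - 1) else 0) := by
    intro j
    by_cases h : j = i
    · simp [muP, h]
    · simp [muP, h]
  rw [Finset.sum_congr rfl fun j _ => h1 j, Finset.sum_sub_distrib, Finset.sum_ite_eq']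
  simp only [muP, if_true, mem_univ, Finset.sum_const, Finset.card_univ, nsmul_eq_mul]
  field_simp
  ring

theorem EI_le (q : P → ℝ) (hq : ∀ p, 3 ≤ q p) (d e : P → Option J) :
    EI q (fun ξ => (if le d ξ then 1 else 0) * (if le e ξ then 1 else 0)) =
      if comp d e then ∏ p ∈ supp (join d e), (1 / q p) else 0 := by
  unfold EI
  rw [EE_le _ (fun p => mass_I (q p) (by linarith [hq p])) d e]
  split_ifs
  · refine Finset.prod_congr rfl fun p hp => ?_
    have : join d e p ≠ none := by simpa [supp] using hp
    simp [muI, this]
  · rfl

theorem EP_le (i : J) (q : P → ℝ) (hq : ∀ p, 3 ≤ q p) (d e : P → Option J) :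
    EP i q (fun ξ => (if le d ξ then 1 else 0) * (if le e ξ then 1 else 0)) =
      if comp d e ∧ (∀ p, d p ≠ some i) ∧ (∀ p, e p ≠ some i) then
        ∏ p ∈ supp (join d e), (1 / (q p - 1)) else 0 := by
  unfold EP
  rw [EE_le _ (fun p => mass_P i (q p) (by linarith [hq p])) d e]
  by_cases hc : comp d e
  · rw [if_pos hc]
    by_cases hi : (∀ p, d p ≠ some i) ∧ (∀ p, e p ≠ some i)
    · rw [if_pos ⟨hc, hi⟩]
      refine Finset.prod_congr rfl fun p hp => ?_
      have h1 : join d e p ≠ none := by simpa [supp] using hp
      have h2 : join d e p ≠ some i := by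
        unfold join
        split_ifs
        · exact hi.2 p
        · exact hi.1 p
      simp [muP, h1, h2]
    · rw [if_neg (fun h => hi h.2)]
      have h1 : ∃ p, join d e p = some i := by
        by_contra hcon
        push Not at hcon
        apply hi
        refine ⟨fun p hp => ?_, fun p hp => ?_⟩
        · apply hcon p
          unfold join
          rw [if_neg (by rw [hp]; simp)]
          exact hp
        · apply hcon p
          unfold join
          split_ifs with h
          · exact hp
          · rcases hc p with h' | h' | h'
            · exact absurd h' h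
            · rw [h'] at hp
              exact absurd hp (by simp)
            · rw [h']
              exact hp
      obtain ⟨p, hp⟩ := h1
      apply Finset.prod_eq_zero (i := p)
      · simp [supp, hp]
      · rw [hp]
        simp [muP]
  · rw [if_neg hc, if_neg (fun h => hc h.1)]

/-- the second moment of `Λ` for any finite family of weights -/
theorem Lam_sq (q : P → ℝ) (y : (P → Option J) → ℝ) (ξ : P → Option J) :
    Lam q y ξ ^ 2 = ∑ d : P → Option J, ∑ e : P → Option J, lam q y d * lam q y e *
      ((if le d ξ then 1 else 0) * (if le e ξ then 1 else 0)) := by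
  rw [Lam_eq, sq, Finset.sum_mul_sum]
  refine Finset.sum_congr rfl fun d _ => Finset.sum_congr rfl fun e _ => ?_
  ring

end Pool.DL
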