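import Pool.Agent.Lib.MP_c77da8_nt.DL.Sum

/-!
# DL-Parts: a colouring as a tuple of disjoint sets

PROOF.  `cprod_parts`, `nrm_parts`: the coloured primes are the disjoint union of the `part r j`
(`Finset.prod_biUnion` / `prod_fiberwise`).
`sum_parts_le`: `r ↦ (part r j)_j` is an injection into the tuples `J → Finset P`, and
`∑_{a : J → Finset P} ∏_j F j (a j) = ∏_j ∑_a F j a` (`sum_prod` with `J` in place of `P`).
`sum_noc`: `noc i` is the set of the `s` with `part s i = ∅`.
`zz_eq`: for `s ∈ noc i` the `r` with `strip i r = s` are the `put i b s` with `b` disjoint from `supp s`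
(`b = part r i`).
-/

set_option autoImplicit false

namespace Pool.DL

open Finset

variable {P J : Type} [Fintype P] [DecidableEq P] [Fintype J] [DecidableEq J]

theorem supp_biUnion (r : P → Option J) : supp r = univ.biUnion (part r) := by
  ext p
  simp only [supp, part, mem_filter, mem_univ, true_and, mem_biUnion, Option.ne_none_iff_exists']

theorem part_disj (r : P → Option J) (j l : J) (h : j ≠ l) : Disjoint (part r j) (part r l) := by
  rw [Finset.disjoint_left]
  intro p h1 h2
  simp only [part, mem_filter, mem_univ, true_and] at h1 h2
  rw [h1] at h2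
  exact h (Option.some.inj h2)

theorem cprod_supp (f : P → ℝ) (r : P → Option J) : cprod f r = ∏ p ∈ supp r, f p := by
  unfold cprod supp
  rw [Finset.prod_filter]
  refine Finset.prod_congr rfl fun p _ => ?_
  by_cases h : r p = none
  · simp [h]
  · simp [h]

theorem prod_parts {M : Type} [CommMonoid M] (f : P → M) (r : P → Option J) :
    ∏ p ∈ supp r, f p = ∏ j, ∏ p ∈ part r j, f p := by
  rw [supp_biUnion, Finset.prod_biUnion]
  intro j _ l _ h
  exact part_disj r j l h

theorem cprod_parts (f : P → ℝ) (r : P → Option J) : cprod f r = ∏ j, ∏ p ∈ part r j, f p := by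
  rw [cprod_supp, prod_parts]

theorem nrm_parts (v : P → ℕ) (r : P → Option J) : nrm v (supp r) = ∏ j, nrm v (part r j) := by
  unfold nrm
  exact prod_parts v r

theorem supp_parts (f : P → ℝ) (r : P → Option J) :
    ∑ p ∈ supp r, f p = ∑ j, ∑ p ∈ part r j, f p := by
  rw [supp_biUnion, Finset.sum_biUnion]
  intro j _ l _ h
  exact part_disj r j l h

theorem part_inj : Function.Injective (fun (r : P → Option J) => part r) := by
  intro r s h
  funext p
  rcases hr : r p with _ | j
  · rcases hs : s p with _ | l
    · rfl
    · exfalso
      have h1 : p ∈ part s l := by simp [part, hs]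
      have h2 : part r l = part s l := congrFun h l
      rw [← h2] at h1
      simp [part, hr] at h1
  · have h1 : p ∈ part r j := by simp [part, hr]
    have h2 : part r j = part s j := congrFun h j
    rw [h2] at h1
    simp only [part, mem_filter, mem_univ, true_and] at h1
    exact h1.symm

theorem sum_parts_le (F : J → Finset P → ℝ) (hF : ∀ j a, 0 ≤ F j a) :
    ∑ r : P → Option J, ∏ j, F j (part r j) ≤ ∏ j, ∑ a : Finset P, F j a := by
  rw [← sum_prod F]
  have h1 : ∑ r : P → Option J, ∏ j, F j (part r j) =
      ∑ x ∈ (univ : Finset (P → Option J)).image (fun r => part r), ∏ j, F j (x j) := by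
    rw [Finset.sum_image]
    intro r _ s _ h
    exact part_inj h
  rw [h1]
  apply Finset.sum_le_sum_of_subset_of_nonneg (Finset.subset_univ _)
  intro x _ _
  exact Finset.prod_nonneg fun j _ => hF j _

theorem mem_noc (i : J) (s : P → Option J) : s ∈ noc i ↔ part s i = ∅ := by
  simp only [noc, part, mem_filter, mem_univ, true_and, Finset.filter_eq_empty_iff, forall_const]

theorem sum_noc (i : J) (F : (P → Option J) → ℝ) :
    ∑ s ∈ noc i, F s = ∑ r : P → Option J, F r * (if part r i = ∅ then 1 else 0) := by
  have h : noc i = (univ : Finset (P → Option J)).filter (fun s => part s i = ∅) := by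
    ext s
    rw [mem_noc]
    simp
  rw [h, Finset.sum_filter]
  refine Finset.sum_congr rfl fun s _ => ?_
  by_cases h : part s i = ∅
  · simp [h]
  · simp [h]

theorem part_put (i j : J) (b : Finset P) (s : P → Option J) (hs : s ∈ noc i)
    (hb : Disjoint b (supp s)) : part (put i b s) j = if j = i then b else part s j := by
  have hs' : ∀ p, s p ≠ some i := by
    simpa [noc] using hs
  by_cases hji : j = i
  · subst hji
    rw [if_pos rfl]
    ext p
    simp only [part, put, mem_filter, mem_univ, true_and]
    by_cases hp : p ∈ b
    · simp [hp]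
    · simp [hp, hs' p]
  · rw [if_neg hji]
    ext p
    simp only [part, put, mem_filter, mem_univ, true_and]
    by_cases hp : p ∈ b
    · have h1 : s p = none := by
        by_contra h
        exact (Finset.disjoint_left.1 hb) hp (by simp [supp, h])
      simp [hp, h1, Ne.symm hji]
    · simp [hp]

theorem supp_put (i : J) (b : Finset P) (s : P → Option J) :
    supp (put i b s) = supp s ∪ b := by
  ext p
  simp only [supp, put, mem_filter, mem_univ, true_and, mem_union]
  by_cases hp : p ∈ b
  · simp [hp]
  · simp [hp]

theorem zz_eq (i : J) (q : P → ℝ) (y : (P → Option J) → ℝ) (s : P → Option J) (hs : s ∈ noc i) :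
    zz i q y s = ∑ b ∈ univ.filter (fun b : Finset P => Disjoint b (supp s)),
      y (put i b s) * ∏ p ∈ b, xx q p := by
  have hs' : ∀ p, s p ≠ some i := by
    simpa [noc] using hs
  unfold zz
  symm
  refine Finset.sum_bij (fun b _ => put i b s) ?_ ?_ ?_ ?_
  · intro b hb
    simp only [mem_filter, mem_univ, true_and] at hb ⊢
    funext p
    simp only [strip, put]
    by_cases hp : p ∈ b
    · have h1 : s p = none := by
        by_contra h
        exact (Finset.disjoint_left.1 hb) hp (by simp [supp, h])
      simp [hp, h1]
    · simp [hp, hs' p]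
  · intro b hb b' hb' h
    simp only [mem_filter, mem_univ, true_and] at hb hb'
    have h1 := part_put i i b s hs hb
    have h2 := part_put i i b' s hs hb'
    rw [if_pos rfl] at h1 h2
    rw [← h1, ← h2, h]
  · intro r hr
    simp only [mem_filter, mem_univ, true_and] at hr
    refine ⟨part r i, ?_, ?_⟩
    · simp only [mem_filter, mem_univ, true_and]
      rw [Finset.disjoint_left]
      intro p h1 h2
      simp only [part, supp, mem_filter, mem_univ, true_and] at h1 h2
      apply h2
      rw [← hr]
      simp [strip, h1]
    · funext p
      simp only [put, part, mem_filter, mem_univ, true_and]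
      by_cases hp : r p = some i
      · simp [hp]
      · rw [if_neg hp, ← hr]
        simp [strip, hp]
  · intro b hb
    simp only [mem_filter, mem_univ, true_and] at hb
    congr 1
    have h1 := part_put i i b s hs hb
    rw [if_pos rfl] at h1
    rw [← Finset.prod_filter]
    have h2 : (univ.filter fun p => put i b s p = some i) = b := h1
    rw [h2]

end Pool.DL
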