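import Pool.Agent.Lib.MP_c77da8_nt.DL.Strip
import Pool.Agent.Lib.MP_c77da8_nt.DL.Parts

/-!
# DL-Yj: the modified weight `yj`

`VV_ge`: the term `b = ∅` is `1`, the others are `≥ 0`.
`zz_yj`: for `s ∈ noc j`, `zz_eq`: `strip j (put j b s) = s` (as `b` is disjoint from `supp s` and `s ∈ noc j`),
`part (put j b s) j = b`, so `zz j q (yj ..) s = ∑_{b disjoint from supp s, nrm b ≤ R} zz j q y s / VV .. * x(b)
= zz j q y s`.
`Lam_yj`: `Lam_strip` for both weights and `zz_yj`.
`yj_bd`: `zz j q y s ≤ VV v q R (supp s)` for `s ∈ noc j` if `0 ≤ y ≤ 1` and `y r ≠ 0 → nrm (supp r) ≤ R`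
(`zz_eq`, `supp_put`: `nrm b ≤ nrm (supp (put j b s)) ≤ R`); `strip j r ∈ noc j` always.
`yj_supp`: `yj r ≠ 0` implies `nrm (part r j) ≤ R` and `zz j q y (strip j r) ≠ 0`, hence some `b` with
`nrm (supp (strip j r) ∪ b) ≤ R`, so `nrm (supp (strip j r)) ≤ R`; `supp r = supp (strip j r) ∪ part r j`, disjoint.
-/

set_option autoImplicit false

namespace Pool.DL

open Finset

variable {P J : Type} [Fintype P] [DecidableEq P] [Fintype J] [DecidableEq J]

private theorem yj_xx (q : P → ℝ) (hq : ∀ p, 12 ≤ q p) (p : P) : 0 ≤ xx q p := by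
  unfold xx
  have := hq p
  exact div_nonneg zero_le_one (by linarith)

private theorem yj_nrm (v : P → ℕ) (hv : ∀ p, 1 ≤ v p) {a b : Finset P} (h : a ⊆ b) :
    nrm v a ≤ nrm v b := by
  unfold nrm
  exact Finset.prod_le_prod_of_subset_of_one_le' h fun p _ _ => hv p

private theorem yj_strip_noc (j : J) (r : P → Option J) : strip j r ∈ noc j := by
  simp only [noc, mem_filter, mem_univ, true_and]
  intro p h
  unfold strip at h
  split_ifs at h with h1
  exact h1 h

private theorem yj_strip_put (j : J) (b : Finset P) (s : P → Option J) (hs : s ∈ noc j)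
    (hb : Disjoint b (supp s)) : strip j (put j b s) = s := by
  have hs' : ∀ p, s p ≠ some j := by
    simpa [noc] using hs
  funext p
  simp only [strip, put]
  by_cases hp : p ∈ b
  · have h1 : s p = none := by
      by_contra h
      exact (Finset.disjoint_left.1 hb) hp (by simp [supp, h])
    simp [hp, h1]
  · simp [hp, hs' p]

theorem VV_ge (v : P → ℕ) (q : P → ℝ) (hq : ∀ p, 12 ≤ q p) (R : ℕ) (hR : 1 ≤ R) (S : Finset P) :
    1 ≤ VV v q R S := by
  unfold VV
  have h1 : (∅ : Finset P) ∈ univ.filter (fun b : Finset P => Disjoint b S ∧ nrm v b ≤ R) := by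
    simp only [mem_filter, mem_univ, true_and]
    exact ⟨Finset.disjoint_empty_left _, by simpa [nrm] using hR⟩
  have h2 := Finset.single_le_sum (f := fun b : Finset P => ∏ p ∈ b, xx q p)
    (fun b _ => Finset.prod_nonneg fun p _ => yj_xx q hq p) h1
  simpa using h2

theorem zz_yj (j : J) (v : P → ℕ) (q : P → ℝ) (hq : ∀ p, 12 ≤ q p) (R : ℕ) (hR : 1 ≤ R)
    (y : (P → Option J) → ℝ) (s : P → Option J) (hs : s ∈ noc j) :
    zz j q (yj j v q R y) s = zz j q y s := by
  have hV : VV v q R (supp s) ≠ 0 := by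
    have := VV_ge v q hq R hR (supp s)
    linarith
  rw [zz_eq j q (yj j v q R y) s hs]
  have h1 : ∀ b ∈ univ.filter (fun b : Finset P => Disjoint b (supp s)),
      yj j v q R y (put j b s) * ∏ p ∈ b, xx q p =
      (zz j q y s / VV v q R (supp s)) * (if nrm v b ≤ R then ∏ p ∈ b, xx q p else 0) := by
    intro b hb
    simp only [mem_filter, mem_univ, true_and] at hb
    have e1 : part (put j b s) j = b := by
      rw [part_put j j b s hs hb, if_pos rfl]
    unfold yj
    rw [e1, yj_strip_put j b s hs hb]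
    by_cases h : nrm v b ≤ R
    · rw [if_pos h, if_pos h]
    · rw [if_neg h, if_neg h, zero_mul, mul_zero]
  rw [Finset.sum_congr rfl h1, ← Finset.mul_sum]
  have h2 : ∑ b ∈ univ.filter (fun b : Finset P => Disjoint b (supp s)),
      (if nrm v b ≤ R then ∏ p ∈ b, xx q p else 0) = VV v q R (supp s) := by
    unfold VV
    rw [← Finset.sum_filter, Finset.filter_filter]
  rw [h2, div_mul_cancel₀ _ hV]

theorem Lam_yj (j : J) (v : P → ℕ) (q : P → ℝ) (hq : ∀ p, 12 ≤ q p) (R : ℕ) (hR : 1 ≤ R)
    (y : (P → Option J) → ℝ) (ξ : P → Option J) (hξ : ∀ p, ξ p ≠ some j) :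
    Lam q (yj j v q R y) ξ = Lam q y ξ := by
  rw [Lam_strip j q _ ξ hξ, Lam_strip j q y ξ hξ]
  refine Finset.sum_congr rfl fun s hs => ?_
  rw [zz_yj j v q hq R hR y s hs]

theorem yj_bd (j : J) (v : P → ℕ) (hv : ∀ p, 1 ≤ v p) (q : P → ℝ) (hq : ∀ p, 12 ≤ q p) (R : ℕ)
    (hR : 1 ≤ R) (y : (P → Option J) → ℝ) (h0 : ∀ r, 0 ≤ y r) (h1 : ∀ r, y r ≤ 1)
    (hs : ∀ r, y r ≠ 0 → nrm v (supp r) ≤ R) (r : P → Option J) :
    0 ≤ yj j v q R y r ∧ yj j v q R y r ≤ 1 := by
  have hx : ∀ b : Finset P, 0 ≤ ∏ p ∈ b, xx q p := fun b =>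
    Finset.prod_nonneg fun p _ => yj_xx q hq p
  have hV := VV_ge v q hq R hR (supp (strip j r))
  have hn := yj_strip_noc j r
  have z0 : 0 ≤ zz j q y (strip j r) := by
    rw [zz_eq j q y _ hn]
    exact Finset.sum_nonneg fun b _ => mul_nonneg (h0 _) (hx b)
  have z1 : zz j q y (strip j r) ≤ VV v q R (supp (strip j r)) := by
    rw [zz_eq j q y _ hn]
    have h2 : ∀ b ∈ univ.filter (fun b : Finset P => Disjoint b (supp (strip j r))),
        y (put j b (strip j r)) * ∏ p ∈ b, xx q p ≤
        (if nrm v b ≤ R then ∏ p ∈ b, xx q p else 0) := by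
      intro b _
      by_cases h : y (put j b (strip j r)) = 0
      · rw [h, zero_mul]
        split_ifs
        · exact hx b
        · exact le_rfl
      · have h3 := hs _ h
        have h4 : nrm v b ≤ R := by
          refine le_trans (yj_nrm v hv ?_) h3
          rw [supp_put]
          exact Finset.subset_union_right
        rw [if_pos h4]
        calc y (put j b (strip j r)) * ∏ p ∈ b, xx q p ≤ 1 * ∏ p ∈ b, xx q p :=
              mul_le_mul_of_nonneg_right (h1 _) (hx b)
          _ = ∏ p ∈ b, xx q p := one_mul _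
    refine (Finset.sum_le_sum h2).trans (le_of_eq ?_)
    unfold VV
    rw [← Finset.sum_filter, Finset.filter_filter]
  unfold yj
  split_ifs
  · refine ⟨div_nonneg z0 (by linarith), ?_⟩
    rw [div_le_one (by linarith)]
    exact z1
  · exact ⟨le_rfl, zero_le_one⟩

theorem yj_supp (j : J) (v : P → ℕ) (hv : ∀ p, 1 ≤ v p) (q : P → ℝ) (R : ℕ)
    (y : (P → Option J) → ℝ) (hs : ∀ r, y r ≠ 0 → nrm v (supp r) ≤ R) (r : P → Option J)
    (h : yj j v q R y r ≠ 0) : nrm v (supp r) ≤ R ^ 2 := by
  have hn := yj_strip_noc j r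
  unfold yj at h
  split_ifs at h with h1
  · have hz : zz j q y (strip j r) ≠ 0 := by
      intro h2
      rw [h2, zero_div] at h
      exact h rfl
    rw [zz_eq j q y _ hn] at hz
    obtain ⟨b, _, hb⟩ := Finset.exists_ne_zero_of_sum_ne_zero hz
    have hy : y (put j b (strip j r)) ≠ 0 := fun h2 => hb (by rw [h2, zero_mul])
    have h3 : nrm v (supp (strip j r)) ≤ R := by
      refine le_trans (yj_nrm v hv ?_) (hs _ hy)
      rw [supp_put]
      exact Finset.subset_union_left
    have h4 : supp r = supp (strip j r) ∪ part r j := by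
      ext p
      simp only [supp, part, strip, mem_filter, mem_univ, true_and, mem_union]
      by_cases hp : r p = some j
      · simp [hp]
      · simp [hp]
    have h5 : Disjoint (supp (strip j r)) (part r j) := by
      rw [Finset.disjoint_left]
      intro p h6 h7
      simp only [supp, part, strip, mem_filter, mem_univ, true_and] at h6 h7
      simp [h7] at h6
    have h6 : nrm v (supp r) = nrm v (supp (strip j r)) * nrm v (part r j) := by
      rw [h4]
      unfold nrm
      rw [Finset.prod_union h5]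
    rw [h6, sq]
    exact Nat.mul_le_mul h3 h1
  · exact absurd rfl h

end Pool.DL
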