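import Mathlib

/-!
# DL-Defs: definitions (Maynard-Tao theorem for dilates, MP_c77da8_nt)

`P` is a finite set of primes (`q p` its value as a real number, `v p` as a natural number), `J` the
index set of the linear forms (`K` = number of forms).  A colouring `r : P → Option J` stands for a
vector of pairwise coprime squarefree numbers `r_j = ∏_{r p = some j} p`.
Paper: `/team-store/DL_paper.md`.
-/

set_option autoImplicit false

namespace Pool.DL

open Finset

noncomputable section

section Abstract

variable {P J : Type} [Fintype P] [DecidableEq P] [Fintype J] [DecidableEq J]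

/-- `x_p = 1/(p - 2)` -/
def xx (q : P → ℝ) (p : P) : ℝ := 1 / (q p - 2)

/-- product over the coloured primes -/
def cprod (f : P → ℝ) (r : P → Option J) : ℝ := ∏ p, if r p = none then 1 else f p

/-- the local function `v_j`: `1 - (p - 1) [ξ = j]` (`1` for the colour `none`) -/
def vl (t : ℝ) (a b : Option J) : ℝ := if a = none then 1 else if b = a then -(t - 2) else 1

/-- `Λ_y(ξ) = ∑_r y(r) x(r) v_r(ξ)` -/
def Lam (q : P → ℝ) (y : (P → Option J) → ℝ) (ξ : P → Option J) : ℝ :=
  ∑ r : P → Option J, y r * cprod (xx q) r * ∏ p, vl (q p) (r p) (ξ p)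

/-- the local measure of the integers: colour `j` has probability `1/p` -/
def muI (J : Type) [Fintype J] (t : ℝ) (b : Option J) : ℝ :=
  if b = none then 1 - (Fintype.card J : ℝ) / t else 1 / t

/-- the local measure of the primes (form number `i` is prime): colour `j ≠ i` has probability `1/(p-1)` -/
def muP (i : J) (t : ℝ) (b : Option J) : ℝ :=
  if b = none then 1 - ((Fintype.card J : ℝ) - 1) / (t - 1) else if b = some i then 0 else 1 / (t - 1)

/-- expectation for a product measure with local weights `μ p` -/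
def EE (μ : P → Option J → ℝ) (F : (P → Option J) → ℝ) : ℝ :=
  ∑ ξ : P → Option J, (∏ p, μ p (ξ p)) * F ξ

/-- expectation in the integer model -/
def EI (q : P → ℝ) (F : (P → Option J) → ℝ) : ℝ := EE (fun p => muI J (q p)) F

/-- expectation in the prime model of the form `i` -/
def EP (i : J) (q : P → ℝ) (F : (P → Option J) → ℝ) : ℝ := EE (fun p => muP i (q p)) F

/-- local second moments in the integer model -/
def eI (t : ℝ) (a b : Option J) : ℝ :=
  if a = none then (if b = none then 1 else 1 / t)
  else if b = none then 1 / t else if a = b then (t ^ 2 - 3 * t + 3) / t else (2 - t) / t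

/-- local second moments in the prime model (colours different from `i`) -/
def eP (t : ℝ) (a b : Option J) : ℝ :=
  if a = none then (if b = none then 1 else 0)
  else if b = none then 0 else if a = b then t - 2 else -1

/-- forget the colour `i` -/
def strip (i : J) (r : P → Option J) : P → Option J := fun p => if r p = some i then none else r p

/-- give the colour `i` to the elements of `b` -/
def put (i : J) (b : Finset P) (s : P → Option J) : P → Option J := fun p => if p ∈ b then some i else s p

/-- colourings without the colour `i` -/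
def noc (i : J) : Finset (P → Option J) := univ.filter fun s => ∀ p, s p ≠ some i

/-- `z_i(s) = ∑_{r, strip r = s} y(r) ∏_{r p = i} x_p` -/
def zz (i : J) (q : P → ℝ) (y : (P → Option J) → ℝ) (s : P → Option J) : ℝ :=
  ∑ r ∈ univ.filter (fun r : P → Option J => strip i r = s),
    y r * ∏ p, (if r p = some i then xx q p else 1)

/-- the primes of colour `j` -/
def part (r : P → Option J) (j : J) : Finset P := univ.filter fun p => r p = some j

/-- the coloured primes -/
def supp (r : P → Option J) : Finset P := univ.filter fun p => r p ≠ none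

/-- product of a set of primes -/
def nrm (v : P → ℕ) (a : Finset P) : ℕ := ∏ p ∈ a, v p

/-- `G` is antitone with values `≥ 0` -/
def Anti (G : Finset P → ℝ) : Prop := (∀ a, 0 ≤ G a) ∧ ∀ a b, a ⊆ b → G b ≤ G a

/-- `∑_a G(a) x(a)` over all sets of primes -/
def SS (x : P → ℝ) (G : Finset P → ℝ) : ℝ := ∑ a : Finset P, G a * ∏ p ∈ a, x p

/-- `∑_a G(a)^2 log(nrm a) x(a)` -/
def MM (v : P → ℕ) (x : P → ℝ) (G : Finset P → ℝ) : ℝ :=
  ∑ a : Finset P, G a ^ 2 * Real.log (nrm v a) * ∏ p ∈ a, x p

/-- the weight `y(r) = ∏_j G(r_j)` if `N(r) ≤ R`, otherwise `0` -/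
def yy (v : P → ℕ) (R : ℕ) (G : Finset P → ℝ) (r : P → Option J) : ℝ :=
  if nrm v (supp r) ≤ R then ∏ j, G (part r j) else 0

/-- `V(S) = ∑ x(b)` over the sets `b` disjoint from `S` of norm `≤ R` -/
def VV (v : P → ℕ) (q : P → ℝ) (R : ℕ) (S : Finset P) : ℝ :=
  ∑ b ∈ univ.filter (fun b : Finset P => Disjoint b S ∧ nrm v b ≤ R), ∏ p ∈ b, xx q p

/-- the modified weight for the pairs of forms -/
def yj (j : J) (v : P → ℕ) (q : P → ℝ) (R : ℕ) (y : (P → Option J) → ℝ) (r : P → Option J) : ℝ :=
  if nrm v (part r j) ≤ R then zz j q y (strip j r) / VV v q R (supp (strip j r)) else 0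

/-- `d ≤ ξ` -/
def le (d ξ : P → Option J) : Prop := ∀ p, d p = none ∨ d p = ξ p

instance (d ξ : P → Option J) : Decidable (le d ξ) := by unfold le; infer_instance

/-- `d` and `e` agree where both are coloured -/
def comp (d e : P → Option J) : Prop := ∀ p, d p = none ∨ e p = none ∨ d p = e p

instance (d e : P → Option J) : Decidable (comp d e) := by unfold comp; infer_instance

/-- the union of two compatible colourings -/
def join (d e : P → Option J) : P → Option J := fun p => if d p = none then e p else d p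

/-- the coefficients of `Λ_y(ξ) = ∑_{d ≤ ξ} λ(d)` -/
def lam (q : P → ℝ) (y : (P → Option J) → ℝ) (d : P → Option J) : ℝ :=
  cprod (fun p => -(q p - 1)) d * ∑ r ∈ univ.filter (fun r : P → Option J => le d r), y r * cprod (xx q) r

/-- the number of forms, as a real number -/
def KK (J : Type) [Fintype J] : ℝ := (Fintype.card J : ℝ)

end Abstract

/-! ### The arithmetic side -/

/-- the primes in `(D, R]` -/
def Ps (D R : ℕ) : Finset ℕ := (Icc 1 R).filter fun p => p.Prime ∧ D < p

/-- values of the primes -/
def qs (D R : ℕ) (p : {p // p ∈ Ps D R}) : ℝ := (p.1 : ℝ)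

/-- values of the primes -/
def vs (D R : ℕ) (p : {p // p ∈ Ps D R}) : ℕ := p.1

section Forms

variable {J : Type} [Fintype J] [DecidableEq J]

/-- The linear forms `A j * m + B j`: the primes dividing `A j` are exactly the primes `≤ D`; `A j` and `B j` are
coprime; no prime `> D` divides two of the forms at the same `m`. -/
structure Forms (D : ℕ) (A B : J → ℕ) : Prop where
  pos : ∀ j, 1 ≤ A j
  small : ∀ j p, p.Prime → (p ∣ A j ↔ p ≤ D)
  cop : ∀ j, Nat.Coprime (A j) (B j)
  det : ∀ i j, i ≠ j → ∀ p, p.Prime → D < p → ∀ m : ℕ, ¬ (p ∣ A i * m + B i ∧ p ∣ A j * m + B j)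

open Classical in
/-- the colouring of `m`: `p` has colour `j` if `p` divides the form `j` at `m` -/
def col (A B : J → ℕ) (D R m : ℕ) (p : {p // p ∈ Ps D R}) : Option J :=
  if h : ∃ j, p.1 ∣ A j * m + B j then some h.choose else none

end Forms

/-- `∏_{p ≤ D} (1 - 1/p)⁻¹` -/
def wD (D : ℕ) : ℝ := ∏ p ∈ (Icc 1 D).filter Nat.Prime, (1 - 1 / (p : ℝ))⁻¹

/-- number of primes `≤ y` -/
def pp (y : ℕ) : ℝ := (((Icc 1 y).filter (fun n => n.Prime)).card : ℝ)

/-- the step function `g(n) = ∑_{l ≤ ℓ} c_l [n ≤ u^(2^l)]`, `c_l = 2^(-l-1)` for `l < ℓ`, `c_ℓ = 2^(-ℓ)` -/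
def gg (ℓ u n : ℕ) : ℝ :=
  ∑ l ∈ range (ℓ + 1), (if l < ℓ then (1 / 2 : ℝ) ^ (l + 1) else (1 / 2 : ℝ) ^ ℓ) *
    (if n ≤ u ^ 2 ^ l then 1 else 0)

/-- `G(a) = g(nrm a)` -/
def GG {P : Type} (ℓ u : ℕ) (v : P → ℕ) (a : Finset P) : ℝ := gg ℓ u (nrm v a)

end

end Pool.DL
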