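import Pool.Agent.Lib.MP_c77da8_nt.DL.Defs

/-!
# DL-Sum: sums over functions, push-forward, elementary product inequalities

PROOF.
`sum_prod`: `Finset.prod_univ_sum` (with `Fintype.piFinset_univ`).
`push`: split the sum over `x` by the value `t` of `τ ∘ x` (`Finset.sum_fiberwise`); the `x` with `τ ∘ x = t` are
the elements of `Fintype.piFinset (fun p => univ.filter (τ · = t p))`, so `Finset.prod_univ_sum` gives the claim.
-/

set_option autoImplicit false

namespace Pool.DL

open Finset

variable {P : Type} [Fintype P] [DecidableEq P]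

theorem sum_prod {A : Type} [Fintype A] [DecidableEq A] (f : P → A → ℝ) :
    ∑ x : P → A, ∏ p, f p (x p) = ∏ p, ∑ a, f p a := by
  rw [Finset.prod_univ_sum, Fintype.piFinset_univ]

theorem push {A B : Type} [Fintype A] [DecidableEq A] [Fintype B] [DecidableEq B] (τ : A → B)
    (w : P → A → ℝ) (G : (P → B) → ℝ) :
    ∑ x : P → A, G (fun p => τ (x p)) * ∏ p, w p (x p) =
      ∑ t : P → B, G t * ∏ p, ∑ a ∈ univ.filter (fun a => τ a = t p), w p a := by
  rw [← Finset.sum_fiberwise (s := (univ : Finset (P → A))) (g := fun x => (fun p => τ (x p) : P → B))]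
  refine Finset.sum_congr rfl fun t _ => ?_
  rw [Finset.prod_univ_sum, Finset.mul_sum]
  have h : (univ : Finset (P → A)).filter (fun x => (fun p => τ (x p) : P → B) = t) =
      Fintype.piFinset (fun p => univ.filter (fun a => τ a = t p)) := by
    ext x
    simp only [mem_filter, mem_univ, true_and, Fintype.mem_piFinset, funext_iff]
  rw [h]
  refine Finset.sum_congr rfl fun x hx => ?_
  have h2 : (fun p => τ (x p) : P → B) = t := by
    funext p
    have := (Fintype.mem_piFinset.1 hx) p
    simpa using this
  rw [h2]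

theorem sum_pair {A B : Type} [Fintype A] [DecidableEq A] [Fintype B] [DecidableEq B]
    (F : (P → A) → (P → B) → ℝ) :
    ∑ x : P → A, ∑ y : P → B, F x y =
      ∑ z : P → A × B, F (fun p => (z p).1) (fun p => (z p).2) := by
  rw [← Fintype.sum_prod_type']
  refine Fintype.sum_equiv (Equiv.arrowProdEquivProdArrow P (fun _ => A) (fun _ => B)).symm _ _ fun z => ?_
  rfl

theorem weier {ι : Type} (s : Finset ι) (a : ι → ℝ) (h0 : ∀ i ∈ s, 0 ≤ a i) (h1 : ∀ i ∈ s, a i ≤ 1) :
    1 - ∑ i ∈ s, a i ≤ ∏ i ∈ s, (1 - a i) := by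
  classical
  induction s using Finset.induction_on with
  | empty => simp
  | insert i s hi ih =>
    rw [Finset.sum_insert hi, Finset.prod_insert hi]
    have h2 := ih (fun j hj => h0 j (mem_insert_of_mem hj)) (fun j hj => h1 j (mem_insert_of_mem hj))
    have h3 : ∏ j ∈ s, (1 - a j) ≤ 1 := by
      apply Finset.prod_le_one
      · intro j hj
        have := h1 j (mem_insert_of_mem hj)
        linarith
      · intro j hj
        have := h0 j (mem_insert_of_mem hj)
        linarith
    have h4 := h0 i (mem_insert_self _ _)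
    nlinarith

theorem prod_exp {ι : Type} (s : Finset ι) (a : ι → ℝ) (h0 : ∀ i ∈ s, 0 ≤ a i) :
    ∏ i ∈ s, (1 + a i) ≤ Real.exp (∑ i ∈ s, a i) := by
  rw [Real.exp_sum]
  apply Finset.prod_le_prod
  · intro i hi
    have := h0 i hi
    linarith
  · intro i _
    have := Real.add_one_le_exp (a i)
    linarith

end Pool.DL
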