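import Pool.Agent.Lib.MP_c77da8_nt.DL.Defs

/-!
# DL-GW: the step weight

Notation `x_l = u^(2^l)`, `L = log u`.  For `n ≥ 1`: if `l ≤ ℓ` is the least index with `n ≤ x_l`, then
`gg ℓ u n = 2^(-l)` (the tail sum of the `c_l`), and `gg ℓ u n = 0` if `n > x_ℓ`.

PROOF.  (1) antitone: each term is.  (2) `∑ c_l = 1`.  (3) clear.
(4) `P2 ≥ V(x_0)`, as `gg = 1` for `n ≤ u`.
(5) `G² ≤ ∑_{l ≤ ℓ} 4^(-l) [nrm a ≤ x_l]`, so `P2 ≤ ∑ 4^(-l) V(x_l) ≤ ∑ 2^(-l) CV L/w ≤ 2 CV L/w`.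
(6) `P1 = ∑_l c_l V(x_l) ≥ ∑_{l<ℓ} 2^(-l-1) 2^l L/w = ℓ L/(2w)`.
(7) `G(a)² log nrm a ≤ ∑_{l ≤ ℓ} 4^(-l) 2^l L [nrm a ≤ x_l]` (the least `l` with `nrm a ≤ x_l` gives the bound), so
`M ≤ ∑ 2^(-l) L CV 2^l L/w = (ℓ+1) CV L²/w`.
Here `V(x_l) = VV v q (x_l) ∅ = ∑_a [nrm a ≤ x_l] ∏_{p ∈ a} x_p`.
-/

set_option autoImplicit false

namespace Pool.DL

open Finset

private lemma tail_aux (l0 : ℕ) : ∀ ℓ, l0 ≤ ℓ →
    ∑ l ∈ range ℓ, (1 / 2 : ℝ) ^ (l + 1) * (if l0 ≤ l then 1 else 0) =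
      (1 / 2 : ℝ) ^ l0 - (1 / 2 : ℝ) ^ ℓ := by
  intro ℓ hℓ
  induction ℓ, hℓ using Nat.le_induction with
  | base =>
    rw [sub_self]
    refine Finset.sum_eq_zero fun l hl => ?_
    rw [if_neg (by have := Finset.mem_range.1 hl; omega), mul_zero]
  | succ m hm ih =>
    rw [Finset.sum_range_succ, ih, if_pos hm, pow_succ]
    ring

private lemma tail_sum (l0 ℓ : ℕ) (h : l0 ≤ ℓ) :
    ∑ l ∈ range (ℓ + 1), (if l < ℓ then (1 / 2 : ℝ) ^ (l + 1) else (1 / 2 : ℝ) ^ ℓ) *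
      (if l0 ≤ l then 1 else 0) = (1 / 2 : ℝ) ^ l0 := by
  rw [Finset.sum_range_succ, if_neg (lt_irrefl ℓ), if_pos h]
  rw [Finset.sum_congr rfl (g := fun l => (1 / 2 : ℝ) ^ (l + 1) * (if l0 ≤ l then 1 else 0))
    (fun l hl => by rw [if_pos (Finset.mem_range.1 hl)]), tail_aux l0 ℓ h]
  ring

private lemma c_nonneg (ℓ l : ℕ) : 0 ≤ (if l < ℓ then (1 / 2 : ℝ) ^ (l + 1) else (1 / 2 : ℝ) ^ ℓ) := by
  split_ifs <;> positivity

private lemma xl_mono (u : ℕ) (hu : 2 ≤ u) {l m : ℕ} (h : l ≤ m) : u ^ 2 ^ l ≤ u ^ 2 ^ m :=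
  Nat.pow_le_pow_right (by omega) (Nat.pow_le_pow_right (by norm_num) h)

private lemma gg_eq (ℓ u n l0 : ℕ) (hu : 2 ≤ u) (h0 : l0 ≤ ℓ) (h1 : n ≤ u ^ 2 ^ l0)
    (h2 : ∀ l < l0, ¬ n ≤ u ^ 2 ^ l) : gg ℓ u n = (1 / 2 : ℝ) ^ l0 := by
  rw [gg, ← tail_sum l0 ℓ h0]
  refine Finset.sum_congr rfl fun l _ => ?_
  congr 1
  by_cases h : l0 ≤ l
  · rw [if_pos h, if_pos (h1.trans (xl_mono u hu h))]
  · rw [if_neg h, if_neg (h2 l (by omega))]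

private lemma gg_zero (ℓ u n : ℕ) (hu : 2 ≤ u) (h : u ^ 2 ^ ℓ < n) : gg ℓ u n = 0 := by
  rw [gg]
  refine Finset.sum_eq_zero fun l hl => ?_
  have h1 := xl_mono u hu (Nat.lt_succ_iff.1 (Finset.mem_range.1 hl))
  have h2 : ¬ n ≤ u ^ 2 ^ l := by omega
  rw [if_neg h2, mul_zero]

private lemma gg_nonneg (ℓ u n : ℕ) : 0 ≤ gg ℓ u n := by
  rw [gg]
  refine Finset.sum_nonneg fun l _ => mul_nonneg (c_nonneg ℓ l) ?_
  split_ifs <;> norm_num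

private lemma gg_anti (ℓ u m n : ℕ) (h : m ≤ n) : gg ℓ u n ≤ gg ℓ u m := by
  rw [gg, gg]
  refine Finset.sum_le_sum fun l _ => mul_le_mul_of_nonneg_left ?_ (c_nonneg ℓ l)
  by_cases h1 : n ≤ u ^ 2 ^ l
  · rw [if_pos h1, if_pos (h.trans h1)]
  · rw [if_neg h1]
    split_ifs <;> norm_num

private lemma least (ℓ u n : ℕ) (h : n ≤ u ^ 2 ^ ℓ) :
    ∃ l0 ≤ ℓ, n ≤ u ^ 2 ^ l0 ∧ ∀ l < l0, ¬ n ≤ u ^ 2 ^ l := by
  classical
  have hex : ∃ l, n ≤ u ^ 2 ^ l := ⟨ℓ, h⟩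
  exact ⟨Nat.find hex, Nat.find_min' hex h, Nat.find_spec hex, fun l hl => Nat.find_min hex hl⟩

private lemma gg_le_one (ℓ u n : ℕ) (hu : 2 ≤ u) : gg ℓ u n ≤ 1 := by
  by_cases h : n ≤ u ^ 2 ^ ℓ
  · obtain ⟨l0, h0, h1, h2⟩ := least ℓ u n h
    rw [gg_eq ℓ u n l0 hu h0 h1 h2]
    exact pow_le_one₀ (by norm_num) (by norm_num)
  · rw [gg_zero ℓ u n hu (by omega)]
    norm_num

theorem GG_basic {P : Type} [Fintype P] [DecidableEq P] (v : P → ℕ) (hv : ∀ p, 1 ≤ v p)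
    (ℓ u : ℕ) (hu : 2 ≤ u) :
    Anti (GG ℓ u v) ∧ (∀ a, GG ℓ u v a ≤ 1) ∧ (∀ a, u ^ 2 ^ ℓ < nrm v a → GG ℓ u v a = 0) := by
  refine ⟨⟨fun a => gg_nonneg _ _ _, fun a b hab => gg_anti _ _ _ _ ?_⟩,
    fun a => gg_le_one _ _ _ hu, fun a ha => gg_zero _ _ _ hu ha⟩
  exact Finset.prod_le_prod_of_subset_of_one_le' hab (fun p _ _ => hv p)

private lemma VV_eq {P : Type} [Fintype P] [DecidableEq P] (v : P → ℕ) (q : P → ℝ) (R : ℕ) :
    VV v q R ∅ = ∑ a : Finset P, (if nrm v a ≤ R then 1 else 0) * ∏ p ∈ a, xx q p := by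
  rw [VV, Finset.sum_filter]
  refine Finset.sum_congr rfl fun a _ => ?_
  by_cases h : nrm v a ≤ R
  · rw [if_pos ⟨Finset.disjoint_empty_right a, h⟩, if_pos h, one_mul]
  · rw [if_neg (fun h' => h h'.2), if_neg h, zero_mul]

private lemma sum_VV {P : Type} [Fintype P] [DecidableEq P] (v : P → ℕ) (q : P → ℝ) (ℓ u : ℕ)
    (d : ℕ → ℝ) :
    ∑ a : Finset P, (∑ l ∈ range (ℓ + 1), d l * (if nrm v a ≤ u ^ 2 ^ l then 1 else 0)) *
      ∏ p ∈ a, xx q p = ∑ l ∈ range (ℓ + 1), d l * VV v q (u ^ 2 ^ l) ∅ := by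
  simp only [Finset.sum_mul, VV_eq, Finset.mul_sum]
  rw [Finset.sum_comm]
  refine Finset.sum_congr rfl fun l _ => Finset.sum_congr rfl fun a _ => ?_
  ring

private lemma X_nonneg {P : Type} [Fintype P] [DecidableEq P] (q : P → ℝ) (hq : ∀ p, 12 ≤ q p)
    (a : Finset P) : 0 ≤ ∏ p ∈ a, xx q p := by
  refine Finset.prod_nonneg fun p _ => ?_
  rw [xx]
  have := hq p
  apply div_nonneg zero_le_one
  linarith

private lemma upper {P : Type} [Fintype P] [DecidableEq P] (v : P → ℕ) (q : P → ℝ)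
    (hq : ∀ p, 12 ≤ q p) (ℓ u : ℕ) (d : ℕ → ℝ) (F : Finset P → ℝ)
    (hF : ∀ a, F a ≤ ∑ l ∈ range (ℓ + 1), d l * (if nrm v a ≤ u ^ 2 ^ l then 1 else 0)) :
    ∑ a : Finset P, F a * ∏ p ∈ a, xx q p ≤ ∑ l ∈ range (ℓ + 1), d l * VV v q (u ^ 2 ^ l) ∅ := by
  rw [← sum_VV]
  exact Finset.sum_le_sum fun a _ => mul_le_mul_of_nonneg_right (hF a) (X_nonneg q hq a)

private lemma step_bd (ℓ u n : ℕ) (hu : 2 ≤ u) (d : ℕ → ℝ) (hd : ∀ l, 0 ≤ d l) (E : ℝ)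
    (h0 : u ^ 2 ^ ℓ < n → E ≤ 0) (h1 : ∀ l0 ≤ ℓ, n ≤ u ^ 2 ^ l0 → gg ℓ u n = (1 / 2 : ℝ) ^ l0 → E ≤ d l0) :
    E ≤ ∑ l ∈ range (ℓ + 1), d l * (if n ≤ u ^ 2 ^ l then 1 else 0) := by
  have hnn : ∀ l ∈ range (ℓ + 1), 0 ≤ d l * (if n ≤ u ^ 2 ^ l then (1 : ℝ) else 0) := by
    intro l _
    refine mul_nonneg (hd l) ?_
    split_ifs <;> norm_num
  by_cases h : n ≤ u ^ 2 ^ ℓ
  · obtain ⟨l0, h0', h1', h2'⟩ := least ℓ u n h
    have h3 := Finset.single_le_sum hnn (Finset.mem_range.2 (Nat.lt_succ_of_le h0'))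
    rw [if_pos h1', mul_one] at h3
    exact (h1 l0 h0' h1' (gg_eq ℓ u n l0 hu h0' h1' h2')).trans h3
  · exact (h0 (by omega)).trans (Finset.sum_nonneg hnn)

private lemma geom_two (ℓ : ℕ) : ∑ l ∈ range (ℓ + 1), (1 / 2 : ℝ) ^ l ≤ 2 := by
  have h : ∀ n : ℕ, ∑ l ∈ range n, (1 / 2 : ℝ) ^ l = 2 - 2 * (1 / 2 : ℝ) ^ n := by
    intro n
    induction n with
    | zero => norm_num
    | succ n ih => rw [Finset.sum_range_succ, ih, pow_succ]; ring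
  rw [h]
  have : (0 : ℝ) ≤ (1 / 2 : ℝ) ^ (ℓ + 1) := by positivity
  linarith

private lemma quarter (l : ℕ) : (1 / 4 : ℝ) ^ l * 2 ^ l = (1 / 2 : ℝ) ^ l := by
  rw [← mul_pow]; norm_num

private lemma half_sq (l : ℕ) : ((1 / 2 : ℝ) ^ l) ^ 2 = (1 / 4 : ℝ) ^ l := by
  rw [← pow_mul, mul_comm l 2, pow_mul]; norm_num

theorem GG_sums {P : Type} [Fintype P] [DecidableEq P] (v : P → ℕ) (hv : ∀ p, 1 ≤ v p)
    (q : P → ℝ) (hq : ∀ p, 12 ≤ q p) (ℓ u CV : ℕ) (hu : 2 ≤ u) (w : ℝ) (hw : 0 < w)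
    (hV1 : ∀ l ≤ ℓ, 2 ^ l * Real.log u / w ≤ VV v q (u ^ 2 ^ l) ∅)
    (hV2 : ∀ l ≤ ℓ, VV v q (u ^ 2 ^ l) ∅ ≤ CV * (2 ^ l * Real.log u) / w) :
    Real.log u / w ≤ SS (xx q) (fun a => GG ℓ u v a ^ 2) ∧
    SS (xx q) (fun a => GG ℓ u v a ^ 2) ≤ 2 * CV * Real.log u / w ∧
    ℓ * Real.log u / (2 * w) ≤ SS (xx q) (GG ℓ u v) ∧
    MM v (xx q) (GG ℓ u v) ≤ (ℓ + 1) * CV * Real.log u ^ 2 / w := by
  have hL : 0 ≤ Real.log u := Real.log_natCast_nonneg u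
  have hn1 : ∀ a : Finset P, 1 ≤ nrm v a := fun a => Finset.one_le_prod' (fun p _ => hv p)
  refine ⟨?_, ?_, ?_, ?_⟩
  · -- lower bound for P2
    have h0 := hV1 0 (Nat.zero_le _)
    rw [pow_zero, one_mul] at h0
    refine h0.trans ?_
    rw [VV_eq, SS]
    refine Finset.sum_le_sum fun a _ => mul_le_mul_of_nonneg_right ?_ (X_nonneg q hq a)
    by_cases h : nrm v a ≤ u ^ 2 ^ 0
    · rw [if_pos h, GG, gg_eq ℓ u _ 0 hu (Nat.zero_le _) (by simpa using h) (by omega)]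
      norm_num
    · rw [if_neg (by simpa using h)]
      positivity
  · -- upper bound for P2
    rw [SS]
    refine (upper v q hq ℓ u (fun l => (1 / 4 : ℝ) ^ l) (fun a => GG ℓ u v a ^ 2) ?_).trans ?_
    · intro a
      refine step_bd ℓ u (nrm v a) hu _ (fun l => by positivity) _ ?_ ?_
      · intro h
        rw [GG, gg_zero ℓ u _ hu h]
        norm_num
      · intro l0 _ _ hg
        rw [GG, hg, half_sq]
    · calc ∑ l ∈ range (ℓ + 1), (1 / 4 : ℝ) ^ l * VV v q (u ^ 2 ^ l) ∅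
          ≤ ∑ l ∈ range (ℓ + 1), (1 / 2 : ℝ) ^ l * (CV * Real.log u / w) := by
            refine Finset.sum_le_sum fun l hl => ?_
            have h1 := hV2 l (Nat.lt_succ_iff.1 (Finset.mem_range.1 hl))
            have h2 := mul_le_mul_of_nonneg_left h1 (show (0 : ℝ) ≤ (1 / 4 : ℝ) ^ l by positivity)
            refine h2.trans (le_of_eq ?_)
            rw [← quarter l]
            ring
        _ = (∑ l ∈ range (ℓ + 1), (1 / 2 : ℝ) ^ l) * (CV * Real.log u / w) := by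
            rw [Finset.sum_mul]
        _ ≤ 2 * (CV * Real.log u / w) :=
            mul_le_mul_of_nonneg_right (geom_two ℓ) (by positivity)
        _ = 2 * CV * Real.log u / w := by ring
  · -- lower bound for P1
    have h1 : SS (xx q) (GG ℓ u v) = ∑ l ∈ range (ℓ + 1),
        (if l < ℓ then (1 / 2 : ℝ) ^ (l + 1) else (1 / 2 : ℝ) ^ ℓ) * VV v q (u ^ 2 ^ l) ∅ := by
      rw [← sum_VV, SS]
      rfl
    rw [h1, Finset.sum_range_succ]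
    have hVn : ∀ l ≤ ℓ, 0 ≤ VV v q (u ^ 2 ^ l) ∅ := fun l hl =>
      le_trans (by positivity) (hV1 l hl)
    have h2 : 0 ≤ (if ℓ < ℓ then (1 / 2 : ℝ) ^ (ℓ + 1) else (1 / 2 : ℝ) ^ ℓ) *
        VV v q (u ^ 2 ^ ℓ) ∅ := mul_nonneg (c_nonneg ℓ ℓ) (hVn ℓ le_rfl)
    have h3 : ∑ l ∈ range ℓ, (Real.log u / (2 * w)) ≤ ∑ l ∈ range ℓ,
        (if l < ℓ then (1 / 2 : ℝ) ^ (l + 1) else (1 / 2 : ℝ) ^ ℓ) * VV v q (u ^ 2 ^ l) ∅ := by
      refine Finset.sum_le_sum fun l hl => ?_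
      have hl' := Finset.mem_range.1 hl
      rw [if_pos hl']
      have h4 := mul_le_mul_of_nonneg_left (hV1 l hl'.le)
        (show (0 : ℝ) ≤ (1 / 2 : ℝ) ^ (l + 1) by positivity)
      refine le_trans (le_of_eq ?_) h4
      have h5 : (1 / 2 : ℝ) ^ (l + 1) * 2 ^ l = 1 / 2 := by
        rw [pow_succ, mul_right_comm, ← mul_pow]; norm_num
      calc Real.log u / (2 * w) = (1 / 2) * (Real.log u / w) := by ring
        _ = ((1 / 2 : ℝ) ^ (l + 1) * 2 ^ l) * (Real.log u / w) := by rw [h5]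
        _ = (1 / 2 : ℝ) ^ (l + 1) * (2 ^ l * Real.log u / w) := by ring
    rw [Finset.sum_const, Finset.card_range, nsmul_eq_mul] at h3
    calc (ℓ : ℝ) * Real.log u / (2 * w) = ℓ * (Real.log u / (2 * w)) := by ring
      _ ≤ _ := by linarith
  · -- upper bound for M
    rw [MM]
    refine (upper v q hq ℓ u (fun l => (1 / 2 : ℝ) ^ l * Real.log u)
      (fun a => GG ℓ u v a ^ 2 * Real.log (nrm v a)) ?_).trans ?_
    · intro a
      refine step_bd ℓ u (nrm v a) hu _ (fun l => by positivity) _ ?_ ?_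
      · intro h
        show GG ℓ u v a ^ 2 * Real.log (nrm v a) ≤ 0
        rw [GG, gg_zero ℓ u _ hu h]
        norm_num
      · intro l0 _ hn hg
        show GG ℓ u v a ^ 2 * Real.log (nrm v a) ≤ (1 / 2 : ℝ) ^ l0 * Real.log u
        rw [GG, hg, half_sq]
        have h1 : Real.log (nrm v a) ≤ 2 ^ l0 * Real.log u := by
          have h2 : ((nrm v a : ℕ) : ℝ) ≤ (u : ℝ) ^ (2 ^ l0) := by exact_mod_cast hn
          have h3 : (0 : ℝ) < (nrm v a : ℕ) := by exact_mod_cast hn1 a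
          have h4 := Real.log_le_log h3 h2
          rw [Real.log_pow] at h4
          push_cast at h4
          exact h4
        calc (1 / 4 : ℝ) ^ l0 * Real.log (nrm v a)
            ≤ (1 / 4 : ℝ) ^ l0 * (2 ^ l0 * Real.log u) :=
              mul_le_mul_of_nonneg_left h1 (by positivity)
          _ = (1 / 2 : ℝ) ^ l0 * Real.log u := by rw [← quarter l0]; ring
    · calc ∑ l ∈ range (ℓ + 1), (1 / 2 : ℝ) ^ l * Real.log u * VV v q (u ^ 2 ^ l) ∅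
          ≤ ∑ l ∈ range (ℓ + 1), (CV * Real.log u ^ 2 / w) := by
            refine Finset.sum_le_sum fun l hl => ?_
            have h1 := hV2 l (Nat.lt_succ_iff.1 (Finset.mem_range.1 hl))
            have h2 := mul_le_mul_of_nonneg_left h1
              (show (0 : ℝ) ≤ (1 / 2 : ℝ) ^ l * Real.log u by positivity)
            refine h2.trans (le_of_eq ?_)
            have h5 : (1 / 2 : ℝ) ^ l * 2 ^ l = 1 := by rw [← mul_pow]; norm_num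
            calc (1 / 2 : ℝ) ^ l * Real.log u * (CV * (2 ^ l * Real.log u) / w)
                = ((1 / 2 : ℝ) ^ l * 2 ^ l) * (CV * Real.log u ^ 2 / w) := by ring
              _ = CV * Real.log u ^ 2 / w := by rw [h5, one_mul]
        _ = (ℓ + 1) * CV * Real.log u ^ 2 / w := by
            rw [Finset.sum_const, Finset.card_range, nsmul_eq_mul]
            push_cast
            ring

end Pool.DL
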