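import Pool.Agent.Lib.MP_c77da8_nt.DL.Parts

/-!
# DL-LamBd: bounds for the coefficients `lam`

Notation: `K = KK J`, `Z = ∏_p (1 + K x_p)`.

PROOF.  `lam_bd`: if some `r ≥ d` has `y r ≠ 0`, then `nrm (supp d) ≤ nrm (supp r) ≤ R`; so `lam = 0` if
`nrm (supp d) > R`.  In general `|lam d| ≤ ∏_{supp d} (q - 1) * ∑_{r ≥ d} cprod x r`, and the sum over `r ≥ d` is
`cprod x d * ∑_{r' on the complement of supp d} ≤ cprod x d * ∏_p (1 + K x_p)` (`sum_prod` with the local sums
`∑_{b} [d p = none ∨ d p = b] x(b)`, which is `x_p` if `d p ≠ none` and `1 + K x_p` otherwise);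
`(q - 1) x = (q-1)/(q-2) ≤ 2`.
`sum_lam` (Rankin): `∑_d |lam d| ≤ Z ∑_{nrm (supp d) ≤ R} 2^{#supp d} ≤ Z R ∑_d ∏_{supp d} (2/q_p)
= Z R ∏ (1 + 2K/q_p) ≤ R Z³` (`1/q ≤ x`, `1 + 2Kx ≤ (1 + Kx)²`).
-/

set_option autoImplicit false

namespace Pool.DL

open Finset

variable {P J : Type} [Fintype P] [DecidableEq P] [Fintype J] [DecidableEq J]

theorem lb_nrm_mono (v : P → ℕ) (hv : ∀ p, 1 ≤ v p) (a b : Finset P) (h : a ⊆ b) : nrm v a ≤ nrm v b := by
  unfold nrm
  apply Finset.prod_le_prod_of_subset_of_one_le' h
  intro i _ _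
  exact hv i

theorem lb_xx_pos (q : P → ℝ) (hq : ∀ p, 12 ≤ q p) (p : P) : 0 < xx q p := by
  unfold xx
  have := hq p
  apply one_div_pos.2
  linarith

theorem lb_KK_nonneg : 0 ≤ KK J := by
  unfold KK
  positivity

theorem lb_one_le_fac (q : P → ℝ) (hq : ∀ p, 12 ≤ q p) (p : P) : 1 ≤ 1 + KK J * xx q p := by
  have h1 := (lb_xx_pos q hq p).le
  have h2 : 0 ≤ KK J := lb_KK_nonneg
  have := mul_nonneg h2 h1
  linarith

theorem lb_loc_sum (x : ℝ) (a : Option J) :
    ∑ b : Option J, (if a = none ∨ a = b then (if b = none then 1 else x) else 0) =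
      if a = none then 1 + KK J * x else x := by
  rw [Fintype.sum_option]
  rcases a with _ | j
  · simp [KK]
  · simp

theorem lb_pow_supp (c : ℝ) (d : P → Option J) :
    c ^ (supp d).card = ∏ p, if d p = none then 1 else c := by
  have h := cprod_supp (fun _ : P => c) d
  unfold cprod at h
  rw [h, Finset.prod_const]

theorem lb_sum_ge (q : P → ℝ) (d : P → Option J) :
    ∑ r ∈ univ.filter (fun r : P → Option J => le d r), cprod (xx q) r =
      ∏ p, if d p = none then 1 + KK J * xx q p else xx q p := by
  have h1 : ∀ r : P → Option J, (if le d r then cprod (xx q) r else 0) =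
      ∏ p, (if d p = none ∨ d p = r p then (if r p = none then 1 else xx q p) else 0) := by
    intro r
    by_cases h : le d r
    · rw [if_pos h]
      unfold cprod
      refine Finset.prod_congr rfl fun p _ => ?_
      rw [if_pos (h p)]
    · rw [if_neg h]
      symm
      have h2 : ∃ p, ¬ (d p = none ∨ d p = r p) := by
        by_contra h3
        apply h
        intro p
        by_contra h4
        exact h3 ⟨p, h4⟩
      obtain ⟨p, hp⟩ := h2
      exact Finset.prod_eq_zero (mem_univ p) (if_neg hp)
  rw [Finset.sum_filter]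
  rw [Finset.sum_congr rfl fun r _ => h1 r]
  rw [sum_prod (fun p b => if d p = none ∨ d p = b then (if b = none then 1 else xx q p) else 0)]
  refine Finset.prod_congr rfl fun p _ => ?_
  exact lb_loc_sum (xx q p) (d p)

theorem lb_supp_sub (d r : P → Option J) (h : le d r) : supp d ⊆ supp r := by
  intro p hp
  simp only [supp, mem_filter, mem_univ, true_and] at hp ⊢
  rcases h p with h1 | h1
  · exact absurd h1 hp
  · rw [← h1]
    exact hp

theorem lam_bd (q : P → ℝ) (v : P → ℕ) (hq : ∀ p, 12 ≤ q p) (hv : ∀ p, 1 ≤ v p) (R : ℕ)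
    (y : (P → Option J) → ℝ) (hy : ∀ r, |y r| ≤ 1) (hs : ∀ r, y r ≠ 0 → nrm v (supp r) ≤ R)
    (d : P → Option J) :
    |lam q y d| ≤ if nrm v (supp d) ≤ R then 2 ^ (supp d).card * ∏ p, (1 + KK J * xx q p) else 0 := by
  by_cases hR : nrm v (supp d) ≤ R
  · rw [if_pos hR]
    unfold lam
    rw [abs_mul]
    have h1 : |cprod (fun p => -(q p - 1)) d| = ∏ p, (if d p = none then 1 else (q p - 1)) := by
      unfold cprod
      rw [Finset.abs_prod]
      refine Finset.prod_congr rfl fun p _ => ?_
      by_cases h : d p = none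
      · simp [h]
      · rw [if_neg h, if_neg h, abs_neg, abs_of_nonneg]
        have := hq p
        linarith
    have h2 : |∑ r ∈ univ.filter (fun r : P → Option J => le d r), y r * cprod (xx q) r| ≤
        ∏ p, if d p = none then 1 + KK J * xx q p else xx q p := by
      rw [← lb_sum_ge q d]
      refine (Finset.abs_sum_le_sum_abs _ _).trans (Finset.sum_le_sum fun r _ => ?_)
      have h3 : 0 ≤ cprod (xx q) r := by
        unfold cprod
        apply Finset.prod_nonneg
        intro p _
        have := (lb_xx_pos q hq p).le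
        split_ifs <;> linarith
      rw [abs_mul, abs_of_nonneg h3]
      have := mul_le_mul_of_nonneg_right (hy r) h3
      linarith
    have h5 : 0 ≤ ∏ p, (if d p = none then (1 : ℝ) else (q p - 1)) := by
      apply Finset.prod_nonneg
      intro p _
      have := hq p
      split_ifs <;> linarith
    rw [h1]
    refine (mul_le_mul_of_nonneg_left h2 h5).trans ?_
    rw [lb_pow_supp, ← Finset.prod_mul_distrib, ← Finset.prod_mul_distrib]
    apply Finset.prod_le_prod
    · intro p _
      have h6 := hq p
      have h7 := (lb_xx_pos q hq p).le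
      have h8 := lb_one_le_fac (J := J) q hq p
      split_ifs
      · linarith
      · exact mul_nonneg (by linarith) h7
    · intro p _
      have h6 := hq p
      have h8 := lb_one_le_fac (J := J) q hq p
      split_ifs
      · exact le_rfl
      · have h9 : (q p - 1) * xx q p ≤ 2 := by
          unfold xx
          rw [mul_one_div, div_le_iff₀ (by linarith)]
          linarith
        linarith
  · rw [if_neg hR]
    have h1 : lam q y d = 0 := by
      unfold lam
      rw [Finset.sum_eq_zero, mul_zero]
      intro r hr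
      simp only [mem_filter, mem_univ, true_and] at hr
      have h2 : y r = 0 := by
        by_contra h3
        exact hR ((lb_nrm_mono v hv _ _ (lb_supp_sub d r hr)).trans (hs r h3))
      rw [h2, zero_mul]
    rw [h1, abs_zero]

theorem sum_lam (q : P → ℝ) (v : P → ℕ) (hq : ∀ p, 12 ≤ q p) (hqv : ∀ p, q p = v p) (R : ℕ)
    (y : (P → Option J) → ℝ) (hy : ∀ r, |y r| ≤ 1) (hs : ∀ r, y r ≠ 0 → nrm v (supp r) ≤ R) :
    ∑ d, |lam q y d| ≤ R * (∏ p, (1 + KK J * xx q p)) ^ 3 := by
  have hv : ∀ p, 1 ≤ v p := by
    intro p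
    have h1 := hq p
    rw [hqv p] at h1
    have h2 : (1 : ℝ) ≤ v p := by linarith
    exact_mod_cast h2
  set Z : ℝ := ∏ p, (1 + KK J * xx q p) with hZ
  have hZ0 : 0 ≤ Z := by
    apply Finset.prod_nonneg
    intro p _
    have := lb_one_le_fac (J := J) q hq p
    linarith
  have h1 : ∀ d : P → Option J, |lam q y d| ≤
      (R * Z) * ∏ p, (if d p = none then (1 : ℝ) else 2 / q p) := by
    intro d
    refine (lam_bd q v hq hv R y hy hs d).trans ?_
    have hprod : ∏ p, (if d p = none then (1 : ℝ) else 2 / q p) =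
        2 ^ (supp d).card / (nrm v (supp d) : ℝ) := by
      have e1 := cprod_supp (fun p : P => 2 / q p) d
      unfold cprod at e1
      rw [e1, Finset.prod_div_distrib, Finset.prod_const]
      congr 1
      unfold nrm
      rw [Nat.cast_prod]
      exact Finset.prod_congr rfl fun p _ => hqv p
    have hn : (1 : ℝ) ≤ (nrm v (supp d) : ℝ) := by
      have : 1 ≤ nrm v (supp d) := by
        unfold nrm
        exact Finset.one_le_prod' fun p _ => hv p
      exact_mod_cast this
    split_ifs with hR
    · rw [hprod]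
      have hR' : (nrm v (supp d) : ℝ) ≤ R := by exact_mod_cast hR
      have h2 : (2 : ℝ) ^ (supp d).card * Z = ((nrm v (supp d) : ℝ) * Z) *
          (2 ^ (supp d).card / (nrm v (supp d) : ℝ)) := by
        field_simp
      rw [h2]
      apply mul_le_mul_of_nonneg_right
      · exact mul_le_mul_of_nonneg_right hR' hZ0
      · positivity
    · rw [hprod]
      positivity
  refine (Finset.sum_le_sum fun d _ => h1 d).trans ?_
  rw [← Finset.mul_sum]
  rw [sum_prod (fun p (b : Option J) => if b = none then (1 : ℝ) else 2 / q p)]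
  have h3 : ∏ p, ∑ b : Option J, (if b = none then (1 : ℝ) else 2 / q p) ≤ Z ^ 2 := by
    rw [hZ, ← Finset.prod_pow]
    apply Finset.prod_le_prod
    · intro p _
      apply Finset.sum_nonneg
      intro b _
      have := hq p
      split_ifs
      · norm_num
      · exact div_nonneg (by norm_num) (by linarith)
    · intro p _
      have h4 : ∑ b : Option J, (if b = none then (1 : ℝ) else 2 / q p) = 1 + KK J * (2 / q p) := by
        rw [Fintype.sum_option]
        simp [KK]
      rw [h4]
      have h5 : 1 / q p ≤ xx q p := by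
        unfold xx
        have := hq p
        apply one_div_le_one_div_of_le <;> linarith
      have h6 : 2 / q p = 2 * (1 / q p) := by ring
      have h7 : 0 ≤ KK J := lb_KK_nonneg
      have h8 := mul_le_mul_of_nonneg_left h5 h7
      rw [h6]
      have h9 : 0 ≤ (KK J * xx q p) ^ 2 := sq_nonneg _
      nlinarith
  calc R * Z * ∏ p, ∑ b : Option J, (if b = none then (1 : ℝ) else 2 / q p) ≤ R * Z * Z ^ 2 := by
        apply mul_le_mul_of_nonneg_left h3
        positivity
    _ = R * Z ^ 3 := by ring

end Pool.DL
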