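import Pool.Agent.Lib.MP_c77da8_nt.DL.Defs

/-!
# DL-OneD: sums over one set of primes

PROOF.  Let `X(a) = ∏_{p ∈ a} x p`.
`one_up`: `∏_{p ∈ a} (1 + h p) = ∑_{b ⊆ a} ∏_{p ∈ b} h p` (`Finset.prod_one_add` or `prod_add`); with `a = b ∪ c`,
`b, c` disjoint, `G a ≤ G c`, `X a = X b X c`; the sum over `(a, b)`, `b ⊆ a` is a sum over the disjoint pairs
`(b, c)`, enlarged to all pairs: `≤ (∑_b ∏_{p ∈ b} (x p h p)) * SS x G = ∏ (1 + x p h p) * SS x G`.
`one_low`: `a ↦ (a \ S, a ∩ S)`: `G a ≤ G (a \ S)`, `X a = X (a \ S) X (a ∩ S)`, the sum over the possible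
`a ∩ S ⊆ S` is `∏_{p ∈ S} (1 + x p)`.
`one_mem`: `a = insert p c`, `p ∉ c`: `G a ≤ G c`, `X a = x p X c`.
An induction over the primes (`Finset.induction` on a set `U` with all `a ⊆ U`) is an alternative for all three.
-/

set_option autoImplicit false

namespace Pool.DL

open Finset

variable {P : Type} [Fintype P] [DecidableEq P]

private theorem up_aux (x h : P → ℝ) (hx : ∀ p, 0 ≤ x p) (hh : ∀ p, 0 ≤ h p) (U : Finset P) :
    ∀ G : Finset P → ℝ, Anti G →
      ∑ a ∈ U.powerset, G a * ∏ p ∈ a, (x p * (1 + h p)) ≤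
        (∏ p ∈ U, (1 + x p * h p)) * ∑ a ∈ U.powerset, G a * ∏ p ∈ a, x p := by
  induction U using Finset.induction_on with
  | empty => intro G _; simp
  | insert q U hq ih =>
    intro G hG
    have hG' : Anti (fun a => G (insert q a)) :=
      ⟨fun a => hG.1 _, fun a b hab => hG.2 _ _ (Finset.insert_subset_insert q hab)⟩
    have e1 : ∀ f : P → ℝ, ∑ a ∈ (insert q U).powerset, G a * ∏ p ∈ a, f p =
        ∑ a ∈ U.powerset, G a * ∏ p ∈ a, f p +
          f q * ∑ a ∈ U.powerset, G (insert q a) * ∏ p ∈ a, f p := by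
      intro f
      rw [Finset.sum_powerset_insert hq, Finset.mul_sum]
      congr 1
      refine Finset.sum_congr rfl fun a ha => ?_
      have hqa : q ∉ a := fun h1 => hq (Finset.mem_powerset.1 ha h1)
      rw [Finset.prod_insert hqa]
      ring
    rw [e1, e1, Finset.prod_insert hq]
    have i1 := ih G hG
    have i2 := ih (fun a => G (insert q a)) hG'
    beta_reduce at i2
    set L1 := ∑ a ∈ U.powerset, G a * ∏ p ∈ a, (x p * (1 + h p))
    set L2 := ∑ a ∈ U.powerset, G (insert q a) * ∏ p ∈ a, (x p * (1 + h p))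
    set S1 := ∑ a ∈ U.powerset, G a * ∏ p ∈ a, x p with hS1
    set S2 := ∑ a ∈ U.powerset, G (insert q a) * ∏ p ∈ a, x p with hS2
    set W := ∏ p ∈ U, (1 + x p * h p) with hW
    have hW0 : 0 ≤ W := Finset.prod_nonneg fun p _ => by
      have := mul_nonneg (hx p) (hh p); linarith
    have h12 : S2 ≤ S1 := by
      refine Finset.sum_le_sum fun a _ => ?_
      exact mul_le_mul_of_nonneg_right (hG.2 _ _ (Finset.subset_insert q a))
        (Finset.prod_nonneg fun p _ => hx p)
    have h20 : 0 ≤ S2 := Finset.sum_nonneg fun a _ =>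
      mul_nonneg (hG.1 _) (Finset.prod_nonneg fun p _ => hx p)
    have hxq := hx q
    have hhq := hh q
    have hc : 0 ≤ x q * (1 + h q) := mul_nonneg hxq (by linarith)
    have j1 : x q * (1 + h q) * L2 ≤ x q * (1 + h q) * (W * S2) :=
      mul_le_mul_of_nonneg_left i2 hc
    have j2 : 0 ≤ W * (x q * h q * (S1 - S2)) :=
      mul_nonneg hW0 (mul_nonneg (mul_nonneg hxq hhq) (by linarith))
    have j3 : 0 ≤ W * (x q * h q * (x q * S2)) :=
      mul_nonneg hW0 (mul_nonneg (mul_nonneg hxq hhq) (mul_nonneg hxq h20))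
    have j4 : (1 + x q * h q) * W * (S1 + x q * S2) =
        W * S1 + x q * (1 + h q) * (W * S2) + W * (x q * h q * (S1 - S2)) +
          W * (x q * h q * (x q * S2)) := by ring
    rw [j4]
    linarith

private theorem mem_aux (x : P → ℝ) (hx : ∀ p, 0 ≤ x p) (G : Finset P → ℝ) (hG : Anti G)
    (S : Finset P) (p : P) :
    ∑ a ∈ univ.filter (fun a : Finset P => Disjoint a S ∧ p ∈ a), G a * ∏ q ∈ a, x q ≤
      x p * ∑ a ∈ univ.filter (fun a : Finset P => Disjoint a S ∧ p ∉ a), G a * ∏ q ∈ a, x q := by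
  have hinj : Set.InjOn (fun a : Finset P => a.erase p)
      (univ.filter (fun a : Finset P => Disjoint a S ∧ p ∈ a) : Finset (Finset P)) := by
    intro a ha b hb hab
    have ha1 : p ∈ a := (Finset.mem_filter.1 (Finset.mem_coe.1 ha)).2.2
    have hb1 : p ∈ b := (Finset.mem_filter.1 (Finset.mem_coe.1 hb)).2.2
    have hab' : a.erase p = b.erase p := hab
    rw [← Finset.insert_erase ha1, ← Finset.insert_erase hb1, hab']
  have hsub : (univ.filter (fun a : Finset P => Disjoint a S ∧ p ∈ a)).image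
      (fun a : Finset P => a.erase p) ⊆
      univ.filter (fun a : Finset P => Disjoint a S ∧ p ∉ a) := by
    intro b hb
    obtain ⟨a, ha, rfl⟩ := Finset.mem_image.1 hb
    have ha1 := (Finset.mem_filter.1 ha).2
    refine Finset.mem_filter.2 ⟨Finset.mem_univ _, ?_, Finset.notMem_erase p a⟩
    exact ha1.1.mono_left (Finset.erase_subset p a)
  calc ∑ a ∈ univ.filter (fun a : Finset P => Disjoint a S ∧ p ∈ a), G a * ∏ q ∈ a, x q
      ≤ ∑ a ∈ univ.filter (fun a : Finset P => Disjoint a S ∧ p ∈ a),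
          x p * (G (a.erase p) * ∏ q ∈ a.erase p, x q) := by
        refine Finset.sum_le_sum fun a ha => ?_
        have ha1 : p ∈ a := (Finset.mem_filter.1 ha).2.2
        have e1 : ∏ q ∈ a, x q = x p * ∏ q ∈ a.erase p, x q :=
          (Finset.mul_prod_erase a x ha1).symm
        rw [e1]
        have e2 : 0 ≤ x p * ∏ q ∈ a.erase p, x q :=
          mul_nonneg (hx p) (Finset.prod_nonneg fun q _ => hx q)
        have e3 := mul_le_mul_of_nonneg_right (hG.2 _ _ (Finset.erase_subset p a)) e2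
        calc G a * (x p * ∏ q ∈ a.erase p, x q)
            ≤ G (a.erase p) * (x p * ∏ q ∈ a.erase p, x q) := e3
          _ = x p * (G (a.erase p) * ∏ q ∈ a.erase p, x q) := by ring
    _ = x p * ∑ a ∈ univ.filter (fun a : Finset P => Disjoint a S ∧ p ∈ a),
          (G (a.erase p) * ∏ q ∈ a.erase p, x q) := by rw [Finset.mul_sum]
    _ = x p * ∑ b ∈ (univ.filter (fun a : Finset P => Disjoint a S ∧ p ∈ a)).image
          (fun a : Finset P => a.erase p), (G b * ∏ q ∈ b, x q) := by
        rw [Finset.sum_image hinj]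
    _ ≤ x p * ∑ a ∈ univ.filter (fun a : Finset P => Disjoint a S ∧ p ∉ a),
          G a * ∏ q ∈ a, x q := by
        refine mul_le_mul_of_nonneg_left ?_ (hx p)
        exact Finset.sum_le_sum_of_subset_of_nonneg hsub fun a _ _ =>
          mul_nonneg (hG.1 _) (Finset.prod_nonneg fun q _ => hx q)

theorem one_up (x h : P → ℝ) (hx : ∀ p, 0 ≤ x p) (hh : ∀ p, 0 ≤ h p) (G : Finset P → ℝ)
    (hG : Anti G) :
    ∑ a : Finset P, G a * ∏ p ∈ a, (x p * (1 + h p)) ≤ (∏ p, (1 + x p * h p)) * SS x G := by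
  have h1 := up_aux x h hx hh univ G hG
  rw [Finset.powerset_univ] at h1
  exact h1

theorem one_low (x : P → ℝ) (hx : ∀ p, 0 ≤ x p) (G : Finset P → ℝ) (hG : Anti G) (S : Finset P) :
    SS x G ≤ (∏ p ∈ S, (1 + x p)) *
      ∑ a ∈ univ.filter (fun a : Finset P => Disjoint a S), G a * ∏ p ∈ a, x p := by
  induction S using Finset.induction_on with
  | empty => simp [SS]
  | insert q S hq ih =>
    have e1 : ∑ a ∈ univ.filter (fun a : Finset P => Disjoint a S), G a * ∏ p ∈ a, x p =
        ∑ a ∈ univ.filter (fun a : Finset P => Disjoint a S ∧ q ∈ a), G a * ∏ p ∈ a, x p +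
        ∑ a ∈ univ.filter (fun a : Finset P => Disjoint a S ∧ q ∉ a), G a * ∏ p ∈ a, x p := by
      rw [← Finset.filter_filter, ← Finset.filter_filter]
      exact (Finset.sum_filter_add_sum_filter_not _ _ _).symm
    have e2 : univ.filter (fun a : Finset P => Disjoint a S ∧ q ∉ a) =
        univ.filter (fun a : Finset P => Disjoint a (insert q S)) := by
      refine Finset.filter_congr fun a _ => ?_
      rw [Finset.disjoint_insert_right]
      exact and_comm
    have e3 := mem_aux x hx G hG S q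
    rw [e2] at e1 e3
    rw [Finset.prod_insert hq]
    set T := ∑ a ∈ univ.filter (fun a : Finset P => Disjoint a (insert q S)),
      G a * ∏ p ∈ a, x p with hT
    have h0 : 0 ≤ ∏ p ∈ S, (1 + x p) := Finset.prod_nonneg fun p _ => by
      have := hx p; linarith
    refine ih.trans ?_
    rw [e1]
    calc (∏ p ∈ S, (1 + x p)) *
          (∑ a ∈ univ.filter (fun a : Finset P => Disjoint a S ∧ q ∈ a),
            G a * ∏ p ∈ a, x p + T)
        ≤ (∏ p ∈ S, (1 + x p)) * (x q * T + T) :=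
          mul_le_mul_of_nonneg_left (by linarith) h0
      _ = (1 + x q) * (∏ p ∈ S, (1 + x p)) * T := by ring

theorem one_mem (x : P → ℝ) (hx : ∀ p, 0 ≤ x p) (G : Finset P → ℝ) (hG : Anti G) (p : P) :
    ∑ a ∈ univ.filter (fun a : Finset P => p ∈ a), G a * ∏ p ∈ a, x p ≤ x p * SS x G := by
  have h1 := mem_aux x hx G hG ∅ p
  have e1 : univ.filter (fun a : Finset P => Disjoint a (∅ : Finset P) ∧ p ∈ a) =
      univ.filter (fun a : Finset P => p ∈ a) := by
    refine Finset.filter_congr fun a _ => ?_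
    simp
  rw [e1] at h1
  refine h1.trans (mul_le_mul_of_nonneg_left ?_ (hx p))
  exact Finset.sum_le_sum_of_subset_of_nonneg (Finset.subset_univ _) fun a _ _ =>
    mul_nonneg (hG.1 _) (Finset.prod_nonneg fun q _ => hx q)

theorem anti_sq (G : Finset P → ℝ) (hG : Anti G) : Anti (fun a => G a ^ 2) :=
  ⟨fun _ => sq_nonneg _, fun a b hab => pow_le_pow_left₀ (hG.1 b) (hG.2 a b hab) 2⟩

/-- the indicator of `nrm ≤ R` is antitone -/
theorem anti_ind (v : P → ℕ) (hv : ∀ p, 1 ≤ v p) (R : ℕ) :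
    Anti (fun a : Finset P => if nrm v a ≤ R then (1 : ℝ) else 0) := by
  refine ⟨fun a => ?_, fun a b hab => ?_⟩
  · show (0 : ℝ) ≤ if nrm v a ≤ R then (1 : ℝ) else 0
    split_ifs <;> norm_num
  · have h1 : nrm v a ≤ nrm v b := by
      unfold nrm
      exact Finset.prod_le_prod_of_subset_of_one_le' hab fun p _ _ => hv p
    show (if nrm v b ≤ R then (1 : ℝ) else 0) ≤ if nrm v a ≤ R then (1 : ℝ) else 0
    split_ifs with h2 h3
    · exact le_rfl
    · exact absurd (h1.trans h2) h3
    · norm_num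
    · exact le_rfl

end Pool.DL
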