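import Pool.Agent.Lib.MP_c77da8_nt.DL.Strip

/-!
# DL-Schur: upper and lower bound for the prime model

PROOF.  By `EP_sq` the second moment is `∑_{s,s'} z z' ∏_p w_p (s p, s' p)` over `s, s' ∈ noc i` with
`w_p (a,b) = x(a) x(b) eP a b`:  `w (none,none) = 1`, `0` if exactly one of `a, b` is `none`, `x` if `a = b` coloured
(`x² (q-2) = x`), `-x²` if `a ≠ b` are both coloured.  With `z z' ≤ (z² + z'²)/2` and the symmetry of `|w|`

 `∑_{s,s'} |z z'| ∏ |w_p| ≤ ∑_{s ∈ noc i} z(s)² ∏_p ∑_b |w_p (s p, b)|`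

where the sum over `s'` is enlarged to all `s' : P → Option J` (`sum_prod`), and
`∑_b |w_p (none, b)| = 1`, `∑_b |w_p (some j, b)| = x + (K-1) x² ≤ x (1 + K x)`.  This is `prime_up`.
`prime_low`: the diagonal terms are `∑ z(s)² cprod x s` (`w (a,a) = x` resp. `1`); the off-diagonal ones are at least
`-(∑_{s,s'} |z z'| ∏ |w| - ∑_s z² cprod x s)`.
-/

set_option autoImplicit false

namespace Pool.DL

open Finset

variable {P J : Type} [Fintype P] [DecidableEq P] [Fintype J] [DecidableEq J]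

/-- the local weight -/
private noncomputable def sw (q : P → ℝ) (p : P) (a b : Option J) : ℝ :=
  (if a = none then 1 else xx q p) * (if b = none then 1 else xx q p) * eP (q p) a b

/-- the absolute value of the local weight -/
private noncomputable def sv (q : P → ℝ) (p : P) (a b : Option J) : ℝ :=
  if a = none then (if b = none then 1 else 0)
  else if b = none then 0 else if a = b then xx q p else xx q p ^ 2

private theorem xx_pos (q : P → ℝ) (hq : ∀ p, 12 ≤ q p) (p : P) : 0 < xx q p := by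
  unfold xx
  have := hq p
  apply one_div_pos.2
  linarith

private theorem xx_mul (q : P → ℝ) (hq : ∀ p, 12 ≤ q p) (p : P) : xx q p * (q p - 2) = 1 := by
  unfold xx
  have := hq p
  have h : q p - 2 ≠ 0 := by linarith
  field_simp

private theorem sv_nonneg (q : P → ℝ) (hq : ∀ p, 12 ≤ q p) (p : P) (a b : Option J) :
    0 ≤ sv q p a b := by
  have := xx_pos q hq p
  unfold sv
  split_ifs <;> positivity

private theorem sv_symm (q : P → ℝ) (p : P) (a b : Option J) : sv q p a b = sv q p b a := by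
  unfold sv
  by_cases ha : a = none
  · by_cases hb : b = none
    · simp [ha, hb]
    · simp [ha, hb]
  · by_cases hb : b = none
    · simp [ha, hb]
    · by_cases hab : a = b
      · simp [hab]
      · simp [ha, hb, hab, Ne.symm hab]

private theorem abs_sw (q : P → ℝ) (hq : ∀ p, 12 ≤ q p) (p : P) (a b : Option J) :
    |sw q p a b| = sv q p a b := by
  have h1 := xx_pos q hq p
  have h2 := xx_mul q hq p
  unfold sw sv eP
  by_cases ha : a = none
  · by_cases hb : b = none
    · simp [ha, hb]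
    · simp [ha, hb]
  · by_cases hb : b = none
    · simp [ha, hb]
    · by_cases hab : a = b
      · simp only [ha, hb, hab, if_false, if_true]
        rw [mul_assoc, h2, mul_one, abs_of_pos h1]
      · simp only [ha, hb, hab, if_false]
        rw [mul_neg, mul_one, abs_neg, abs_of_pos (mul_pos h1 h1), sq]

private theorem sw_diag (q : P → ℝ) (hq : ∀ p, 12 ≤ q p) (p : P) (a : Option J) :
    sw q p a a = if a = none then 1 else xx q p := by
  have h2 := xx_mul q hq p
  unfold sw eP
  by_cases ha : a = none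
  · simp [ha]
  · simp only [ha, if_false, if_true]
    rw [mul_assoc, h2, mul_one]

private theorem sv_sum (q : P → ℝ) (hq : ∀ p, 12 ≤ q p) (p : P) (a : Option J) :
    ∑ b, sv q p a b ≤ if a = none then 1 else xx q p * (1 + KK J * xx q p) := by
  have h1 := xx_pos q hq p
  rw [Fintype.sum_option]
  unfold sv
  rcases a with _ | i
  · simp
  · simp only [reduceCtorEq, if_false, if_true, Option.some.injEq, zero_add]
    calc ∑ x : J, (if i = x then xx q p else xx q p ^ 2)
        ≤ ∑ x : J, ((if i = x then xx q p else 0) + xx q p ^ 2) := by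
          refine Finset.sum_le_sum fun x _ => ?_
          split_ifs
          · have := sq_nonneg (xx q p)
            linarith
          · rw [zero_add]
      _ = xx q p * (1 + KK J * xx q p) := by
          rw [Finset.sum_add_distrib, Finset.sum_ite_eq, if_pos (mem_univ i), Finset.sum_const,
            card_univ, nsmul_eq_mul, KK]
          ring

private theorem EP_sw (i : J) (q : P → ℝ) (hq : ∀ p, 12 ≤ q p) (y : (P → Option J) → ℝ) :
    EP i q (fun ξ => Lam q y ξ ^ 2) = ∑ s ∈ noc i, ∑ s' ∈ noc i, zz i q y s * zz i q y s' *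
      ∏ p, sw q p (s p) (s' p) := by
  rw [EP_sq i q (fun p => by linarith [hq p]) y]
  refine Finset.sum_congr rfl fun s _ => Finset.sum_congr rfl fun s' _ => ?_
  unfold sw cprod
  rw [Finset.prod_mul_distrib, Finset.prod_mul_distrib]

/-- the sum of the absolute values -/
private theorem abs_up (i : J) (q : P → ℝ) (hq : ∀ p, 12 ≤ q p) (y : (P → Option J) → ℝ) :
    ∑ s ∈ noc i, ∑ s' ∈ noc i, |zz i q y s| * |zz i q y s'| * ∏ p, sv q p (s p) (s' p) ≤
      ∑ s ∈ noc i, zz i q y s ^ 2 * cprod (fun p => xx q p * (1 + KK J * xx q p)) s := by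
  have hW : ∀ s s' : P → Option J, 0 ≤ ∏ p, sv q p (s p) (s' p) := fun s s' =>
    Finset.prod_nonneg fun p _ => sv_nonneg q hq p _ _
  have hsym : ∀ s s' : P → Option J, ∏ p, sv q p (s p) (s' p) = ∏ p, sv q p (s' p) (s p) :=
    fun s s' => Finset.prod_congr rfl fun p _ => sv_symm q p _ _
  have h1 : ∑ s ∈ noc i, ∑ s' ∈ noc i, |zz i q y s| * |zz i q y s'| * ∏ p, sv q p (s p) (s' p) ≤
      ∑ s ∈ noc i, ∑ s' ∈ noc i, ((1 / 2) * (zz i q y s ^ 2 * ∏ p, sv q p (s p) (s' p)) +
        (1 / 2) * (zz i q y s' ^ 2 * ∏ p, sv q p (s p) (s' p))) := by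
    refine Finset.sum_le_sum fun s _ => Finset.sum_le_sum fun s' _ => ?_
    have h2 : |zz i q y s| * |zz i q y s'| ≤ (1 / 2) * zz i q y s ^ 2 + (1 / 2) * zz i q y s' ^ 2 := by
      have h3 := sq_nonneg (|zz i q y s| - |zz i q y s'|)
      rw [← sq_abs (zz i q y s), ← sq_abs (zz i q y s')]
      nlinarith
    have h4 := mul_le_mul_of_nonneg_right h2 (hW s s')
    linarith
  have h5 : ∑ s ∈ noc i, ∑ s' ∈ noc i, (zz i q y s' ^ 2 * ∏ p, sv q p (s p) (s' p)) =
      ∑ s ∈ noc i, ∑ s' ∈ noc i, (zz i q y s ^ 2 * ∏ p, sv q p (s p) (s' p)) := by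
    rw [Finset.sum_comm]
    refine Finset.sum_congr rfl fun s _ => Finset.sum_congr rfl fun s' _ => ?_
    rw [hsym]
  have h6 : ∑ s ∈ noc i, ∑ s' ∈ noc i, (zz i q y s ^ 2 * ∏ p, sv q p (s p) (s' p)) ≤
      ∑ s ∈ noc i, zz i q y s ^ 2 * cprod (fun p => xx q p * (1 + KK J * xx q p)) s := by
    refine Finset.sum_le_sum fun s _ => ?_
    rw [← Finset.mul_sum]
    refine mul_le_mul_of_nonneg_left ?_ (sq_nonneg _)
    calc ∑ s' ∈ noc i, ∏ p, sv q p (s p) (s' p)
        ≤ ∑ s' : P → Option J, ∏ p, sv q p (s p) (s' p) :=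
          Finset.sum_le_sum_of_subset_of_nonneg (Finset.subset_univ _) fun s' _ _ => hW s s'
      _ = ∏ p, ∑ b, sv q p (s p) b := sum_prod (fun p b => sv q p (s p) b)
      _ ≤ ∏ p, (if s p = none then 1 else xx q p * (1 + KK J * xx q p)) :=
          Finset.prod_le_prod (fun p _ => Finset.sum_nonneg fun b _ => sv_nonneg q hq p _ _)
            fun p _ => sv_sum q hq p (s p)
      _ = cprod (fun p => xx q p * (1 + KK J * xx q p)) s := rfl
  refine h1.trans ?_
  have h7 : ∑ s ∈ noc i, ∑ s' ∈ noc i, ((1 / 2) * (zz i q y s ^ 2 * ∏ p, sv q p (s p) (s' p)) +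
        (1 / 2) * (zz i q y s' ^ 2 * ∏ p, sv q p (s p) (s' p))) =
      (1 / 2) * (∑ s ∈ noc i, ∑ s' ∈ noc i, (zz i q y s ^ 2 * ∏ p, sv q p (s p) (s' p))) +
      (1 / 2) * (∑ s ∈ noc i, ∑ s' ∈ noc i, (zz i q y s' ^ 2 * ∏ p, sv q p (s p) (s' p))) := by
    simp only [Finset.sum_add_distrib, Finset.mul_sum]
  rw [h7, h5]
  linarith

private theorem abs_prod_sw (q : P → ℝ) (hq : ∀ p, 12 ≤ q p) (s s' : P → Option J) :
    |∏ p, sw q p (s p) (s' p)| = ∏ p, sv q p (s p) (s' p) := by
  rw [Finset.abs_prod]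
  exact Finset.prod_congr rfl fun p _ => abs_sw q hq p _ _

theorem prime_up (i : J) (q : P → ℝ) (hq : ∀ p, 12 ≤ q p) (y : (P → Option J) → ℝ) :
    EP i q (fun ξ => Lam q y ξ ^ 2) ≤
      ∑ s ∈ noc i, zz i q y s ^ 2 * cprod (fun p => xx q p * (1 + KK J * xx q p)) s := by
  rw [EP_sw i q hq y]
  refine le_trans ?_ (abs_up i q hq y)
  refine Finset.sum_le_sum fun s _ => Finset.sum_le_sum fun s' _ => ?_
  refine (le_abs_self _).trans (le_of_eq ?_)
  rw [abs_mul, abs_mul, abs_prod_sw q hq]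

theorem prime_low (i : J) (q : P → ℝ) (hq : ∀ p, 12 ≤ q p) (y : (P → Option J) → ℝ) :
    2 * ∑ s ∈ noc i, zz i q y s ^ 2 * cprod (xx q) s -
      ∑ s ∈ noc i, zz i q y s ^ 2 * cprod (fun p => xx q p * (1 + KK J * xx q p)) s ≤
      EP i q (fun ξ => Lam q y ξ ^ 2) := by
  have h1 := abs_up i q hq y
  have h2 : 2 * ∑ s ∈ noc i, zz i q y s ^ 2 * cprod (xx q) s ≤
      ∑ s ∈ noc i, ∑ s' ∈ noc i, (zz i q y s * zz i q y s' * (∏ p, sw q p (s p) (s' p)) +
        |zz i q y s| * |zz i q y s'| * ∏ p, sv q p (s p) (s' p)) := by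
    rw [Finset.mul_sum]
    refine Finset.sum_le_sum fun s hs => ?_
    have h3 : ∀ s' ∈ noc (P := P) i, 0 ≤ zz i q y s * zz i q y s' * (∏ p, sw q p (s p) (s' p)) +
        |zz i q y s| * |zz i q y s'| * ∏ p, sv q p (s p) (s' p) := by
      intro s' _
      have h4 := neg_abs_le (zz i q y s * zz i q y s' * ∏ p, sw q p (s p) (s' p))
      rw [abs_mul, abs_mul, abs_prod_sw q hq] at h4
      linarith
    refine le_trans (le_of_eq ?_) (Finset.single_le_sum h3 hs)
    have h5 : ∏ p, sw q p (s p) (s p) = cprod (xx q) s := by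
      unfold cprod
      exact Finset.prod_congr rfl fun p _ => sw_diag q hq p _
    have h6 : ∏ p, sv q p (s p) (s p) = cprod (xx q) s := by
      rw [← abs_prod_sw q hq, h5, abs_of_nonneg]
      unfold cprod
      refine Finset.prod_nonneg fun p _ => ?_
      split_ifs
      · exact zero_le_one
      · exact (xx_pos q hq p).le
    rw [h5, h6, abs_mul_abs_self]
    ring
  rw [EP_sw i q hq y]
  simp only [Finset.sum_add_distrib] at h2
  linarith

end Pool.DL
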