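import Pool.Agent.Lib.MP_c77da8_nt.DL.IntUp
import Pool.Agent.Lib.MP_c77da8_nt.DL.Schur
import Pool.Agent.Lib.MP_c77da8_nt.DL.OneD
import Pool.Agent.Lib.MP_c77da8_nt.DL.Parts

/-!
# DL-Up: upper bounds with the weight `y = yy v R G`

Notation: `K = KK J` (`≥ 1` as soon as there is an `i : J`), `δ = ∑_p x_p²`, `P1 = SS x G`, `P2 = SS x (G²)`;
hypothesis `K² δ ≤ 1/100`.

PROOF.  `yy_mono`: `le s r` implies `supp s ⊆ supp r`, `part s j ⊆ part r j`; `nrm` is monotone as `v ≥ 1`.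
`zz_up`: `zz_eq`, `part_put`: every term is `≤ G b * ∏_{j ≠ i} G (part s j) * x(b)` (or `0`); drop the condition
that `b` is disjoint from `supp s`.
`EI_up`: `int_up`; `y t² ≤ ∏_j G (part t j)²`; `cprod_parts`, `sum_parts_le` with
`F j a = G a² ∏_{p ∈ a} x (1 + K x)`, `one_up` with `h = K x` and `anti_sq`:
`≤ (∏ (1 + 3 K² x²)) (∏ (1 + K x²) P2)^K ≤ exp (3 K² δ + K² δ) P2^K ≤ 11/10 P2^K` (`prod_exp`).
`EP_up`: `prime_up`, `zz_up`, `sum_noc`, `sum_parts_le` with the same `F j` for `j ≠ i` and `F i a = [a = ∅]`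
(sum `1`): `≤ P1² (∏ (1 + K x²) P2)^(K-1)`.
-/

set_option autoImplicit false

namespace Pool.DL

open Finset

variable {P J : Type} [Fintype P] [DecidableEq P] [Fintype J] [DecidableEq J]

private theorem xx_pos (q : P → ℝ) (hq : ∀ p, 12 ≤ q p) (p : P) : 0 < xx q p := by
  unfold xx
  have := hq p
  exact div_pos one_pos (by linarith)

private theorem supp_mono (s r : P → Option J) (h : le s r) : supp s ⊆ supp r := by
  intro p hp
  unfold supp at hp ⊢
  rw [mem_filter] at hp ⊢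
  refine ⟨mem_univ _, ?_⟩
  rcases h p with h1 | h1
  · exact absurd h1 hp.2
  · rw [← h1]; exact hp.2

private theorem part_mono (s r : P → Option J) (h : le s r) (j : J) : part s j ⊆ part r j := by
  intro p hp
  unfold part at hp ⊢
  rw [mem_filter] at hp ⊢
  refine ⟨mem_univ _, ?_⟩
  rcases h p with h1 | h1
  · rw [hp.2] at h1
    exact absurd h1 (by simp)
  · rw [← h1]; exact hp.2

private theorem nrm_mono (v : P → ℕ) (hv : ∀ p, 1 ≤ v p) (a b : Finset P) (h : a ⊆ b) :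
    nrm v a ≤ nrm v b := by
  unfold nrm
  exact Finset.prod_le_prod_of_subset_of_one_le' h (fun p _ _ => hv p)

theorem yy_nonneg (v : P → ℕ) (R : ℕ) (G : Finset P → ℝ) (hG : Anti G) (r : P → Option J) :
    0 ≤ yy v R G r := by
  unfold yy
  split_ifs
  · exact Finset.prod_nonneg (fun j _ => hG.1 _)
  · exact le_refl _

private theorem yy_le (v : P → ℕ) (R : ℕ) (G : Finset P → ℝ) (hG : Anti G) (r : P → Option J) :
    yy v R G r ≤ ∏ j, G (part r j) := by
  unfold yy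
  split_ifs
  · exact le_refl _
  · exact Finset.prod_nonneg (fun j _ => hG.1 _)

theorem yy_mono (v : P → ℕ) (hv : ∀ p, 1 ≤ v p) (R : ℕ) (G : Finset P → ℝ) (hG : Anti G)
    (r s : P → Option J) (h : le s r) : yy v R G r ≤ yy v R G s := by
  by_cases h1 : nrm v (supp r) ≤ R
  · have h2 : nrm v (supp s) ≤ R := (nrm_mono v hv _ _ (supp_mono s r h)).trans h1
    unfold yy
    rw [if_pos h1, if_pos h2]
    exact Finset.prod_le_prod (fun j _ => hG.1 _) (fun j _ => hG.2 _ _ (part_mono s r h j))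
  · have h3 : yy v R G r = 0 := by unfold yy; rw [if_neg h1]
    rw [h3]
    exact yy_nonneg v R G hG s

theorem zz_nonneg (i : J) (q : P → ℝ) (hq : ∀ p, 12 ≤ q p) (y : (P → Option J) → ℝ)
    (hy : ∀ r, 0 ≤ y r) (s : P → Option J) : 0 ≤ zz i q y s := by
  unfold zz
  refine Finset.sum_nonneg (fun r _ => mul_nonneg (hy r) (Finset.prod_nonneg (fun p _ => ?_)))
  split_ifs
  · exact (xx_pos q hq p).le
  · exact zero_le_one

theorem zz_up (i : J) (v : P → ℕ) (q : P → ℝ) (hq : ∀ p, 12 ≤ q p) (R : ℕ)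
    (G : Finset P → ℝ) (hG : Anti G) (s : P → Option J) (hs : s ∈ noc i) :
    zz i q (yy v R G) s ≤ SS (xx q) G * ∏ j ∈ univ.erase i, G (part s j) := by
  rw [zz_eq i q _ s hs]
  unfold SS
  rw [Finset.sum_mul]
  have h1 : ∀ b : Finset P, 0 ≤ G b * ∏ p ∈ b, xx q p := fun b =>
    mul_nonneg (hG.1 b) (Finset.prod_nonneg (fun p _ => (xx_pos q hq p).le))
  have h2 : 0 ≤ ∏ j ∈ univ.erase i, G (part s j) := Finset.prod_nonneg (fun j _ => hG.1 _)
  refine le_trans (Finset.sum_le_sum (fun b hb => ?_))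
    (Finset.sum_le_univ_sum_of_nonneg (s := univ.filter (fun b : Finset P => Disjoint b (supp s)))
      (fun b => mul_nonneg (h1 b) h2))
  rw [mem_filter] at hb
  have h3 := yy_le v R G hG (put i b s)
  have h4 : ∏ j, G (part (put i b s) j) = G b * ∏ j ∈ univ.erase i, G (part s j) := by
    rw [← Finset.mul_prod_erase univ (fun j => G (part (put i b s) j)) (mem_univ i)]
    have e1 : part (put i b s) i = b := by
      rw [part_put i i b s hs hb.2, if_pos rfl]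
    rw [e1]
    congr 1
    refine Finset.prod_congr rfl (fun j hj => ?_)
    rw [part_put i j b s hs hb.2, if_neg (Finset.ne_of_mem_erase hj)]
  rw [h4] at h3
  have h5 : 0 ≤ ∏ p ∈ b, xx q p := Finset.prod_nonneg (fun p _ => (xx_pos q hq p).le)
  calc yy v R G (put i b s) * ∏ p ∈ b, xx q p
      ≤ (G b * ∏ j ∈ univ.erase i, G (part s j)) * ∏ p ∈ b, xx q p :=
        mul_le_mul_of_nonneg_right h3 h5
    _ = G b * (∏ p ∈ b, xx q p) * ∏ j ∈ univ.erase i, G (part s j) := by ring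

/-- the one-form sum with the factors `1 + K x` -/
private theorem S_le (q : P → ℝ) (hq : ∀ p, 12 ≤ q p) (K : ℝ) (hK : 0 ≤ K)
    (G : Finset P → ℝ) (hG : Anti G) :
    ∑ a : Finset P, G a ^ 2 * ∏ p ∈ a, (xx q p * (1 + K * xx q p)) ≤
      (∏ p, (1 + K * xx q p ^ 2)) * SS (xx q) (fun a => G a ^ 2) := by
  have h1 := one_up (xx q) (fun p => K * xx q p) (fun p => (xx_pos q hq p).le)
    (fun p => mul_nonneg hK (xx_pos q hq p).le) (fun a => G a ^ 2) (anti_sq G hG)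
  refine h1.trans (le_of_eq ?_)
  congr 1
  refine Finset.prod_congr rfl (fun p _ => ?_)
  ring

private theorem SS_nonneg' (q : P → ℝ) (hq : ∀ p, 12 ≤ q p) (G : Finset P → ℝ)
    (hG : ∀ a, 0 ≤ G a) : 0 ≤ SS (xx q) G := by
  unfold SS
  exact Finset.sum_nonneg (fun a _ => mul_nonneg (hG a)
    (Finset.prod_nonneg (fun p _ => (xx_pos q hq p).le)))

private theorem exp_small {t : ℝ} (ht : 0 ≤ t) (ht1 : t ≤ 1 / 2) : Real.exp t ≤ 1 + t + t ^ 2 := by
  have h1 := Real.abs_exp_sub_one_sub_id_le (x := t) (by rw [abs_of_nonneg ht]; linarith)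
  have h2 := (abs_le.1 h1).2
  linarith

theorem EI_up (v : P → ℕ) (hv : ∀ p, 1 ≤ v p) (q : P → ℝ) (hq : ∀ p, 12 ≤ q p) (R : ℕ)
    (G : Finset P → ℝ) (hG : Anti G) (hδ : KK J ^ 2 * ∑ p, xx q p ^ 2 ≤ 1 / 100) :
    EI q (fun ξ : P → Option J => Lam q (yy v R G) ξ ^ 2) ≤
      11 / 10 * SS (xx q) (fun a => G a ^ 2) ^ Fintype.card J := by
  obtain ⟨K, hK⟩ : ∃ K : ℝ, K = KK J := ⟨_, rfl⟩
  obtain ⟨δ, hδ'⟩ : ∃ δ : ℝ, δ = ∑ p, xx q p ^ 2 := ⟨_, rfl⟩
  obtain ⟨P2, hP2⟩ : ∃ P2 : ℝ, P2 = SS (xx q) (fun a => G a ^ 2) := ⟨_, rfl⟩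
  have hK0 : 0 ≤ K := by rw [hK]; unfold KK; positivity
  have hKc : (Fintype.card J : ℝ) = K := by rw [hK]; rfl
  have hP20 : 0 ≤ P2 := by rw [hP2]; exact SS_nonneg' q hq _ (fun a => sq_nonneg _)
  have h1 := int_up q hq (yy v R G : (P → Option J) → ℝ) (yy_nonneg v R G hG)
    (yy_mono v hv R G hG)
  have h2 : ∑ t : P → Option J, yy v R G t ^ 2 * cprod (fun p => xx q p * (1 + K * xx q p)) t ≤
      ((∏ p, (1 + K * xx q p ^ 2)) * P2) ^ Fintype.card J := by
    have h3 : ∀ t : P → Option J,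
        yy v R G t ^ 2 * cprod (fun p => xx q p * (1 + K * xx q p)) t ≤
        ∏ j, (G (part t j) ^ 2 * ∏ p ∈ part t j, (xx q p * (1 + K * xx q p))) := by
      intro t
      rw [cprod_parts, Finset.prod_mul_distrib, Finset.prod_pow]
      refine mul_le_mul_of_nonneg_right
        (pow_le_pow_left₀ (yy_nonneg v R G hG t) (yy_le v R G hG t) 2) ?_
      refine Finset.prod_nonneg (fun j _ => Finset.prod_nonneg (fun p _ => ?_))
      have := (xx_pos q hq p).le
      positivity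
    refine (Finset.sum_le_sum (fun t _ => h3 t)).trans ?_
    refine (sum_parts_le (fun (_ : J) (a : Finset P) =>
      G a ^ 2 * ∏ p ∈ a, (xx q p * (1 + K * xx q p))) ?_).trans ?_
    · intro _ a
      refine mul_nonneg (sq_nonneg _) (Finset.prod_nonneg (fun p _ => ?_))
      have := (xx_pos q hq p).le
      positivity
    · rw [Finset.prod_const, Finset.card_univ]
      refine pow_le_pow_left₀ ?_ ?_ _
      · refine Finset.sum_nonneg (fun a _ => mul_nonneg (sq_nonneg _)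
          (Finset.prod_nonneg (fun p _ => ?_)))
        have := (xx_pos q hq p).le
        positivity
      · rw [hP2]
        exact S_le q hq K hK0 G hG
  have hA : ∏ p, (1 + 3 * K ^ 2 * xx q p ^ 2) ≤ Real.exp (3 * (K ^ 2 * δ)) := by
    have := prod_exp univ (fun p => 3 * K ^ 2 * xx q p ^ 2) (fun p _ => by positivity)
    refine this.trans (le_of_eq ?_)
    rw [← Finset.mul_sum, ← hδ']
    congr 1
    ring
  have hA0 : 0 ≤ ∏ p, (1 + 3 * K ^ 2 * xx q p ^ 2) :=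
    Finset.prod_nonneg (fun p _ => by positivity)
  have hB : (∏ p, (1 + K * xx q p ^ 2)) ^ Fintype.card J ≤ Real.exp (K ^ 2 * δ) := by
    have h4 := prod_exp univ (fun p => K * xx q p ^ 2) (fun p _ => by positivity)
    have h5 : 0 ≤ ∏ p, (1 + K * xx q p ^ 2) := Finset.prod_nonneg (fun p _ => by positivity)
    refine (pow_le_pow_left₀ h5 h4 _).trans (le_of_eq ?_)
    rw [← Real.exp_nat_mul, ← Finset.mul_sum, ← hδ', hKc]
    congr 1
    ring
  have hx : K ^ 2 * δ ≤ 1 / 100 := by rw [hK, hδ']; exact hδ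
  have hδ0 : 0 ≤ δ := by rw [hδ']; positivity
  have hx0 : 0 ≤ K ^ 2 * δ := by positivity
  have hE : Real.exp (3 * (K ^ 2 * δ)) * Real.exp (K ^ 2 * δ) ≤ 11 / 10 := by
    rw [← Real.exp_add]
    have h6 : 3 * (K ^ 2 * δ) + K ^ 2 * δ ≤ 1 / 25 := by linarith
    have h7 := exp_small (t := 3 * (K ^ 2 * δ) + K ^ 2 * δ) (by linarith) (by linarith)
    nlinarith
  rw [← hK] at h1
  rw [← hP2]
  refine h1.trans ?_
  have hPc : 0 ≤ P2 ^ Fintype.card J := pow_nonneg hP20 _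
  calc (∏ p, (1 + 3 * K ^ 2 * xx q p ^ 2)) *
        ∑ t : P → Option J, yy v R G t ^ 2 * cprod (fun p => xx q p * (1 + K * xx q p)) t
      ≤ (∏ p, (1 + 3 * K ^ 2 * xx q p ^ 2)) *
        (((∏ p, (1 + K * xx q p ^ 2)) * P2) ^ Fintype.card J) := mul_le_mul_of_nonneg_left h2 hA0
    _ = ((∏ p, (1 + 3 * K ^ 2 * xx q p ^ 2)) *
        ((∏ p, (1 + K * xx q p ^ 2)) ^ Fintype.card J)) * P2 ^ Fintype.card J := by
        rw [mul_pow]; ring
    _ ≤ (Real.exp (3 * (K ^ 2 * δ)) * Real.exp (K ^ 2 * δ)) * P2 ^ Fintype.card J := by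
        refine mul_le_mul_of_nonneg_right ?_ hPc
        refine mul_le_mul hA hB ?_ (Real.exp_pos _).le
        exact pow_nonneg (Finset.prod_nonneg (fun p _ => by positivity)) _
    _ ≤ 11 / 10 * P2 ^ Fintype.card J := mul_le_mul_of_nonneg_right hE hPc

/-- the sum that dominates `E_i(Λ²)` -/
theorem sum_up (i : J) (v : P → ℕ) (q : P → ℝ) (hq : ∀ p, 12 ≤ q p) (R : ℕ)
    (G : Finset P → ℝ) (hG : Anti G) (hδ : KK J ^ 2 * ∑ p, xx q p ^ 2 ≤ 1 / 100) :
    ∑ s ∈ noc i, zz i q (yy v R G) s ^ 2 * cprod (fun p => xx q p * (1 + KK J * xx q p)) s ≤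
      51 / 50 * SS (xx q) G ^ 2 * SS (xx q) (fun a => G a ^ 2) ^ (Fintype.card J - 1) := by
  obtain ⟨K, hK⟩ : ∃ K : ℝ, K = KK J := ⟨_, rfl⟩
  obtain ⟨δ, hδ'⟩ : ∃ δ : ℝ, δ = ∑ p, xx q p ^ 2 := ⟨_, rfl⟩
  obtain ⟨P2, hP2⟩ : ∃ P2 : ℝ, P2 = SS (xx q) (fun a => G a ^ 2) := ⟨_, rfl⟩
  obtain ⟨P1, hP1⟩ : ∃ P1 : ℝ, P1 = SS (xx q) G := ⟨_, rfl⟩
  have hK0 : 0 ≤ K := by rw [hK]; unfold KK; positivity
  have hKc : (Fintype.card J : ℝ) = K := by rw [hK]; rfl
  have hP20 : 0 ≤ P2 := by rw [hP2]; exact SS_nonneg' q hq _ (fun a => sq_nonneg _)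
  have hP10 : 0 ≤ P1 := by rw [hP1]; exact SS_nonneg' q hq _ hG.1
  obtain ⟨F, hF⟩ : ∃ F : J → Finset P → ℝ, F = fun j a =>
    if j = i then (if a = ∅ then 1 else 0)
    else G a ^ 2 * ∏ p ∈ a, (xx q p * (1 + K * xx q p)) := ⟨_, rfl⟩
  have hF0 : ∀ j a, 0 ≤ F j a := by
    intro j a
    rw [hF]
    dsimp only
    split_ifs
    · exact zero_le_one
    · exact le_refl _
    · refine mul_nonneg (sq_nonneg _) (Finset.prod_nonneg (fun p _ => ?_))
      have := (xx_pos q hq p).le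
      positivity
  have hterm : ∀ s ∈ noc i, zz i q (yy v R G) s ^ 2 *
      cprod (fun p => xx q p * (1 + K * xx q p)) s ≤ P1 ^ 2 * ∏ j, F j (part s j) := by
    intro s hs
    have h1 := zz_up i v q hq R G hG s hs
    have h0 := zz_nonneg i q hq (yy v R G) (yy_nonneg v R G hG) s
    rw [← hP1] at h1
    have h2 : zz i q (yy v R G) s ^ 2 ≤
        P1 ^ 2 * ∏ j ∈ univ.erase i, G (part s j) ^ 2 := by
      refine (pow_le_pow_left₀ h0 h1 2).trans (le_of_eq ?_)
      rw [mul_pow, Finset.prod_pow]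
    have h3 : cprod (fun p => xx q p * (1 + K * xx q p)) s =
        ∏ j ∈ univ.erase i, ∏ p ∈ part s j, (xx q p * (1 + K * xx q p)) := by
      rw [cprod_parts, ← Finset.mul_prod_erase univ _ (mem_univ i), (mem_noc i s).1 hs,
        Finset.prod_empty, one_mul]
    have h4 : ∏ j, F j (part s j) = ∏ j ∈ univ.erase i,
        (G (part s j) ^ 2 * ∏ p ∈ part s j, (xx q p * (1 + K * xx q p))) := by
      rw [← Finset.mul_prod_erase univ _ (mem_univ i)]
      have e1 : F i (part s i) = 1 := by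
        rw [hF]
        dsimp only
        rw [if_pos rfl, if_pos ((mem_noc i s).1 hs)]
      rw [e1, one_mul]
      refine Finset.prod_congr rfl (fun j hj => ?_)
      rw [hF]
      dsimp only
      rw [if_neg (Finset.ne_of_mem_erase hj)]
    have h5 : 0 ≤ cprod (fun p => xx q p * (1 + K * xx q p)) s := by
      rw [h3]
      refine Finset.prod_nonneg (fun j _ => Finset.prod_nonneg (fun p _ => ?_))
      have := (xx_pos q hq p).le
      positivity
    refine (mul_le_mul_of_nonneg_right h2 h5).trans (le_of_eq ?_)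
    rw [h4, h3, Finset.prod_mul_distrib]
    ring
  have h6 : ∑ s ∈ noc i, P1 ^ 2 * ∏ j, F j (part s j) ≤ P1 ^ 2 * ∏ j, ∑ a, F j a := by
    rw [← Finset.mul_sum]
    refine mul_le_mul_of_nonneg_left ?_ (sq_nonneg _)
    refine le_trans ?_ (sum_parts_le F hF0)
    exact Finset.sum_le_univ_sum_of_nonneg (fun s => Finset.prod_nonneg (fun j _ => hF0 _ _))
  have h7 : ∏ j, ∑ a, F j a ≤ ((∏ p, (1 + K * xx q p ^ 2)) * P2) ^ (Fintype.card J - 1) := by
    rw [← Finset.mul_prod_erase univ _ (mem_univ i)]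
    have e1 : ∑ a, F i a = 1 := by
      rw [hF]
      dsimp only
      simp
    rw [e1, one_mul]
    have e2 : (univ.erase i : Finset J).card = Fintype.card J - 1 := by
      rw [Finset.card_erase_of_mem (mem_univ i), Finset.card_univ]
    rw [← e2, ← Finset.prod_const]
    refine Finset.prod_le_prod (fun j _ => Finset.sum_nonneg (fun a _ => hF0 j a)) (fun j hj => ?_)
    have e3 : ∑ a, F j a = ∑ a : Finset P, G a ^ 2 * ∏ p ∈ a, (xx q p * (1 + K * xx q p)) := by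
      refine Finset.sum_congr rfl (fun a _ => ?_)
      rw [hF]
      dsimp only
      rw [if_neg (Finset.ne_of_mem_erase hj)]
    rw [e3, hP2]
    exact S_le q hq K hK0 G hG
  have hQ0 : 0 ≤ ∏ p, (1 + K * xx q p ^ 2) := Finset.prod_nonneg (fun p _ => by positivity)
  have hQ1 : 1 ≤ ∏ p, (1 + K * xx q p ^ 2) := by
    have h9 : ∏ _p : P, (1 : ℝ) ≤ ∏ p, (1 + K * xx q p ^ 2) :=
      Finset.prod_le_prod (fun _ _ => zero_le_one)
        (fun p _ => by nlinarith [mul_nonneg hK0 (sq_nonneg (xx q p))])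
    rwa [Finset.prod_const_one] at h9
  have hB : (∏ p, (1 + K * xx q p ^ 2)) ^ (Fintype.card J - 1) ≤ 51 / 50 := by
    have h4 := prod_exp univ (fun p => K * xx q p ^ 2) (fun p _ => by positivity)
    have h8 : (∏ p, (1 + K * xx q p ^ 2)) ^ (Fintype.card J - 1) ≤
        (∏ p, (1 + K * xx q p ^ 2)) ^ Fintype.card J :=
      pow_le_pow_right₀ hQ1 (Nat.sub_le _ _)
    refine h8.trans ((pow_le_pow_left₀ hQ0 h4 _).trans ?_)
    rw [← Real.exp_nat_mul, ← Finset.mul_sum, ← hδ', hKc]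
    have hx : K ^ 2 * δ ≤ 1 / 100 := by rw [hK, hδ']; exact hδ
    have hδ0 : 0 ≤ δ := by rw [hδ']; positivity
    have hx0 : 0 ≤ K ^ 2 * δ := by positivity
    have e5 : K * (K * δ) = K ^ 2 * δ := by ring
    rw [e5]
    have h7 := exp_small (t := K ^ 2 * δ) hx0 (by linarith)
    nlinarith
  rw [← hP1, ← hP2]
  rw [← hK]
  refine (Finset.sum_le_sum hterm).trans (h6.trans ?_)
  have hPc : 0 ≤ P2 ^ (Fintype.card J - 1) := pow_nonneg hP20 _
  calc P1 ^ 2 * ∏ j, ∑ a, F j a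
      ≤ P1 ^ 2 * ((∏ p, (1 + K * xx q p ^ 2)) * P2) ^ (Fintype.card J - 1) :=
        mul_le_mul_of_nonneg_left h7 (sq_nonneg _)
    _ = (∏ p, (1 + K * xx q p ^ 2)) ^ (Fintype.card J - 1) *
        (P1 ^ 2 * P2 ^ (Fintype.card J - 1)) := by rw [mul_pow]; ring
    _ ≤ 51 / 50 * (P1 ^ 2 * P2 ^ (Fintype.card J - 1)) :=
        mul_le_mul_of_nonneg_right hB (mul_nonneg (sq_nonneg _) hPc)
    _ = 51 / 50 * P1 ^ 2 * P2 ^ (Fintype.card J - 1) := by ring

theorem EP_up (i : J) (v : P → ℕ) (q : P → ℝ) (hq : ∀ p, 12 ≤ q p) (R : ℕ)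
    (G : Finset P → ℝ) (hG : Anti G) (hδ : KK J ^ 2 * ∑ p, xx q p ^ 2 ≤ 1 / 100) :
    EP i q (fun ξ : P → Option J => Lam q (yy v R G) ξ ^ 2) ≤
      51 / 50 * SS (xx q) G ^ 2 * SS (xx q) (fun a => G a ^ 2) ^ (Fintype.card J - 1) :=
  (prime_up i q hq _).trans (sum_up i v q hq R G hG hδ)

end Pool.DL
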