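import Pool.Agent.Lib.MP_c77da8_nt.DL.Parts

/-!
# DL-Tuple: lower bound for a sum over colourings by the product of the sums

PROOF.  Let `S j = ∑_a F j a`, `Φ(a) = ∏_j F j (a j) ≥ 0` for tuples `a : J → Finset P`.  The tuples of the form
`(part r j)_j` are exactly the tuples of pairwise disjoint sets.  For a tuple `a` that is not pairwise disjoint
`1 ≤ ∑_{(j,l), j ≠ l} ∑_p [p ∈ a j][p ∈ a l]`.  Hence

`∑_r Φ(part r) (1 - ∑_j g_j) ≥ ∑_a Φ(a) ([a disjoint] - ∑_j g_j (a j))
   ≥ ∑_a Φ(a) (1 - ∑_{j ≠ l} ∑_p [p ∈ a j][p ∈ a l] - ∑_j g_j (a j))`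

(`Φ ≥ 0`, `g ≥ 0`), and by `sum_prod` (with `J` in place of `P`) the sums over tuples factorise:
`∑_a Φ(a) = ∏ S j`;  `∑_a Φ(a) [p ∈ a j][p ∈ a l] = (∑_{a ∋ p} F j a)(∑_{a ∋ p} F l a) ∏_{others} S ≤ x_p² ∏ S`;
`∑_a Φ(a) g_j (a j) = (∑_a F j a g_j a) ∏_{others} S ≤ ε ∏ S`.
(To get the factorisation with a modified `j`-th factor, apply `sum_prod` to the modified family
`Function.update` or to `f j a = F j a * (if j = j₀ then g a else 1)`, and `Finset.prod_update_of_mem` or
`Finset.mul_prod_erase`.)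
-/

set_option autoImplicit false

namespace Pool.DL

open Finset

variable {P J : Type} [Fintype P] [DecidableEq P] [Fintype J] [DecidableEq J]

/-- indicator of a common element of two members of a tuple -/
theorem exists_part (a : J → Finset P) (h : ∀ j l, j ≠ l → Disjoint (a j) (a l)) :
    ∃ r : P → Option J, part r = a := by
  classical
  refine ⟨fun p => if h : ∃ j, p ∈ a j then some h.choose else none, ?_⟩
  funext j
  ext p
  simp only [part, mem_filter, mem_univ, true_and]
  constructor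
  · intro hp
    by_cases h1 : ∃ j, p ∈ a j
    · rw [dif_pos h1] at hp
      have h2 := h1.choose_spec
      rw [Option.some.inj hp] at h2
      exact h2
    · rw [dif_neg h1] at hp
      exact absurd hp (by simp)
  · intro hp
    have h1 : ∃ j, p ∈ a j := ⟨j, hp⟩
    rw [dif_pos h1]
    congr 1
    by_contra h2
    exact (Finset.disjoint_left.1 (h _ _ h2)) h1.choose_spec hp

theorem pair_term (F : J → Finset P → ℝ) (x : P → ℝ) (hF : ∀ j a, 0 ≤ F j a)
    (hmem : ∀ j p, ∑ a ∈ univ.filter (fun a : Finset P => p ∈ a), F j a ≤ x p * ∑ a, F j a)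
    (j l : J) (hjl : j ≠ l) (p : P) :
    ∑ a : J → Finset P, (∏ i, F i (a i)) * (if p ∈ a j ∧ p ∈ a l then 1 else 0) ≤
      x p ^ 2 * ∏ i, ∑ a, F i a := by
  classical
  have h1 : ∀ a : J → Finset P, (∏ i, F i (a i)) * (if p ∈ a j ∧ p ∈ a l then 1 else 0) =
      ∏ i, (F i (a i) * (if i ∈ ({j, l} : Finset J) then (if p ∈ a i then 1 else 0) else 1)) := by
    intro a
    rw [Finset.prod_mul_distrib]
    congr 1
    rw [Finset.prod_ite_mem, Finset.univ_inter, Finset.prod_pair hjl]
    by_cases h2 : p ∈ a j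
    · by_cases h3 : p ∈ a l
      · simp [h2, h3]
      · simp [h2, h3]
    · simp [h2]
  rw [Finset.sum_congr rfl fun a _ => h1 a]
  rw [sum_prod (fun (i : J) (b : Finset P) =>
    F i b * (if i ∈ ({j, l} : Finset J) then (if p ∈ b then 1 else 0) else 1))]
  have h4 : x p ^ 2 * ∏ i, ∑ a, F i a =
      ∏ i, ((if i ∈ ({j, l} : Finset J) then x p else 1) * ∑ a, F i a) := by
    rw [Finset.prod_mul_distrib]
    congr 1
    rw [Finset.prod_ite_mem, Finset.univ_inter, Finset.prod_pair hjl]
    ring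
  rw [h4]
  apply Finset.prod_le_prod
  · intro i _
    apply Finset.sum_nonneg
    intro b _
    apply mul_nonneg (hF i b)
    split_ifs
    · norm_num
    · norm_num
    · norm_num
  · intro i _
    by_cases hi : i ∈ ({j, l} : Finset J)
    · simp only [if_pos hi]
      have h5 := hmem i p
      rw [Finset.sum_filter] at h5
      have h6 : ∑ b : Finset P, F i b * (if p ∈ b then (1:ℝ) else 0) =
          ∑ a : Finset P, if p ∈ a then F i a else 0 := by
        refine Finset.sum_congr rfl fun b _ => ?_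
        by_cases hb : p ∈ b
        · simp [hb]
        · simp [hb]
      rw [h6]
      exact h5
    · simp only [if_neg hi, mul_one, one_mul]
      exact le_refl _

theorem one_term (F g : J → Finset P → ℝ) (ε : ℝ) (hF : ∀ j a, 0 ≤ F j a)
    (hg : ∀ j a, 0 ≤ g j a)
    (hgm : ∀ j, ∑ a, F j a * g j a ≤ ε * ∑ a, F j a) (j : J) :
    ∑ a : J → Finset P, (∏ i, F i (a i)) * g j (a j) ≤ ε * ∏ i, ∑ a, F i a := by
  classical
  have h1 : ∀ a : J → Finset P, (∏ i, F i (a i)) * g j (a j) =
      ∏ i, (F i (a i) * (if i = j then g i (a i) else 1)) := by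
    intro a
    rw [Finset.prod_mul_distrib]
    congr 1
    rw [Finset.prod_ite_eq' univ j (fun i => g i (a i))]
    simp
  rw [Finset.sum_congr rfl fun a _ => h1 a]
  rw [sum_prod (fun (i : J) (b : Finset P) => F i b * (if i = j then g i b else 1))]
  have h4 : ε * ∏ i, ∑ a, F i a = ∏ i, ((if i = j then ε else 1) * ∑ a, F i a) := by
    rw [Finset.prod_mul_distrib]
    congr 1
    rw [Finset.prod_ite_eq' univ j (fun _ => ε)]
    simp
  rw [h4]
  apply Finset.prod_le_prod
  · intro i _
    apply Finset.sum_nonneg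
    intro b _
    apply mul_nonneg (hF i b)
    split_ifs
    · exact hg i b
    · norm_num
  · intro i _
    by_cases hi : i = j
    · simp only [if_pos hi]
      exact hgm i
    · simp only [if_neg hi, mul_one, one_mul]
      exact le_refl _

theorem tuple_low (F g : J → Finset P → ℝ) (x : P → ℝ) (ε : ℝ) (hF : ∀ j a, 0 ≤ F j a)
    (hg : ∀ j a, 0 ≤ g j a) (hx : ∀ p, 0 ≤ x p)
    (hmem : ∀ j p, ∑ a ∈ univ.filter (fun a : Finset P => p ∈ a), F j a ≤ x p * ∑ a, F j a)
    (hgm : ∀ j, ∑ a, F j a * g j a ≤ ε * ∑ a, F j a) :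
    (∏ j, ∑ a, F j a) * (1 - KK J ^ 2 * ∑ p, x p ^ 2 - KK J * ε) ≤
      ∑ r : P → Option J, (∏ j, F j (part r j)) * (1 - ∑ j, g j (part r j)) := by
  classical
  set Z : ℝ := ∏ j, ∑ a, F j a with hZ
  have hZ0 : 0 ≤ Z := Finset.prod_nonneg fun j _ => Finset.sum_nonneg fun a _ => hF j a
  -- the defect of a tuple
  set D : (J → Finset P) → ℝ := fun a => ∑ j, ∑ l, if j = l then 0 else
    ∑ p, (if p ∈ a j ∧ p ∈ a l then (1:ℝ) else 0) with hD
  have hDn : ∀ a, 0 ≤ D a := by
    intro a
    apply Finset.sum_nonneg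
    intro j _
    apply Finset.sum_nonneg
    intro l _
    split_ifs
    · exact le_refl _
    · apply Finset.sum_nonneg
      intro p _
      split_ifs
      · norm_num
      · norm_num
  have hΦ : ∀ a : J → Finset P, 0 ≤ ∏ i, F i (a i) := fun a =>
    Finset.prod_nonneg fun i _ => hF i _
  have hgn : ∀ a : J → Finset P, 0 ≤ ∑ j, g j (a j) := fun a =>
    Finset.sum_nonneg fun i _ => hg i _
  have hD1 : ∀ a : J → Finset P, (¬ ∃ r : P → Option J, part r = a) → 1 ≤ D a := by
    intro a ha
    have h1 : ∃ j l, j ≠ l ∧ ¬ Disjoint (a j) (a l) := by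
      by_contra h2
      push Not at h2
      exact ha (exists_part a h2)
    obtain ⟨j, l, hjl, hd⟩ := h1
    rw [Finset.not_disjoint_iff] at hd
    obtain ⟨p, hp1, hp2⟩ := hd
    have h3 : (∑ l, if j = l then 0 else ∑ p, (if p ∈ a j ∧ p ∈ a l then (1:ℝ) else 0)) ≤ D a := by
      apply Finset.single_le_sum (f := fun j => ∑ l, if j = l then 0 else
        ∑ p, (if p ∈ a j ∧ p ∈ a l then (1:ℝ) else 0)) _ (mem_univ j)
      intro j _
      apply Finset.sum_nonneg
      intro l _
      split_ifs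
      · exact le_refl _
      · apply Finset.sum_nonneg
        intro p _
        split_ifs
        · norm_num
        · norm_num
    have h4 : (if j = l then 0 else ∑ p, (if p ∈ a j ∧ p ∈ a l then (1:ℝ) else 0)) ≤
        ∑ l, if j = l then 0 else ∑ p, (if p ∈ a j ∧ p ∈ a l then (1:ℝ) else 0) := by
      apply Finset.single_le_sum (f := fun l => if j = l then 0 else
        ∑ p, (if p ∈ a j ∧ p ∈ a l then (1:ℝ) else 0)) _ (mem_univ l)
      intro l _
      split_ifs
      · exact le_refl _
      · apply Finset.sum_nonneg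
        intro p _
        split_ifs
        · norm_num
        · norm_num
    rw [if_neg hjl] at h4
    have h5 : (if p ∈ a j ∧ p ∈ a l then (1:ℝ) else 0) ≤
        ∑ p, (if p ∈ a j ∧ p ∈ a l then (1:ℝ) else 0) := by
      apply Finset.single_le_sum (f := fun p => if p ∈ a j ∧ p ∈ a l then (1:ℝ) else 0) _ (mem_univ p)
      intro p _
      split_ifs
      · norm_num
      · norm_num
    rw [if_pos ⟨hp1, hp2⟩] at h5
    linarith
  -- step 1
  have hstep1 : ∑ a : J → Finset P, (∏ i, F i (a i)) * (1 - D a - ∑ j, g j (a j)) ≤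
      ∑ r : P → Option J, (∏ j, F j (part r j)) * (1 - ∑ j, g j (part r j)) := by
    have h1 : ∑ r : P → Option J, (∏ j, F j (part r j)) * (1 - ∑ j, g j (part r j)) =
        ∑ a ∈ (univ : Finset (P → Option J)).image (fun r => part r),
          (∏ j, F j (a j)) * (1 - ∑ j, g j (a j)) := by
      rw [Finset.sum_image]
      intro r _ s _ h
      exact part_inj h
    rw [h1]
    rw [← Finset.sum_filter_add_sum_filter_not univ
      (fun a : J → Finset P => a ∈ (univ : Finset (P → Option J)).image (fun r => part r))]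
    have h2 : ∑ a ∈ univ.filter (fun a : J → Finset P =>
        ¬ a ∈ (univ : Finset (P → Option J)).image (fun r => part r)),
        (∏ i, F i (a i)) * (1 - D a - ∑ j, g j (a j)) ≤ 0 := by
      apply Finset.sum_nonpos
      intro a ha
      simp only [mem_filter, mem_univ, true_and, mem_image, not_exists] at ha
      have h3 : 1 ≤ D a := hD1 a (by rintro ⟨r, hr⟩; exact ha r hr)
      have h4 := hgn a
      exact mul_nonpos_of_nonneg_of_nonpos (hΦ a) (by linarith)
    have h3 : ∑ a ∈ univ.filter (fun a : J → Finset P =>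
        a ∈ (univ : Finset (P → Option J)).image (fun r => part r)),
        (∏ i, F i (a i)) * (1 - D a - ∑ j, g j (a j)) ≤
        ∑ a ∈ (univ : Finset (P → Option J)).image (fun r => part r),
          (∏ j, F j (a j)) * (1 - ∑ j, g j (a j)) := by
      rw [Finset.filter_mem_eq_inter, Finset.univ_inter]
      apply Finset.sum_le_sum
      intro a _
      apply mul_le_mul_of_nonneg_left _ (hΦ a)
      have := hDn a
      linarith
    linarith
  refine le_trans ?_ hstep1
  -- step 2: expand
  have hexp : ∑ a : J → Finset P, (∏ i, F i (a i)) * (1 - D a - ∑ j, g j (a j)) =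
      Z - (∑ j, ∑ l, ∑ a : J → Finset P, (∏ i, F i (a i)) * (if j = l then 0 else
        ∑ p, (if p ∈ a j ∧ p ∈ a l then (1:ℝ) else 0))) -
        ∑ j, ∑ a : J → Finset P, (∏ i, F i (a i)) * g j (a j) := by
    have h1 : ∀ a : J → Finset P, (∏ i, F i (a i)) * (1 - D a - ∑ j, g j (a j)) =
        (∏ i, F i (a i)) - (∑ j, ∑ l, (∏ i, F i (a i)) * (if j = l then 0 else
          ∑ p, (if p ∈ a j ∧ p ∈ a l then (1:ℝ) else 0))) - ∑ j, (∏ i, F i (a i)) * g j (a j) := by
      intro a
      rw [mul_sub, mul_sub, mul_one, hD, Finset.mul_sum, Finset.mul_sum]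
      congr 2
      refine Finset.sum_congr rfl fun j _ => ?_
      rw [Finset.mul_sum]
    rw [Finset.sum_congr rfl fun a _ => h1 a, Finset.sum_sub_distrib, Finset.sum_sub_distrib,
      sum_prod F]
    rw [Finset.sum_comm, Finset.sum_comm (s := univ) (t := univ)
      (f := fun (a : J → Finset P) (j : J) => (∏ i, F i (a i)) * g j (a j))]
    congr 2
    refine Finset.sum_congr rfl fun j _ => ?_
    rw [Finset.sum_comm]
  rw [hexp]
  have hpair : ∀ j l : J, ∑ a : J → Finset P, (∏ i, F i (a i)) * (if j = l then 0 else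
      ∑ p, (if p ∈ a j ∧ p ∈ a l then (1:ℝ) else 0)) ≤ (∑ p, x p ^ 2) * Z := by
    intro j l
    by_cases hjl : j = l
    · simp only [if_pos hjl, mul_zero, Finset.sum_const_zero]
      apply mul_nonneg _ hZ0
      exact Finset.sum_nonneg fun p _ => sq_nonneg _
    · simp only [if_neg hjl]
      have h1 : ∑ a : J → Finset P, (∏ i, F i (a i)) *
          ∑ p, (if p ∈ a j ∧ p ∈ a l then (1:ℝ) else 0) =
          ∑ p, ∑ a : J → Finset P, (∏ i, F i (a i)) * (if p ∈ a j ∧ p ∈ a l then (1:ℝ) else 0) := by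
        rw [Finset.sum_comm]
        refine Finset.sum_congr rfl fun a _ => ?_
        rw [Finset.mul_sum]
      rw [h1, Finset.sum_mul]
      exact Finset.sum_le_sum fun p _ => pair_term F x hF hmem j l hjl p
  have hA : (∑ j : J, ∑ l : J, ∑ a : J → Finset P, (∏ i, F i (a i)) * (if j = l then 0 else
        ∑ p, (if p ∈ a j ∧ p ∈ a l then (1:ℝ) else 0))) ≤ KK J ^ 2 * ((∑ p, x p ^ 2) * Z) := by
    calc _ ≤ ∑ j : J, ∑ l : J, (∑ p, x p ^ 2) * Z :=
          Finset.sum_le_sum fun j _ => Finset.sum_le_sum fun l _ => hpair j l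
      _ = KK J ^ 2 * ((∑ p, x p ^ 2) * Z) := by
          simp only [Finset.sum_const, Finset.card_univ, nsmul_eq_mul, KK]
          ring
  have hB : ∑ j : J, ∑ a : J → Finset P, (∏ i, F i (a i)) * g j (a j) ≤ KK J * (ε * Z) := by
    calc _ ≤ ∑ j : J, ε * Z :=
          Finset.sum_le_sum fun j _ => one_term F g ε hF hg hgm j
      _ = KK J * (ε * Z) := by
          simp only [Finset.sum_const, Finset.card_univ, nsmul_eq_mul, KK]
  nlinarith [hA, hB]

end Pool.DL
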