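import Pool.Agent.Lib.MP_c77da8_nt.DL.Up
import Pool.Agent.Lib.MP_c77da8_nt.DL.Tuple

/-!
# DL-Low: lower bound for the prime model with the weight `y = yy v R G`

Notation: `K = KK J`, `δ = ∑_p x_p²`, `P1 = SS x G`, `P2 = SS x (G²)`, `M = MM v x G`.
Hypotheses: `G` vanishes on the sets of norm `> Y`, `Y² ≤ R`, `2 ≤ R`, `K² δ ≤ 1/100`, `16 K M ≤ P2 log R`.

PROOF.  `zz_low`: `zz_eq`, `part_put`, `supp_put`: for `b` disjoint from `supp s` with `G b ≠ 0` one has
`nrm b ≤ Y`, `nrm (supp s ∪ b) = nrm (supp s) nrm b ≤ R`; so `zz = ∏_{j ≠ i} G (part s j) * ∑_{b disjoint} G b x(b)`;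
`one_low`.
`low_P`: for `s ∈ noc i` put `ind = [nrm (supp s) Y ≤ R]`.  Then
`zz² ≥ ind * P1² ∏_{j≠i} G(part s j)² * (∏_{supp s} (1+x))^(-2)` and
`ind * (∏_{supp s} (1+x))^(-2) ≥ 1 - (2/log R) log nrm (supp s) - 2 ∑_{supp s} x_p`:
if `ind = 1`, `(1+x)^(-2) ≥ 1 - 2x` and `weier`; if `ind = 0`, `nrm (supp s) > R/Y ≥ √R`, so the right side is `≤ 0`.
By `nrm_parts`, `supp_parts` the right side is `1 - ∑_j g_j (part s j)`, `g_j a = (2/log R) log nrm a + 2 ∑_{p∈a} x_p`.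
Now `sum_noc`, `tuple_low` with `F j a = G a² x(a)`, `g j` as above for `j ≠ i`, and `F i a = [a = ∅]`, `g i = 0`:
`hmem` is `one_mem` (`anti_sq`), and `∑_a F j a g j a ≤ (2/log R) M + 2 δ P2 ≤ (1/(8K) + 2δ) P2 =: ε P2` (exchange the
sums, `one_mem`).  Total: `P2^(K-1) (1 - K² δ - 1/8 - 2 K δ) ≥ 21/25 P2^(K-1)` (`845/1000 ≥ 840/1000`; `K ≥ 1`).
`EP_low`: `prime_low`, `low_P`, `sum_up`: `2 * 21/25 - 51/50 = 33/50 ≥ 1/2`.
-/

set_option autoImplicit false

namespace Pool.DL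

open Finset

variable {P J : Type} [Fintype P] [DecidableEq P] [Fintype J] [DecidableEq J]

private theorem xpos (q : P → ℝ) (hq : ∀ p, 12 ≤ q p) (p : P) : 0 < xx q p := by
  unfold xx
  have := hq p
  exact div_pos one_pos (by linarith)

private theorem nrm_pos (v : P → ℕ) (hv : ∀ p, 1 ≤ v p) (a : Finset P) : 1 ≤ nrm v a := by
  unfold nrm
  exact Nat.one_le_iff_ne_zero.2 (Finset.prod_ne_zero_iff.2
    (fun p _ => Nat.one_le_iff_ne_zero.1 (hv p)))

private theorem SSnn (q : P → ℝ) (hq : ∀ p, 12 ≤ q p) (G : Finset P → ℝ)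
    (hG : ∀ a, 0 ≤ G a) : 0 ≤ SS (xx q) G := by
  unfold SS
  exact Finset.sum_nonneg (fun a _ => mul_nonneg (hG a)
    (Finset.prod_nonneg (fun p _ => (xpos q hq p).le)))

theorem zz_low (i : J) (v : P → ℕ) (hv : ∀ p, 1 ≤ v p) (q : P → ℝ) (hq : ∀ p, 12 ≤ q p) (R Y : ℕ)
    (G : Finset P → ℝ) (hG : Anti G) (hY : ∀ b, Y < nrm v b → G b = 0) (s : P → Option J)
    (hs : s ∈ noc i) (hR : nrm v (supp s) * Y ≤ R) :
    SS (xx q) G * ∏ j ∈ univ.erase i, G (part s j) ≤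
      (∏ p ∈ supp s, (1 + xx q p)) * zz i q (yy v R G) s := by
  rw [zz_eq i q _ s hs]
  have hA : 0 ≤ ∏ j ∈ univ.erase i, G (part s j) := Finset.prod_nonneg (fun j _ => hG.1 _)
  have hD : 0 ≤ ∏ p ∈ supp s, (1 + xx q p) :=
    Finset.prod_nonneg (fun p _ => by have := xpos q hq p; linarith)
  have h1 := one_low (xx q) (fun p => (xpos q hq p).le) G hG (supp s)
  refine (mul_le_mul_of_nonneg_right h1 hA).trans ?_
  rw [mul_assoc]
  refine mul_le_mul_of_nonneg_left ?_ hD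
  rw [Finset.sum_mul]
  refine Finset.sum_le_sum (fun b hb => ?_)
  rw [mem_filter] at hb
  have h5 : 0 ≤ ∏ p ∈ b, xx q p := Finset.prod_nonneg (fun p _ => (xpos q hq p).le)
  have key : G b * ∏ j ∈ univ.erase i, G (part s j) ≤ yy v R G (put i b s) := by
    by_cases hb0 : Y < nrm v b
    · rw [hY b hb0, zero_mul]
      exact yy_nonneg v R G hG _
    · have hn : nrm v (supp (put i b s)) ≤ R := by
        rw [supp_put]
        have h6 : nrm v (supp s ∪ b) = nrm v (supp s) * nrm v b := by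
          unfold nrm
          exact Finset.prod_union hb.2.symm
        rw [h6]
        exact (Nat.mul_le_mul_left _ (not_lt.1 hb0)).trans hR
      unfold yy
      rw [if_pos hn, ← Finset.mul_prod_erase univ (fun j => G (part (put i b s) j)) (mem_univ i)]
      have e1 : part (put i b s) i = b := by
        rw [part_put i i b s hs hb.2, if_pos rfl]
      rw [e1]
      refine le_of_eq ?_
      congr 1
      refine Finset.prod_congr rfl (fun j hj => ?_)
      rw [part_put i j b s hs hb.2, if_neg (Finset.ne_of_mem_erase hj)]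
  calc G b * (∏ p ∈ b, xx q p) * ∏ j ∈ univ.erase i, G (part s j)
      = (G b * ∏ j ∈ univ.erase i, G (part s j)) * ∏ p ∈ b, xx q p := by ring
    _ ≤ yy v R G (put i b s) * ∏ p ∈ b, xx q p := mul_le_mul_of_nonneg_right key h5

/-- the pointwise lower bound -/
private theorem zz_sq_low (i : J) (v : P → ℕ) (hv : ∀ p, 1 ≤ v p) (q : P → ℝ) (hq : ∀ p, 12 ≤ q p)
    (R Y : ℕ) (G : Finset P → ℝ) (hG : Anti G) (hY : ∀ b, Y < nrm v b → G b = 0) (hYR : Y ^ 2 ≤ R)
    (hR : 2 ≤ R) (s : P → Option J) (hs : s ∈ noc i) :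
    (SS (xx q) G * ∏ j ∈ univ.erase i, G (part s j)) ^ 2 *
      (1 - (2 / Real.log R * Real.log (nrm v (supp s)) + 2 * ∑ p ∈ supp s, xx q p)) ≤
      zz i q (yy v R G) s ^ 2 := by
  obtain ⟨n, hn⟩ : ∃ n : ℕ, n = nrm v (supp s) := ⟨_, rfl⟩
  obtain ⟨T, hT⟩ : ∃ T : ℝ, T = ∑ p ∈ supp s, xx q p := ⟨_, rfl⟩
  obtain ⟨A, hA⟩ : ∃ A : ℝ, A = SS (xx q) G * ∏ j ∈ univ.erase i, G (part s j) := ⟨_, rfl⟩
  obtain ⟨Z, hZ⟩ : ∃ Z : ℝ, Z = zz i q (yy v R G) s := ⟨_, rfl⟩
  obtain ⟨Dd, hDd⟩ : ∃ Dd : ℝ, Dd = ∏ p ∈ supp s, (1 + xx q p) := ⟨_, rfl⟩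
  have hn1 : 1 ≤ n := by rw [hn]; exact nrm_pos v hv _
  have hT0 : 0 ≤ T := by rw [hT]; exact Finset.sum_nonneg (fun p _ => (xpos q hq p).le)
  have hL : 0 < Real.log R := Real.log_pos (by
    have : (2 : ℝ) ≤ R := by exact_mod_cast hR
    linarith)
  have hLn : 0 ≤ Real.log n := Real.log_nonneg (by exact_mod_cast hn1)
  have hA0 : 0 ≤ A := by
    rw [hA]
    exact mul_nonneg (SSnn q hq G hG.1) (Finset.prod_nonneg (fun j _ => hG.1 _))
  rw [← hn, ← hT, ← hA, ← hZ]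
  by_cases hcase : n * Y ≤ R
  · have h1 : A ≤ Dd * Z := by
      rw [hA, hDd, hZ]
      exact zz_low i v hv q hq R Y G hG hY s hs (by rw [← hn]; exact hcase)
    have hD1 : Dd ≤ Real.exp T := by
      rw [hDd, hT]
      exact prod_exp _ _ (fun p _ => (xpos q hq p).le)
    have hD0 : 0 < Dd := by
      rw [hDd]
      exact Finset.prod_pos (fun p _ => by have := xpos q hq p; linarith)
    have h2 : A ^ 2 ≤ Dd ^ 2 * Z ^ 2 := by
      rw [← mul_pow]
      exact pow_le_pow_left₀ hA0 h1 2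
    have h3 : Dd ^ 2 ≤ Real.exp (2 * T) := by
      have h4 := pow_le_pow_left₀ hD0.le hD1 2
      rw [← Real.exp_nat_mul] at h4
      exact_mod_cast h4
    have h5 : 1 - (2 / Real.log R * Real.log n + 2 * T) ≤ Real.exp (-(2 * T)) := by
      have h6 := Real.add_one_le_exp (-(2 * T))
      have h7 : 0 ≤ 2 / Real.log R * Real.log n := mul_nonneg (div_nonneg zero_le_two hL.le) hLn
      linarith
    have hZ2 : 0 ≤ Z ^ 2 := sq_nonneg Z
    calc A ^ 2 * (1 - (2 / Real.log R * Real.log n + 2 * T))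
        ≤ A ^ 2 * Real.exp (-(2 * T)) := mul_le_mul_of_nonneg_left h5 (sq_nonneg A)
      _ ≤ (Real.exp (2 * T) * Z ^ 2) * Real.exp (-(2 * T)) := by
          refine mul_le_mul_of_nonneg_right (h2.trans ?_) (Real.exp_pos _).le
          exact mul_le_mul_of_nonneg_right h3 hZ2
      _ = Z ^ 2 * (Real.exp (2 * T) * Real.exp (-(2 * T))) := by ring
      _ = Z ^ 2 := by rw [← Real.exp_add, add_neg_cancel, Real.exp_zero, mul_one]
  · have h1 : R < n * Y := not_le.1 hcase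
    have hY1 : 1 ≤ Y := by
      rcases Nat.eq_zero_or_pos Y with h0 | h0
      · rw [h0, mul_zero] at h1
        exact absurd h1 (Nat.not_lt_zero _)
      · exact h0
    have h2 : R < n ^ 2 := by
      have h3 : R * R < (n * Y) * (n * Y) := Nat.mul_self_lt_mul_self h1
      by_contra h4
      have h5 : n ^ 2 ≤ R := not_lt.1 h4
      have h6 : (n * Y) * (n * Y) = n ^ 2 * Y ^ 2 := by ring
      rw [h6] at h3
      exact absurd h3 (not_lt.2 (Nat.mul_le_mul h5 hYR))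
    have h3 : Real.log R ≤ 2 * Real.log n := by
      have h4 : (R : ℝ) ≤ (n : ℝ) ^ 2 := by exact_mod_cast h2.le
      have h5 := Real.log_le_log (by have : (2 : ℝ) ≤ R := by exact_mod_cast hR
                                     linarith) h4
      rw [Real.log_pow] at h5
      exact_mod_cast h5
    have h4 : 1 ≤ 2 / Real.log R * Real.log n := by
      rw [div_mul_eq_mul_div, le_div_iff₀ hL, one_mul]
      exact h3
    have h5 : 1 - (2 / Real.log R * Real.log n + 2 * T) ≤ 0 := by linarith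
    exact (mul_nonpos_of_nonneg_of_nonpos (sq_nonneg A) h5).trans (sq_nonneg Z)

private theorem log_parts (v : P → ℕ) (hv : ∀ p, 1 ≤ v p) (s : P → Option J) :
    Real.log (nrm v (supp s)) = ∑ j, Real.log (nrm v (part s j)) := by
  rw [nrm_parts, Nat.cast_prod, Real.log_prod]
  intro j _
  have := nrm_pos v hv (part s j)
  positivity

theorem low_P (i : J) (v : P → ℕ) (hv : ∀ p, 1 ≤ v p) (q : P → ℝ) (hq : ∀ p, 12 ≤ q p) (R Y : ℕ)
    (G : Finset P → ℝ) (hG : Anti G) (hY : ∀ b, Y < nrm v b → G b = 0) (hYR : Y ^ 2 ≤ R)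
    (hR : 2 ≤ R) (hδ : KK J ^ 2 * ∑ p, xx q p ^ 2 ≤ 1 / 100)
    (hM : 16 * KK J * MM v (xx q) G ≤ SS (xx q) (fun a => G a ^ 2) * Real.log R) :
    21 / 25 * SS (xx q) G ^ 2 * SS (xx q) (fun a => G a ^ 2) ^ (Fintype.card J - 1) ≤
      ∑ s ∈ noc i, zz i q (yy v R G) s ^ 2 * cprod (xx q) s := by
  obtain ⟨K, hK⟩ : ∃ K : ℝ, K = KK J := ⟨_, rfl⟩
  obtain ⟨δ, hδ'⟩ : ∃ δ : ℝ, δ = ∑ p, xx q p ^ 2 := ⟨_, rfl⟩
  obtain ⟨P2, hP2⟩ : ∃ P2 : ℝ, P2 = SS (xx q) (fun a => G a ^ 2) := ⟨_, rfl⟩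
  obtain ⟨P1, hP1⟩ : ∃ P1 : ℝ, P1 = SS (xx q) G := ⟨_, rfl⟩
  obtain ⟨M, hM'⟩ : ∃ M : ℝ, M = MM v (xx q) G := ⟨_, rfl⟩
  obtain ⟨L, hL'⟩ : ∃ L : ℝ, L = Real.log R := ⟨_, rfl⟩
  have hL : 0 < L := by
    rw [hL']
    exact Real.log_pos (by
      have : (2 : ℝ) ≤ R := by exact_mod_cast hR
      linarith)
  have hK1 : 1 ≤ K := by
    rw [hK]; unfold KK
    have : 0 < Fintype.card J := Fintype.card_pos_iff.2 ⟨i⟩
    exact_mod_cast this
  have hδ0 : 0 ≤ δ := by rw [hδ']; exact Finset.sum_nonneg (fun p _ => sq_nonneg _)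
  have hP20 : 0 ≤ P2 := by rw [hP2]; exact SSnn q hq _ (fun a => sq_nonneg _)
  have hP10 : 0 ≤ P1 := by rw [hP1]; exact SSnn q hq _ hG.1
  have hx0 : ∀ a : Finset P, 0 ≤ ∏ p ∈ a, xx q p := fun a =>
    Finset.prod_nonneg (fun p _ => (xpos q hq p).le)
  obtain ⟨F, hF⟩ : ∃ F : J → Finset P → ℝ, F = fun j a =>
    if j = i then (if a = ∅ then 1 else 0) else G a ^ 2 * ∏ p ∈ a, xx q p := ⟨_, rfl⟩
  obtain ⟨g, hg⟩ : ∃ g : J → Finset P → ℝ, g = fun _ a =>
    2 / L * Real.log (nrm v a) + 2 * ∑ p ∈ a, xx q p := ⟨_, rfl⟩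
  obtain ⟨ε, hε⟩ : ∃ ε : ℝ, ε = 1 / (8 * K) + 2 * δ := ⟨_, rfl⟩
  have hFi : ∀ a, F i a = if a = ∅ then 1 else 0 := by
    intro a
    rw [hF]
    simp
  have hFj : ∀ j, j ≠ i → ∀ a, F j a = G a ^ 2 * ∏ p ∈ a, xx q p := by
    intro j hj a
    rw [hF]
    simp [hj]
  have hSi : ∑ a, F i a = 1 := by
    rw [Finset.sum_congr rfl (fun a _ => hFi a)]
    simp
  have hSj : ∀ j, j ≠ i → ∑ a, F j a = P2 := by
    intro j hj
    rw [Finset.sum_congr rfl (fun a _ => hFj j hj a), hP2]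
    rfl
  have hF0 : ∀ j a, 0 ≤ F j a := by
    intro j a
    by_cases hj : j = i
    · rw [hj, hFi]
      split_ifs
      · exact zero_le_one
      · exact le_refl _
    · rw [hFj j hj]
      exact mul_nonneg (sq_nonneg _) (hx0 a)
  have hlog0 : ∀ a : Finset P, 0 ≤ Real.log (nrm v a) := fun a =>
    Real.log_nonneg (by exact_mod_cast nrm_pos v hv a)
  have h2L : 0 ≤ 2 / L := (div_pos two_pos hL).le
  have hg0 : ∀ j a, 0 ≤ g j a := by
    intro j a
    rw [hg]
    have h1 : 0 ≤ ∑ p ∈ a, xx q p := Finset.sum_nonneg (fun p _ => (xpos q hq p).le)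
    have h2 := mul_nonneg h2L (hlog0 a)
    dsimp only
    linarith
  have hε0 : 0 ≤ ε := by
    rw [hε]
    have : 0 < 1 / (8 * K) := by positivity
    linarith
  have hmem : ∀ j p, ∑ a ∈ univ.filter (fun a : Finset P => p ∈ a), F j a ≤
      xx q p * ∑ a, F j a := by
    intro j p
    by_cases hj : j = i
    · rw [hj, hSi, mul_one]
      have h1 : ∑ a ∈ univ.filter (fun a : Finset P => p ∈ a), F i a = 0 := by
        refine Finset.sum_eq_zero (fun a ha => ?_)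
        rw [mem_filter] at ha
        rw [hFi, if_neg (fun h => by rw [h] at ha; exact absurd ha.2 (Finset.notMem_empty p))]
      rw [h1]
      exact (xpos q hq p).le
    · rw [hSj j hj, Finset.sum_congr rfl (fun a _ => hFj j hj a), hP2]
      exact one_mem (xx q) (fun p => (xpos q hq p).le) (fun a => G a ^ 2) (anti_sq G hG) p
  have hgm : ∀ j, ∑ a, F j a * g j a ≤ ε * ∑ a, F j a := by
    intro j
    by_cases hj : j = i
    · rw [hj, hSi, mul_one]
      have h1 : ∑ a, F i a * g i a = 0 := by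
        refine Finset.sum_eq_zero (fun a _ => ?_)
        rw [hFi]
        by_cases ha : a = ∅
        · rw [if_pos ha, ha, hg]
          simp [nrm]
        · rw [if_neg ha, zero_mul]
      rw [h1]
      exact hε0
    · rw [hSj j hj]
      have h1 : ∑ a, F j a * g j a = 2 / L * M + 2 * ∑ p, xx q p *
          ∑ a ∈ univ.filter (fun a : Finset P => p ∈ a), G a ^ 2 * ∏ p ∈ a, xx q p := by
        have h2 : ∀ a : Finset P, F j a * g j a =
            2 / L * (G a ^ 2 * Real.log (nrm v a) * ∏ p ∈ a, xx q p) +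
            2 * ∑ p ∈ a, xx q p * (G a ^ 2 * ∏ p ∈ a, xx q p) := by
          intro a
          rw [hFj j hj, hg, ← Finset.sum_mul]
          ring
        rw [Finset.sum_congr rfl (fun a _ => h2 a), Finset.sum_add_distrib, ← Finset.mul_sum,
          ← Finset.mul_sum, hM']
        congr 1
        congr 1
        have h3 : ∀ p : P, xx q p *
            ∑ a ∈ univ.filter (fun a : Finset P => p ∈ a), G a ^ 2 * ∏ p ∈ a, xx q p =
            ∑ a : Finset P, if p ∈ a then xx q p * (G a ^ 2 * ∏ p ∈ a, xx q p) else 0 := by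
          intro p
          rw [Finset.mul_sum, Finset.sum_filter]
        rw [Finset.sum_congr rfl (fun p _ => h3 p), Finset.sum_comm]
        refine Finset.sum_congr rfl (fun a _ => ?_)
        rw [← Finset.sum_filter]
        refine Finset.sum_congr ?_ (fun p _ => rfl)
        ext p
        simp
      rw [h1]
      have h4 : 2 / L * M ≤ 1 / (8 * K) * P2 := by
        rw [← hK, ← hM', ← hP2, ← hL'] at hM
        rw [div_mul_eq_mul_div, div_mul_eq_mul_div, div_le_div_iff₀ hL (by positivity)]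
        nlinarith
      have h5 : ∑ p, xx q p *
          ∑ a ∈ univ.filter (fun a : Finset P => p ∈ a), G a ^ 2 * ∏ p ∈ a, xx q p ≤ δ * P2 := by
        rw [hδ', Finset.sum_mul]
        refine Finset.sum_le_sum (fun p _ => ?_)
        have h6 := one_mem (xx q) (fun p => (xpos q hq p).le) (fun a => G a ^ 2) (anti_sq G hG) p
        rw [← hP2] at h6
        calc xx q p * _ ≤ xx q p * (xx q p * P2) := mul_le_mul_of_nonneg_left h6 (xpos q hq p).le
          _ = xx q p ^ 2 * P2 := by ring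
      rw [hε]
      linarith
  have htup := tuple_low F g (xx q) ε hF0 hg0 (fun p => (xpos q hq p).le) hmem hgm
  rw [← hK, ← hδ'] at htup
  have hprod : ∏ j, ∑ a, F j a = P2 ^ (Fintype.card J - 1) := by
    rw [← Finset.mul_prod_erase univ _ (mem_univ i), hSi, one_mul,
      Finset.prod_congr rfl (fun j hj => hSj j (Finset.ne_of_mem_erase hj)), Finset.prod_const,
      Finset.card_erase_of_mem (mem_univ i), Finset.card_univ]
  rw [hprod] at htup
  have hnum : 21 / 25 ≤ 1 - K ^ 2 * δ - K * ε := by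
    have h1 : K ^ 2 * δ ≤ 1 / 100 := by rw [hK, hδ']; exact hδ
    have h2 : K * δ ≤ K ^ 2 * δ := by
      refine mul_le_mul_of_nonneg_right ?_ hδ0
      nlinarith
    have h3 : K * ε = 1 / 8 + 2 * (K * δ) := by
      rw [hε]
      have : K ≠ 0 := by linarith
      field_simp
    rw [h3]
    linarith
  have hterm : ∀ s ∈ noc i, P1 ^ 2 * ((∏ j, F j (part s j)) * (1 - ∑ j, g j (part s j))) ≤
      zz i q (yy v R G) s ^ 2 * cprod (xx q) s := by
    intro s hs
    have h1 := zz_sq_low i v hv q hq R Y G hG hY hYR hR s hs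
    have h2 : ∑ j, g j (part s j) =
        2 / Real.log R * Real.log (nrm v (supp s)) + 2 * ∑ p ∈ supp s, xx q p := by
      rw [log_parts v hv, supp_parts, Finset.mul_sum, Finset.mul_sum, ← Finset.sum_add_distrib, hg,
        hL']
    have h3 : cprod (xx q) s = ∏ j ∈ univ.erase i, ∏ p ∈ part s j, xx q p := by
      rw [cprod_parts, ← Finset.mul_prod_erase univ _ (mem_univ i), (mem_noc i s).1 hs,
        Finset.prod_empty, one_mul]
    have h4 : ∏ j, F j (part s j) =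
        (∏ j ∈ univ.erase i, G (part s j)) ^ 2 * cprod (xx q) s := by
      rw [← Finset.mul_prod_erase univ _ (mem_univ i), hFi, (mem_noc i s).1 hs, if_pos rfl, one_mul,
        h3, ← Finset.prod_pow, ← Finset.prod_mul_distrib]
      exact Finset.prod_congr rfl (fun j hj => hFj j (Finset.ne_of_mem_erase hj) _)
    have h5 : 0 ≤ cprod (xx q) s := by
      rw [h3]
      exact Finset.prod_nonneg (fun j _ => hx0 _)
    rw [← h2, ← hP1] at h1
    refine le_trans (le_of_eq ?_) (mul_le_mul_of_nonneg_right h1 h5)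
    rw [h4]
    ring
  have hsum : ∑ r : P → Option J, (∏ j, F j (part r j)) * (1 - ∑ j, g j (part r j)) =
      ∑ s ∈ noc i, (∏ j, F j (part s j)) * (1 - ∑ j, g j (part s j)) := by
    rw [sum_noc]
    refine Finset.sum_congr rfl (fun r _ => ?_)
    by_cases hr : part r i = ∅
    · rw [if_pos hr, mul_one]
    · rw [if_neg hr, mul_zero]
      have h1 : ∏ j, F j (part r j) = 0 := by
        refine Finset.prod_eq_zero (mem_univ i) ?_
        rw [hFi, if_neg hr]
      rw [h1, zero_mul]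
  rw [← hP1, ← hP2]
  have hPc : 0 ≤ P2 ^ (Fintype.card J - 1) := pow_nonneg hP20 _
  calc 21 / 25 * P1 ^ 2 * P2 ^ (Fintype.card J - 1)
      = P1 ^ 2 * (P2 ^ (Fintype.card J - 1) * (21 / 25)) := by ring
    _ ≤ P1 ^ 2 * (P2 ^ (Fintype.card J - 1) * (1 - K ^ 2 * δ - K * ε)) :=
        mul_le_mul_of_nonneg_left (mul_le_mul_of_nonneg_left hnum hPc) (sq_nonneg _)
    _ ≤ P1 ^ 2 * ∑ s ∈ noc i, (∏ j, F j (part s j)) * (1 - ∑ j, g j (part s j)) := by
        rw [← hsum]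
        exact mul_le_mul_of_nonneg_left htup (sq_nonneg _)
    _ ≤ ∑ s ∈ noc i, zz i q (yy v R G) s ^ 2 * cprod (xx q) s := by
        rw [Finset.mul_sum]
        exact Finset.sum_le_sum hterm

theorem EP_low (i : J) (v : P → ℕ) (hv : ∀ p, 1 ≤ v p) (q : P → ℝ) (hq : ∀ p, 12 ≤ q p) (R Y : ℕ)
    (G : Finset P → ℝ) (hG : Anti G) (hY : ∀ b, Y < nrm v b → G b = 0) (hYR : Y ^ 2 ≤ R)
    (hR : 2 ≤ R) (hδ : KK J ^ 2 * ∑ p, xx q p ^ 2 ≤ 1 / 100)
    (hM : 16 * KK J * MM v (xx q) G ≤ SS (xx q) (fun a => G a ^ 2) * Real.log R) :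
    1 / 2 * SS (xx q) G ^ 2 * SS (xx q) (fun a => G a ^ 2) ^ (Fintype.card J - 1) ≤
      EP i q (fun ξ : P → Option J => Lam q (yy v R G) ξ ^ 2) := by
  have h1 := prime_low i q hq (yy v R G)
  have h2 := low_P i v hv q hq R Y G hG hY hYR hR hδ hM
  have h3 := sum_up i v q hq R G hG hδ
  have h4 : 0 ≤ SS (xx q) G ^ 2 * SS (xx q) (fun a => G a ^ 2) ^ (Fintype.card J - 1) :=
    mul_nonneg (sq_nonneg _) (pow_nonneg (SSnn q hq _ (fun a => sq_nonneg _)) _)
  obtain ⟨X, hX⟩ : ∃ X : ℝ, X = SS (xx q) G ^ 2 *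
    SS (xx q) (fun a => G a ^ 2) ^ (Fintype.card J - 1) := ⟨_, rfl⟩
  rw [mul_assoc, ← hX] at h2 h3 ⊢
  rw [← hX] at h4
  linarith

end Pool.DL
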