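import Pool.Agent.Lib.MP_c77da8_nt.DL.Up
import Pool.Agent.Lib.MP_c77da8_nt.DL.Yj

/-!
# DL-PairUp: upper bound for the pairs of forms

Notation: `K = KK J` (`≥ 2`), `δ = ∑_p x_p²`, `P1 = SS x G`, `P2 = SS x (G²)`, `V = VV v q R ∅`.

PROOF.  `prime_up` for the weight `yj`.  Let `s ∈ noc i`.  By `zz_eq` (for `i`), `part_put`:
`zz i q (yj ..) s = ∑_{b disjoint from supp s} [nrm (part s j) ≤ R] zz j q y t / VV v q R (supp t) * x(b)` with
`t = strip j (put i b s) ∈ noc j`;  `supp t = (supp s \ part s j) ∪ b`, `part t i = b`, `part t l = part s l` for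
`l ≠ i, j`.  By `zz_up`: `zz j q y t ≤ P1 * G b * ∏_{l ≠ i, j} G (part s l)`; by `one_low` with `anti_ind`
(`SS x (indicator of nrm ≤ R) = V`): `V ≤ ∏_{supp t} (1+x) * VV v q R (supp t)`.  So, with
`Q = ∏_{p ∈ supp s \ part s j} (1 + x_p) = ∏_{l ≠ i, j} ∏_{part s l} (1 + x)`,
`zz i q (yj ..) s ≤ [nrm (part s j) ≤ R] (P1/V) ∏_{l≠i,j} G (part s l) Q ∑_b G b ∏_b (x (1 + x))`
and the last sum is `≤ ∏ (1 + x²) P1` (`one_up`).  Therefore (`sum_noc`, `cprod_parts`, `sum_parts_le`)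
`∑_s zz² cprod (x (1+Kx)) s ≤ (P1⁴/V²) (∏ (1+x²))² * [∑_{nrm a ≤ R} ∏_a x (1 + K x)] *
  [∑_a G a² ∏_a x (1+x)² (1+K x)]^(K-2)`
and by `one_up` the brackets are `≤ ∏ (1 + K x²) V` and `≤ ∏ (1 + 4 K x²) P2`
(`(1+x)² (1+Kx) = 1 + h`, `h ≤ x (2.1 + 1.21 K) ≤ 4 K x` as `x ≤ 1/10`).  All the products together are
`≤ exp ((2 + K + 4 K (K-2)) δ) ≤ exp (4 K² δ) ≤ exp (1/25) ≤ 11/10`.
-/

set_option autoImplicit false

namespace Pool.DL

open Finset

variable {P J : Type} [Fintype P] [DecidableEq P] [Fintype J] [DecidableEq J]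

private theorem pu_xpos (q : P → ℝ) (hq : ∀ p, 12 ≤ q p) (p : P) : 0 < xx q p := by
  unfold xx
  have := hq p
  exact div_pos one_pos (by linarith)

private theorem pu_xle (q : P → ℝ) (hq : ∀ p, 12 ≤ q p) (p : P) : xx q p ≤ 1 / 10 := by
  unfold xx
  have := hq p
  rw [div_le_div_iff₀ (by linarith) (by norm_num)]
  linarith

private theorem pu_VV (v : P → ℕ) (q : P → ℝ) (R : ℕ) (S : Finset P) :
    VV v q R S = ∑ a ∈ univ.filter (fun a : Finset P => Disjoint a S),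
      (if nrm v a ≤ R then (1 : ℝ) else 0) * ∏ p ∈ a, xx q p := by
  unfold VV
  rw [← Finset.filter_filter, Finset.sum_filter]
  refine Finset.sum_congr rfl fun a _ => ?_
  split_ifs
  · rw [one_mul]
  · rw [zero_mul]

private theorem pu_VV0 (v : P → ℕ) (q : P → ℝ) (R : ℕ) :
    VV v q R ∅ = SS (xx q) (fun a : Finset P => if nrm v a ≤ R then (1 : ℝ) else 0) := by
  rw [pu_VV]
  unfold SS
  refine Finset.sum_congr ?_ fun a _ => rfl
  ext a
  simp

private theorem pu_Vle (v : P → ℕ) (hv : ∀ p, 1 ≤ v p) (q : P → ℝ) (hq : ∀ p, 12 ≤ q p) (R : ℕ)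
    (S : Finset P) : VV v q R ∅ ≤ (∏ p ∈ S, (1 + xx q p)) * VV v q R S := by
  rw [pu_VV0, pu_VV]
  exact one_low (xx q) (fun p => (pu_xpos q hq p).le) _ (anti_ind v hv R) S

private theorem pu_part_strip (j l : J) (r : P → Option J) :
    part (strip j r) l = if l = j then ∅ else part r l := by
  by_cases h : l = j
  · rw [if_pos h]
    subst h
    ext p
    simp only [part, strip, mem_filter, mem_univ, true_and, notMem_empty, iff_false]
    by_cases hp : r p = some l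
    · simp [hp]
    · simp [hp]
  · rw [if_neg h]
    ext p
    simp only [part, strip, mem_filter, mem_univ, true_and]
    by_cases hp : r p = some j
    · simp [hp, Ne.symm h]
    · simp [hp]

private theorem pu_exp_small {t : ℝ} (ht : 0 ≤ t) (ht1 : t ≤ 1 / 2) : Real.exp t ≤ 1 + t + t ^ 2 := by
  have h1 := Real.abs_exp_sub_one_sub_id_le (x := t) (by rw [abs_of_nonneg ht]; linarith)
  have h2 := (abs_le.1 h1).2
  linarith

private theorem pu_SS_nonneg (q : P → ℝ) (hq : ∀ p, 12 ≤ q p) (G : Finset P → ℝ)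
    (hG : ∀ a, 0 ≤ G a) : 0 ≤ SS (xx q) G := by
  unfold SS
  exact Finset.sum_nonneg (fun a _ => mul_nonneg (hG a)
    (Finset.prod_nonneg (fun p _ => (pu_xpos q hq p).le)))

/-- a product over all forms with the forms `i`, `j` split off -/
private theorem pu_split {M : Type} [CommMonoid M] (i j : J) (hij : i ≠ j) (f : J → M) :
    ∏ l, f l = f i * (f j * ∏ l ∈ (univ.erase i).erase j, f l) := by
  rw [Finset.mul_prod_erase (univ.erase i) f (Finset.mem_erase.2 ⟨hij.symm, mem_univ j⟩),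
    Finset.mul_prod_erase univ f (mem_univ i)]

private theorem pu_w_le (i j : J) (hij : i ≠ j) (v : P → ℕ) (hv : ∀ p, 1 ≤ v p) (q : P → ℝ)
    (hq : ∀ p, 12 ≤ q p) (R : ℕ) (hR : 1 ≤ R) (G : Finset P → ℝ) (hG : Anti G)
    (s : P → Option J) (hs : s ∈ noc i) (b : Finset P) (hb : Disjoint b (supp s)) :
    yj j v q R (yy v R G) (put i b s) ≤
      (if nrm v (part s j) ≤ R then (1 : ℝ) else 0) * (SS (xx q) G / VV v q R ∅) *
        (G b * ∏ p ∈ b, (1 + xx q p)) *
        ∏ l ∈ (univ.erase i).erase j, (G (part s l) * ∏ p ∈ part s l, (1 + xx q p)) := by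
  have hp1 : part (put i b s) j = part s j := by
    rw [part_put i j b s hs hb, if_neg hij.symm]
  unfold yj
  rw [hp1]
  by_cases hN : nrm v (part s j) ≤ R
  · rw [if_pos hN, if_pos hN, one_mul]
    obtain ⟨t, ht⟩ : ∃ t : P → Option J, t = strip j (put i b s) := ⟨_, rfl⟩
    rw [← ht]
    have hti : part t i = b := by
      rw [ht, pu_part_strip, if_neg hij, part_put i i b s hs hb, if_pos rfl]
    have htj : part t j = ∅ := by
      rw [ht, pu_part_strip, if_pos rfl]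
    have htl : ∀ l ∈ (univ.erase i).erase j, part t l = part s l := by
      intro l hl
      have h1 : l ≠ j := (Finset.mem_erase.1 hl).1
      have h2 : l ≠ i := (Finset.mem_erase.1 (Finset.mem_erase.1 hl).2).1
      rw [ht, pu_part_strip, if_neg h1, part_put i l b s hs hb, if_neg h2]
    have htn : t ∈ noc j := (mem_noc j t).2 htj
    have hz := zz_up j v q hq R G hG t htn
    have e1 : ∏ l ∈ univ.erase j, G (part t l) =
        G b * ∏ l ∈ (univ.erase i).erase j, G (part s l) := by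
      rw [Finset.erase_right_comm, ← Finset.mul_prod_erase (univ.erase j) (fun l => G (part t l))
        (Finset.mem_erase.2 ⟨hij, mem_univ i⟩)]
      rw [hti]
      congr 1
      refine Finset.prod_congr rfl fun l hl => ?_
      rw [Finset.erase_right_comm] at hl
      rw [htl l hl]
    rw [e1] at hz
    have e2 : ∏ p ∈ supp t, (1 + xx q p) = (∏ p ∈ b, (1 + xx q p)) *
        ∏ l ∈ (univ.erase i).erase j, ∏ p ∈ part s l, (1 + xx q p) := by
      rw [prod_parts, pu_split i j hij, hti, htj, Finset.prod_empty, one_mul]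
      congr 1
      refine Finset.prod_congr rfl fun l hl => ?_
      rw [htl l hl]
    have hV := pu_Vle v hv q hq R (supp t)
    have hVt : 1 ≤ VV v q R (supp t) := VV_ge v q hq R hR (supp t)
    have hV0 : 1 ≤ VV v q R ∅ := VV_ge v q hq R hR ∅
    have hP1 : 0 ≤ SS (xx q) G := pu_SS_nonneg q hq G hG.1
    have hG0 : 0 ≤ G b * ∏ l ∈ (univ.erase i).erase j, G (part s l) :=
      mul_nonneg (hG.1 _) (Finset.prod_nonneg fun l _ => hG.1 _)
    rw [div_le_iff₀ (by linarith)]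
    refine hz.trans ?_
    rw [Finset.prod_mul_distrib]
    have h3 : SS (xx q) G * (G b * ∏ l ∈ (univ.erase i).erase j, G (part s l)) ≤
        SS (xx q) G * (G b * ∏ l ∈ (univ.erase i).erase j, G (part s l)) *
          (((∏ p ∈ supp t, (1 + xx q p)) * VV v q R (supp t)) / VV v q R ∅) := by
      refine le_mul_of_one_le_right (mul_nonneg hP1 hG0) ?_
      rw [le_div_iff₀ (by linarith), one_mul]
      exact hV
    refine h3.trans (le_of_eq ?_)
    rw [e2]
    ring
  · rw [if_neg hN, if_neg hN]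
    simp

private theorem pu_zz_le (i j : J) (hij : i ≠ j) (v : P → ℕ) (hv : ∀ p, 1 ≤ v p) (q : P → ℝ)
    (hq : ∀ p, 12 ≤ q p) (R : ℕ) (hR : 1 ≤ R) (G : Finset P → ℝ) (hG : Anti G)
    (s : P → Option J) (hs : s ∈ noc i) :
    zz i q (yj j v q R (yy v R G)) s ≤
      (if nrm v (part s j) ≤ R then (1 : ℝ) else 0) *
        ((∏ p, (1 + xx q p ^ 2)) * SS (xx q) G ^ 2 / VV v q R ∅) *
        ∏ l ∈ (univ.erase i).erase j, (G (part s l) * ∏ p ∈ part s l, (1 + xx q p)) := by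
  obtain ⟨A, hA⟩ : ∃ A : ℝ, A = (if nrm v (part s j) ≤ R then (1 : ℝ) else 0) := ⟨_, rfl⟩
  obtain ⟨B, hB⟩ : ∃ B : ℝ, B = ∏ l ∈ (univ.erase i).erase j,
    (G (part s l) * ∏ p ∈ part s l, (1 + xx q p)) := ⟨_, rfl⟩
  obtain ⟨V, hV⟩ : ∃ V : ℝ, V = VV v q R ∅ := ⟨_, rfl⟩
  obtain ⟨P1, hP⟩ : ∃ P1 : ℝ, P1 = SS (xx q) G := ⟨_, rfl⟩
  have hx : ∀ p, 0 ≤ xx q p := fun p => (pu_xpos q hq p).le
  have hV1 : 1 ≤ V := by rw [hV]; exact VV_ge v q hq R hR ∅
  have hA0 : 0 ≤ A := by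
    rw [hA]
    split_ifs
    · exact zero_le_one
    · exact le_refl _
  have hB0 : 0 ≤ B := by
    rw [hB]
    exact Finset.prod_nonneg fun l _ => mul_nonneg (hG.1 _)
      (Finset.prod_nonneg fun p _ => by have := hx p; linarith)
  have hP0 : 0 ≤ P1 := by rw [hP]; exact pu_SS_nonneg q hq G hG.1
  rw [← hA, ← hB, ← hV, ← hP]
  rw [zz_eq i q _ s hs]
  have h1 : ∀ b ∈ univ.filter (fun b : Finset P => Disjoint b (supp s)),
      yj j v q R (yy v R G) (put i b s) * ∏ p ∈ b, xx q p ≤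
        (A * (P1 / V) * B) * (G b * ∏ p ∈ b, (xx q p * (1 + xx q p))) := by
    intro b hb
    rw [mem_filter] at hb
    have h2 := pu_w_le i j hij v hv q hq R hR G hG s hs b hb.2
    rw [← hA, ← hB, ← hV, ← hP] at h2
    refine (mul_le_mul_of_nonneg_right h2 (Finset.prod_nonneg fun p _ => hx p)).trans
      (le_of_eq ?_)
    rw [Finset.prod_mul_distrib]
    ring
  refine (Finset.sum_le_sum h1).trans ?_
  rw [← Finset.mul_sum]
  have hc : 0 ≤ A * (P1 / V) * B :=
    mul_nonneg (mul_nonneg hA0 (div_nonneg hP0 (by linarith))) hB0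
  have h3 : ∑ b ∈ univ.filter (fun b : Finset P => Disjoint b (supp s)),
      G b * ∏ p ∈ b, (xx q p * (1 + xx q p)) ≤ (∏ p, (1 + xx q p ^ 2)) * P1 := by
    have h4 := one_up (xx q) (xx q) hx hx G hG
    rw [← hP] at h4
    have h5 : ∏ p, (1 + xx q p * xx q p) = ∏ p, (1 + xx q p ^ 2) :=
      Finset.prod_congr rfl fun p _ => by ring
    rw [h5] at h4
    refine le_trans ?_ h4
    refine Finset.sum_le_univ_sum_of_nonneg fun b => mul_nonneg (hG.1 _)
      (Finset.prod_nonneg fun p _ => mul_nonneg (hx p) (by have := hx p; linarith))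
  refine (mul_le_mul_of_nonneg_left h3 hc).trans (le_of_eq ?_)
  ring

private theorem pu_zz_nonneg (i j : J) (v : P → ℕ) (q : P → ℝ)
    (hq : ∀ p, 12 ≤ q p) (R : ℕ) (hR : 1 ≤ R) (G : Finset P → ℝ) (hG : Anti G)
    (s : P → Option J) : 0 ≤ zz i q (yj j v q R (yy v R G)) s := by
  refine zz_nonneg i q hq _ (fun r => ?_) s
  unfold yj
  split_ifs
  · have h1 := VV_ge v q hq R hR (supp (strip j r))
    exact div_nonneg (zz_nonneg j q hq _ (yy_nonneg v R G hG) _) (by linarith)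
  · exact le_refl _

theorem pair_up (i j : J) (hij : i ≠ j) (v : P → ℕ) (hv : ∀ p, 1 ≤ v p) (q : P → ℝ)
    (hq : ∀ p, 12 ≤ q p) (R : ℕ) (hR : 1 ≤ R) (G : Finset P → ℝ) (hG : Anti G)
    (hδ : KK J ^ 2 * ∑ p, xx q p ^ 2 ≤ 1 / 100) :
    EP i q (fun ξ : P → Option J => Lam q (yj j v q R (yy v R G)) ξ ^ 2) * VV v q R ∅ ≤
      11 / 10 * SS (xx q) G ^ 4 * SS (xx q) (fun a => G a ^ 2) ^ (Fintype.card J - 2) := by
  obtain ⟨K, hK⟩ : ∃ K : ℝ, K = KK J := ⟨_, rfl⟩
  obtain ⟨δ, hδ'⟩ : ∃ δ : ℝ, δ = ∑ p, xx q p ^ 2 := ⟨_, rfl⟩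
  obtain ⟨P2, hP2⟩ : ∃ P2 : ℝ, P2 = SS (xx q) (fun a => G a ^ 2) := ⟨_, rfl⟩
  obtain ⟨P1, hP1⟩ : ∃ P1 : ℝ, P1 = SS (xx q) G := ⟨_, rfl⟩
  obtain ⟨V, hV⟩ : ∃ V : ℝ, V = VV v q R ∅ := ⟨_, rfl⟩
  obtain ⟨E1, hE1⟩ : ∃ E1 : ℝ, E1 = ∏ p, (1 + xx q p ^ 2) := ⟨_, rfl⟩
  have hx : ∀ p, 0 ≤ xx q p := fun p => (pu_xpos q hq p).le
  have hx10 : ∀ p, xx q p ≤ 1 / 10 := pu_xle q hq
  have hcard : 2 ≤ Fintype.card J := by
    have h1 : 1 < Fintype.card J := Fintype.one_lt_card_iff.2 ⟨i, j, hij⟩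
    omega
  have hKc : (Fintype.card J : ℝ) = K := by rw [hK]; rfl
  have hK2 : 2 ≤ K := by rw [← hKc]; exact_mod_cast hcard
  have hV1 : 1 ≤ V := by rw [hV]; exact VV_ge v q hq R hR ∅
  have hP20 : 0 ≤ P2 := by rw [hP2]; exact pu_SS_nonneg q hq _ (fun a => sq_nonneg _)
  have hP10 : 0 ≤ P1 := by rw [hP1]; exact pu_SS_nonneg q hq _ hG.1
  have hE10 : 0 ≤ E1 := by rw [hE1]; exact Finset.prod_nonneg fun p _ => by positivity
  obtain ⟨F, hF⟩ : ∃ F : J → Finset P → ℝ, F = fun l a =>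
    if l = i then (if a = ∅ then 1 else 0)
    else if l = j then (if nrm v a ≤ R then 1 else 0) * ∏ p ∈ a, (xx q p * (1 + K * xx q p))
    else G a ^ 2 * ∏ p ∈ a, (xx q p * ((1 + xx q p) ^ 2 * (1 + K * xx q p))) := ⟨_, rfl⟩
  have hxK : ∀ p, 0 ≤ xx q p * (1 + K * xx q p) := by
    intro p
    have := hx p
    have : 0 ≤ K * xx q p := mul_nonneg (by linarith) this
    exact mul_nonneg (hx p) (by linarith)
  have hxK2 : ∀ p, 0 ≤ xx q p * ((1 + xx q p) ^ 2 * (1 + K * xx q p)) := by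
    intro p
    have := hx p
    have : 0 ≤ K * xx q p := mul_nonneg (by linarith) this
    exact mul_nonneg (hx p) (mul_nonneg (sq_nonneg _) (by linarith))
  have hF0 : ∀ l a, 0 ≤ F l a := by
    intro l a
    rw [hF]
    dsimp only
    split_ifs
    · exact zero_le_one
    · exact le_refl _
    · exact mul_nonneg zero_le_one (Finset.prod_nonneg fun p _ => hxK p)
    · exact mul_nonneg (le_refl _) (Finset.prod_nonneg fun p _ => hxK p)
    · exact mul_nonneg (sq_nonneg _) (Finset.prod_nonneg fun p _ => hxK2 p)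
  have hFi : ∀ a, F i a = if a = ∅ then 1 else 0 := by
    intro a
    rw [hF]
    dsimp only
    rw [if_pos rfl]
  have hFj : ∀ a, F j a = (if nrm v a ≤ R then 1 else 0) *
      ∏ p ∈ a, (xx q p * (1 + K * xx q p)) := by
    intro a
    rw [hF]
    dsimp only
    rw [if_neg hij.symm, if_pos rfl]
  have hFl : ∀ l ∈ (univ.erase i).erase j, ∀ a, F l a = G a ^ 2 *
      ∏ p ∈ a, (xx q p * ((1 + xx q p) ^ 2 * (1 + K * xx q p))) := by
    intro l hl a
    have h1 : l ≠ j := (Finset.mem_erase.1 hl).1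
    have h2 : l ≠ i := (Finset.mem_erase.1 (Finset.mem_erase.1 hl).2).1
    rw [hF]
    dsimp only
    rw [if_neg h2, if_neg h1]
  have hterm : ∀ s ∈ noc i, zz i q (yj j v q R (yy v R G)) s ^ 2 *
      cprod (fun p => xx q p * (1 + K * xx q p)) s ≤
        (E1 * P1 ^ 2 / V) ^ 2 * ∏ l, F l (part s l) := by
    intro s hs
    have h1 := pu_zz_le i j hij v hv q hq R hR G hG s hs
    have h0 := pu_zz_nonneg i j v q hq R hR G hG s
    rw [← hP1, ← hV, ← hE1] at h1
    have h2 := pow_le_pow_left₀ h0 h1 2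
    have h3 : cprod (fun p => xx q p * (1 + K * xx q p)) s =
        (∏ p ∈ part s j, (xx q p * (1 + K * xx q p))) *
          ∏ l ∈ (univ.erase i).erase j, ∏ p ∈ part s l, (xx q p * (1 + K * xx q p)) := by
      rw [cprod_parts, pu_split i j hij, (mem_noc i s).1 hs, Finset.prod_empty, one_mul]
    have h4 : ∏ l, F l (part s l) = ((if nrm v (part s j) ≤ R then 1 else 0) *
        ∏ p ∈ part s j, (xx q p * (1 + K * xx q p))) * ∏ l ∈ (univ.erase i).erase j,
        (G (part s l) ^ 2 * ∏ p ∈ part s l, (xx q p * ((1 + xx q p) ^ 2 * (1 + K * xx q p)))) := by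
      rw [pu_split i j hij, hFi, if_pos ((mem_noc i s).1 hs), one_mul, hFj]
      congr 1
      refine Finset.prod_congr rfl fun l hl => ?_
      rw [hFl l hl]
    have h5 : 0 ≤ cprod (fun p => xx q p * (1 + K * xx q p)) s := by
      rw [h3]
      exact mul_nonneg (Finset.prod_nonneg fun p _ => hxK p)
        (Finset.prod_nonneg fun l _ => Finset.prod_nonneg fun p _ => hxK p)
    refine (mul_le_mul_of_nonneg_right h2 h5).trans (le_of_eq ?_)
    rw [h3, h4]
    have h6 : ∏ l ∈ (univ.erase i).erase j,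
        (G (part s l) ^ 2 * ∏ p ∈ part s l, (xx q p * ((1 + xx q p) ^ 2 * (1 + K * xx q p)))) =
        (∏ l ∈ (univ.erase i).erase j, (G (part s l) * ∏ p ∈ part s l, (1 + xx q p))) ^ 2 *
          ∏ l ∈ (univ.erase i).erase j, ∏ p ∈ part s l, (xx q p * (1 + K * xx q p)) := by
      rw [← Finset.prod_pow, ← Finset.prod_mul_distrib]
      refine Finset.prod_congr rfl fun l _ => ?_
      rw [mul_pow, ← Finset.prod_pow, mul_assoc, ← Finset.prod_mul_distrib]
      congr 1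
      refine Finset.prod_congr rfl fun p _ => ?_
      ring
    rw [h6]
    have h7 : ((if nrm v (part s j) ≤ R then (1 : ℝ) else 0)) ^ 2 =
        (if nrm v (part s j) ≤ R then (1 : ℝ) else 0) := by
      split_ifs
      · norm_num
      · norm_num
    rw [mul_pow, mul_pow, h7]
    ring
  have h6 : ∑ s ∈ noc i, (E1 * P1 ^ 2 / V) ^ 2 * ∏ l, F l (part s l) ≤
      (E1 * P1 ^ 2 / V) ^ 2 * ∏ l, ∑ a, F l a := by
    rw [← Finset.mul_sum]
    refine mul_le_mul_of_nonneg_left ?_ (sq_nonneg _)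
    refine le_trans ?_ (sum_parts_le F hF0)
    exact Finset.sum_le_univ_sum_of_nonneg (fun s => Finset.prod_nonneg (fun l _ => hF0 _ _))
  obtain ⟨EK, hEK⟩ : ∃ EK : ℝ, EK = ∏ p, (1 + K * xx q p ^ 2) := ⟨_, rfl⟩
  obtain ⟨E4, hE4⟩ : ∃ E4 : ℝ, E4 = ∏ p, (1 + 4 * K * xx q p ^ 2) := ⟨_, rfl⟩
  have hK0 : 0 ≤ K := by linarith
  have hEK0 : 0 ≤ EK := by rw [hEK]; exact Finset.prod_nonneg fun p _ => by positivity
  have hE40 : 0 ≤ E4 := by rw [hE4]; exact Finset.prod_nonneg fun p _ => by positivity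
  have hsj : ∑ a, F j a ≤ EK * V := by
    have h1 := one_up (xx q) (fun p => K * xx q p) hx (fun p => mul_nonneg hK0 (hx p))
      (fun a : Finset P => if nrm v a ≤ R then (1 : ℝ) else 0) (anti_ind v hv R)
    rw [← pu_VV0, ← hV] at h1
    rw [Finset.sum_congr rfl fun a _ => hFj a]
    refine h1.trans (le_of_eq ?_)
    rw [hEK]
    congr 1
    refine Finset.prod_congr rfl fun p _ => ?_
    ring
  have hsl : ∀ l ∈ (univ.erase i).erase j, ∑ a, F l a ≤ E4 * P2 := by
    intro l hl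
    have hh : ∀ p, 0 ≤ (1 + xx q p) ^ 2 * (1 + K * xx q p) - 1 := by
      intro p
      have h1 := hx p
      have h2 : 0 ≤ K * xx q p := mul_nonneg hK0 h1
      have h3 : 1 ≤ (1 + xx q p) ^ 2 := one_le_pow₀ (by linarith)
      nlinarith
    have h1 := one_up (xx q) (fun p => (1 + xx q p) ^ 2 * (1 + K * xx q p) - 1) hx hh
      (fun a => G a ^ 2) (anti_sq G hG)
    rw [← hP2] at h1
    rw [Finset.sum_congr rfl fun a _ => hFl l hl a]
    have h2 : ∑ a : Finset P, G a ^ 2 *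
        ∏ p ∈ a, (xx q p * ((1 + xx q p) ^ 2 * (1 + K * xx q p))) ≤
        (∏ p, (1 + xx q p * ((1 + xx q p) ^ 2 * (1 + K * xx q p) - 1))) * P2 := by
      refine le_trans (le_of_eq ?_) h1
      refine Finset.sum_congr rfl fun a _ => ?_
      congr 1
      refine Finset.prod_congr rfl fun p _ => ?_
      ring
    refine h2.trans (mul_le_mul_of_nonneg_right ?_ hP20)
    rw [hE4]
    refine Finset.prod_le_prod (fun p _ => ?_) fun p _ => ?_
    · have := mul_nonneg (hx p) (hh p)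
      linarith
    · have h3 := hx p
      have h4 := hx10 p
      have h5 : (1 + xx q p) ^ 2 * (1 + K * xx q p) - 1 ≤ 4 * K * xx q p := by
        have h6 : 4 * K * xx q p - ((1 + xx q p) ^ 2 * (1 + K * xx q p) - 1) =
            xx q p * (3 * K - 2 - xx q p - 2 * K * xx q p - K * xx q p ^ 2) := by ring
        have h7 : xx q p ^ 2 ≤ 1 / 100 := by nlinarith
        have h8 : K * xx q p ≤ K * (1 / 10) := mul_le_mul_of_nonneg_left h4 hK0
        have h9 : K * xx q p ^ 2 ≤ K * (1 / 100) := mul_le_mul_of_nonneg_left h7 hK0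
        have h10 : 0 ≤ xx q p * (3 * K - 2 - xx q p - 2 * K * xx q p - K * xx q p ^ 2) := by
          refine mul_nonneg h3 ?_
          nlinarith
        linarith
      have h6 := mul_le_mul_of_nonneg_left h5 h3
      nlinarith
  have hprod : ∏ l, ∑ a, F l a ≤ EK * V * (E4 * P2) ^ (Fintype.card J - 2) := by
    rw [pu_split i j hij]
    have e1 : ∑ a, F i a = 1 := by
      rw [Finset.sum_congr rfl fun a _ => hFi a]
      simp
    rw [e1, one_mul]
    have e2 : ((univ.erase i).erase j : Finset J).card = Fintype.card J - 2 := by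
      rw [Finset.card_erase_of_mem (Finset.mem_erase.2 ⟨hij.symm, mem_univ j⟩),
        Finset.card_erase_of_mem (mem_univ i), Finset.card_univ]
      omega
    rw [← e2, ← Finset.prod_const]
    refine mul_le_mul hsj ?_ (Finset.prod_nonneg fun l _ => Finset.sum_nonneg fun a _ => hF0 l a) ?_
    · exact Finset.prod_le_prod (fun l _ => Finset.sum_nonneg fun a _ => hF0 l a) hsl
    · exact mul_nonneg hEK0 (by linarith)
  have hδ0 : 0 ≤ δ := by rw [hδ']; positivity
  have hxd : K ^ 2 * δ ≤ 1 / 100 := by rw [hK, hδ']; exact hδ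
  have hb1 : E1 ≤ Real.exp δ := by
    rw [hE1, hδ']
    exact prod_exp univ (fun p => xx q p ^ 2) fun p _ => sq_nonneg _
  have hbK : EK ≤ Real.exp (K * δ) := by
    rw [hEK, hδ', Finset.mul_sum]
    exact prod_exp univ (fun p => K * xx q p ^ 2) fun p _ => by positivity
  have hb4 : E4 ≤ Real.exp (4 * K * δ) := by
    rw [hE4, hδ', Finset.mul_sum]
    exact prod_exp univ (fun p => 4 * K * xx q p ^ 2) fun p _ => by positivity
  have hcK : ((Fintype.card J - 2 : ℕ) : ℝ) = K - 2 := by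
    rw [Nat.cast_sub hcard, hKc]
    norm_num
  have hbig : E1 ^ 2 * EK * E4 ^ (Fintype.card J - 2) ≤ 11 / 10 := by
    have h1 : E1 ^ 2 * EK * E4 ^ (Fintype.card J - 2) ≤
        Real.exp δ ^ 2 * Real.exp (K * δ) * Real.exp (4 * K * δ) ^ (Fintype.card J - 2) := by
      refine mul_le_mul (mul_le_mul (pow_le_pow_left₀ hE10 hb1 2) hbK hEK0 (by positivity))
        (pow_le_pow_left₀ hE40 hb4 _) (pow_nonneg hE40 _) (by positivity)
    refine h1.trans ?_
    rw [← Real.exp_nat_mul, ← Real.exp_nat_mul, hcK, ← Real.exp_add, ← Real.exp_add]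
    have h2 : ((2 : ℕ) : ℝ) * δ + K * δ + (K - 2) * (4 * K * δ) ≤ 4 * (K ^ 2 * δ) := by
      have h3 : 4 * (K ^ 2 * δ) - (((2 : ℕ) : ℝ) * δ + K * δ + (K - 2) * (4 * K * δ)) =
          δ * (7 * K - 2) := by
        push_cast
        ring
      have h4 : 0 ≤ δ * (7 * K - 2) := mul_nonneg hδ0 (by linarith)
      linarith
    refine (Real.exp_le_exp.2 h2).trans ?_
    have h5 : 0 ≤ 4 * (K ^ 2 * δ) := by positivity
    have h6 := pu_exp_small h5 (by linarith)
    nlinarith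
  have hmain : EP i q (fun ξ : P → Option J => Lam q (yj j v q R (yy v R G)) ξ ^ 2) ≤
      (E1 * P1 ^ 2 / V) ^ 2 * (EK * V * (E4 * P2) ^ (Fintype.card J - 2)) := by
    refine (prime_up i q hq _).trans ?_
    rw [← hK]
    refine (Finset.sum_le_sum hterm).trans (h6.trans ?_)
    exact mul_le_mul_of_nonneg_left hprod (sq_nonneg _)
  rw [← hV, ← hP1, ← hP2]
  have hVne : V ≠ 0 := by linarith
  have hPc : 0 ≤ P1 ^ 4 * P2 ^ (Fintype.card J - 2) :=
    mul_nonneg (pow_nonneg hP10 _) (pow_nonneg hP20 _)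
  calc EP i q (fun ξ : P → Option J => Lam q (yj j v q R (yy v R G)) ξ ^ 2) * V
      ≤ (E1 * P1 ^ 2 / V) ^ 2 * (EK * V * (E4 * P2) ^ (Fintype.card J - 2)) * V :=
        mul_le_mul_of_nonneg_right hmain (by linarith)
    _ = (E1 ^ 2 * EK * E4 ^ (Fintype.card J - 2)) * (P1 ^ 4 * P2 ^ (Fintype.card J - 2)) := by
        rw [mul_pow E4 P2]
        field_simp
    _ ≤ 11 / 10 * (P1 ^ 4 * P2 ^ (Fintype.card J - 2)) := mul_le_mul_of_nonneg_right hbig hPc
    _ = 11 / 10 * P1 ^ 4 * P2 ^ (Fintype.card J - 2) := by ring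

end Pool.DL
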