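import Pool.Agent.Lib.MP_c77da8_nt.DL.Crt

/-!
# DL-VLow: lower bound for the sum `V(x)`; the sum of the `x_p²`; the ratio `A/φ(A)`

PROOF.  `V_low`: let `F(S, x)` be the sum of `1/n` over the `n ≤ x` all whose prime factors lie in `S`.  Then
`F(S ∪ {p}, x) ≤ F(S, x) + (1/p) F(S ∪ {p}, x/p)`.  By induction on `x` this gives `F(S ∪ {p}, x) ≤ V(S ∪ {p}, x)` if
`F(S, x) ≤ V(S, x)` for all `x` (as `(1/p)(1 + x_p) ≤ x_p`), and `F(S ∪ {p}, x) ≤ (1 - 1/p)⁻¹ F(S, x)` for the small primes.
`sq_sum`: `x_p = 1/(p-2)`, the `p` are different integers `≥ D + 1`:  `∑ 1/(n-2)² ≤ ∑ (1/(n-3) - 1/(n-2)) ≤ 1/(D-2) ≤ 2/D`.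
`tot_wD`: `Nat.totient_eq_mul_prod_factors`; the prime factors of `A i` are exactly the primes `≤ D`.
-/

set_option autoImplicit false

namespace Pool.DL

open Finset

/-- sum of `1/n` over the `n ≤ x` with all prime factors in `S` -/
noncomputable def vlF (S : Finset ℕ) (x : ℕ) : ℝ :=
  ∑ n ∈ (Icc 1 x).filter (fun n => n.primeFactors ⊆ S), (1 : ℝ) / n

theorem vlF_nonneg (S : Finset ℕ) (x : ℕ) : 0 ≤ vlF S x := by
  unfold vlF
  exact sum_nonneg fun n _ => by positivity

theorem vlF_mono (S : Finset ℕ) {x y : ℕ} (h : x ≤ y) : vlF S x ≤ vlF S y := by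
  unfold vlF
  apply sum_le_sum_of_subset_of_nonneg
  · intro n hn
    rw [mem_filter, mem_Icc] at hn ⊢
    exact ⟨⟨hn.1.1, hn.1.2.trans h⟩, hn.2⟩
  · intro n _ _
    positivity

theorem vlF_zero (S : Finset ℕ) : vlF S 0 = 0 := by
  unfold vlF
  simp

theorem vlF_step (S : Finset ℕ) (p : ℕ) (hp : p.Prime) (x : ℕ) :
    vlF (insert p S) x ≤ vlF S x + 1 / (p : ℝ) * vlF (insert p S) (x / p) := by
  unfold vlF
  rw [← sum_filter_add_sum_filter_not ((Icc 1 x).filter fun n => n.primeFactors ⊆ insert p S)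
    (fun n => ¬ p ∣ n) (fun n => (1 : ℝ) / n)]
  apply add_le_add
  · apply sum_le_sum_of_subset_of_nonneg
    · intro n hn
      rw [mem_filter, mem_filter, mem_Icc] at hn
      rw [mem_filter, mem_Icc]
      refine ⟨hn.1.1, fun q hq => ?_⟩
      rcases mem_insert.1 (hn.1.2 hq) with h | h
      · subst h
        exact absurd (Nat.dvd_of_mem_primeFactors hq) hn.2
      · exact h
    · intro n _ _
      positivity
  · have hp0 : 0 < p := hp.pos
    have hinj : Set.InjOn (fun m : ℕ => m * p)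
        (((Icc 1 (x / p)).filter fun n => n.primeFactors ⊆ insert p S : Finset ℕ) : Set ℕ) := by
      intro a _ b _ hab
      exact Nat.eq_of_mul_eq_mul_right hp0 hab
    have hsub : (((Icc 1 x).filter fun n => n.primeFactors ⊆ insert p S).filter fun n => ¬ ¬ p ∣ n) ⊆
        ((Icc 1 (x / p)).filter fun n => n.primeFactors ⊆ insert p S).image (fun m => m * p) := by
      intro n hn
      rw [mem_filter, mem_filter, mem_Icc, not_not] at hn
      obtain ⟨⟨⟨h1, h2⟩, h3⟩, m, rfl⟩ := hn
      rw [mem_image]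
      refine ⟨m, ?_, mul_comm _ _⟩
      have hm : 0 < m := Nat.pos_of_mul_pos_left h1
      rw [mem_filter, mem_Icc]
      refine ⟨⟨hm, ?_⟩, ?_⟩
      · rw [Nat.le_div_iff_mul_le hp0, mul_comm]
        exact h2
      · refine subset_trans ?_ h3
        exact Nat.primeFactors_mono (Dvd.intro_left p rfl) (by positivity)
    refine (sum_le_sum_of_subset_of_nonneg hsub fun n _ _ => by positivity).trans ?_
    rw [sum_image hinj, mul_sum]
    apply le_of_eq
    apply sum_congr rfl
    intro m _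
    push_cast
    rw [one_div_mul_one_div, mul_comm]

theorem vlF_small (S : Finset ℕ) (p : ℕ) (hp : p.Prime) :
    ∀ x : ℕ, vlF (insert p S) x ≤ (1 - 1 / (p : ℝ))⁻¹ * vlF S x := by
  intro x
  induction x using Nat.strong_induction_on with
  | _ x ih =>
    rcases Nat.eq_zero_or_pos x with h0 | h0
    · subst h0
      rw [vlF_zero, vlF_zero, mul_zero]
    · have hp2 : (2 : ℝ) ≤ p := by exact_mod_cast hp.two_le
      have h1 : (1 : ℝ) / p ≤ 1 / 2 := by
        apply one_div_le_one_div_of_le <;> linarith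
      have h2 : (0 : ℝ) < 1 / p := by positivity
      have hlt : x / p < x := Nat.div_lt_self h0 hp.one_lt
      have hs := vlF_step S p hp x
      have hi := ih (x / p) hlt
      have hm := vlF_mono S (Nat.div_le_self x p)
      have hn := vlF_nonneg S x
      set c : ℝ := (1 - 1 / (p : ℝ))⁻¹ with hc
      have hcp : 0 < c := by
        rw [hc]
        apply inv_pos.2
        linarith
      have hc1 : c * (1 - 1 / (p : ℝ)) = 1 := by
        rw [hc]
        apply inv_mul_cancel₀
        linarith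
      have h3 : 1 / (p : ℝ) * vlF (insert p S) (x / p) ≤ 1 / (p : ℝ) * (c * vlF S x) :=
        mul_le_mul_of_nonneg_left (hi.trans (mul_le_mul_of_nonneg_left hm hcp.le)) h2.le
      have h4 : vlF S x + 1 / (p : ℝ) * (c * vlF S x) = c * vlF S x := by
        have : 1 + 1 / (p : ℝ) * c = c := by linear_combination (-1 : ℝ) * hc1
        calc vlF S x + 1 / (p : ℝ) * (c * vlF S x) = (1 + 1 / (p : ℝ) * c) * vlF S x := by ring
          _ = c * vlF S x := by rw [this]
      linarith

section Big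

set_option linter.unusedSectionVars false

variable {P : Type} [Fintype P] [DecidableEq P]

/-- the sum `V` over the subsets of `a` -/
noncomputable def vlV (v : P → ℕ) (g : P → ℝ) (a : Finset P) (x : ℕ) : ℝ :=
  ∑ b ∈ a.powerset, if nrm v b ≤ x then ∏ p ∈ b, g p else 0

theorem vlV_nonneg (v : P → ℕ) (g : P → ℝ) (hg : ∀ p, 0 ≤ g p) (a : Finset P) (x : ℕ) :
    0 ≤ vlV v g a x := by
  unfold vlV
  apply sum_nonneg
  intro b _
  split_ifs
  · exact prod_nonneg fun p _ => hg p
  · exact le_rfl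

theorem vlV_mono (v : P → ℕ) (g : P → ℝ) (hg : ∀ p, 0 ≤ g p) (a : Finset P) {x y : ℕ} (h : x ≤ y) :
    vlV v g a x ≤ vlV v g a y := by
  unfold vlV
  apply sum_le_sum
  intro b _
  split_ifs with h1 h2
  · exact le_rfl
  · exact absurd (h1.trans h) h2
  · exact prod_nonneg fun p _ => hg p
  · exact le_rfl

theorem vlV_insert (v : P → ℕ) (g : P → ℝ) (a : Finset P) (p : P) (hp : p ∉ a) (hv : 0 < v p)
    (x : ℕ) : vlV v g (insert p a) x = vlV v g a x + g p * vlV v g a (x / v p) := by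
  unfold vlV
  rw [sum_powerset_insert hp, mul_sum]
  congr 1
  apply sum_congr rfl
  intro b hb
  have hpb : p ∉ b := fun h => hp (mem_powerset.1 hb h)
  have h1 : nrm v (insert p b) = v p * nrm v b := by
    unfold nrm
    rw [prod_insert hpb]
  have h2 : (nrm v (insert p b) ≤ x) ↔ nrm v b ≤ x / v p := by
    rw [h1, Nat.le_div_iff_mul_le hv, mul_comm]
  rw [prod_insert hpb]
  by_cases h : nrm v b ≤ x / v p
  · rw [if_pos h, if_pos (h2.2 h)]
  · rw [if_neg h, if_neg (fun h' => h (h2.1 h')), mul_zero]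

theorem vlF_big (v : P → ℕ) (g : P → ℝ) (hpr : ∀ p, (v p).Prime)
    (hg : ∀ p, 1 / ((v p : ℝ) - 1) ≤ g p) (a : Finset P) :
    ∀ x, vlF (a.image v) x ≤ vlV v g a x := by
  have hg0 : ∀ p, 0 ≤ g p := by
    intro p
    have h2 : (2 : ℝ) ≤ v p := by exact_mod_cast (hpr p).two_le
    refine le_trans ?_ (hg p)
    apply one_div_nonneg.2
    linarith
  induction a using Finset.induction_on with
  | empty =>
    intro x
    unfold vlF vlV
    rw [image_empty, powerset_empty, sum_singleton]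
    rcases Nat.eq_zero_or_pos x with h0 | h0
    · subst h0
      have : nrm v (∅ : Finset P) = 1 := by simp [nrm]
      rw [this]
      simp
    · have h1 : nrm v (∅ : Finset P) ≤ x := by
        have : nrm v (∅ : Finset P) = 1 := by simp [nrm]
        omega
      rw [if_pos h1, prod_empty]
      have hsub : ((Icc 1 x).filter fun n => n.primeFactors ⊆ (∅ : Finset ℕ)) ⊆ {1} := by
        intro n hn
        rw [mem_filter, mem_Icc, subset_empty, Nat.primeFactors_eq_empty] at hn
        rw [mem_singleton]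
        rcases hn.2 with h | h
        · omega
        · exact h
      refine (sum_le_sum_of_subset_of_nonneg hsub fun n _ _ => by positivity).trans ?_
      simp
  | insert p a hpa ih =>
    intro x
    induction x using Nat.strong_induction_on with
    | _ x ihx =>
      rcases Nat.eq_zero_or_pos x with h0 | h0
      · subst h0
        rw [vlF_zero]
        exact vlV_nonneg v g hg0 _ _
      · rw [image_insert] at ihx ⊢
        have hp2 : (2 : ℝ) ≤ v p := by exact_mod_cast (hpr p).two_le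
        have hvp : 0 < v p := (hpr p).pos
        have hlt : x / v p < x := Nat.div_lt_self h0 (hpr p).one_lt
        have hs := vlF_step (a.image v) (v p) (hpr p) x
        have hi := ihx (x / v p) hlt
        rw [vlV_insert v g a p hpa hvp] at hi
        have hm := vlV_mono v g hg0 a (Nat.div_le_self (x / v p) (v p))
        have hn := vlV_nonneg v g hg0 a (x / v p)
        have hx := ih x
        rw [vlV_insert v g a p hpa hvp]
        have h2 : (0 : ℝ) < 1 / (v p : ℝ) := by positivity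
        have hgp := hg0 p
        have h3 : vlF (insert (v p) (a.image v)) (x / v p) ≤ (1 + g p) * vlV v g a (x / v p) := by
          have := mul_le_mul_of_nonneg_left hm hgp
          linarith
        have h4 : 1 / (v p : ℝ) * (1 + g p) ≤ g p := by
          have h5 := hg p
          rw [div_le_iff₀ (by linarith)] at h5
          rw [one_div, ← div_eq_inv_mul, div_le_iff₀ (by linarith)]
          linarith
        have h6 : 1 / (v p : ℝ) * vlF (insert (v p) (a.image v)) (x / v p)
            ≤ g p * vlV v g a (x / v p) := by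
          calc 1 / (v p : ℝ) * vlF (insert (v p) (a.image v)) (x / v p)
              ≤ 1 / (v p : ℝ) * ((1 + g p) * vlV v g a (x / v p)) :=
                mul_le_mul_of_nonneg_left h3 h2.le
            _ = (1 / (v p : ℝ) * (1 + g p)) * vlV v g a (x / v p) := by ring
            _ ≤ g p * vlV v g a (x / v p) := mul_le_mul_of_nonneg_right h4 hn
        linarith

end Big

theorem vlF_union (S T : Finset ℕ) (hT : ∀ p ∈ T, p.Prime) (x : ℕ) :
    vlF (T ∪ S) x ≤ (∏ p ∈ T, (1 - 1 / (p : ℝ))⁻¹) * vlF S x := by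
  induction T using Finset.induction_on with
  | empty => simp
  | insert p T hp ih =>
    rw [insert_union, prod_insert hp]
    have h1 := vlF_small (T ∪ S) p (hT p (mem_insert_self _ _)) x
    have h2 := ih fun q hq => hT q (mem_insert_of_mem hq)
    have hp2 : (2 : ℝ) ≤ p := by exact_mod_cast (hT p (mem_insert_self _ _)).two_le
    have h3 : (1 : ℝ) / p ≤ 1 / 2 := by
      apply one_div_le_one_div_of_le <;> linarith
    have h4 : 0 ≤ (1 - 1 / (p : ℝ))⁻¹ := by
      apply inv_nonneg.2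
      linarith
    calc vlF (insert p (T ∪ S)) x ≤ (1 - 1 / (p : ℝ))⁻¹ * vlF (T ∪ S) x := h1
      _ ≤ (1 - 1 / (p : ℝ))⁻¹ * ((∏ p ∈ T, (1 - 1 / (p : ℝ))⁻¹) * vlF S x) :=
        mul_le_mul_of_nonneg_left h2 h4
      _ = _ := by ring

theorem vl_mem_Ps (D R : ℕ) (p : {p // p ∈ Ps D R}) : p.1.Prime ∧ D < p.1 ∧ p.1 ≤ R := by
  have h := p.2
  unfold Ps at h
  rw [mem_filter, mem_Icc] at h
  exact ⟨h.2.1, h.2.2, h.1.2⟩

theorem wD_ge (D : ℕ) : 1 ≤ wD D := by
  unfold wD
  refine le_trans (le_of_eq (prod_const_one (s := (Icc 1 D).filter Nat.Prime)).symm) ?_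
  apply prod_le_prod
  · intro p _
    exact zero_le_one
  · intro p hp
    have hp2 : (2 : ℝ) ≤ p := by exact_mod_cast (mem_filter.1 hp).2.two_le
    have h3 : (1 : ℝ) / p ≤ 1 / 2 := by
      apply one_div_le_one_div_of_le <;> linarith
    have h4 : (0 : ℝ) < 1 / p := by positivity
    rw [one_le_inv₀ (by linarith)]
    linarith

theorem V_low (D R x : ℕ) (hD : 12 ≤ D) (hx : 1 ≤ x) (hR : x ≤ R) :
    Real.log x / wD D ≤ VV (vs D R) (qs D R) x ∅ := by
  have hw : 0 < wD D := lt_of_lt_of_le one_pos (wD_ge D)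
  have hV : VV (vs D R) (qs D R) x ∅ = vlV (vs D R) (xx (qs D R)) univ x := by
    unfold VV vlV
    rw [sum_filter, powerset_univ]
    apply sum_congr rfl
    intro b _
    simp
  rw [hV, div_le_iff₀ hw]
  have hbig : vlF (univ.image (vs D R)) x ≤ vlV (vs D R) (xx (qs D R)) univ x := by
    apply vlF_big
    · intro p
      exact (vl_mem_Ps D R p).1
    · intro p
      have h := (vl_mem_Ps D R p).2.1
      unfold xx qs vs
      have h1 : (13 : ℝ) ≤ (p.1 : ℝ) := by
        have : 13 ≤ p.1 := by omega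
        exact_mod_cast this
      apply one_div_le_one_div_of_le <;> linarith
  have hun := vlF_union (univ.image (vs D R)) ((Icc 1 D).filter Nat.Prime)
    (fun p hp => (mem_filter.1 hp).2) x
  have hall : vlF ((Icc 1 D).filter Nat.Prime ∪ univ.image (vs D R)) x = ∑ n ∈ Icc 1 x, (1 : ℝ) / n := by
    unfold vlF
    rw [filter_true_of_mem]
    intro n hn q hq
    rw [mem_Icc] at hn
    have hqp := Nat.prime_of_mem_primeFactors hq
    have hqx : q ≤ x := (Nat.le_of_dvd (by omega) (Nat.dvd_of_mem_primeFactors hq)).trans hn.2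
    rw [mem_union]
    by_cases h : q ≤ D
    · left
      rw [mem_filter, mem_Icc]
      exact ⟨⟨hqp.one_le, h⟩, hqp⟩
    · right
      rw [mem_image]
      have hq' : q ∈ Ps D R := by
        unfold Ps
        rw [mem_filter, mem_Icc]
        exact ⟨⟨hqp.one_le, hqx.trans hR⟩, hqp, by omega⟩
      exact ⟨⟨q, hq'⟩, mem_univ _, rfl⟩
  have hlog : Real.log x ≤ ∑ n ∈ Icc 1 x, (1 : ℝ) / n := by
    have h1 := log_add_one_le_harmonic x
    have h2 : ((harmonic x : ℚ) : ℝ) = ∑ n ∈ Icc 1 x, (1 : ℝ) / n := by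
      rw [harmonic_eq_sum_Icc]
      push_cast
      apply sum_congr rfl
      intro n _
      rw [one_div]
    rw [← h2]
    refine le_trans ?_ h1
    apply Real.log_le_log
    · exact_mod_cast hx
    · push_cast
      linarith
  rw [hall] at hun
  have hwd : (∏ p ∈ (Icc 1 D).filter Nat.Prime, (1 - 1 / (p : ℝ))⁻¹) = wD D := rfl
  rw [hwd] at hun
  calc Real.log x ≤ wD D * vlF (univ.image (vs D R)) x := hlog.trans hun
    _ ≤ wD D * vlV (vs D R) (xx (qs D R)) univ x := mul_le_mul_of_nonneg_left hbig hw.le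
    _ = _ := mul_comm _ _

theorem vl_tele (D m : ℕ) (hD : 12 ≤ D) :
    ∑ n ∈ Ico (D + 1) (D + 1 + m), (1 / ((n : ℝ) - 2)) ^ 2 ≤ 1 / ((D : ℝ) - 2) - 1 / ((D : ℝ) - 2 + m) := by
  have hD' : (12 : ℝ) ≤ D := by exact_mod_cast hD
  induction m with
  | zero => simp
  | succ m ih =>
    rw [← add_assoc, sum_Ico_succ_top (by omega)]
    push_cast
    have h1 : (1 / ((D : ℝ) + 1 + m - 2)) ^ 2 ≤ 1 / ((D : ℝ) - 2 + m) - 1 / ((D : ℝ) - 2 + (m + 1)) := by
      have hm : (0 : ℝ) ≤ m := Nat.cast_nonneg m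
      set t : ℝ := (D : ℝ) - 2 + m with ht
      have ht0 : 0 < t := by rw [ht]; linarith
      have e1 : (D : ℝ) + 1 + m - 2 = t + 1 := by rw [ht]; ring
      have e2 : (D : ℝ) - 2 + (m + 1) = t + 1 := by rw [ht]; ring
      rw [e1, e2, one_div_pow, div_sub_div _ _ (by linarith) (by linarith)]
      rw [div_le_div_iff₀ (by positivity) (by positivity)]
      nlinarith
    linarith

theorem sq_sum (D R : ℕ) (hD : 12 ≤ D) :
    ∑ p : {p // p ∈ Ps D R}, xx (qs D R) p ^ 2 ≤ 2 / (D : ℝ) := by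
  have hD' : (12 : ℝ) ≤ D := by exact_mod_cast hD
  have h1 : ∑ p : {p // p ∈ Ps D R}, xx (qs D R) p ^ 2 = ∑ n ∈ Ps D R, (1 / ((n : ℝ) - 2)) ^ 2 := by
    unfold xx qs
    rw [← Finset.sum_coe_sort (Ps D R) (fun n => (1 / ((n : ℝ) - 2)) ^ 2)]
  rw [h1]
  have h2 : Ps D R ⊆ Ico (D + 1) (D + 1 + R) := by
    intro n hn
    unfold Ps at hn
    rw [mem_filter, mem_Icc] at hn
    rw [mem_Ico]
    omega
  refine (sum_le_sum_of_subset_of_nonneg h2 fun n _ _ => by positivity).trans ?_
  refine (vl_tele D R hD).trans ?_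
  have h3 : (0 : ℝ) ≤ 1 / ((D : ℝ) - 2 + R) := by
    apply one_div_nonneg.2
    have : (0 : ℝ) ≤ R := Nat.cast_nonneg R
    linarith
  have h4 : 1 / ((D : ℝ) - 2) ≤ 2 / (D : ℝ) := by
    rw [div_le_div_iff₀ (by linarith) (by linarith)]
    linarith
  linarith

theorem tot_wD {J : Type} [Fintype J] [DecidableEq J] (D : ℕ) (A B : J → ℕ) (hF : Forms D A B)
    (i : J) : (A i : ℝ) = wD D * (Nat.totient (A i) : ℝ) := by
  have hA : A i ≠ 0 := by
    have := hF.pos i
    omega
  have h1 : (A i).primeFactors = (Icc 1 D).filter Nat.Prime := by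
    ext p
    rw [Nat.mem_primeFactors, mem_filter, mem_Icc]
    constructor
    · rintro ⟨hp, hd, _⟩
      exact ⟨⟨hp.one_le, (hF.small i p hp).1 hd⟩, hp⟩
    · rintro ⟨⟨_, h⟩, hp⟩
      exact ⟨hp, (hF.small i p hp).2 h, hA⟩
  have h2 := Nat.totient_eq_mul_prod_factors (A i)
  rw [h1] at h2
  have h3 : (Nat.totient (A i) : ℝ) = (A i : ℝ) * ∏ p ∈ (Icc 1 D).filter Nat.Prime, (1 - (p : ℝ)⁻¹) := by
    have := congrArg (fun q : ℚ => (q : ℝ)) h2
    push_cast at this
    exact this
  rw [h3]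
  unfold wD
  have h4 : (∏ p ∈ (Icc 1 D).filter Nat.Prime, (1 - 1 / (p : ℝ))⁻¹) *
      (∏ p ∈ (Icc 1 D).filter Nat.Prime, (1 - (p : ℝ)⁻¹)) = 1 := by
    rw [← prod_mul_distrib]
    apply prod_eq_one
    intro p hp
    have hp2 : (2 : ℝ) ≤ p := by exact_mod_cast (mem_filter.1 hp).2.two_le
    have h5 : (1 : ℝ) / p ≤ 1 / 2 := by
      apply one_div_le_one_div_of_le <;> linarith
    rw [one_div] at h5 ⊢
    apply inv_mul_cancel₀
    linarith
  calc (A i : ℝ) = (A i : ℝ) * 1 := (mul_one _).symm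
    _ = (A i : ℝ) * ((∏ p ∈ (Icc 1 D).filter Nat.Prime, (1 - 1 / (p : ℝ))⁻¹) *
      (∏ p ∈ (Icc 1 D).filter Nat.Prime, (1 - (p : ℝ)⁻¹))) := by rw [h4]
    _ = _ := by ring

end Pool.DL
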