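import Pool.Agent.Lib.MP_c77da8_nt.DL.Crt
import Pool.Agent.Lib.MP_a51fee_ag.SG.NMert

/-!
# DL-VUp: upper bound for the sum `V(x)`

PROOF.  `prod_le`: for `12 ≤ D ≤ x`: `∏_{D < p ≤ x} (1 + x_p) = ∏ (p-1)/(p-2) ≤ ∏ (1 + 1/(p(p-2))) ∏ (1 - 1/p)⁻¹`
(`(p-1)/(p-2) = (p/(p-1)) * (1 + 1/(p(p-2)))`), the first product is `≤ exp (∑ 1/(n-2)²) ≤ 2`, the second one is
`(∏_{p ≤ x} (1 - 1/p))⁻¹ / wD D ≤ log x / (c wD D)` by `Pool.SG.mert_prod` (`pr 1 v` = the primes `≤ v`).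
`V_up`: the sets `b` with `nrm b ≤ x` consist of primes `≤ x`, so `V(x) ≤ ∏_{D < p ≤ x} (1 + x_p)`
(`Finset.prod_one_add` over the subsets).
`CV` = a natural number `≥ 2/c`.
-/

set_option autoImplicit false

namespace Pool.DL

open Finset

private theorem vup_mem (D R p : ℕ) : p ∈ Ps D R ↔ p.Prime ∧ D < p ∧ p ≤ R := by
  unfold Ps
  rw [mem_filter, mem_Icc]
  constructor
  · rintro ⟨⟨_, h1⟩, h2, h3⟩
    exact ⟨h2, h3, h1⟩
  · rintro ⟨h1, h2, h3⟩
    exact ⟨⟨h1.one_lt.le, h3⟩, h1, h2⟩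

private theorem vup_succ (D x : ℕ) (hx : D ≤ x) :
    Ps D (x + 1) = if (x + 1).Prime then insert (x + 1) (Ps D x) else Ps D x := by
  ext p
  split_ifs with h
  · rw [mem_insert, vup_mem, vup_mem]
    constructor
    · rintro ⟨h1, h2, h3⟩
      rcases Nat.lt_or_ge p (x + 1) with h4 | h4
      · exact Or.inr ⟨h1, h2, by omega⟩
      · exact Or.inl (by omega)
    · rintro (h1 | ⟨h1, h2, h3⟩)
      · subst h1
        exact ⟨h, by omega, le_refl _⟩
      · exact ⟨h1, h2, by omega⟩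
  · rw [vup_mem, vup_mem]
    constructor
    · rintro ⟨h1, h2, h3⟩
      refine ⟨h1, h2, ?_⟩
      rcases Nat.lt_or_ge p (x + 1) with h4 | h4
      · omega
      · have : p = x + 1 := by omega
        subst this
        exact absurd h1 h
    · rintro ⟨h1, h2, h3⟩
      exact ⟨h1, h2, by omega⟩

/-- the telescoping product -/
private theorem vup_tel (D : ℕ) (hD : 12 ≤ D) (x : ℕ) (hx : D ≤ x) :
    ∏ p ∈ Ps D x, (1 + 1 / ((p : ℝ) * ((p : ℝ) - 2))) ≤
      ((D : ℝ) / ((D : ℝ) - 1)) * (((x : ℝ) - 1) / (x : ℝ)) := by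
  have hD0 : (12 : ℝ) ≤ D := by exact_mod_cast hD
  have hD1 : (0 : ℝ) < (D : ℝ) - 1 := by linarith
  have hDp : (0 : ℝ) < (D : ℝ) := by linarith
  induction x, hx using Nat.le_induction with
  | base =>
    have h0 : Ps D D = ∅ := by
      ext p
      rw [vup_mem]
      constructor
      · rintro ⟨_, h2, h3⟩
        omega
      · intro h
        exact absurd h (notMem_empty p)
    rw [h0, prod_empty]
    have : ((D : ℝ) / ((D : ℝ) - 1)) * (((D : ℝ) - 1) / (D : ℝ)) = 1 := by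
      field_simp
    rw [this]
  | succ x hx ih =>
    have hx0 : (12 : ℝ) ≤ x := by exact_mod_cast hD.trans hx
    have hxp : (0 : ℝ) < x := by linarith
    have hx1 : (0 : ℝ) < (x : ℝ) - 1 := by linarith
    have hnn : 0 ≤ (D : ℝ) / ((D : ℝ) - 1) := by positivity
    rw [vup_succ D x hx]
    push_cast
    split_ifs with h
    · rw [prod_insert]
      · have hf : (0 : ℝ) ≤ 1 + 1 / (((x + 1 : ℕ) : ℝ) * (((x + 1 : ℕ) : ℝ) - 2)) := by
          push_cast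
          have : (0 : ℝ) < (x : ℝ) + 1 - 2 := by linarith
          positivity
        refine le_trans (mul_le_mul_of_nonneg_left ih hf) (le_of_eq ?_)
        push_cast
        have h3 : ((x : ℝ) + 1 - 2) = (x : ℝ) - 1 := by ring
        rw [h3]
        have h4 : ((x : ℝ) + 1 - 1) = (x : ℝ) := by ring
        rw [h4]
        have h5 : (x : ℝ) + 1 ≠ 0 := by linarith
        have h6 : (x : ℝ) - 1 ≠ 0 := hx1.ne'
        have h7 : (x : ℝ) ≠ 0 := hxp.ne'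
        have h8 : (D : ℝ) - 1 ≠ 0 := hD1.ne'
        field_simp
        ring
      · rw [vup_mem]
        rintro ⟨_, _, h3⟩
        omega
    · refine le_trans ih (mul_le_mul_of_nonneg_left ?_ hnn)
      rw [div_le_div_iff₀ hxp (by linarith)]
      nlinarith

private theorem vup_fac (D x : ℕ) (hD : 12 ≤ D) :
    ∏ p ∈ Ps D x, (1 + 1 / ((p : ℝ) - 2)) =
      (∏ p ∈ Ps D x, (1 + 1 / ((p : ℝ) * ((p : ℝ) - 2)))) * ∏ p ∈ Ps D x, (1 - 1 / (p : ℝ))⁻¹ := by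
  rw [← prod_mul_distrib]
  refine prod_congr rfl fun p hp => ?_
  rw [vup_mem] at hp
  have hp0 : (12 : ℝ) < p := by exact_mod_cast lt_of_le_of_lt hD hp.2.1
  have h1 : (p : ℝ) ≠ 0 := by linarith
  have h2 : (p : ℝ) - 2 ≠ 0 := by
    have : (0 : ℝ) < (p : ℝ) - 2 := by linarith
    exact this.ne'
  have h3 : (p : ℝ) - 1 ≠ 0 := by
    have : (0 : ℝ) < (p : ℝ) - 1 := by linarith
    exact this.ne'
  have h4 : 1 - 1 / (p : ℝ) = ((p : ℝ) - 1) / p := by field_simp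
  rw [h4]
  field_simp
  ring

private theorem vup_wD (D x : ℕ) (hx : D ≤ x) :
    wD D * ∏ p ∈ Ps D x, (1 - 1 / (p : ℝ))⁻¹ = (∏ q ∈ Pool.SG.pr 1 (x : ℝ), (1 - 1 / (q : ℝ)))⁻¹ := by
  have h0 : Pool.SG.pr 1 (x : ℝ) = (Icc 1 D).filter Nat.Prime ∪ Ps D x := by
    ext q
    rw [Pool.SG.mem_pr (Nat.cast_nonneg x), mem_union, vup_mem, mem_filter, mem_Icc]
    constructor
    · rintro ⟨h1, _, h3⟩
      have h3' : q ≤ x := by exact_mod_cast h3
      rcases Nat.lt_or_ge D q with h4 | h4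
      · exact Or.inr ⟨h1, h4, h3'⟩
      · exact Or.inl ⟨⟨h1.one_lt.le, h4⟩, h1⟩
    · rintro (⟨⟨_, h2⟩, h3⟩ | ⟨h1, h2, h3⟩)
      · exact ⟨h3, by exact_mod_cast h3.one_lt, by exact_mod_cast h2.trans hx⟩
      · exact ⟨h1, by exact_mod_cast h1.one_lt, by exact_mod_cast h3⟩
  have hdis : Disjoint ((Icc 1 D).filter Nat.Prime) (Ps D x) := by
    rw [disjoint_left]
    intro q h1 h2
    rw [vup_mem] at h2
    rw [mem_filter, mem_Icc] at h1
    omega
  rw [h0, prod_union hdis, mul_inv, ← prod_inv_distrib, ← prod_inv_distrib]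
  rfl

private theorem vup_main : ∃ CV : ℕ, 1 ≤ CV ∧ ∀ D x : ℕ, 12 ≤ D → D ≤ x →
    ∏ p ∈ Ps D x, (1 + 1 / ((p : ℝ) - 2)) ≤ CV * Real.log x / wD D := by
  obtain ⟨c, C, hc, hC, hm⟩ := Pool.SG.mert_prod
  refine ⟨⌈2 / c⌉₊ + 1, by omega, ?_⟩
  intro D x hD hx
  have hD0 : (12 : ℝ) ≤ D := by exact_mod_cast hD
  have hx0 : (12 : ℝ) ≤ x := by exact_mod_cast hD.trans hx
  have hlx : 0 < Real.log x := Real.log_pos (by linarith)
  have hwD : 0 < wD D := by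
    unfold wD
    refine prod_pos fun p hp => ?_
    rw [mem_filter] at hp
    have h1 : (2 : ℝ) ≤ p := by exact_mod_cast hp.2.two_le
    have h2 : 1 / (p : ℝ) ≤ 1 / 2 := one_div_le_one_div_of_le (by norm_num) h1
    have h3 : 0 < 1 - 1 / (p : ℝ) := by linarith
    exact inv_pos.mpr h3
  have h1 := (hm (x : ℝ) (by linarith)).1
  have h2 := vup_wD D x hx
  have hpos : 0 < c / Real.log x := by positivity
  have h3 : (∏ q ∈ Pool.SG.pr 1 (x : ℝ), (1 - 1 / (q : ℝ)))⁻¹ ≤ Real.log x / c := by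
    have := inv_anti₀ hpos h1
    rwa [inv_div] at this
  have h4 : ∏ p ∈ Ps D x, (1 - 1 / (p : ℝ))⁻¹ ≤ Real.log x / c / wD D := by
    rw [le_div_iff₀ hwD, mul_comm]
    rw [h2]
    exact h3
  have h5 : ∏ p ∈ Ps D x, (1 + 1 / ((p : ℝ) * ((p : ℝ) - 2))) ≤ 2 := by
    refine le_trans (vup_tel D hD x hx) ?_
    have ha : (D : ℝ) / ((D : ℝ) - 1) ≤ 2 := by
      rw [div_le_iff₀ (by linarith)]
      linarith
    have hb : ((x : ℝ) - 1) / (x : ℝ) ≤ 1 := by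
      rw [div_le_one (by linarith)]
      linarith
    have hb0 : 0 ≤ ((x : ℝ) - 1) / (x : ℝ) := div_nonneg (by linarith) (by linarith)
    have ha0 : 0 ≤ (D : ℝ) / ((D : ℝ) - 1) := div_nonneg (by linarith) (by linarith)
    calc (D : ℝ) / ((D : ℝ) - 1) * (((x : ℝ) - 1) / (x : ℝ)) ≤ 2 * 1 :=
          mul_le_mul ha hb hb0 (by norm_num)
      _ = 2 := by norm_num
  have h6 : 0 ≤ ∏ p ∈ Ps D x, (1 - 1 / (p : ℝ))⁻¹ := by
    refine prod_nonneg fun p hp => ?_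
    rw [vup_mem] at hp
    have h1 : (2 : ℝ) ≤ p := by exact_mod_cast hp.1.two_le
    have h2 : 1 / (p : ℝ) ≤ 1 / 2 := one_div_le_one_div_of_le (by norm_num) h1
    exact inv_nonneg.mpr (by linarith)
  rw [vup_fac D x hD]
  have h7 : 2 / c ≤ ((⌈2 / c⌉₊ + 1 : ℕ) : ℝ) := by
    push_cast
    linarith [Nat.le_ceil (2 / c)]
  calc (∏ p ∈ Ps D x, (1 + 1 / ((p : ℝ) * ((p : ℝ) - 2)))) * ∏ p ∈ Ps D x, (1 - 1 / (p : ℝ))⁻¹
      ≤ 2 * (Real.log x / c / wD D) := mul_le_mul h5 h4 h6 (by norm_num)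
    _ = 2 / c * Real.log x / wD D := by ring
    _ ≤ ((⌈2 / c⌉₊ + 1 : ℕ) : ℝ) * Real.log x / wD D := by
        gcongr

private theorem vup_sub (D R x : ℕ) (hx : x ≤ R) (F : ℕ → ℝ) :
    ∏ p ∈ (univ : Finset {p // p ∈ Ps D R}).filter (fun p => p.1 ≤ x), F p.1 =
      ∏ p ∈ Ps D x, F p := by
  refine prod_bij (fun p _ => p.1) ?_ ?_ ?_ ?_
  · intro p hp
    have h1 := (vup_mem D R p.1).1 p.2
    rw [vup_mem]
    exact ⟨h1.1, h1.2.1, (mem_filter.1 hp).2⟩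
  · intro a _ b _ h
    exact Subtype.ext h
  · intro p hp
    rw [vup_mem] at hp
    exact ⟨⟨p, (vup_mem D R p).2 ⟨hp.1, hp.2.1, hp.2.2.trans hx⟩⟩,
      mem_filter.2 ⟨mem_univ _, hp.2.2⟩, rfl⟩
  · intro p _
    rfl

theorem V_up : ∃ CV : ℕ, 1 ≤ CV ∧
    (∀ D R x : ℕ, 12 ≤ D → D ≤ x → x ≤ R →
      VV (vs D R) (qs D R) x ∅ ≤ CV * Real.log x / wD D) ∧
    (∀ D R : ℕ, 12 ≤ D → D ≤ R →
      ∏ p : {p // p ∈ Ps D R}, (1 + xx (qs D R) p) ≤ CV * Real.log R / wD D) := by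
  obtain ⟨CV, hCV, hmain⟩ := vup_main
  refine ⟨CV, hCV, ?_, ?_⟩
  · intro D R x hD hDx hxR
    have h1 := hmain D x hD hDx
    refine le_trans ?_ h1
    have hxx : ∀ p : {p // p ∈ Ps D R}, 0 ≤ xx (qs D R) p := by
      intro p
      have h2 := (vup_mem D R p.1).1 p.2
      have h3 : (12 : ℝ) < (p.1 : ℝ) := by exact_mod_cast lt_of_le_of_lt hD h2.2.1
      unfold xx qs
      exact div_nonneg zero_le_one (by linarith)
    have h2 : ∏ p ∈ Ps D x, (1 + 1 / ((p : ℝ) - 2)) =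
        ∏ p ∈ (univ : Finset {p // p ∈ Ps D R}).filter (fun p => p.1 ≤ x), (1 + xx (qs D R) p) := by
      rw [← vup_sub D R x hxR (fun p => 1 + 1 / ((p : ℝ) - 2))]
      rfl
    rw [h2, prod_one_add]
    unfold VV
    refine sum_le_sum_of_subset_of_nonneg ?_ ?_
    · intro b hb
      rw [mem_filter] at hb
      rw [mem_powerset]
      intro p hp
      rw [mem_filter]
      refine ⟨mem_univ _, ?_⟩
      refine le_trans ?_ hb.2.2
      unfold nrm
      have hpos : ∀ i ∈ b, 1 ≤ vs D R i := by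
        intro i _
        exact ((vup_mem D R i.1).1 i.2).1.one_lt.le
      exact single_le_prod' (f := vs D R) hpos hp
    · intro b _ _
      exact prod_nonneg fun p _ => hxx p
  · intro D R hD hDR
    have h1 := hmain D R hD hDR
    refine le_trans (le_of_eq ?_) h1
    have h2 := vup_sub D R R (le_refl R) (fun p => 1 + 1 / ((p : ℝ) - 2))
    rw [← h2]
    have h3 : (univ : Finset {p // p ∈ Ps D R}).filter (fun p => p.1 ≤ R) = univ := by
      rw [filter_true_of_mem]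
      intro p _
      exact ((vup_mem D R p.1).1 p.2).2.2
    rw [h3]
    rfl

end Pool.DL
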