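import Pool.Agent.Lib.MP_c77da8_nt.DL.Cnt

/-!
# DL-Tr: transfer from the integers and the primes to the models

PROOF.  `Lam_sq`, exchange the sums: `∑_m Λ(ξ_m)² = ∑_{d,e} λ(d) λ(e) #{m : le d, le e}` and, `EI` being linear,
`EI (Λ²) = ∑_{d,e} λ(d) λ(e) EI ([le d][le e])` with `EI_le`; compare with `cnt_int` term by term; the error is
`≤ ∑_{d,e} |λ(d)| |λ(e)| = (∑ |λ|)²`.  The same with `cnt_prime`, `EP_le` (choose `c d e` with `choose`).
-/

set_option autoImplicit false

namespace Pool.DL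

open Finset

variable {J : Type} [Fintype J] [DecidableEq J]

omit [DecidableEq J] in
theorem EE_lin {P α β : Type} [Fintype P] [DecidableEq P] [Fintype α] [Fintype β]
    (μ : P → Option J → ℝ) (c : α → β → ℝ) (g : α → β → (P → Option J) → ℝ) :
    EE μ (fun ξ => ∑ a, ∑ b, c a b * g a b ξ) = ∑ a, ∑ b, c a b * EE μ (g a b) := by
  unfold EE
  simp_rw [mul_sum]
  rw [sum_comm]
  refine sum_congr rfl fun a _ => ?_
  rw [sum_comm]
  refine sum_congr rfl fun b _ => sum_congr rfl fun ξ _ => ?_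
  ring

theorem sum_ind {P : Type} [Fintype P] [DecidableEq P] (T : Finset ℕ) (f : ℕ → P → Option J)
    (lm : (P → Option J) → ℝ) :
    ∑ m ∈ T, ∑ d : P → Option J, ∑ e : P → Option J, lm d * lm e *
      ((if le d (f m) then 1 else 0) * (if le e (f m) then 1 else 0)) =
    ∑ d : P → Option J, ∑ e : P → Option J, lm d * lm e *
      ((T.filter (fun m => le d (f m) ∧ le e (f m))).card : ℝ) := by
  rw [sum_comm]
  refine sum_congr rfl fun d _ => ?_
  rw [sum_comm]
  refine sum_congr rfl fun e _ => ?_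
  rw [← mul_sum]
  congr 1
  rw [← Finset.sum_boole]
  refine sum_congr rfl fun m _ => ?_
  by_cases h1 : le d (f m) <;> by_cases h2 : le e (f m) <;> simp [h1, h2]

theorem three_le_qs {D R : ℕ} (hD : 2 ≤ D) (p : {p // p ∈ Ps D R}) : 3 ≤ qs D R p := by
  have h := p.2
  unfold Ps at h
  rw [mem_filter] at h
  have h3 : 3 ≤ p.1 := by omega
  unfold qs
  exact_mod_cast h3

theorem tr_int (D R : ℕ) (hD : 2 ≤ D) (A B : J → ℕ) (hF : Forms D A B) (X : ℕ)
    (y : ({p // p ∈ Ps D R} → Option J) → ℝ) :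
    |∑ m ∈ Ioc X (2 * X), Lam (qs D R) y (col A B D R m) ^ 2 -
      X * EI (qs D R) (fun ξ => Lam (qs D R) y ξ ^ 2)| ≤ (∑ d, |lam (qs D R) y d|) ^ 2 := by
  have h1 : ∑ m ∈ Ioc X (2 * X), Lam (qs D R) y (col A B D R m) ^ 2 =
      ∑ d : {p // p ∈ Ps D R} → Option J, ∑ e : {p // p ∈ Ps D R} → Option J,
        lam (qs D R) y d * lam (qs D R) y e *
        (((Ioc X (2 * X)).filter
          (fun m => le d (col A B D R m) ∧ le e (col A B D R m))).card : ℝ) := by
    rw [← sum_ind]
    exact sum_congr rfl fun m _ => Lam_sq _ _ _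
  have h2 : EI (qs D R) (fun ξ => Lam (qs D R) y ξ ^ 2) =
      ∑ d : {p // p ∈ Ps D R} → Option J, ∑ e : {p // p ∈ Ps D R} → Option J,
        lam (qs D R) y d * lam (qs D R) y e *
          (if comp d e then ∏ p ∈ supp (join d e), (1 / qs D R p) else 0) := by
    have h3 : (fun ξ : {p // p ∈ Ps D R} → Option J => Lam (qs D R) y ξ ^ 2) =
        fun ξ => ∑ d : {p // p ∈ Ps D R} → Option J, ∑ e : {p // p ∈ Ps D R} → Option J,
          lam (qs D R) y d * lam (qs D R) y e *
          ((if le d ξ then 1 else 0) * (if le e ξ then 1 else 0)) :=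
      funext fun ξ => Lam_sq _ _ _
    rw [h3]
    unfold EI
    rw [EE_lin]
    refine sum_congr rfl fun d _ => sum_congr rfl fun e _ => ?_
    congr 1
    exact EI_le (qs D R) (three_le_qs hD) d e
  rw [h1, h2, mul_sum, ← sum_sub_distrib]
  have h4 : (∑ d : {p // p ∈ Ps D R} → Option J, |lam (qs D R) y d|) ^ 2 =
      ∑ d : {p // p ∈ Ps D R} → Option J, ∑ e : {p // p ∈ Ps D R} → Option J,
        |lam (qs D R) y d| * |lam (qs D R) y e| := by
    rw [sq, sum_mul_sum]
  rw [h4]
  refine (abs_sum_le_sum_abs _ _).trans (sum_le_sum fun d _ => ?_)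
  rw [mul_sum, ← sum_sub_distrib]
  refine (abs_sum_le_sum_abs _ _).trans (sum_le_sum fun e _ => ?_)
  have h5 := cnt_int D R A B hF X d e
  have h6 : lam (qs D R) y d * lam (qs D R) y e *
        (((Ioc X (2 * X)).filter
          (fun m => le d (col A B D R m) ∧ le e (col A B D R m))).card : ℝ) -
      X * (lam (qs D R) y d * lam (qs D R) y e *
          (if comp d e then ∏ p ∈ supp (join d e), (1 / qs D R p) else 0)) =
      lam (qs D R) y d * lam (qs D R) y e *
      ((((Ioc X (2 * X)).filter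
          (fun m => le d (col A B D R m) ∧ le e (col A B D R m))).card : ℝ) -
      X * (if comp d e then ∏ p ∈ supp (join d e), (1 / qs D R p) else 0)) := by ring
  rw [h6, abs_mul, abs_mul]
  calc |lam (qs D R) y d| * |lam (qs D R) y e| * _
      ≤ |lam (qs D R) y d| * |lam (qs D R) y e| * 1 :=
        mul_le_mul_of_nonneg_left h5 (by positivity)
    _ = _ := mul_one _

theorem tr_prime (D R : ℕ) (hD : 2 ≤ D) (A B : J → ℕ) (hF : Forms D A B) (i : J) (X : ℕ)
    (hR : R ≤ X) :
    ∃ c : ({p // p ∈ Ps D R} → Option J) → ({p // p ∈ Ps D R} → Option J) → ℕ,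
      (∀ d e, Nat.Coprime (c d e) (A i * nrm (vs D R) (supp (join d e)))) ∧
      ∀ y : ({p // p ∈ Ps D R} → Option J) → ℝ,
      |∑ m ∈ (Ioc X (2 * X)).filter (fun m => (A i * m + B i).Prime),
          Lam (qs D R) y (col A B D R m) ^ 2 -
        (pp (2 * A i * X + B i) - pp (A i * X + B i)) / (Nat.totient (A i) : ℝ) *
          EP i (qs D R) (fun ξ => Lam (qs D R) y ξ ^ 2)| ≤
      ∑ d, ∑ e, |lam (qs D R) y d| * |lam (qs D R) y e| *
        (|Pool.BV.Ep (2 * A i * X + B i) (A i * nrm (vs D R) (supp (join d e))) (c d e)| +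
         |Pool.BV.Ep (A i * X + B i) (A i * nrm (vs D R) (supp (join d e))) (c d e)|) := by
  choose c hc1 hc2 using cnt_prime D R A B hF i X hR
  refine ⟨c, hc1, fun y => ?_⟩
  set W : ℝ := (pp (2 * A i * X + B i) - pp (A i * X + B i)) / (Nat.totient (A i) : ℝ) with hW
  have h1 : ∑ m ∈ (Ioc X (2 * X)).filter (fun m => (A i * m + B i).Prime),
        Lam (qs D R) y (col A B D R m) ^ 2 =
      ∑ d : {p // p ∈ Ps D R} → Option J, ∑ e : {p // p ∈ Ps D R} → Option J,
        lam (qs D R) y d * lam (qs D R) y e *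
        (((Ioc X (2 * X)).filter
          (fun m => (A i * m + B i).Prime ∧ le d (col A B D R m) ∧
            le e (col A B D R m))).card : ℝ) := by
    have h0 := sum_ind ((Ioc X (2 * X)).filter (fun m => (A i * m + B i).Prime))
      (fun m => col A B D R m) (lam (qs D R) y)
    simp_rw [filter_filter] at h0
    rw [← h0]
    exact sum_congr rfl fun m _ => Lam_sq _ _ _
  have h2 : EP i (qs D R) (fun ξ => Lam (qs D R) y ξ ^ 2) =
      ∑ d : {p // p ∈ Ps D R} → Option J, ∑ e : {p // p ∈ Ps D R} → Option J,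
        lam (qs D R) y d * lam (qs D R) y e *
          (if comp d e ∧ (∀ p, d p ≠ some i) ∧ (∀ p, e p ≠ some i) then
            ∏ p ∈ supp (join d e), (1 / (qs D R p - 1)) else 0) := by
    have h3 : (fun ξ : {p // p ∈ Ps D R} → Option J => Lam (qs D R) y ξ ^ 2) =
        fun ξ => ∑ d : {p // p ∈ Ps D R} → Option J, ∑ e : {p // p ∈ Ps D R} → Option J,
          lam (qs D R) y d * lam (qs D R) y e *
          ((if le d ξ then 1 else 0) * (if le e ξ then 1 else 0)) :=
      funext fun ξ => Lam_sq _ _ _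
    rw [h3]
    unfold EP
    rw [EE_lin]
    refine sum_congr rfl fun d _ => sum_congr rfl fun e _ => ?_
    congr 1
    exact EP_le i (qs D R) (three_le_qs hD) d e
  rw [h1, h2, mul_sum, ← sum_sub_distrib]
  refine (abs_sum_le_sum_abs _ _).trans (sum_le_sum fun d _ => ?_)
  rw [mul_sum, ← sum_sub_distrib]
  refine (abs_sum_le_sum_abs _ _).trans (sum_le_sum fun e _ => ?_)
  have h5 := hc2 d e
  have h6 : ∀ t u : ℝ, lam (qs D R) y d * lam (qs D R) y e * t -
      W * (lam (qs D R) y d * lam (qs D R) y e * u) =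
      lam (qs D R) y d * lam (qs D R) y e * (t - W * u) := fun t u => by ring
  rw [h6, abs_mul, abs_mul]
  exact mul_le_mul_of_nonneg_left h5 (by positivity)

end Pool.DL
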