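import Pool.Agent.Lib.MP_c77da8_nt.DL.Defs

/-!
# DL-Adm: the admissible forms

PROOF.  `Wp = ∏_{p ≤ D} p`.  `ν`: for every prime `p ≤ D` choose a residue `ν_p`: `ν_p = 0` if `p ≤ k s` or `p ≤ y`; otherwise
`p > k s` and `p ∤ a i` for all `i`, so every one of the `k s` congruences `a i ν + η h ≡ 0 (mod p)` has exactly one
solution, and there is a `ν_p` which solves none.  By the Chinese remainder theorem take `ν ≡ ν_p (mod p)` for all
`p ≤ D`.  Then no prime `p ≤ D` divides any `a i ν + η h` (for `p ≤ max (k s) y` the value is `≡ η h ≢ 0`, as `η h` is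
a prime larger than `p`).
`small`: `p ∣ a i Wp` iff `p ≤ D` (`p ∣ a i → p ≤ y ≤ D`).  `cop`: a common prime factor of `a i Wp` and `a i ν + η h` is
`≤ D`.  `det`: if `p > D` divides `a i (Wp m + ν) + η h` and `a j (Wp m + ν) + η h'` then `p` divides
`|a j η h - a i η h'|`, which is `≤ D < p`, so `a j η h = a i η h'`; if `h = h'` then `a i = a j`, `i = j`; if `h ≠ h'` then the
prime `η h` divides `a i η h'`, hence `a i`, so `η h ≤ y`, a contradiction.
-/

set_option autoImplicit false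

namespace Pool.DL

open Finset

private theorem adm_local (k s y p : ℕ) (hp : p.Prime) (a : Fin k → ℕ)
    (hy : ∀ i p, p.Prime → p ∣ a i → p ≤ y) (η : Fin s → ℕ)
    (hηp : ∀ h, (η h).Prime ∧ k * s < η h ∧ y < η h) :
    ∃ r : ℕ, ∀ i h, ¬ p ∣ a i * r + η h := by
  by_cases h1 : p ≤ k * s ∨ p ≤ y
  · refine ⟨0, fun i h hd => ?_⟩
    rw [mul_zero, zero_add] at hd
    have h2 := (Nat.prime_dvd_prime_iff_eq hp (hηp h).1).1 hd
    have h3 := (hηp h).2
    omega
  · have h1a : k * s < p := by omega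
    have h1b : y < p := by omega
    haveI : Fact p.Prime := ⟨hp⟩
    obtain ⟨r, hr⟩ : ∃ r : ZMod p, r ∉ (univ : Finset (Fin k × Fin s)).image
        (fun x => -(η x.2 : ZMod p) / (a x.1 : ZMod p)) := by
      by_contra hcon
      push Not at hcon
      have h2 : (univ : Finset (ZMod p)) ⊆ (univ : Finset (Fin k × Fin s)).image
        (fun x => -(η x.2 : ZMod p) / (a x.1 : ZMod p)) := fun r _ => hcon r
      have h3 := (Finset.card_le_card h2).trans Finset.card_image_le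
      rw [Finset.card_univ, ZMod.card, Finset.card_univ, Fintype.card_prod, Fintype.card_fin,
        Fintype.card_fin] at h3
      omega
    refine ⟨r.val, fun i h hd => hr ?_⟩
    rw [Finset.mem_image]
    refine ⟨(i, h), Finset.mem_univ _, ?_⟩
    have h4 : ((a i * r.val + η h : ℕ) : ZMod p) = 0 := (ZMod.natCast_eq_zero_iff _ _).2 hd
    push_cast at h4
    rw [ZMod.natCast_zmod_val] at h4
    have h5 : (a i : ZMod p) ≠ 0 := by
      intro h6
      have h7 := (ZMod.natCast_eq_zero_iff _ _).1 h6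
      have h8 := hy i p hp h7
      omega
    dsimp only
    rw [div_eq_iff h5]
    linear_combination -h4

theorem adm (k s y D : ℕ) (a : Fin k → ℕ) (ha : Function.Injective a) (ha0 : ∀ i, a i ≠ 0)
    (hy : ∀ i p, p.Prime → p ∣ a i → p ≤ y) (η : Fin s → ℕ) (hη : Function.Injective η)
    (hηp : ∀ h, (η h).Prime ∧ k * s < η h ∧ y < η h) (hD : y ≤ D)
    (hD2 : ∀ i h, a i * η h ≤ D) :
    ∃ ν : ℕ, Forms D (fun j : Fin k × Fin s => a j.1 * ∏ p ∈ (Icc 1 D).filter Nat.Prime, p)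
      (fun j => a j.1 * ν + η j.2) := by
  classical
  have hloc : ∀ p : ℕ, ∃ r : ℕ, p.Prime → ∀ i h, ¬ p ∣ a i * r + η h := by
    intro p
    by_cases hp : p.Prime
    · obtain ⟨r, hr⟩ := adm_local k s y p hp a hy η hηp
      exact ⟨r, fun _ => hr⟩
    · exact ⟨0, fun h => absurd h hp⟩
  choose r hr using hloc
  obtain ⟨ν, hν⟩ := Nat.chineseRemainderOfFinset r (fun p => p) ((Icc 1 D).filter Nat.Prime)
    (fun p hp => (mem_filter.1 hp).2.ne_zero) (by
      intro p hp p' hp' hne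
      exact (Nat.coprime_primes (mem_filter.1 (Finset.mem_coe.1 hp)).2
        (mem_filter.1 (Finset.mem_coe.1 hp')).2).2 hne)
  have hνp : ∀ p, p.Prime → p ≤ D → ∀ i h, ¬ p ∣ a i * ν + η h := by
    intro p hp hpD i h hd
    have h1 := hν p (mem_filter.2 ⟨mem_Icc.2 ⟨hp.one_le, hpD⟩, hp⟩)
    refine hr p hp i h ?_
    have h2 : a i * ν + η h ≡ a i * r p + η h [MOD p] := (h1.mul_left _).add_right _
    exact (h2.dvd_iff dvd_rfl).1 hd
  have hW : ∀ p, p.Prime → (p ∣ ∏ p ∈ (Icc 1 D).filter Nat.Prime, p ↔ p ≤ D) := by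
    intro p hp
    constructor
    · intro hd
      obtain ⟨p', hp', hd'⟩ := (Prime.dvd_finset_prod_iff hp.prime _).1 hd
      rw [mem_filter, mem_Icc] at hp'
      have := (Nat.prime_dvd_prime_iff_eq hp hp'.2).1 hd'
      omega
    · intro hpD
      exact Finset.dvd_prod_of_mem _ (mem_filter.2 ⟨mem_Icc.2 ⟨hp.one_le, hpD⟩, hp⟩)
  refine ⟨ν, ?_, ?_, ?_, ?_⟩
  · intro j
    refine Nat.one_le_iff_ne_zero.2 (mul_ne_zero (ha0 _) (Finset.prod_ne_zero_iff.2 ?_))
    intro p hp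
    exact (mem_filter.1 hp).2.ne_zero
  · intro j p hp
    constructor
    · intro hd
      rcases (hp.dvd_mul).1 hd with h1 | h1
      · exact (hy _ p hp h1).trans hD
      · exact (hW p hp).1 h1
    · intro hpD
      exact Dvd.dvd.mul_left ((hW p hp).2 hpD) _
  · intro j
    by_contra hnc
    obtain ⟨p, hp, h1, h2⟩ := Nat.Prime.not_coprime_iff_dvd.1 hnc
    have hpD : p ≤ D := by
      rcases (hp.dvd_mul).1 h1 with h3 | h3
      · exact (hy _ p hp h3).trans hD
      · exact (hW p hp).1 h3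
    exact hνp p hp hpD _ _ h2
  · intro i j hij p hp hpD m hm
    obtain ⟨n, hn⟩ : ∃ n : ℕ, n = (∏ p ∈ (Icc 1 D).filter Nat.Prime, p) * m + ν := ⟨_, rfl⟩
    have e1 : a i.1 * (∏ p ∈ (Icc 1 D).filter Nat.Prime, p) * m + (a i.1 * ν + η i.2) =
        a i.1 * n + η i.2 := by rw [hn]; ring
    have e2 : a j.1 * (∏ p ∈ (Icc 1 D).filter Nat.Prime, p) * m + (a j.1 * ν + η j.2) =
        a j.1 * n + η j.2 := by rw [hn]; ring
    have h1 : p ∣ a i.1 * n + η i.2 := by rw [← e1]; exact hm.1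
    have h2 : p ∣ a j.1 * n + η j.2 := by rw [← e2]; exact hm.2
    have h3 : p ∣ a j.1 * (a i.1 * n) + a j.1 * η i.2 := by
      rw [← mul_add]; exact Dvd.dvd.mul_left h1 _
    have h4 : p ∣ a j.1 * (a i.1 * n) + a i.1 * η j.2 := by
      have : a j.1 * (a i.1 * n) + a i.1 * η j.2 = a i.1 * (a j.1 * n + η j.2) := by ring
      rw [this]; exact Dvd.dvd.mul_left h2 _
    have h5 : a j.1 * (a i.1 * n) + a j.1 * η i.2 ≡ a j.1 * (a i.1 * n) + a i.1 * η j.2 [MOD p] :=
      (Nat.modEq_zero_iff_dvd.2 h3).trans (Nat.modEq_zero_iff_dvd.2 h4).symm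
    have h6 := Nat.ModEq.add_left_cancel' _ h5
    have h7 : a j.1 * η i.2 = a i.1 * η j.2 :=
      Nat.ModEq.eq_of_lt_of_lt h6 (lt_of_le_of_lt (hD2 _ _) hpD) (lt_of_le_of_lt (hD2 _ _) hpD)
    by_cases hh : i.2 = j.2
    · rw [hh] at h7
      have h8 := Nat.eq_of_mul_eq_mul_right (hηp j.2).1.pos h7
      exact hij (Prod.ext (ha h8).symm hh)
    · have h8 : η i.2 ∣ a i.1 * η j.2 := by rw [← h7]; exact dvd_mul_left _ _
      rcases ((hηp i.2).1.dvd_mul).1 h8 with h9 | h9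
      · have h10 := hy _ _ (hηp i.2).1 h9
        have h11 := (hηp i.2).2.2
        omega
      · exact hh (hη ((Nat.prime_dvd_prime_iff_eq (hηp i.2).1 (hηp j.2).1).1 h9))

end Pool.DL
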