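import Pool.Agent.Lib.MP_c77da8_nt.DL.Defs

/-!
# DL-AdmG: general admissible families

PROOF.  `Wp = ∏_{p ≤ D} p`.  For every prime `p ≤ D` let `ν_p` be a residue with `p ∤ A j ν_p + B j` for all `j`
(`hadm`; an integer, reduce it mod `p`).  By the Chinese remainder theorem there is `ν ≡ ν_p (mod p)` for all `p ≤ D`;
adding a multiple of `Wp` we may take `ν ≥ ∑ |B j|`, so `A j ν + B j ≥ 0`; `B' j = (A j ν + B j).toNat`.
-/

set_option autoImplicit false

namespace Pool.DL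

open Finset

theorem admG (J : Type) [Fintype J] [DecidableEq J] (A : J → ℕ) (B : J → ℤ) (hA : ∀ j, 1 ≤ A j)
    (hdet : ∀ i j, i ≠ j → (A i : ℤ) * B j ≠ A j * B i)
    (hadm : ∀ p : ℕ, p.Prime → ∃ n : ℤ, ∀ j, ¬ (p : ℤ) ∣ A j * n + B j) (D : ℕ)
    (hD : ∀ j p, p.Prime → p ∣ A j → p ≤ D) (hD2 : ∀ i j, |(A i : ℤ) * B j - A j * B i| ≤ D) :
    ∃ ν : ℕ, ∃ B' : J → ℕ, (∀ j, (B' j : ℤ) = A j * ν + B j) ∧
      Forms D (fun j => A j * ∏ p ∈ (Icc 1 D).filter Nat.Prime, p) B' := by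
  classical
  have hloc : ∀ p : ℕ, ∃ r : ℕ, p.Prime → ∀ j, ¬ (p : ℤ) ∣ A j * (r : ℤ) + B j := by
    intro p
    by_cases hp : p.Prime
    · obtain ⟨n, hn⟩ := hadm p hp
      refine ⟨(n % (p : ℤ)).toNat, fun _ j hd => hn j ?_⟩
      have hp0 : (p : ℤ) ≠ 0 := by exact_mod_cast hp.ne_zero
      have h1 : (((n % (p : ℤ)).toNat : ℕ) : ℤ) = n % (p : ℤ) :=
        Int.toNat_of_nonneg (Int.emod_nonneg n hp0)
      rw [h1] at hd
      have h2 : (A j : ℤ) * n + B j = (A j * (n % (p : ℤ)) + B j) + p * (A j * (n / (p : ℤ))) := by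
        have h3 := Int.mul_ediv_add_emod n (p : ℤ)
        calc (A j : ℤ) * n + B j = A j * (p * (n / (p : ℤ)) + n % (p : ℤ)) + B j := by rw [h3]
          _ = _ := by ring
      rw [h2]
      exact dvd_add hd (dvd_mul_right _ _)
    · exact ⟨0, fun h => absurd h hp⟩
  choose r hr using hloc
  obtain ⟨ν0, hν0⟩ := Nat.chineseRemainderOfFinset r (fun p => p) ((Icc 1 D).filter Nat.Prime)
    (fun p hp => (mem_filter.1 hp).2.ne_zero) (by
      intro p hp p' hp' hne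
      exact (Nat.coprime_primes (mem_filter.1 (Finset.mem_coe.1 hp)).2
        (mem_filter.1 (Finset.mem_coe.1 hp')).2).2 hne)
  obtain ⟨Wp, hWp⟩ : ∃ Wp, Wp = ∏ p ∈ (Icc 1 D).filter Nat.Prime, p := ⟨_, rfl⟩
  have hWp1 : 1 ≤ Wp := by
    rw [hWp]
    apply Nat.succ_le_of_lt
    apply Finset.prod_pos
    intro p hp
    exact (mem_filter.1 hp).2.pos
  have hW : ∀ p, p.Prime → (p ∣ Wp ↔ p ≤ D) := by
    intro p hp
    rw [hWp]
    constructor
    · intro hd
      obtain ⟨p', hp', hd'⟩ := (Prime.dvd_finset_prod_iff hp.prime _).1 hd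
      rw [mem_filter, mem_Icc] at hp'
      have := (Nat.prime_dvd_prime_iff_eq hp hp'.2).1 hd'
      omega
    · intro hpD
      exact Finset.dvd_prod_of_mem _ (mem_filter.2 ⟨mem_Icc.2 ⟨hp.one_le, hpD⟩, hp⟩)
  obtain ⟨ν, hν⟩ : ∃ ν, ν = ν0 + Wp * ∑ j, (B j).natAbs := ⟨_, rfl⟩
  have hνp : ∀ p, p.Prime → p ≤ D → ∀ j, ¬ (p : ℤ) ∣ A j * (ν : ℤ) + B j := by
    intro p hp hpD j hd
    have h1 : ν0 ≡ r p [MOD p] := hν0 p (mem_filter.2 ⟨mem_Icc.2 ⟨hp.one_le, hpD⟩, hp⟩)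
    apply hr p hp j
    have h2 : (ν : ℤ) ≡ (r p : ℤ) [ZMOD (p : ℤ)] := by
      have h3 : ν ≡ r p [MOD p] := by
        rw [hν]
        have h4 : Wp * ∑ j, (B j).natAbs ≡ 0 [MOD p] :=
          (Nat.modEq_zero_iff_dvd.2 (Dvd.dvd.mul_right ((hW p hp).2 hpD) _))
        have h5 := h1.add h4
        simpa using h5
      exact (Int.natCast_modEq_iff).2 h3
    have h6 : (A j : ℤ) * (ν : ℤ) + B j ≡ A j * (r p : ℤ) + B j [ZMOD (p : ℤ)] :=
      (h2.mul_left _).add_right _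
    exact (Int.ModEq.dvd_iff h6).1 hd
  have hpos : ∀ j, 0 ≤ (A j : ℤ) * (ν : ℤ) + B j := by
    intro j
    have h1 : (B j).natAbs ≤ ν := by
      have h2 : (B j).natAbs ≤ ∑ j, (B j).natAbs :=
        Finset.single_le_sum (f := fun j => (B j).natAbs) (fun _ _ => Nat.zero_le _) (mem_univ j)
      have h3 : ∑ j, (B j).natAbs ≤ Wp * ∑ j, (B j).natAbs := Nat.le_mul_of_pos_left _ hWp1
      omega
    have h4 : (ν : ℤ) ≤ (A j : ℤ) * ν := by
      have : ν ≤ A j * ν := Nat.le_mul_of_pos_left _ (hA j)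
      exact_mod_cast this
    have h5 : -((B j).natAbs : ℤ) ≤ B j := by omega
    have h6 : ((B j).natAbs : ℤ) ≤ ν := by exact_mod_cast h1
    linarith
  have hB' : ∀ j, (((A j : ℤ) * (ν : ℤ) + B j).toNat : ℤ) = A j * ν + B j :=
    fun j => Int.toNat_of_nonneg (hpos j)
  rw [← hWp]
  refine ⟨ν, fun j => ((A j : ℤ) * (ν : ℤ) + B j).toNat, hB', ?_, ?_, ?_, ?_⟩
  · intro j
    exact Nat.succ_le_of_lt (Nat.mul_pos (hA j) hWp1)
  · intro j p hp
    constructor
    · intro hd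
      rcases (hp.dvd_mul).1 hd with h1 | h1
      · exact hD _ p hp h1
      · exact (hW p hp).1 h1
    · intro hpD
      exact Dvd.dvd.mul_left ((hW p hp).2 hpD) _
  · intro j
    by_contra hnc
    obtain ⟨p, hp, h1, h2⟩ := Nat.Prime.not_coprime_iff_dvd.1 hnc
    have hpD : p ≤ D := by
      rcases (hp.dvd_mul).1 h1 with h3 | h3
      · exact hD _ p hp h3
      · exact (hW p hp).1 h3
    apply hνp p hp hpD j
    have h3 := Int.natCast_dvd_natCast.2 h2
    rw [hB' j] at h3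
    exact h3
  · intro i j hij p hp hpD m hm
    have e : ∀ j, ((A j * Wp * m + ((A j : ℤ) * (ν : ℤ) + B j).toNat : ℕ) : ℤ) =
        A j * ((Wp : ℤ) * m + ν) + B j := by
      intro j
      push_cast
      have := hB' j
      push_cast at this
      rw [this]
      ring
    have h1 := Int.natCast_dvd_natCast.2 hm.1
    have h2 := Int.natCast_dvd_natCast.2 hm.2
    rw [e i] at h1
    rw [e j] at h2
    have h3 : (p : ℤ) ∣ (A i : ℤ) * B j - A j * B i := by
      have h4 : (A i : ℤ) * B j - A j * B i =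
          A i * (A j * ((Wp : ℤ) * m + ν) + B j) - A j * (A i * ((Wp : ℤ) * m + ν) + B i) := by ring
      rw [h4]
      exact dvd_sub (Dvd.dvd.mul_left h2 _) (Dvd.dvd.mul_left h1 _)
    have h5 : (A i : ℤ) * B j - A j * B i = 0 := by
      apply Int.eq_zero_of_abs_lt_dvd h3
      have h6 : (D : ℤ) < p := by exact_mod_cast hpD
      exact lt_of_le_of_lt (hD2 i j) h6
    exact hdet i j hij (by linarith)

end Pool.DL
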