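import Pool.Agent.Lib.MP_a51fee_ag.SG.SBv

/-!
# DL-Bvw: the Bombieri-Vinogradov theorem for a weighted family of moduli

PROOF.  Copy of the proof of `Pool.SG.bv_fam` (file `SG/SBv.lean`), with weights: for `n ∈ Icc 1 Q` let `a n` be a
class maximising `|Ep y n (c i)|` among the `i ∈ I` with `m i = n`; then
`∑_i w i |Ep y (m i) (c i)| ≤ ∑_n (∑_{m i = n} w i) |Ep y n (a n)| ≤ ∑_n τ(n)^k |Ep y n (a n)|`, `Pool.BV.bv_weight`.
-/

set_option autoImplicit false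

open Finset

namespace Pool.DL

theorem bv_wt (A k : ℕ) : ∃ B X0 : ℕ, ∀ X Q : ℕ, X0 ≤ X →
    (Q : ℝ) ≤ Real.sqrt X / Real.log X ^ B → ∀ y : ℕ, y ≤ X → ∀ (ι : Type) (I : Finset ι)
    (m c : ι → ℕ) (w : ι → ℝ), (∀ i ∈ I, 0 ≤ w i ∧ 1 ≤ m i ∧ m i ≤ Q ∧ Nat.Coprime (c i) (m i)) →
    (∀ n, ∑ i ∈ I.filter (fun i => m i = n), w i ≤ (n.divisors.card : ℝ) ^ k) →
    ∑ i ∈ I, w i * |Pool.BV.Ep y (m i) (c i)| ≤ X / Real.log X ^ A := by
  obtain ⟨B, X0, hB⟩ := Pool.BV.bv_weight A k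
  refine ⟨B, X0, fun X Q hX hQ y hy ι I m c w hI hw => ?_⟩
  have hex : ∀ n : ℕ, ∃ a : ℕ, Nat.Coprime a n ∧ ∀ i ∈ I, m i = n →
      |Pool.BV.Ep y n (c i)| ≤ |Pool.BV.Ep y n a| := by
    intro n
    by_cases hne : (I.filter (fun i => m i = n)).Nonempty
    · obtain ⟨i0, hi0, hmax⟩ := exists_max_image _ (fun i => |Pool.BV.Ep y n (c i)|) hne
      rw [mem_filter] at hi0
      refine ⟨c i0, ?_, fun i hi hin => hmax i (mem_filter.2 ⟨hi, hin⟩)⟩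
      rw [← hi0.2]
      exact (hI i0 hi0.1).2.2.2
    · refine ⟨1, Nat.coprime_one_left n, fun i hi hin => ?_⟩
      exact absurd ⟨i, mem_filter.2 ⟨hi, hin⟩⟩ hne
  choose a ha1 ha2 using hex
  have h1 := (hB X Q hX hQ a (fun _ => y) ha1 (fun _ => hy)).2
  refine le_trans ?_ h1
  calc ∑ i ∈ I, w i * |Pool.BV.Ep y (m i) (c i)|
      ≤ ∑ i ∈ I, w i * |Pool.BV.Ep y (m i) (a (m i))| :=
        sum_le_sum fun i hi => mul_le_mul_of_nonneg_left (ha2 (m i) i hi rfl) (hI i hi).1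
    _ = ∑ n ∈ Icc 1 Q, ∑ i ∈ I with m i = n, w i * |Pool.BV.Ep y (m i) (a (m i))| := by
        rw [sum_fiberwise_of_maps_to]
        intro i hi
        exact mem_Icc.2 ⟨(hI i hi).2.1, (hI i hi).2.2.1⟩
    _ ≤ ∑ n ∈ Icc 1 Q, (n.divisors.card : ℝ) ^ k * |Pool.BV.Ep y n (a n)| := by
        refine sum_le_sum fun n _ => ?_
        have h2 : ∑ i ∈ I with m i = n, w i * |Pool.BV.Ep y (m i) (a (m i))| =
            (∑ i ∈ I.filter (fun i => m i = n), w i) * |Pool.BV.Ep y n (a n)| := by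
          rw [sum_mul]
          refine sum_congr rfl fun i hi => ?_
          rw [(mem_filter.1 hi).2]
        rw [h2]
        exact mul_le_mul_of_nonneg_right (hw n) (abs_nonneg _)

end Pool.DL
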