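import Pool.Agent.Lib.MP_c77da8_nt.DL.Cun
import Pool.Agent.Lib.MP_c77da8_nt.SZ.Sz

/-!
# DL-Chain: chains of every length with bounded factors from a prescribed infinite set of odd numbers

PROOF.  `chain_T`: `szemeredi k (1/3000)` gives `N`; `K = N + 1`.  By `cun K T` (for a subset `F` of `𝓑` with `C^(K T)`
elements) for infinitely many `n` at least `K/3000` of the exponents `i < K` are good; there are only finitely many sets
of exponents, so one set `S` of good exponents occurs for infinitely many `n`; it contains an arithmetic progression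
`a + j d`, `j < k`; `n' = 2^a n` works, as `b 2^(a + j d) n = b 2^(d j) n'`.  If `k ≥ 2` then `d < K`, if `k ≤ 1` we take `d = 1`:
so `d ≤ K`, and one `d` works for infinitely many, hence for all `T`.
-/

set_option autoImplicit false

namespace Pool.DL

open Finset

theorem chain_T (k : ℕ) : ∃ K : ℕ, ∀ 𝓑 : Set ℕ, 𝓑.Infinite → (∀ b ∈ 𝓑, Odd b) → ∀ T : ℕ,
    ∃ d, 1 ≤ d ∧ d ≤ K ∧ ∃ F : Finset ℕ, (∀ b ∈ F, b ∈ 𝓑) ∧ {n : ℕ | ∀ j < k,
      T ≤ (F.filter (fun b => (b * 2 ^ (d * j) * n - 1).Prime)).card}.Infinite := by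
  obtain ⟨C, hC, hcun⟩ := cun
  obtain ⟨N, hN⟩ := Pool.SZ.szemeredi k (1 / 3000) (by norm_num)
  obtain ⟨K, hK⟩ : ∃ K, K = N + 1 := ⟨_, rfl⟩
  refine ⟨K, fun 𝓑 h𝓑 hodd T => ?_⟩
  obtain ⟨F, hF𝓑, hFc⟩ := h𝓑.exists_subset_card_eq (C ^ (K * T))
  have hFB : ∀ b ∈ F, b ∈ 𝓑 := fun b hb => hF𝓑 hb
  have h1 := hcun K T F (fun b hb => hodd b (hFB b hb)) hFc.ge
  -- the set of the good exponents
  obtain ⟨S, hS⟩ : ∃ S : Finset (Fin K), {n : ℕ | (univ.filter (fun i : Fin K =>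
      T ≤ (F.filter (fun b => (b * 2 ^ (i : ℕ) * n - 1).Prime)).card)) = S ∧
      K ≤ 3000 * S.card}.Infinite := by
    by_contra hcon
    push Not at hcon
    apply h1
    have h2 : {n : ℕ | K ≤ 3000 * (univ.filter (fun i : Fin K =>
        T ≤ (F.filter (fun b => (b * 2 ^ (i : ℕ) * n - 1).Prime)).card)).card} ⊆
        ⋃ S : Finset (Fin K), {n : ℕ | (univ.filter (fun i : Fin K =>
          T ≤ (F.filter (fun b => (b * 2 ^ (i : ℕ) * n - 1).Prime)).card)) = S ∧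
          K ≤ 3000 * S.card} := by
      intro n hn
      exact Set.mem_iUnion.2 ⟨_, rfl, hn⟩
    refine (Set.finite_iUnion fun S => ?_).subset h2
    exact hcon S
  obtain ⟨n0, hn0⟩ := hS.nonempty
  have hKS : K ≤ 3000 * S.card := hn0.2
  obtain ⟨a, d, hd, had⟩ := hN K (by omega) (S.map Fin.valEmbedding)
    (by
      intro x hx
      rw [mem_map] at hx
      obtain ⟨i, _, rfl⟩ := hx
      rw [mem_range]
      exact i.2)
    (by
      rw [card_map]
      have : (K : ℝ) ≤ 3000 * (S.card : ℝ) := by exact_mod_cast hKS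
      linarith)
  obtain ⟨d', hd'1, hd'K, had'⟩ : ∃ d', 1 ≤ d' ∧ d' ≤ K ∧ ∀ j < k, a + j * d' ∈ S.map Fin.valEmbedding := by
    rcases Nat.lt_or_ge 1 k with hk | hk
    · refine ⟨d, hd, ?_, had⟩
      have h3 := had 1 hk
      rw [mem_map] at h3
      obtain ⟨i, _, hi2⟩ := h3
      have h4 : (i : ℕ) = a + 1 * d := hi2
      have := i.2
      omega
    · refine ⟨1, le_rfl, by omega, fun j hj => ?_⟩
      have h3 := had j hj
      have h4 : j = 0 := by omega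
      rw [h4] at h3 ⊢
      simpa using h3
  refine ⟨d', hd'1, hd'K, F, hFB, ?_⟩
  have hinj : Function.Injective (fun n : ℕ => 2 ^ a * n) := by
    intro x y hxy
    exact Nat.eq_of_mul_eq_mul_left (by positivity) hxy
  refine (hS.image hinj.injOn).mono ?_
  rintro _ ⟨n, ⟨hn, -⟩, rfl⟩
  intro j hj
  have h3 := had' j hj
  rw [mem_map] at h3
  obtain ⟨i, hi, hi2⟩ := h3
  rw [← hn, mem_filter] at hi
  refine hi.2.trans (le_of_eq ?_)
  congr 1
  apply Finset.filter_congr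
  intro b _
  have h4 : b * 2 ^ (i : ℕ) * n = b * 2 ^ (d' * j) * (2 ^ a * n) := by
    have h5 : (i : ℕ) = a + j * d' := hi2
    rw [h5, pow_add, mul_comm j d']
    ring
  rw [h4]

theorem chain (k : ℕ) (𝓑 : Set ℕ) (h𝓑 : 𝓑.Infinite) (hodd : ∀ b ∈ 𝓑, Odd b) :
    ∃ d, 1 ≤ d ∧ ∀ T : ℕ, ∃ F : Finset ℕ, (∀ b ∈ F, b ∈ 𝓑) ∧ {n : ℕ | ∀ j < k,
      T ≤ (F.filter (fun b => (b * 2 ^ (d * j) * n - 1).Prime)).card}.Infinite := by
  obtain ⟨K, hK⟩ := chain_T k
  have h1 := hK 𝓑 h𝓑 hodd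
  choose d hd1 hdK F hF hinf using h1
  obtain ⟨e, he⟩ : ∃ e : ℕ, {T : ℕ | d T = e}.Infinite := by
    by_contra hcon
    push Not at hcon
    have h2 : (Set.univ : Set ℕ) ⊆ ⋃ e : Fin (K + 1), {T : ℕ | d T = (e : ℕ)} := by
      intro T _
      exact Set.mem_iUnion.2 ⟨⟨d T, by have := hdK T; omega⟩, rfl⟩
    exact Set.infinite_univ ((Set.finite_iUnion fun e : Fin (K + 1) => hcon (e : ℕ)).subset h2)
  obtain ⟨T0, hT0⟩ := he.nonempty
  refine ⟨e, by rw [← hT0]; exact hd1 T0, fun T => ?_⟩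
  obtain ⟨T', hT', hTT'⟩ := he.exists_gt T
  have hT'' : d T' = e := hT'
  refine ⟨F T', hF T', (hinf T').mono fun n hn j hj => ?_⟩
  have := hn j hj
  rw [hT''] at this
  omega

end Pool.DL
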