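import Pool.Agent.Lib.MP_c77da8_nt.DL.Main
import Pool.Agent.Lib.MP_c77da8_nt.DL.Hit
import Pool.Agent.Lib.MP_c77da8_nt.DL.AdmG

/-!
# DL-Cls: classes of arbitrary admissible linear forms

PROOF.  As in `DL/Fin.lean`: `C1` from `main_sums`, `C = 2^(16 C1)`.  Given `s ≥ C^(k T) = 2^ℓ`, `ℓ = 16 C1 k T`, keep the
first `2^ℓ` forms of every class; `admG`, `main_sums`, `hit`.
-/

set_option autoImplicit false

namespace Pool.DL

open Finset

theorem classes_eq : ∃ C1 : ℕ, 1 ≤ C1 ∧ ∀ k T s : ℕ, 1 ≤ k → 1 ≤ T → s = 2 ^ (16 * C1 * (k * T)) →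
    ∀ (A : Fin k → Fin s → ℕ) (B : Fin k → Fin s → ℤ), (∀ i h, 1 ≤ A i h) →
    (∀ i h i' h', (i, h) ≠ (i', h') → (A i h : ℤ) * B i' h' ≠ A i' h' * B i h) →
    (∀ p : ℕ, p.Prime → ∃ n : ℤ, ∀ i h, ¬ (p : ℤ) ∣ A i h * n + B i h) →
    ∀ N : ℕ, ∃ n : ℕ, N < n ∧ k ≤ 3000 * (univ.filter (fun i : Fin k =>
      T ≤ (univ.filter (fun h : Fin s => ((A i h : ℤ) * n + B i h).toNat.Prime)).card)).card := by
  obtain ⟨C1, hC1, hmain⟩ := main_sums
  refine ⟨C1, hC1, fun k T s hk hT hs A B hA hdet hadm N => ?_⟩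
  obtain ⟨ℓ, hℓ⟩ : ∃ ℓ, ℓ = 16 * C1 * (k * T) := ⟨_, rfl⟩
  rw [← hℓ] at hs
  have hkT : 1 ≤ k * T := Nat.succ_le_of_lt (by positivity)
  have hℓ1 : 1 ≤ ℓ := by rw [hℓ]; nlinarith
  have hs1 : 1 ≤ s := by rw [hs]; exact Nat.one_le_two_pow
  obtain ⟨D, hD⟩ : ∃ D, D = (∑ i : Fin k × Fin s, A i.1 i.2) +
    (∑ i : Fin k × Fin s, ∑ j : Fin k × Fin s,
      ((A i.1 i.2 : ℤ) * B j.1 j.2 - A j.1 j.2 * B i.1 i.2).natAbs) +
      (1000 * (k * s) ^ 2 + 12) := ⟨_, rfl⟩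
  have hAD : ∀ j : Fin k × Fin s, ∀ p : ℕ, p.Prime → p ∣ A j.1 j.2 → p ≤ D := by
    intro j p _ hpj
    have h1 : p ≤ A j.1 j.2 := Nat.le_of_dvd (hA _ _) hpj
    have h2 : A j.1 j.2 ≤ ∑ i : Fin k × Fin s, A i.1 i.2 :=
      Finset.single_le_sum (f := fun i : Fin k × Fin s => A i.1 i.2) (fun _ _ => Nat.zero_le _) (mem_univ j)
    omega
  have hdD : ∀ i j : Fin k × Fin s,
      |(A i.1 i.2 : ℤ) * B j.1 j.2 - A j.1 j.2 * B i.1 i.2| ≤ D := by
    intro i j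
    have h1 : ((A i.1 i.2 : ℤ) * B j.1 j.2 - A j.1 j.2 * B i.1 i.2).natAbs ≤
        ∑ j : Fin k × Fin s, ((A i.1 i.2 : ℤ) * B j.1 j.2 - A j.1 j.2 * B i.1 i.2).natAbs :=
      Finset.single_le_sum (f := fun j : Fin k × Fin s =>
        ((A i.1 i.2 : ℤ) * B j.1 j.2 - A j.1 j.2 * B i.1 i.2).natAbs) (fun _ _ => Nat.zero_le _) (mem_univ j)
    have h2 : ∑ j : Fin k × Fin s, ((A i.1 i.2 : ℤ) * B j.1 j.2 - A j.1 j.2 * B i.1 i.2).natAbs ≤
        ∑ i : Fin k × Fin s, ∑ j : Fin k × Fin s,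
          ((A i.1 i.2 : ℤ) * B j.1 j.2 - A j.1 j.2 * B i.1 i.2).natAbs :=
      Finset.single_le_sum (f := fun i : Fin k × Fin s => ∑ j : Fin k × Fin s,
        ((A i.1 i.2 : ℤ) * B j.1 j.2 - A j.1 j.2 * B i.1 i.2).natAbs) (fun _ _ => Nat.zero_le _) (mem_univ i)
    have h3 : ((A i.1 i.2 : ℤ) * B j.1 j.2 - A j.1 j.2 * B i.1 i.2).natAbs ≤ D := by omega
    rw [Int.abs_eq_natAbs]
    exact_mod_cast h3
  obtain ⟨ν, B', hB', hF⟩ := admG (Fin k × Fin s) (fun j => A j.1 j.2) (fun j => B j.1 j.2)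
    (fun j => hA _ _) (fun i j hij => hdet i.1 i.2 j.1 j.2 (by simpa using hij))
    (fun p hp => by
      obtain ⟨n, hn⟩ := hadm p hp
      exact ⟨n, fun j => hn _ _⟩) D hAD hdD
  obtain ⟨Wp, hWp⟩ : ∃ Wp, Wp = ∏ p ∈ (Icc 1 D).filter Nat.Prime, p := ⟨_, rfl⟩
  have hWp1 : 1 ≤ Wp := by
    rw [hWp]
    apply Nat.succ_le_of_lt
    apply Finset.prod_pos
    intro p hp
    exact (mem_filter.1 hp).2.pos
  rw [← hWp] at hF
  have hcard : Fintype.card (Fin k × Fin s) = k * s := by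
    rw [Fintype.card_prod, Fintype.card_fin, Fintype.card_fin]
  have h2ℓ : 2 ^ ℓ ≤ Fintype.card (Fin k × Fin s) := by
    rw [hcard, ← hs]
    exact Nat.le_mul_of_pos_left _ hk
  have hDD : 1000 * Fintype.card (Fin k × Fin s) ^ 2 + 12 ≤ D := by
    rw [hcard]
    omega
  obtain ⟨X, hNX, w, κ, W, hw, hW, hκ, hS1, hS2, hS3⟩ := hmain (Fin k × Fin s) ℓ D _ _ hℓ1 h2ℓ hDD hF N
  have hκ' : 16 * (T : ℝ) ≤ s * κ := by
    have hk0 : (0 : ℝ) < k := by exact_mod_cast hk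
    have hs0 : (0 : ℝ) < s := by exact_mod_cast hs1
    have hC10 : (0 : ℝ) < C1 := by exact_mod_cast hC1
    have h1 : (s : ℝ) * ((ℓ : ℝ) / (C1 * (Fintype.card (Fin k × Fin s) : ℝ))) = 16 * T := by
      rw [hcard, hℓ]
      push_cast
      field_simp
    rw [← h1]
    exact mul_le_mul_of_nonneg_left hκ hs0.le
  obtain ⟨m, hm, hcnt⟩ := hit (Ioc X (2 * X)) w hw k s T hk hT
    (fun i h m => (A i h * Wp * m + B' (i, h)).Prime) κ W hW hκ' hS1
    (fun i h => (hS2 (i, h)).1) (fun i h => (hS2 (i, h)).2)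
    (fun i h h' hne => hS3 (i, h) (i, h') (by simpa using hne))
  rw [mem_Ioc] at hm
  refine ⟨Wp * m + ν, by nlinarith, ?_⟩
  have h4 : ∀ i h, ((A i h : ℤ) * ((Wp * m + ν : ℕ) : ℤ) + B i h).toNat =
      A i h * Wp * m + B' (i, h) := by
    intro i h
    have h5 : (A i h : ℤ) * ((Wp * m + ν : ℕ) : ℤ) + B i h = ((A i h * Wp * m + B' (i, h) : ℕ) : ℤ) := by
      push_cast
      rw [hB' (i, h)]
      ring
    rw [h5]
    exact Int.toNat_natCast _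
  have h5 : (k : ℝ) ≤ 3000 * ((univ.filter (fun i : Fin k => T ≤ (univ.filter (fun h : Fin s =>
      ((A i h : ℤ) * ((Wp * m + ν : ℕ) : ℤ) + B i h).toNat.Prime)).card)).card : ℝ) := by
    simp only [h4]
    linarith
  exact_mod_cast h5

/-- **Maynard-Tao theorem for classes of linear forms.** -/
theorem classes : ∃ C : ℕ, 1 ≤ C ∧ ∀ k T s : ℕ, C ^ (k * T) ≤ s →
    ∀ (A : Fin k → Fin s → ℕ) (B : Fin k → Fin s → ℤ), (∀ i h, 1 ≤ A i h) →
    (∀ i h i' h', (i, h) ≠ (i', h') → (A i h : ℤ) * B i' h' ≠ A i' h' * B i h) →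
    (∀ p : ℕ, p.Prime → ∃ n : ℤ, ∀ i h, ¬ (p : ℤ) ∣ A i h * n + B i h) →
    {n : ℕ | k ≤ 3000 * (univ.filter (fun i : Fin k =>
      T ≤ (univ.filter (fun h : Fin s => ((A i h : ℤ) * n + B i h).toNat.Prime)).card)).card}.Infinite := by
  obtain ⟨C1, hC1, hcl⟩ := classes_eq
  refine ⟨2 ^ (16 * C1), Nat.one_le_two_pow, fun k T s hs A B hA hdet hadm => ?_⟩
  rcases Nat.eq_zero_or_pos k with hk | hk
  · subst hk
    simpa using Set.infinite_univ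
  rcases Nat.eq_zero_or_pos T with hT | hT
  · subst hT
    have h : {n : ℕ | k ≤ 3000 * (univ.filter (fun i : Fin k =>
        0 ≤ (univ.filter (fun h : Fin s => ((A i h : ℤ) * n + B i h).toNat.Prime)).card)).card} =
        Set.univ := by
      ext n
      simp only [Nat.zero_le, Finset.filter_true, Finset.card_univ, Fintype.card_fin,
        Set.mem_setOf_eq, Set.mem_univ, iff_true]
      omega
    rw [h]
    exact Set.infinite_univ
  apply Set.infinite_of_forall_exists_gt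
  intro N
  rw [← pow_mul] at hs
  obtain ⟨n, hn, hcn⟩ := hcl k T (2 ^ (16 * C1 * (k * T))) hk hT rfl
    (fun i h => A i (Fin.castLE hs h)) (fun i h => B i (Fin.castLE hs h)) (fun i h => hA _ _)
    (fun i h i' h' hne => hdet i _ i' _ (by
      intro heq
      apply hne
      rw [Prod.mk.injEq] at heq ⊢
      exact ⟨heq.1, Fin.castLE_injective hs heq.2⟩))
    (fun p hp => by
      obtain ⟨n, hn⟩ := hadm p hp
      exact ⟨n, fun i h => hn _ _⟩) N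
  refine ⟨n, ?_, hn⟩
  simp only [Set.mem_setOf_eq]
  refine hcn.trans (Nat.mul_le_mul_left _ ?_)
  apply Finset.card_le_card
  intro i hi
  rw [mem_filter] at hi ⊢
  refine ⟨mem_univ _, hi.2.trans ?_⟩
  apply Finset.card_le_card_of_injOn (fun h => Fin.castLE hs h)
  · intro h hh
    simpa using hh
  · intro h _ h' _ heq
    exact Fin.castLE_injective hs heq

end Pool.DL
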