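import Pool.Agent.Lib.MP_c77da8_nt.DL.Crt
import Pool.Agent.Lib.MP_c77da8_nt.DL.Expd
import Pool.Agent.Lib.BV.Defs

/-!
# DL-Cnt: counting the integers and the primes in the classes

PROOF.  `cnt_int`: `le_and`; if `comp d e`, then by `res` for `join d e` the condition is `m ≡ ρ (mod N)`,
`N = nrm vs (supp (join d e))`, and the number of `m ∈ Ioc X (2X)` in a class mod `N` is `X/N + O(1)` (error `≤ 1`);
`∏_{supp} 1/q_p = 1/N`.  If not `comp d e` the set is empty.
`cnt_prime`: if not `comp d e`, or `d` or `e` uses the colour `i` (then `p | A i m + B i`, a prime `> R ≥ p`, for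
`m > X ≥ R`, is impossible), the set is empty; take `c = 1`.  Otherwise let `ρ` be the class of `join d e` mod `N`
(`res`), `c = A i ρ + B i`.  `c` is coprime to `A i` (`Forms.cop`) and to `N` (`res_cop`).  For a prime `p'`:
`p' = A i m + B i` with `m ≡ ρ (mod N)` iff `p' ≡ c (mod A i N)` and `p' ≥ B i...`: `m ↦ A i m + B i` is a bijection from
the `m ∈ Ioc X (2X)` with `m ≡ ρ (mod N)` and `A i m + B i` prime onto the primes `p' ∈ Ioc U0 U1` with
`p' ≡ c (mod A i N)`, `U0 = A i X + B i`, `U1 = 2 A i X + B i` (for `p' > U0 ≥ B i` with `p' ≡ c ≡ B i (mod A i)`,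
`m = (p' - B i)/A i`, and `A i m ≡ A i ρ (mod A i N)` iff `m ≡ ρ (mod N)`).  The number of these is
`(Ep U1 + pp U1/φ) - (Ep U0 + pp U0/φ)`, `φ = φ(A i N) = φ(A i) φ(N)` (`nrm_cop`, `tot_nrm`), `φ(N) = ∏ (p - 1)`.
-/

set_option autoImplicit false

namespace Pool.DL

open Finset

variable {J : Type} [Fintype J] [DecidableEq J]

theorem cnt_ap (X N ρ : ℕ) (hN : 0 < N) :
    |(((Ioc X (2 * X)).filter (fun m => m ≡ ρ [MOD N])).card : ℝ) - X * (1 / (N : ℝ))| ≤ 1 := by
  have h := Nat.Ioc_filter_modEq_card X (2 * X) hN ρ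
  set C := ((Ioc X (2 * X)).filter (fun m => m ≡ ρ [MOD N])).card with hC
  have hNq : (0 : ℚ) < N := by exact_mod_cast hN
  have h1 : ((2 * X : ℕ) - (ρ : ℚ)) / (N : ℚ) = (X - (ρ : ℚ)) / (N : ℚ) + X * (1 / (N : ℚ)) := by
    push_cast
    field_simp
    ring
  have h2 := Int.floor_le (((2 * X : ℕ) - (ρ : ℚ)) / (N : ℚ))
  have h3 := Int.lt_floor_add_one (((2 * X : ℕ) - (ρ : ℚ)) / (N : ℚ))
  have h4 := Int.floor_le ((X - (ρ : ℚ)) / (N : ℚ))
  have h5 := Int.lt_floor_add_one ((X - (ρ : ℚ)) / (N : ℚ))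
  have h6 : 0 ≤ (X : ℚ) * (1 / (N : ℚ)) := by positivity
  have key : |((C : ℕ) : ℚ) - X * (1 / (N : ℚ))| ≤ 1 := by
    have h7 : ((C : ℕ) : ℚ) = ((C : ℤ) : ℚ) := by push_cast; rfl
    rw [h7, h]
    set F := ⌊((2 * X : ℕ) - (ρ : ℚ)) / (N : ℚ)⌋ with hF
    set G := ⌊(X - (ρ : ℚ)) / (N : ℚ)⌋ with hG
    rw [h1] at h2 h3
    have h8 : (((max (F - G) 0 : ℤ)) : ℚ) = max ((F : ℚ) - G) 0 := by push_cast; rfl
    rw [h8, abs_le]
    constructor
    · have := le_max_left ((F : ℚ) - G) 0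
      linarith
    · have : max ((F : ℚ) - G) 0 ≤ X * (1 / (N : ℚ)) + 1 := by
        apply max_le
        · linarith
        · linarith
      linarith
  have h9 : ((|((C : ℕ) : ℚ) - X * (1 / (N : ℚ))| : ℚ) : ℝ) ≤ ((1 : ℚ) : ℝ) := by exact_mod_cast key
  push_cast at h9
  exact h9

theorem cnt_prodi (D R : ℕ) (a : Finset {p // p ∈ Ps D R}) :
    ∏ p ∈ a, (1 / qs D R p) = 1 / (nrm (vs D R) a : ℝ) := by
  unfold nrm
  rw [Nat.cast_prod, prod_div_distrib, prod_const_one]
  rfl

theorem cnt_prodp (D R : ℕ) (a : Finset {p // p ∈ Ps D R}) :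
    ∏ p ∈ a, (1 / (qs D R p - 1)) = 1 / ((Nat.totient (nrm (vs D R) a) : ℕ) : ℝ) := by
  rw [tot_nrm, Nat.cast_prod, prod_div_distrib, prod_const_one]
  congr 1
  apply prod_congr rfl
  intro p _
  have h : 1 ≤ vs D R p := (mem_Ps D R p).1.one_lt.le
  rw [Nat.cast_sub h]
  simp [qs, vs]

theorem cnt_int (D R : ℕ) (A B : J → ℕ) (hF : Forms D A B) (X : ℕ)
    (d e : {p // p ∈ Ps D R} → Option J) :
    |(((Ioc X (2 * X)).filter
        (fun m => le d (col A B D R m) ∧ le e (col A B D R m))).card : ℝ) -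
      X * (if comp d e then ∏ p ∈ supp (join d e), (1 / qs D R p) else 0)| ≤ 1 := by
  classical
  by_cases hc : comp d e
  · rw [if_pos hc, cnt_prodi]
    obtain ⟨ρ, hρ⟩ := res D R A B hF (join d e)
    have h1 : ((Ioc X (2 * X)).filter
        (fun m => le d (col A B D R m) ∧ le e (col A B D R m))) =
        (Ioc X (2 * X)).filter (fun m => m ≡ ρ [MOD nrm (vs D R) (supp (join d e))]) := by
      apply filter_congr
      intro m _
      rw [le_and, ← hρ m]
      exact and_iff_right hc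
    rw [h1]
    exact cnt_ap X _ ρ (nrm_pos D R _)
  · rw [if_neg hc]
    have h1 : ((Ioc X (2 * X)).filter
        (fun m => le d (col A B D R m) ∧ le e (col A B D R m))) = ∅ := by
      apply filter_eq_empty_iff.2
      intro m _ h
      rw [le_and] at h
      exact hc h.1
    rw [h1]
    simp

/-- primes in a class of an interval -/
theorem cnt_Ioc (U0 U1 q c : ℕ) (h : U0 ≤ U1) :
    (((Ioc U0 U1).filter (fun n => n.Prime ∧ n ≡ c [MOD q])).card : ℝ) =
      (Pool.BV.Ep U1 q c + pp U1 / (Nat.totient q : ℝ)) -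
      (Pool.BV.Ep U0 q c + pp U0 / (Nat.totient q : ℝ)) := by
  have h1 : (Icc 1 U1).filter (fun n => n.Prime ∧ n ≡ c [MOD q]) =
      (Icc 1 U0).filter (fun n => n.Prime ∧ n ≡ c [MOD q]) ∪
      (Ioc U0 U1).filter (fun n => n.Prime ∧ n ≡ c [MOD q]) := by
    ext n
    simp only [mem_union, mem_filter, mem_Icc, mem_Ioc]
    constructor
    · rintro ⟨⟨a1, a2⟩, a3⟩
      by_cases h2 : n ≤ U0
      · exact Or.inl ⟨⟨a1, h2⟩, a3⟩
      · exact Or.inr ⟨⟨by omega, a2⟩, a3⟩
    · rintro (⟨⟨a1, a2⟩, a3⟩ | ⟨⟨a1, a2⟩, a3⟩)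
      · exact ⟨⟨a1, by omega⟩, a3⟩
      · exact ⟨⟨by omega, a2⟩, a3⟩
  have h2 : Disjoint ((Icc 1 U0).filter (fun n => n.Prime ∧ n ≡ c [MOD q]))
      ((Ioc U0 U1).filter (fun n => n.Prime ∧ n ≡ c [MOD q])) := by
    rw [disjoint_left]
    intro n hn hn'
    simp only [mem_filter, mem_Icc, mem_Ioc] at hn hn'
    omega
  have h3 := congrArg Finset.card h1
  rw [card_union_of_disjoint h2] at h3
  have h4 : (((Icc 1 U1).filter (fun n => n.Prime ∧ n ≡ c [MOD q])).card : ℝ) =
      (((Icc 1 U0).filter (fun n => n.Prime ∧ n ≡ c [MOD q])).card : ℝ) +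
      (((Ioc U0 U1).filter (fun n => n.Prime ∧ n ≡ c [MOD q])).card : ℝ) := by
    rw [h3]
    push_cast
    rfl
  unfold Pool.BV.Ep pp
  rw [h4]
  ring

/-- the bijection `m ↦ A m + B` -/
theorem cnt_bij (X A B N ρ : ℕ) (hA : 1 ≤ A) :
    ((Ioc X (2 * X)).filter (fun m => (A * m + B).Prime ∧ m ≡ ρ [MOD N])).card =
      ((Ioc (A * X + B) (2 * A * X + B)).filter
        (fun n => n.Prime ∧ n ≡ A * ρ + B [MOD A * N])).card := by
  apply card_bij (fun m _ => A * m + B)
  · intro m hm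
    rw [mem_filter, mem_Ioc] at hm ⊢
    obtain ⟨⟨a1, a2⟩, a3, a4⟩ := hm
    refine ⟨⟨?_, ?_⟩, a3, ?_⟩
    · have := Nat.mul_lt_mul_of_pos_left a1 (by omega : 0 < A)
      omega
    · have := Nat.mul_le_mul_left A a2
      have e : A * (2 * X) = 2 * A * X := by ring
      omega
    · exact (Nat.ModEq.mul_left' A a4).add_right B
  · intro m _ m' _ h
    have h1 : A * m = A * m' := by omega
    exact Nat.eq_of_mul_eq_mul_left (by omega) h1
  · intro n hn
    rw [mem_filter, mem_Ioc] at hn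
    obtain ⟨⟨a1, a2⟩, a3, a4⟩ := hn
    have h1 : n ≡ A * ρ + B [MOD A] := a4.of_dvd (dvd_mul_right A N)
    have h2 : A ∣ n - B := by
      have h3 : n ≡ B [MOD A] := by
        refine h1.trans ?_
        unfold Nat.ModEq
        rw [Nat.add_comm, Nat.add_mul_mod_self_left]
      exact (Nat.modEq_iff_dvd' (by omega)).1 h3.symm
    obtain ⟨m, hm⟩ := h2
    have h4 : n = A * m + B := by omega
    subst h4
    refine ⟨m, ?_, rfl⟩
    rw [mem_filter, mem_Ioc]
    refine ⟨⟨?_, ?_⟩, a3, ?_⟩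
    · have h5 : A * X < A * m := by omega
      exact lt_of_mul_lt_mul_left h5 (Nat.zero_le A)
    · have h5 : A * m ≤ A * (2 * X) := by
        have e : A * (2 * X) = 2 * A * X := by ring
        omega
      exact le_of_mul_le_mul_left h5 (by omega)
    · have h5 : A * m ≡ A * ρ [MOD A * N] := Nat.ModEq.add_right_cancel' B a4
      exact Nat.ModEq.mul_left_cancel' (by omega) h5

theorem cnt_prime (D R : ℕ) (A B : J → ℕ) (hF : Forms D A B) (i : J) (X : ℕ) (hR : R ≤ X)
    (d e : {p // p ∈ Ps D R} → Option J) :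
    ∃ c : ℕ, Nat.Coprime c (A i * nrm (vs D R) (supp (join d e))) ∧
    |(((Ioc X (2 * X)).filter
        (fun m => (A i * m + B i).Prime ∧ le d (col A B D R m) ∧ le e (col A B D R m))).card : ℝ) -
      (pp (2 * A i * X + B i) - pp (A i * X + B i)) / (Nat.totient (A i) : ℝ) *
        (if comp d e ∧ (∀ p, d p ≠ some i) ∧ (∀ p, e p ≠ some i) then
          ∏ p ∈ supp (join d e), (1 / (qs D R p - 1)) else 0)| ≤
      |Pool.BV.Ep (2 * A i * X + B i) (A i * nrm (vs D R) (supp (join d e))) c| +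
      |Pool.BV.Ep (A i * X + B i) (A i * nrm (vs D R) (supp (join d e))) c| := by
  classical
  by_cases hc : comp d e ∧ (∀ p, d p ≠ some i) ∧ (∀ p, e p ≠ some i)
  · rw [if_pos hc, cnt_prodp]
    obtain ⟨h1, h2, h3⟩ := hc
    obtain ⟨ρ, hρ⟩ := res D R A B hF (join d e)
    set N := nrm (vs D R) (supp (join d e)) with hN
    have hji : ∀ p, join d e p ≠ some i := by
      intro p
      unfold join
      split_ifs
      · exact h3 p
      · exact h2 p
    have hA := hF.pos i
    have c1 : Nat.Coprime (A i * ρ + B i) (A i) := by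
      have := (hF.cop i).symm
      rw [Nat.add_comm]
      exact (Nat.coprime_add_mul_left_left (B i) (A i) ρ).2 this
    have c2 : Nat.Coprime (A i * ρ + B i) N :=
      res_cop D R A B hF (join d e) i hji ρ ((hρ ρ).2 rfl)
    refine ⟨A i * ρ + B i, c1.mul_right c2, ?_⟩
    have e1 : ((Ioc X (2 * X)).filter
        (fun m => (A i * m + B i).Prime ∧ le d (col A B D R m) ∧ le e (col A B D R m))) =
        (Ioc X (2 * X)).filter (fun m => (A i * m + B i).Prime ∧ m ≡ ρ [MOD N]) := by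
      apply filter_congr
      intro m _
      rw [le_and, ← hρ m]
      exact and_congr_right fun _ => and_iff_right h1
    rw [e1, cnt_bij X (A i) (B i) N ρ hA, cnt_Ioc _ _ _ _ (by nlinarith [Nat.zero_le (A i * X)])]
    have e2 : Nat.totient (A i * N) = Nat.totient (A i) * Nat.totient N :=
      Nat.totient_mul (nrm_cop D R A B hF i _)
    rw [e2, Nat.cast_mul]
    set EU := Pool.BV.Ep (2 * A i * X + B i) (A i * N) (A i * ρ + B i)
    set EV := Pool.BV.Ep (A i * X + B i) (A i * N) (A i * ρ + B i)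
    have e3 : EU + pp (2 * A i * X + B i) / ((Nat.totient (A i) : ℝ) * (Nat.totient N : ℝ)) -
        (EV + pp (A i * X + B i) / ((Nat.totient (A i) : ℝ) * (Nat.totient N : ℝ))) -
        (pp (2 * A i * X + B i) - pp (A i * X + B i)) / (Nat.totient (A i) : ℝ) *
          (1 / (Nat.totient N : ℝ)) = EU - EV := by
      rw [div_mul_div_comm, mul_one, sub_div]
      ring
    rw [e3]
    exact abs_sub _ _
  · refine ⟨1, Nat.coprime_one_left _, ?_⟩
    rw [if_neg hc]
    have e1 : ((Ioc X (2 * X)).filter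
        (fun m => (A i * m + B i).Prime ∧ le d (col A B D R m) ∧ le e (col A B D R m))) = ∅ := by
      apply filter_eq_empty_iff.2
      intro m hm h
      rw [mem_Ioc] at hm
      obtain ⟨hp, hd, he⟩ := h
      apply hc
      have hbad : ∀ p : {p // p ∈ Ps D R}, col A B D R m p ≠ some i := by
        intro p hp1
        rw [col_eq D R A B hF m p i] at hp1
        obtain ⟨b1, b2, b3⟩ := mem_Ps D R p
        have := (Nat.prime_dvd_prime_iff_eq b1 hp).1 hp1
        have h5 := hF.pos i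
        have h6 : m ≤ A i * m := Nat.le_mul_of_pos_left m h5
        omega
      refine ⟨((le_and d e _).1 ⟨hd, he⟩).1, ?_, ?_⟩
      · intro p hpi
        rcases hd p with h7 | h7
        · rw [hpi] at h7
          exact absurd h7 (by simp)
        · exact hbad p (h7.symm.trans hpi)
      · intro p hpi
        rcases he p with h7 | h7
        · rw [hpi] at h7
          exact absurd h7 (by simp)
        · exact hbad p (h7.symm.trans hpi)
    rw [e1]
    simp only [card_empty, Nat.cast_zero, mul_zero, sub_zero, abs_zero]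
    positivity

end Pool.DL
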