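import Pool.Agent.Lib.MP_c77da8_nt.DL.Defs

/-!
# DL-Crt: the colouring of an integer, residue classes

PROOF.  `col_eq`: `p` is a prime `> D`; by `Forms.det` at most one form is divisible by `p` at `m`.
`res`: for `p` in `supp d`, `d p = some j`, the condition is `A j m + B j ≡ 0 (mod p)`, `A j` invertible mod `p`
(`Forms.small`: `p > D` does not divide `A j`): one residue class mod `p`.  The moduli `p ∈ supp d` are distinct primes,
so by the Chinese remainder theorem (induction over the finset, `Nat.chineseRemainder`, or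
`Nat.chineseRemainderOfFinset`) one residue class mod `nrm vs (supp d) = ∏ p`.
`nrm_cop`: `A i` is only divisible by primes `≤ D`.
-/

set_option autoImplicit false

namespace Pool.DL

open Finset

variable {J : Type} [Fintype J] [DecidableEq J]

theorem mem_Ps (D R : ℕ) (p : {p // p ∈ Ps D R}) : p.1.Prime ∧ D < p.1 ∧ p.1 ≤ R := by
  have h := p.2
  unfold Ps at h
  rw [mem_filter, mem_Icc] at h
  exact ⟨h.2.1, h.2.2, h.1.2⟩

theorem col_eq (D R : ℕ) (A B : J → ℕ) (hF : Forms D A B) (m : ℕ) (p : {p // p ∈ Ps D R}) (j : J) :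
    col A B D R m p = some j ↔ p.1 ∣ A j * m + B j := by
  classical
  obtain ⟨hp, hD, _⟩ := mem_Ps D R p
  unfold col
  constructor
  · intro h
    split_ifs at h with h1
    have h2 := h1.choose_spec
    have h3 : h1.choose = j := Option.some.inj h
    rw [h3] at h2
    exact h2
  · intro h
    have h1 : ∃ j, p.1 ∣ A j * m + B j := ⟨j, h⟩
    rw [dif_pos h1]
    congr 1
    by_contra hne
    exact hF.det _ _ hne p.1 hp hD m ⟨h1.choose_spec, h⟩

theorem nrm_cop (D R : ℕ) (A B : J → ℕ) (hF : Forms D A B) (i : J)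
    (a : Finset {p // p ∈ Ps D R}) : Nat.Coprime (A i) (nrm (vs D R) a) := by
  unfold nrm vs
  apply Nat.Coprime.prod_right
  intro p _
  obtain ⟨hp, hD, _⟩ := mem_Ps D R p
  apply Nat.Coprime.symm
  rw [hp.coprime_iff_not_dvd, hF.small i p.1 hp]
  omega

theorem nrm_pos (D R : ℕ) (a : Finset {p // p ∈ Ps D R}) : 0 < nrm (vs D R) a := by
  unfold nrm vs
  exact prod_pos fun p _ => (mem_Ps D R p).1.pos

theorem crt_pairwise (D R : ℕ) (a : Finset {p // p ∈ Ps D R}) :
    Set.Pairwise (a : Set {p // p ∈ Ps D R}) (Function.onFun Nat.Coprime (vs D R)) := by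
  intro p _ p' _ hne
  show Nat.Coprime p.1 p'.1
  rw [Nat.coprime_primes (mem_Ps D R p).1 (mem_Ps D R p').1]
  intro h
  exact hne (Subtype.ext h)

theorem tot_nrm (D R : ℕ) (a : Finset {p // p ∈ Ps D R}) :
    Nat.totient (nrm (vs D R) a) = ∏ p ∈ a, (vs D R p - 1) := by
  classical
  induction a using Finset.induction_on with
  | empty => simp [nrm]
  | insert p a hp ih =>
    have h1 : nrm (vs D R) (insert p a) = vs D R p * nrm (vs D R) a := by
      unfold nrm
      rw [prod_insert hp]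
    have h2 : Nat.totient (vs D R p) = vs D R p - 1 := Nat.totient_prime (mem_Ps D R p).1
    rw [prod_insert hp, h1, Nat.totient_mul, ih, h2]
    · unfold nrm
      apply Nat.Coprime.prod_right
      intro p' hp'
      exact crt_pairwise D R (insert p a) (by simp) (by simp [hp'])
        (by rintro rfl; exact hp hp')

theorem crt_modEq (D R : ℕ) (a : Finset {p // p ∈ Ps D R}) (m ρ : ℕ) :
    m ≡ ρ [MOD nrm (vs D R) a] ↔ ∀ p ∈ a, m ≡ ρ [MOD p.1] := by
  constructor
  · intro h p hp
    exact h.of_dvd (dvd_prod_of_mem (vs D R) hp)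
  · intro h
    rw [Nat.modEq_iff_dvd]
    unfold nrm
    rw [Nat.cast_prod]
    apply Finset.prod_dvd_of_coprime
    · intro p hp p' hp' hne
      show IsCoprime ((vs D R p : ℕ) : ℤ) ((vs D R p' : ℕ) : ℤ)
      rw [Nat.isCoprime_iff_coprime]
      exact crt_pairwise D R a hp hp' hne
    · intro p hp
      exact Nat.modEq_iff_dvd.1 (h p hp)

theorem crt_one (D R : ℕ) (A B : J → ℕ) (hF : Forms D A B) (p : {p // p ∈ Ps D R}) (j : J) :
    ∃ c : ℕ, ∀ m : ℕ, p.1 ∣ A j * m + B j ↔ m ≡ c [MOD p.1] := by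
  obtain ⟨hp, hD, _⟩ := mem_Ps D R p
  have hcop : Nat.Coprime (A j) p.1 := by
    apply Nat.Coprime.symm
    rw [hp.coprime_iff_not_dvd, hF.small j p.1 hp]
    omega
  have : Fact p.1.Prime := ⟨hp⟩
  have hA : ((A j : ℕ) : ZMod p.1) ≠ 0 := by
    intro h
    rw [ZMod.natCast_eq_zero_iff] at h
    have := (hF.small j p.1 hp).1 h
    omega
  refine ⟨((-(B j : ZMod p.1)) / (A j : ZMod p.1)).val, fun m => ?_⟩
  rw [← ZMod.natCast_eq_natCast_iff, ZMod.natCast_zmod_val, ← ZMod.natCast_eq_zero_iff]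
  push_cast
  rw [eq_div_iff hA, eq_neg_iff_add_eq_zero, mul_comm]

theorem res (D R : ℕ) (A B : J → ℕ) (hF : Forms D A B) (d : {p // p ∈ Ps D R} → Option J) :
    ∃ ρ : ℕ, ∀ m : ℕ, le d (col A B D R m) ↔ m ≡ ρ [MOD nrm (vs D R) (supp d)] := by
  classical
  have h1 : ∀ p : {p // p ∈ Ps D R}, ∃ c : ℕ, ∀ m : ℕ,
      (d p = none ∨ d p = col A B D R m p) ↔ (p ∈ supp d → m ≡ c [MOD p.1]) := by
    intro p
    rcases hd : d p with _ | j
    · refine ⟨0, fun m => ?_⟩
      simp [supp, hd]
    · obtain ⟨c, hc⟩ := crt_one D R A B hF p j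
      refine ⟨c, fun m => ?_⟩
      have h2 : p ∈ supp d := by simp [supp, hd]
      rw [← hc m, ← col_eq D R A B hF m p j]
      constructor
      · rintro (h | h) _
        · exact absurd h (by simp)
        · exact h.symm
      · intro h
        exact Or.inr (h h2).symm
  choose c hc using h1
  obtain ⟨ρ, hρ⟩ := Nat.chineseRemainderOfFinset c (vs D R) (supp d)
    (fun p _ => (mem_Ps D R p).1.ne_zero) (crt_pairwise D R (supp d))
  refine ⟨ρ, fun m => ?_⟩
  rw [crt_modEq]
  unfold le
  constructor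
  · intro h p hp
    exact ((hc p m).1 (h p) hp).trans (hρ p hp).symm
  · intro h p
    rw [hc p m]
    intro hp
    exact (h p hp).trans (hρ p hp)

/-- if all the forms coloured by `d` are divisible by the respective primes at `ρ`, the form `i`, not used by
`d`, is coprime to the norm of `d` at `ρ` -/
theorem res_cop (D R : ℕ) (A B : J → ℕ) (hF : Forms D A B) (d : {p // p ∈ Ps D R} → Option J)
    (i : J) (hi : ∀ p, d p ≠ some i) (ρ : ℕ) (hρ : le d (col A B D R ρ)) :
    Nat.Coprime (A i * ρ + B i) (nrm (vs D R) (supp d)) := by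
  unfold nrm vs
  apply Nat.Coprime.prod_right
  intro p hp
  obtain ⟨hpp, hD, _⟩ := mem_Ps D R p
  apply Nat.Coprime.symm
  rw [hpp.coprime_iff_not_dvd, ← col_eq D R A B hF ρ p i]
  intro h
  rcases hρ p with h1 | h1
  · simp [supp] at hp
    exact hp h1
  · exact hi p (h1.trans h)

end Pool.DL
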