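import Pool.Agent.Lib.MP_c77da8_nt.DL.Cls

/-!
# DL-Cun: the classes `b 2^i n - 1`, `b` in a finite set of odd numbers
-/

set_option autoImplicit false

namespace Pool.DL

open Finset

theorem pow_two_odd (a a' b b' : ℕ) (hb : Odd b) (hb' : Odd b') (h : 2 ^ a * b = 2 ^ a' * b') :
    a = a' ∧ b = b' := by
  have hv : ∀ a b : ℕ, Odd b → padicValNat 2 (2 ^ a * b) = a := by
    intro a b hb
    have hb0 : b ≠ 0 := by
      rintro rfl
      exact absurd hb (by decide)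
    have h2 : ¬ 2 ∣ b := by
      rw [← even_iff_two_dvd, Nat.not_even_iff_odd]
      exact hb
    rw [padicValNat.mul (by positivity) hb0, padicValNat.prime_pow,
      padicValNat.eq_zero_of_not_dvd h2]
    rfl
  have h3 : a = a' := by rw [← hv a b hb, ← hv a' b' hb', h]
  refine ⟨h3, ?_⟩
  rw [h3] at h
  exact Nat.eq_of_mul_eq_mul_left (by positivity) h

theorem cun : ∃ C : ℕ, 1 ≤ C ∧ ∀ (k T : ℕ) (F : Finset ℕ), (∀ b ∈ F, Odd b) → C ^ (k * T) ≤ F.card →
    {n : ℕ | k ≤ 3000 * (univ.filter (fun i : Fin k =>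
      T ≤ (F.filter (fun b => (b * 2 ^ (i : ℕ) * n - 1).Prime)).card)).card}.Infinite := by
  obtain ⟨C, hC, hcl⟩ := classes
  refine ⟨C, hC, fun k T F hF hs => ?_⟩
  obtain ⟨β, hβF, hβi⟩ : ∃ β : Fin F.card → ℕ, (∀ h, β h ∈ F) ∧ Function.Injective β :=
    ⟨fun h => (F.equivFin.symm h : ℕ), fun h => (F.equivFin.symm h).2, fun x y hxy =>
      F.equivFin.symm.injective (Subtype.ext hxy)⟩
  have h := hcl k T F.card hs (fun i h => 2 ^ (i : ℕ) * β h) (fun _ _ => -1)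
    (fun i h => Nat.succ_le_of_lt (Nat.mul_pos (by positivity) (hF _ (hβF h)).pos))
    (fun i h i' h' hne heq => by
      have h1 : 2 ^ (i : ℕ) * β h = 2 ^ (i' : ℕ) * β h' := by
        have h2 : ((2 ^ (i : ℕ) * β h : ℕ) : ℤ) = ((2 ^ (i' : ℕ) * β h' : ℕ) : ℤ) := by
          linarith
        exact_mod_cast h2
      obtain ⟨h3, h4⟩ := pow_two_odd _ _ _ _ (hF _ (hβF h)) (hF _ (hβF h')) h1
      apply hne
      rw [Fin.ext h3, hβi h4])
    (fun p hp => ⟨0, fun i h hdvd => by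
      simp only [mul_zero, zero_add, Int.dvd_neg] at hdvd
      have h1 : (p : ℤ) ∣ ((1 : ℕ) : ℤ) := by simpa using hdvd
      exact hp.one_lt.ne' (Nat.dvd_one.1 (Int.natCast_dvd_natCast.1 h1))⟩)
  refine h.mono fun n hn => ?_
  simp only [Set.mem_setOf_eq] at hn ⊢
  refine hn.trans (Nat.mul_le_mul_left _ ?_)
  apply Finset.card_le_card
  intro i hi
  rw [mem_filter] at hi ⊢
  refine ⟨mem_univ _, hi.2.trans ?_⟩
  apply Finset.card_le_card_of_injOn β
  · intro h hh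
    simp only [coe_filter, mem_univ, true_and, Set.mem_setOf_eq] at hh
    simp only [coe_filter, Set.mem_setOf_eq]
    refine ⟨hβF h, ?_⟩
    have h7 : (((2 ^ (i : ℕ) * β h : ℕ) : ℤ) * (n : ℤ) + -1).toNat = β h * 2 ^ (i : ℕ) * n - 1 := by
      have h8 : ((2 ^ (i : ℕ) * β h : ℕ) : ℤ) * (n : ℤ) = ((β h * 2 ^ (i : ℕ) * n : ℕ) : ℤ) := by
        push_cast
        ring
      rw [h8]
      omega
    rw [h7] at hh
    exact hh
  · exact hβi.injOn

end Pool.DL
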