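import Pool.Agent.Lib.MP_c77da8_nt.DL.Tr
import Pool.Agent.Lib.MP_c77da8_nt.DL.LamBd
import Pool.Agent.Lib.MP_c77da8_nt.DL.VUp
import Pool.Agent.Lib.MP_c77da8_nt.DL.VLow

/-!
# DL-ErrI: the error term for the integers

Notation: `R = u^T`, `X = u^(10 T)`, `K = KK J`.

PROOF.  `Z_bd`: `1 + K x ≤ (1 + x)^K` (`one_add_mul_le_pow`), so `Z = ∏ (1 + K x_p) ≤ (∏ (1 + x_p))^K ≤ (CV log R)^K`
(`V_up`, second part, needs `D ≤ R`, and `wD_ge`), i.e. `Z ≤ (C log X)^K` with `C = CV`.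
`err_int`: `tr_int`, `sum_lam` (`qs = vs` as reals, `12 ≤ qs` as `D ≥ 12`): the error is
`≤ (R Z³)² = R² Z⁶ ≤ u^(2T) (C log X)^(6K)`, and `u^(2T) (C 10 T log u)^(6K) ≤ ε u^(10T)` for large `u`
(`isLittleO_log_rpow_atTop` or `Real.log u ≤ ...`; powers of `log` are `o(u)`).
-/

set_option autoImplicit false

namespace Pool.DL

open Finset

private theorem erri_qs (D R : ℕ) (hD : 12 ≤ D) (p : {p // p ∈ Ps D R}) : 12 ≤ qs D R p := by
  have h := p.2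
  unfold Ps at h
  rw [mem_filter] at h
  have h1 : 12 ≤ p.1 := by omega
  unfold qs
  exact_mod_cast h1

theorem Z_bd : ∃ C : ℝ, 1 ≤ C ∧ ∀ (J : Type) [Fintype J] [DecidableEq J] (D T : ℕ), 12 ≤ D →
    1 ≤ T → ∀ u : ℕ, D ≤ u →
    ∏ p : {p // p ∈ Ps D (u ^ T)}, (1 + KK J * xx (qs D (u ^ T)) p) ≤
      (C * Real.log ((u : ℝ) ^ (10 * T))) ^ Fintype.card J := by
  obtain ⟨CV, hCV, _, hV⟩ := V_up
  refine ⟨(CV : ℝ), by exact_mod_cast hCV, ?_⟩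
  intro J _ _ D T hD hT u hu
  have hu1 : 1 ≤ u := by omega
  have huT : u ≤ u ^ T := Nat.le_self_pow (by omega) u
  have hDR : D ≤ u ^ T := hu.trans huT
  have hxx : ∀ p : {p // p ∈ Ps D (u ^ T)}, 0 < xx (qs D (u ^ T)) p := fun p =>
    lb_xx_pos _ (erri_qs D (u ^ T) hD) p
  have h1 : ∏ p : {p // p ∈ Ps D (u ^ T)}, (1 + KK J * xx (qs D (u ^ T)) p) ≤
      (∏ p : {p // p ∈ Ps D (u ^ T)}, (1 + xx (qs D (u ^ T)) p)) ^ Fintype.card J := by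
    rw [← Finset.prod_pow]
    refine Finset.prod_le_prod (fun p _ => ?_) (fun p _ => ?_)
    · have h2 := lb_one_le_fac (J := J) _ (erri_qs D (u ^ T) hD) p
      linarith
    · have h2 := one_add_mul_le_pow (a := xx (qs D (u ^ T)) p) (by linarith [hxx p])
        (Fintype.card J)
      unfold KK
      exact h2
  refine h1.trans ?_
  have h3 : 0 ≤ ∏ p : {p // p ∈ Ps D (u ^ T)}, (1 + xx (qs D (u ^ T)) p) :=
    Finset.prod_nonneg fun p _ => by linarith [hxx p]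
  refine pow_le_pow_left₀ h3 ?_ _
  refine (hV D (u ^ T) hD hDR).trans ?_
  have hu1' : (1 : ℝ) ≤ u := by exact_mod_cast hu1
  have hlog : 0 ≤ Real.log (u : ℝ) := Real.log_nonneg hu1'
  have hCV0 : (0 : ℝ) ≤ CV := by exact_mod_cast Nat.zero_le CV
  have h4 : Real.log ((u ^ T : ℕ) : ℝ) ≤ Real.log ((u : ℝ) ^ (10 * T)) := by
    rw [Nat.cast_pow]
    refine Real.log_le_log (by positivity) ?_
    exact pow_le_pow_right₀ hu1' (by omega)
  have h5 : 0 ≤ Real.log ((u ^ T : ℕ) : ℝ) := by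
    refine Real.log_nonneg ?_
    exact_mod_cast hu1.trans huT
  have hw : 1 ≤ wD D := wD_ge D
  calc (CV : ℝ) * Real.log ((u ^ T : ℕ) : ℝ) / wD D
      ≤ (CV : ℝ) * Real.log ((u ^ T : ℕ) : ℝ) := div_le_self (mul_nonneg hCV0 h5) hw
    _ ≤ (CV : ℝ) * Real.log ((u : ℝ) ^ (10 * T)) := mul_le_mul_of_nonneg_left h4 hCV0

theorem err_int {J : Type} [Fintype J] [DecidableEq J] (D : ℕ) (hD : 12 ≤ D) (A B : J → ℕ)
    (hF : Forms D A B) (T : ℕ) (hT : 1 ≤ T) (ε : ℝ) (hε : 0 < ε) : ∃ u0 : ℕ, ∀ u : ℕ, u0 ≤ u →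
    ∀ y : ({p // p ∈ Ps D (u ^ T)} → Option J) → ℝ, (∀ r, |y r| ≤ 1) →
    (∀ r, y r ≠ 0 → nrm (vs D (u ^ T)) (supp r) ≤ u ^ T) →
    |∑ m ∈ Ioc (u ^ (10 * T)) (2 * u ^ (10 * T)), Lam (qs D (u ^ T)) y (col A B D (u ^ T) m) ^ 2 -
      (u : ℝ) ^ (10 * T) * EI (qs D (u ^ T)) (fun ξ => Lam (qs D (u ^ T)) y ξ ^ 2)| ≤
      ε * (u : ℝ) ^ (10 * T) := by
  obtain ⟨C, hC, hZ⟩ := Z_bd
  set K : ℕ := Fintype.card J with hK
  have hT0 : (0 : ℝ) < T := by exact_mod_cast hT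
  have hCT : 0 < C * (((10 * T : ℕ)) : ℝ) := by
    have h1 : (0 : ℝ) < ((10 * T : ℕ) : ℝ) := by exact_mod_cast (by omega : 0 < 10 * T)
    exact mul_pos (by linarith) h1
  have hc : 0 < ε / (C * (((10 * T : ℕ)) : ℝ)) ^ (6 * K) := div_pos hε (pow_pos hCT _)
  have h1 := (Real.isLittleO_pow_log_id_atTop (n := 6 * K)).def hc
  have h2 := (tendsto_natCast_atTop_atTop (R := ℝ)).eventually h1
  obtain ⟨N0, hN0⟩ := Filter.eventually_atTop.1 h2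
  refine ⟨max N0 D, fun u hu y hy hs => ?_⟩
  have huN : N0 ≤ u := (le_max_left _ _).trans hu
  have huD : D ≤ u := (le_max_right _ _).trans hu
  have hu1 : 1 ≤ u := by omega
  have hu1' : (1 : ℝ) ≤ u := by exact_mod_cast hu1
  have hlog : 0 ≤ Real.log (u : ℝ) := Real.log_nonneg hu1'
  have h3 := hN0 u huN
  simp only [id_eq, Real.norm_eq_abs] at h3
  rw [abs_of_nonneg (pow_nonneg hlog _), abs_of_nonneg (by linarith : (0 : ℝ) ≤ u)] at h3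
  have htr := tr_int D (u ^ T) (by omega) A B hF (u ^ (10 * T)) y
  rw [Nat.cast_pow] at htr
  refine htr.trans ?_
  have hsl := sum_lam (qs D (u ^ T)) (vs D (u ^ T)) (erri_qs D (u ^ T) hD) (fun p => rfl)
    (u ^ T) y hy hs
  set Z : ℝ := ∏ p : {p // p ∈ Ps D (u ^ T)}, (1 + KK J * xx (qs D (u ^ T)) p) with hZdef
  have hZ0 : 0 ≤ Z := by
    refine Finset.prod_nonneg fun p _ => ?_
    have h4 := lb_one_le_fac (J := J) _ (erri_qs D (u ^ T) hD) p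
    linarith
  set L : ℝ := C * Real.log ((u : ℝ) ^ (10 * T)) with hL
  have hZL : Z ≤ L ^ K := hZ J D T hD hT u huD
  have hL0 : 0 ≤ L := by
    rw [hL, Real.log_pow]
    exact mul_nonneg (by linarith) (mul_nonneg (Nat.cast_nonneg _) hlog)
  have hLn : L ^ (6 * K) ≤ ε * u := by
    have h5 : L = (C * (((10 * T : ℕ)) : ℝ)) * Real.log u := by
      rw [hL, Real.log_pow]
      ring
    rw [h5, mul_pow]
    calc (C * (((10 * T : ℕ)) : ℝ)) ^ (6 * K) * Real.log (u : ℝ) ^ (6 * K)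
        ≤ (C * (((10 * T : ℕ)) : ℝ)) ^ (6 * K) *
          (ε / (C * (((10 * T : ℕ)) : ℝ)) ^ (6 * K) * u) :=
          mul_le_mul_of_nonneg_left h3 (pow_nonneg hCT.le _)
      _ = ε * u := by
          have h6 : (C * (((10 * T : ℕ)) : ℝ)) ^ (6 * K) ≠ 0 := (pow_pos hCT _).ne'
          field_simp
  have hS0 : 0 ≤ ∑ d, |lam (qs D (u ^ T)) y d| := Finset.sum_nonneg fun d _ => abs_nonneg _
  have hR0 : (0 : ℝ) ≤ ((u ^ T : ℕ) : ℝ) := Nat.cast_nonneg _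
  calc (∑ d, |lam (qs D (u ^ T)) y d|) ^ 2
      ≤ (((u ^ T : ℕ) : ℝ) * Z ^ 3) ^ 2 := pow_le_pow_left₀ hS0 hsl 2
    _ ≤ (((u ^ T : ℕ) : ℝ) * (L ^ K) ^ 3) ^ 2 := by
        refine pow_le_pow_left₀ (mul_nonneg hR0 (pow_nonneg hZ0 _)) ?_ 2
        exact mul_le_mul_of_nonneg_left (pow_le_pow_left₀ hZ0 hZL 3) hR0
    _ = (u : ℝ) ^ (2 * T) * L ^ (6 * K) := by
        rw [Nat.cast_pow, mul_pow, ← pow_mul, ← pow_mul, ← pow_mul]
        congr 2 <;> ring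
    _ ≤ (u : ℝ) ^ (2 * T) * (ε * u) := mul_le_mul_of_nonneg_left hLn (by positivity)
    _ = ε * (u : ℝ) ^ (2 * T + 1) := by rw [pow_succ]; ring
    _ ≤ ε * (u : ℝ) ^ (10 * T) :=
        mul_le_mul_of_nonneg_left (pow_le_pow_right₀ hu1' (by omega)) hε.le

end Pool.DL
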