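import Pool.Agent.Lib.MP_c77da8_nt.DL.Bvw
import Pool.Agent.Lib.MP_c77da8_nt.DL.Crt
import Pool.Agent.Lib.MP_c77da8_nt.DL.Sum

/-!
# DL-Fam: the family of the pairs `(d, e)`

PROOF.  `bv_wt` with `ι = ` pairs of colourings, `I` = the pairs with both norms `≤ R²`, `m (d,e) = a N`,
`N = nrm vs (supp (join d e))`, weight `2^{#supp d} 2^{#supp e}`, `k = 2 k1` with `1 + 2K ≤ 2^{k1}` (`K = card J`).
Moduli: `supp (join d e) = supp d ∪ supp e`, so `1 ≤ N ≤ R⁴`.
Multiplicity: if `a N = n` for two pairs then the `N` agree, hence the supports `S` of the joins (a set of primes is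
determined by its product); so the sum is over the pairs with `supp (join d e) = S`, at most
`∑_{d, e, supports ⊆ S} 2^{#supp d} 2^{#supp e} = (1 + 2K)^{#S} (1 + 2K)^{#S}` (`sum_prod`), `≤ 2^{2 k1 #S}`, and
`2^{#S} = τ(N) ≤ τ(n)` (the `2^{#S}` products of subsets of `S` are different divisors of `N ∣ n`; or
`Nat.divisors` of a squarefree number; `n ≠ 0`).
-/

set_option autoImplicit false

namespace Pool.DL

open Finset

theorem fam_prime (D R : ℕ) (p : {p // p ∈ Ps D R}) : (vs D R p).Prime := by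
  have h := p.2
  unfold Ps at h
  rw [mem_filter] at h
  exact h.2.1

theorem fam_pos (D R : ℕ) (a : Finset {p // p ∈ Ps D R}) : 0 < nrm (vs D R) a :=
  Finset.prod_pos fun p _ => (fam_prime D R p).pos

theorem fam_sub (D R : ℕ) (a b : Finset {p // p ∈ Ps D R}) (h : nrm (vs D R) a = nrm (vs D R) b) :
    a ⊆ b := by
  intro p hp
  have h1 : vs D R p ∣ nrm (vs D R) b := by
    rw [← h]
    exact Finset.dvd_prod_of_mem _ hp
  have hpp : Prime (vs D R p) := (fam_prime D R p).prime
  unfold nrm at h1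
  rw [hpp.dvd_finsetProd_iff] at h1
  obtain ⟨q, hq, hpq⟩ := h1
  have h2 := (Nat.prime_dvd_prime_iff_eq (fam_prime D R p) (fam_prime D R q)).1 hpq
  have h3 : p = q := Subtype.ext h2
  rw [h3]
  exact hq

theorem fam_inj (D R : ℕ) (a b : Finset {p // p ∈ Ps D R}) (h : nrm (vs D R) a = nrm (vs D R) b) :
    a = b :=
  Finset.Subset.antisymm (fam_sub D R a b h) (fam_sub D R b a h.symm)

theorem fam_supp {P J : Type} [Fintype P] [DecidableEq P] [DecidableEq J] (d e : P → Option J) :
    supp (join d e) = supp d ∪ supp e := by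
  ext p
  simp only [supp, join, mem_filter, mem_univ, true_and, mem_union]
  by_cases h : d p = none
  · simp [h]
  · simp [h]

theorem fam_le (D R : ℕ) (a b : Finset {p // p ∈ Ps D R}) :
    nrm (vs D R) (a ∪ b) ≤ nrm (vs D R) a * nrm (vs D R) b := by
  have h := Finset.prod_union_inter (s₁ := a) (s₂ := b) (f := vs D R)
  have h1 : 1 ≤ nrm (vs D R) (a ∩ b) := fam_pos D R _
  unfold nrm at *
  calc (∏ p ∈ a ∪ b, vs D R p) = (∏ p ∈ a ∪ b, vs D R p) * 1 := by ring
    _ ≤ (∏ p ∈ a ∪ b, vs D R p) * ∏ p ∈ a ∩ b, vs D R p := Nat.mul_le_mul_left _ h1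
    _ = _ := h

theorem fam_tau (D R n : ℕ) (hn : n ≠ 0) (S : Finset {p // p ∈ Ps D R})
    (hS : nrm (vs D R) S ∣ n) : 2 ^ S.card ≤ n.divisors.card := by
  rw [← Finset.card_powerset]
  apply Finset.card_le_card_of_injOn (fun T => nrm (vs D R) T)
  · intro T hT
    have hT' : T ⊆ S := by simpa using hT
    have h1 : nrm (vs D R) T ∣ nrm (vs D R) S := Finset.prod_dvd_prod_of_subset _ _ _ hT'
    simp only [Finset.mem_coe, Nat.mem_divisors]
    exact ⟨h1.trans hS, hn⟩
  · intro T _ T' _ h
    exact fam_inj D R T T' h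

theorem fam_sum {P J : Type} [Fintype P] [DecidableEq P] [Fintype J] [DecidableEq J] (S : Finset P) :
    ∑ d ∈ univ.filter (fun d : P → Option J => supp d ⊆ S), (2 : ℝ) ^ (supp d).card =
      (1 + 2 * (Fintype.card J : ℝ)) ^ S.card := by
  have h1 : ∑ d ∈ univ.filter (fun d : P → Option J => supp d ⊆ S), (2 : ℝ) ^ (supp d).card =
      ∑ d : P → Option J, ∏ p, (if d p = none then (1 : ℝ) else if p ∈ S then 2 else 0) := by
    rw [Finset.sum_filter]
    refine Finset.sum_congr rfl fun d _ => ?_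
    split_ifs with hd
    · rw [← Finset.prod_const]
      unfold supp
      rw [Finset.prod_filter]
      refine Finset.prod_congr rfl fun p _ => ?_
      by_cases hp : d p = none
      · simp [hp]
      · have hpS : p ∈ S := hd (by simp [supp, hp])
        simp [hp, hpS]
    · symm
      rw [Finset.not_subset] at hd
      obtain ⟨p, hp, hpS⟩ := hd
      apply Finset.prod_eq_zero (mem_univ p)
      have hp' : d p ≠ none := by simpa [supp] using hp
      simp [hp', hpS]
  rw [h1]
  have h2 := sum_prod (P := P) (A := Option J)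
    (fun p a => (if a = none then (1 : ℝ) else if p ∈ S then 2 else 0))
  rw [h2]
  have h3 : ∀ p : P, ∑ a : Option J, (if a = none then (1 : ℝ) else if p ∈ S then 2 else 0) =
      if p ∈ S then (1 + 2 * (Fintype.card J : ℝ)) else 1 := by
    intro p
    rw [Fintype.sum_option]
    by_cases hp : p ∈ S
    · simp [hp]
      ring
    · simp [hp]
  rw [Finset.prod_congr rfl fun p _ => h3 p]
  rw [Finset.prod_ite]
  simp

theorem fam_bv (J : Type) [Fintype J] [DecidableEq J] (E : ℕ) : ∃ B U0 : ℕ,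
    ∀ D R a U : ℕ, U0 ≤ U → 1 ≤ a → (a : ℝ) * (R : ℝ) ^ 4 ≤ Real.sqrt U / Real.log U ^ B →
    ∀ y : ℕ, y ≤ U → ∀ c : ({p // p ∈ Ps D R} → Option J) → ({p // p ∈ Ps D R} → Option J) → ℕ,
    (∀ d e, Nat.Coprime (c d e) (a * nrm (vs D R) (supp (join d e)))) →
    ∑ d ∈ univ.filter (fun d : {p // p ∈ Ps D R} → Option J => nrm (vs D R) (supp d) ≤ R ^ 2),
      ∑ e ∈ univ.filter (fun e : {p // p ∈ Ps D R} → Option J => nrm (vs D R) (supp e) ≤ R ^ 2),
        (2 : ℝ) ^ (supp d).card * 2 ^ (supp e).card *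
          |Pool.BV.Ep y (a * nrm (vs D R) (supp (join d e))) (c d e)| ≤ U / Real.log U ^ E := by
  set K := Fintype.card J with hK
  have hk1 : (1 + 2 * (K : ℝ)) ≤ 2 ^ (1 + 2 * K) := by
    have h := (Nat.lt_two_pow_self (n := 1 + 2 * K)).le
    exact_mod_cast h
  obtain ⟨B, X0, h⟩ := bv_wt E (2 * (1 + 2 * K))
  refine ⟨B, X0, ?_⟩
  intro D R a U hU ha hR y hy c hc
  have hQ : ((a * R ^ 4 : ℕ) : ℝ) ≤ Real.sqrt U / Real.log U ^ B := by
    push_cast
    exact hR
  set F := univ.filter (fun d : {p // p ∈ Ps D R} → Option J => nrm (vs D R) (supp d) ≤ R ^ 2) with hF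
  have key := h U (a * R ^ 4) hU hQ y hy
    (({p // p ∈ Ps D R} → Option J) × ({p // p ∈ Ps D R} → Option J)) (F ×ˢ F)
    (fun i => a * nrm (vs D R) (supp (join i.1 i.2))) (fun i => c i.1 i.2)
    (fun i => (2 : ℝ) ^ (supp i.1).card * 2 ^ (supp i.2).card) ?_ ?_
  · rw [Finset.sum_product] at key
    exact key
  · intro i hi
    rw [Finset.mem_product] at hi
    obtain ⟨h1, h2⟩ := hi
    rw [hF, mem_filter] at h1 h2
    refine ⟨by positivity, ?_, ?_, hc _ _⟩
    · exact Nat.mul_pos ha (fam_pos D R _)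
    · apply Nat.mul_le_mul_left
      rw [fam_supp]
      calc nrm (vs D R) (supp i.1 ∪ supp i.2) ≤ nrm (vs D R) (supp i.1) * nrm (vs D R) (supp i.2) :=
            fam_le D R _ _
        _ ≤ R ^ 2 * R ^ 2 := Nat.mul_le_mul h1.2 h2.2
        _ = R ^ 4 := by ring
  · intro n
    rcases Finset.eq_empty_or_nonempty ((F ×ˢ F).filter
      (fun i => a * nrm (vs D R) (supp (join i.1 i.2)) = n)) with he | hne
    · rw [he, Finset.sum_empty]
      positivity
    · obtain ⟨i0, hi0⟩ := hne
      rw [mem_filter] at hi0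
      set S := supp (join i0.1 i0.2) with hS
      have hn : n ≠ 0 := by
        rw [← hi0.2]
        exact (Nat.mul_pos ha (fam_pos D R _)).ne'
      have hdv : nrm (vs D R) S ∣ n := by
        rw [← hi0.2]
        exact Dvd.intro_left _ rfl
      have hT := fam_tau D R n hn S hdv
      have hsub : (F ×ˢ F).filter (fun i => a * nrm (vs D R) (supp (join i.1 i.2)) = n) ⊆
          (univ.filter (fun d : {p // p ∈ Ps D R} → Option J => supp d ⊆ S)) ×ˢ
          (univ.filter (fun d : {p // p ∈ Ps D R} → Option J => supp d ⊆ S)) := by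
        intro i hi
        rw [mem_filter] at hi
        have h1 : nrm (vs D R) (supp (join i.1 i.2)) = nrm (vs D R) S := by
          have h2 : a * nrm (vs D R) (supp (join i.1 i.2)) = a * nrm (vs D R) S := by
            rw [hi.2, hi0.2]
          exact Nat.eq_of_mul_eq_mul_left ha h2
        have h2 := fam_inj D R _ _ h1
        rw [fam_supp] at h2
        rw [Finset.mem_product, mem_filter, mem_filter]
        refine ⟨⟨mem_univ _, ?_⟩, ⟨mem_univ _, ?_⟩⟩
        · rw [← h2]
          exact Finset.subset_union_left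
        · rw [← h2]
          exact Finset.subset_union_right
      calc ∑ i ∈ (F ×ˢ F).filter (fun i => a * nrm (vs D R) (supp (join i.1 i.2)) = n),
            (2 : ℝ) ^ (supp i.1).card * 2 ^ (supp i.2).card
          ≤ ∑ i ∈ (univ.filter (fun d : {p // p ∈ Ps D R} → Option J => supp d ⊆ S)) ×ˢ
              (univ.filter (fun d : {p // p ∈ Ps D R} → Option J => supp d ⊆ S)),
            (2 : ℝ) ^ (supp i.1).card * 2 ^ (supp i.2).card := by
            apply Finset.sum_le_sum_of_subset_of_nonneg hsub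
            intro i _ _
            positivity
        _ = (1 + 2 * (K : ℝ)) ^ S.card * (1 + 2 * (K : ℝ)) ^ S.card := by
            rw [Finset.sum_product]
            simp only [← Finset.mul_sum, ← Finset.sum_mul]
            rw [fam_sum]
        _ ≤ (2 ^ (1 + 2 * K)) ^ S.card * (2 ^ (1 + 2 * K)) ^ S.card := by
            gcongr
        _ = ((2 : ℝ) ^ S.card) ^ (2 * (1 + 2 * K)) := by
            rw [← pow_add, ← pow_mul, ← pow_mul]
            congr 1
            ring
        _ ≤ (n.divisors.card : ℝ) ^ (2 * (1 + 2 * K)) := by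
            have h3 : ((2 : ℝ) ^ S.card) ≤ (n.divisors.card : ℝ) := by exact_mod_cast hT
            gcongr

end Pool.DL
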