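import Pool.Agent.Lib.MP_c77da8_nt.DL.ErrI
import Pool.Agent.Lib.MP_c77da8_nt.DL.Fam

/-!
# DL-ErrP: the error term for the primes

Notation: `R = u^T`, `X = u^(10 T)`, `K = KK J`, `Z = ∏ (1 + K x_p)`, `U1 = 2 A_i X + B_i`, `U0 = A_i X + B_i`.

PROOF.  `tr_prime` (`R ≤ X`), `lam_bd` with `R²` in place of `R`: `|lam d| ≤ [nrm (supp d) ≤ R²] 2^{#supp d} Z`.  So the
error is `≤ Z² ∑_{d,e, norms ≤ R²} 2^{#supp d} 2^{#supp e} (|Ep U1 ..| + |Ep U0 ..|)`, and by `fam_bv J (2 card J + 1)`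
with `U = U1`, `y = U1` resp. `y = U0`, `a = A i`, it is `≤ 2 Z² U1/(log U1)^(2K+1)`.  The condition
`A_i R⁴ ≤ √U1/(log U1)^B` holds for large `u`: `R⁴ = u^(4T)`, `√U1 ≥ √X = u^(5T)`, and
`A_i (log U1)^B ≤ u^T` for large `u`.  With `Z_bd`: `Z² ≤ (C log X)^(2K)`, `U1 ≤ (2 A_i + B_i) X`, `log U1 ≥ log X`:
`error ≤ 2 C^(2K) (2 A_i + B_i) X/log X ≤ ε X` for large `u`.
-/

set_option autoImplicit false

namespace Pool.DL

open Finset

private theorem ep_ev (a b T B0 U0 D : ℕ) (ha : 1 ≤ a) (M : ℝ) : ∃ u0 : ℕ, ∀ u : ℕ, u0 ≤ u →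
    2 ≤ u ∧ D ≤ u ∧ 2 * a + b ≤ u ∧ U0 ≤ u ∧
    (a : ℝ) * ((10 * T + 1) * Real.log u) ^ B0 ≤ u ∧ M ≤ Real.log u := by
  have ha' : (0 : ℝ) < a := by exact_mod_cast ha
  have h1 : ∀ᶠ x : ℝ in Filter.atTop, (a : ℝ) * ((10 * T + 1) * Real.log x) ^ B0 ≤ x := by
    have hc : 0 < 1 / ((a : ℝ) * (10 * T + 1) ^ B0) := by positivity
    have h := (Real.isLittleO_pow_log_id_atTop (n := B0)).bound hc
    filter_upwards [h, Filter.eventually_ge_atTop 1] with x hx hx1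
    have h3 : Real.log x ^ B0 ≤ 1 / ((a : ℝ) * (10 * T + 1) ^ B0) * x := by
      refine (le_abs_self _).trans ?_
      simpa [Real.norm_eq_abs, abs_of_nonneg (zero_le_one.trans hx1)] using hx
    calc (a : ℝ) * ((10 * T + 1) * Real.log x) ^ B0
        = (a : ℝ) * (10 * T + 1) ^ B0 * Real.log x ^ B0 := by rw [mul_pow]; ring
      _ ≤ (a : ℝ) * (10 * T + 1) ^ B0 * (1 / ((a : ℝ) * (10 * T + 1) ^ B0) * x) :=
          mul_le_mul_of_nonneg_left h3 (by positivity)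
      _ = x := by field_simp
  have h2 : ∀ᶠ x : ℝ in Filter.atTop, M ≤ Real.log x :=
    Real.tendsto_log_atTop.eventually_ge_atTop M
  have h3 := tendsto_natCast_atTop_atTop (R := ℝ) |>.eventually (h1.and h2)
  obtain ⟨n0, hn0⟩ := Filter.eventually_atTop.1 h3
  refine ⟨max n0 (max 2 (max D (max (2 * a + b) U0))), fun u hu => ?_⟩
  obtain ⟨h4, h5⟩ := hn0 u ((le_max_left _ _).trans hu)
  have h6 := (le_max_right n0 _).trans hu
  refine ⟨(le_max_left _ _).trans h6, ?_, ?_, ?_, h4, h5⟩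
  · exact ((le_max_left _ _).trans (le_max_right _ _)).trans h6
  · exact (((le_max_left _ _).trans (le_max_right _ _)).trans (le_max_right _ _)).trans h6
  · exact (((le_max_right _ _).trans (le_max_right _ _)).trans (le_max_right _ _)).trans h6

/-- the numerical facts used in the proof -/
private theorem ep_num (a b T B0 U0 D : ℕ) (ha : 1 ≤ a) (hT : 1 ≤ T) (K : ℕ) (C ε : ℝ)
    (hC : 1 ≤ C) (hε : 0 < ε) : ∃ u0 : ℕ, ∀ u : ℕ, u0 ≤ u →
    2 ≤ u ∧ D ≤ u ∧ U0 ≤ 2 * a * u ^ (10 * T) + b ∧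
    (a : ℝ) * ((u ^ T : ℕ) : ℝ) ^ 4 ≤ Real.sqrt ((2 * a * u ^ (10 * T) + b : ℕ) : ℝ) /
      Real.log ((2 * a * u ^ (10 * T) + b : ℕ) : ℝ) ^ B0 ∧
    2 * ((C * Real.log ((u : ℝ) ^ (10 * T))) ^ K) ^ 2 *
      (((2 * a * u ^ (10 * T) + b : ℕ) : ℝ) /
        Real.log ((2 * a * u ^ (10 * T) + b : ℕ) : ℝ) ^ (2 * K + 1)) ≤
      ε * (u : ℝ) ^ (10 * T) := by
  obtain ⟨u0, h0⟩ := ep_ev a b T B0 U0 D ha (2 * C ^ (2 * K) * (2 * a + b) / ε)
  refine ⟨u0, fun u hu => ?_⟩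
  obtain ⟨h2, hD, hab, hU, h4, h5⟩ := h0 u hu
  have hu1 : 1 ≤ u := by omega
  have ha' : (1 : ℝ) ≤ a := by exact_mod_cast ha
  have hu' : (2 : ℝ) ≤ u := by exact_mod_cast h2
  have hlu : 0 < Real.log u := Real.log_pos (by linarith)
  have hXu : u ≤ u ^ (10 * T) := Nat.le_self_pow (by omega) u
  have hX1 : 1 ≤ u ^ (10 * T) := Nat.one_le_pow _ _ hu1
  set X : ℕ := u ^ (10 * T) with hX
  set U1 : ℕ := 2 * a * X + b with hU1
  have hXU : X ≤ U1 := by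
    rw [hU1]
    nlinarith
  have hXR : ((X : ℕ) : ℝ) = (u : ℝ) ^ (10 * T) := by rw [hX]; push_cast; ring
  have hX1' : (1 : ℝ) ≤ X := by exact_mod_cast hX1
  have hX2 : (2 : ℝ) ≤ X := hu'.trans (by exact_mod_cast hXu)
  have hXU' : (X : ℝ) ≤ U1 := by exact_mod_cast hXU
  have hU1le : (U1 : ℝ) ≤ (2 * a + b) * X := by
    rw [hU1]
    push_cast
    nlinarith [Nat.cast_nonneg (α := ℝ) b]
  have hU1u : (U1 : ℝ) ≤ (u : ℝ) ^ (10 * T + 1) := by
    have h : ((2 * a + b : ℕ) : ℝ) ≤ u := by exact_mod_cast hab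
    push_cast at h
    calc (U1 : ℝ) ≤ (2 * a + b) * X := hU1le
      _ ≤ u * X := mul_le_mul_of_nonneg_right h (by linarith)
      _ = (u : ℝ) ^ (10 * T + 1) := by rw [hXR]; ring
  have hlX : 0 < Real.log X := Real.log_pos (by linarith)
  have hlXU : Real.log X ≤ Real.log U1 := Real.log_le_log (by linarith) hXU'
  have hlU : 0 < Real.log U1 := hlX.trans_le hlXU
  have hlUu : Real.log U1 ≤ (10 * T + 1) * Real.log u := by
    have h := Real.log_le_log (by linarith) hU1u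
    rw [Real.log_pow] at h
    push_cast at h
    exact h
  refine ⟨h2, hD, ?_, ?_, ?_⟩
  · exact (hU.trans hXu).trans hXU
  · rw [le_div_iff₀ (pow_pos hlU _)]
    have h6 : (u : ℝ) ^ (5 * T) ≤ Real.sqrt U1 := by
      apply Real.le_sqrt_of_sq_le
      calc ((u : ℝ) ^ (5 * T)) ^ 2 = (u : ℝ) ^ (10 * T) := by rw [← pow_mul]; congr 1; ring
        _ = X := hXR.symm
        _ ≤ U1 := hXU'
    have h7 : (a : ℝ) * Real.log U1 ^ B0 ≤ u :=
      (mul_le_mul_of_nonneg_left (pow_le_pow_left₀ hlU.le hlUu _) (by linarith)).trans h4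
    have h8 : (u : ℝ) ≤ (u : ℝ) ^ T := by
      calc (u : ℝ) = (u : ℝ) ^ 1 := (pow_one _).symm
        _ ≤ (u : ℝ) ^ T := pow_le_pow_right₀ (by linarith) hT
    calc (a : ℝ) * ((u ^ T : ℕ) : ℝ) ^ 4 * Real.log U1 ^ B0
        = (a : ℝ) * Real.log U1 ^ B0 * (u : ℝ) ^ (4 * T) := by push_cast; ring
      _ ≤ (u : ℝ) ^ T * (u : ℝ) ^ (4 * T) :=
          mul_le_mul_of_nonneg_right (h7.trans h8) (by positivity)
      _ = (u : ℝ) ^ (5 * T) := by rw [← pow_add]; congr 1; ring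
      _ ≤ Real.sqrt U1 := h6
  · rw [← hXR]
    have hlux : Real.log u ≤ Real.log X :=
      Real.log_le_log (by linarith) (by exact_mod_cast hXu)
    have h9 : 2 * C ^ (2 * K) * (2 * a + b) ≤ ε * Real.log X := by
      have := h5.trans hlux
      rwa [div_le_iff₀ hε, mul_comm (Real.log (X : ℝ)) ε] at this
    have h10 : (U1 : ℝ) / Real.log U1 ^ (2 * K + 1) ≤
        ((2 * a + b) * X) / Real.log X ^ (2 * K + 1) :=
      div_le_div₀ (by positivity) hU1le (pow_pos hlX _) (pow_le_pow_left₀ hlX.le hlXU _)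
    calc 2 * ((C * Real.log X) ^ K) ^ 2 * ((U1 : ℝ) / Real.log U1 ^ (2 * K + 1))
        ≤ 2 * ((C * Real.log X) ^ K) ^ 2 * (((2 * a + b) * X) / Real.log X ^ (2 * K + 1)) :=
          mul_le_mul_of_nonneg_left h10 (by positivity)
      _ = (2 * C ^ (2 * K) * (2 * a + b)) / Real.log X * X := by
          rw [← pow_mul, mul_comm K 2, mul_pow, pow_succ (Real.log (X : ℝ)) (2 * K)]
          field_simp
      _ ≤ ε * X := by
          refine mul_le_mul_of_nonneg_right ?_ (by linarith)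
          rw [div_le_iff₀ hlX]
          exact h9

theorem err_prime {J : Type} [Fintype J] [DecidableEq J] (D : ℕ) (hD : 12 ≤ D) (A B : J → ℕ)
    (hF : Forms D A B) (T : ℕ) (hT : 1 ≤ T) (i : J) (ε : ℝ) (hε : 0 < ε) :
    ∃ u0 : ℕ, ∀ u : ℕ, u0 ≤ u →
    ∀ y : ({p // p ∈ Ps D (u ^ T)} → Option J) → ℝ, (∀ r, |y r| ≤ 1) →
    (∀ r, y r ≠ 0 → nrm (vs D (u ^ T)) (supp r) ≤ (u ^ T) ^ 2) →
    |∑ m ∈ (Ioc (u ^ (10 * T)) (2 * u ^ (10 * T))).filter (fun m => (A i * m + B i).Prime),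
        Lam (qs D (u ^ T)) y (col A B D (u ^ T) m) ^ 2 -
      (pp (2 * A i * u ^ (10 * T) + B i) - pp (A i * u ^ (10 * T) + B i)) /
        (Nat.totient (A i) : ℝ) * EP i (qs D (u ^ T)) (fun ξ => Lam (qs D (u ^ T)) y ξ ^ 2)| ≤
      ε * (u : ℝ) ^ (10 * T) := by
  classical
  obtain ⟨B0, U0, hfam⟩ := fam_bv J (2 * Fintype.card J + 1)
  obtain ⟨C, hC1, hZ⟩ := Z_bd
  obtain ⟨u0, hnum⟩ := ep_num (A i) (B i) T B0 U0 D (hF.pos i) hT (Fintype.card J) C ε hC1 hε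
  refine ⟨u0, fun u hu y hy hs => ?_⟩
  obtain ⟨h2, hDu, hU, hbv, hfin⟩ := hnum u hu
  have hR : u ^ T ≤ u ^ (10 * T) := Nat.pow_le_pow_right (by omega) (by omega)
  obtain ⟨c, hc, htr⟩ := tr_prime D (u ^ T) (by omega) A B hF i (u ^ (10 * T)) hR
  refine (htr y).trans ?_
  set Z : ℝ := ∏ p : {p // p ∈ Ps D (u ^ T)}, (1 + KK J * xx (qs D (u ^ T)) p) with hZdef
  have hq : ∀ p, 12 ≤ qs D (u ^ T) p := by
    intro p
    have h := (mem_Ps D (u ^ T) p).2.1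
    unfold qs
    have h' : 12 ≤ p.1 := by omega
    exact_mod_cast h'
  have hv : ∀ p, 1 ≤ vs D (u ^ T) p := fun p => (mem_Ps D (u ^ T) p).1.one_le
  have hZ0 : 0 ≤ Z := by
    refine Finset.prod_nonneg fun p _ => ?_
    have h := hq p
    have h1 : 0 ≤ xx (qs D (u ^ T)) p := by
      unfold xx
      exact div_nonneg zero_le_one (by linarith)
    have h3 : 0 ≤ KK J := by
      unfold KK
      positivity
    positivity
  have hZle : Z ≤ (C * Real.log ((u : ℝ) ^ (10 * T))) ^ Fintype.card J := hZ J D T hD hT u hDu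
  have hlam : ∀ d, |lam (qs D (u ^ T)) y d| ≤
      if nrm (vs D (u ^ T)) (supp d) ≤ (u ^ T) ^ 2 then 2 ^ (supp d).card * Z else 0 :=
    fun d => lam_bd (qs D (u ^ T)) (vs D (u ^ T)) hq hv ((u ^ T) ^ 2) y hy hs d
  set U1 : ℕ := 2 * A i * u ^ (10 * T) + B i with hU1
  set U2 : ℕ := A i * u ^ (10 * T) + B i with hU2
  have hU21 : U2 ≤ U1 := by
    rw [hU1, hU2]
    have h : A i * u ^ (10 * T) ≤ 2 * A i * u ^ (10 * T) :=
      Nat.mul_le_mul_right _ (by omega)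
    omega
  have hf1 := hfam D (u ^ T) (A i) U1 hU (hF.pos i) hbv U1 le_rfl c hc
  have hf2 := hfam D (u ^ T) (A i) U1 hU (hF.pos i) hbv U2 hU21 c hc
  set F := univ.filter (fun d : {p // p ∈ Ps D (u ^ T)} → Option J =>
    nrm (vs D (u ^ T)) (supp d) ≤ (u ^ T) ^ 2) with hFdef
  have hstep : ∑ d, ∑ e, |lam (qs D (u ^ T)) y d| * |lam (qs D (u ^ T)) y e| *
        (|Pool.BV.Ep U1 (A i * nrm (vs D (u ^ T)) (supp (join d e))) (c d e)| +
         |Pool.BV.Ep U2 (A i * nrm (vs D (u ^ T)) (supp (join d e))) (c d e)|) ≤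
      Z ^ 2 * (∑ d ∈ F, ∑ e ∈ F, (2 : ℝ) ^ (supp d).card * 2 ^ (supp e).card *
          |Pool.BV.Ep U1 (A i * nrm (vs D (u ^ T)) (supp (join d e))) (c d e)| +
        ∑ d ∈ F, ∑ e ∈ F, (2 : ℝ) ^ (supp d).card * 2 ^ (supp e).card *
          |Pool.BV.Ep U2 (A i * nrm (vs D (u ^ T)) (supp (join d e))) (c d e)|) := by
    rw [← Finset.sum_add_distrib, Finset.mul_sum, hFdef, Finset.sum_filter]
    refine Finset.sum_le_sum fun d _ => ?_
    have hd := hlam d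
    by_cases hd1 : nrm (vs D (u ^ T)) (supp d) ≤ (u ^ T) ^ 2
    · rw [if_pos hd1] at hd ⊢
      rw [← Finset.sum_add_distrib, Finset.mul_sum, Finset.sum_filter]
      refine Finset.sum_le_sum fun e _ => ?_
      have he := hlam e
      by_cases he1 : nrm (vs D (u ^ T)) (supp e) ≤ (u ^ T) ^ 2
      · rw [if_pos he1] at he ⊢
        have h1 := mul_le_mul hd he (abs_nonneg _) ((abs_nonneg _).trans hd)
        refine (mul_le_mul_of_nonneg_right h1 (by positivity)).trans (le_of_eq ?_)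
        ring
      · rw [if_neg he1] at he ⊢
        have h0 : |lam (qs D (u ^ T)) y e| = 0 := le_antisymm he (abs_nonneg _)
        rw [h0, mul_zero, zero_mul]
    · rw [if_neg hd1] at hd ⊢
      have h0 : |lam (qs D (u ^ T)) y d| = 0 := le_antisymm hd (abs_nonneg _)
      refine le_of_eq (Finset.sum_eq_zero fun e _ => ?_)
      rw [h0, zero_mul, zero_mul]
  refine hstep.trans ?_
  refine (mul_le_mul_of_nonneg_left (add_le_add hf1 hf2) (by positivity)).trans ?_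
  refine le_trans ?_ hfin
  have hq0 : 0 ≤ (U1 : ℝ) / Real.log U1 ^ (2 * Fintype.card J + 1) := by
    refine div_nonneg (Nat.cast_nonneg _) (pow_nonneg ?_ _)
    exact Real.log_natCast_nonneg _
  have hZ2 : Z ^ 2 ≤ ((C * Real.log ((u : ℝ) ^ (10 * T))) ^ Fintype.card J) ^ 2 :=
    pow_le_pow_left₀ hZ0 hZle 2
  calc Z ^ 2 * ((U1 : ℝ) / Real.log U1 ^ (2 * Fintype.card J + 1) +
        (U1 : ℝ) / Real.log U1 ^ (2 * Fintype.card J + 1))
      = 2 * Z ^ 2 * ((U1 : ℝ) / Real.log U1 ^ (2 * Fintype.card J + 1)) := by ring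
    _ ≤ _ := by
        refine mul_le_mul_of_nonneg_right ?_ hq0
        linarith

end Pool.DL
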