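import Mathlib

/-!
# DL-Hsel: enough primes
-/

set_option autoImplicit false

namespace Pool.DL

open Finset

theorem hsel_theta_lower (x : ℕ) (hx : 2 ^ 30 ≤ x) : (x : ℝ) / 4 ≤ Chebyshev.theta x := by
  refine le_trans ?_ (Chebyshev.theta_ge x)
  have hxr : (2 : ℝ) ^ 30 ≤ (x : ℝ) := by exact_mod_cast hx
  have hx0 : (0 : ℝ) < (x : ℝ) := by linarith [show (0 : ℝ) < 2 ^ 30 by positivity]
  set s : ℝ := Real.sqrt (x : ℝ) with hs
  set q : ℝ := Real.sqrt s with hq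
  have hs0 : 0 < s := Real.sqrt_pos.2 hx0
  have hq0 : 0 < q := Real.sqrt_pos.2 hs0
  have hss : s * s = x := Real.mul_self_sqrt hx0.le
  have hqq : q * q = s := Real.mul_self_sqrt hs0.le
  have hs1 : (2 : ℝ) ^ 15 ≤ s := by
    rw [hs]
    apply Real.le_sqrt_of_sq_le
    calc ((2 : ℝ) ^ 15) ^ 2 = (2 : ℝ) ^ 30 := by norm_num
      _ ≤ (x : ℝ) := hxr
  have hq1 : (2 : ℝ) ^ 7 ≤ q := by
    rw [hq]
    apply Real.le_sqrt_of_sq_le
    calc ((2 : ℝ) ^ 7) ^ 2 = (2 : ℝ) ^ 14 := by norm_num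
      _ ≤ (2 : ℝ) ^ 15 := by norm_num
      _ ≤ s := hs1
  have hlog : Real.log (x : ℝ) = 4 * Real.log q := by
    rw [← hss, ← hqq, Real.log_mul (by positivity) (by positivity),
      Real.log_mul (by positivity) (by positivity)]
    ring
  have hlq : Real.log q ≤ q := by
    have := Real.log_le_sub_one_of_pos hq0
    linarith
  have hx4 : (x : ℝ) = q * q * (q * q) := by rw [hqq, hss]
  have h1 : 2 * s * Real.log x ≤ x / 16 := by
    rw [hlog, ← hqq, hx4]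
    have h3 : 2 * (q * q) * (4 * Real.log q) ≤ 2 * (q * q) * (4 * q) := by
      have : 0 ≤ 2 * (q * q) := by positivity
      nlinarith [mul_nonneg this (sub_nonneg.2 hlq)]
    have h4 : (2 : ℝ) ^ 7 * (q * q * q) ≤ q * (q * q * q) :=
      mul_le_mul_of_nonneg_right hq1 (by positivity)
    nlinarith
  have h2 : Real.log ((x : ℝ) + 1) ≤ x / 16 := by
    have h3 : Real.log ((x : ℝ) + 1) ≤ Real.log (2 * x) :=
      Real.log_le_log (by linarith) (by linarith [show (1 : ℝ) ≤ 2 ^ 30 by norm_num])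
    rw [Real.log_mul (by norm_num) hx0.ne', hlog] at h3
    have h4 := Real.log_two_lt_d9
    have h5 : (64 : ℝ) * (q + 1) ≤ x := by
      rw [hx4]
      have h6 : (2 : ℝ) ^ 7 ≤ q := hq1
      have h7 : (128 : ℝ) * 128 ≤ q * q := by nlinarith
      nlinarith
    linarith
  have h3 := Real.log_two_gt_d9
  nlinarith

theorem hsel_count (Y x : ℕ) (hYx : Y ≤ x) :
    Chebyshev.theta (x : ℝ) - Chebyshev.theta (Y : ℝ) ≤
      (((Finset.Ioc Y x).filter Nat.Prime).card : ℝ) * Real.log x := by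
  have h1 : ∀ m : ℕ, Chebyshev.theta (m : ℝ) =
      ∑ p ∈ (Finset.Ioc 0 m).filter Nat.Prime, Real.log p := by
    intro m
    rw [Chebyshev.theta, Nat.floor_natCast]
  have h2 : (Finset.Ioc 0 x).filter Nat.Prime =
      (Finset.Ioc 0 Y).filter Nat.Prime ∪ (Finset.Ioc Y x).filter Nat.Prime := by
    rw [← Finset.filter_union, Finset.Ioc_union_Ioc_eq_Ioc (Nat.zero_le _) hYx]
  have h3 : Disjoint ((Finset.Ioc 0 Y).filter Nat.Prime) ((Finset.Ioc Y x).filter Nat.Prime) := by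
    rw [Finset.disjoint_left]
    intro a ha hb
    rw [Finset.mem_filter, Finset.mem_Ioc] at ha hb
    omega
  rw [h1, h1, h2, Finset.sum_union h3, add_sub_cancel_left]
  calc ∑ p ∈ (Finset.Ioc Y x).filter Nat.Prime, Real.log (p : ℝ)
      ≤ ∑ _p ∈ (Finset.Ioc Y x).filter Nat.Prime, Real.log (x : ℝ) := by
        apply Finset.sum_le_sum
        intro p hp
        rw [Finset.mem_filter, Finset.mem_Ioc] at hp
        apply Real.log_le_log
        · exact_mod_cast hp.2.pos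
        · exact_mod_cast hp.1.2
    _ = _ := by rw [Finset.sum_const, nsmul_eq_mul]

theorem hsel_pow (c0 n C : ℕ) (hn : 1 ≤ n) (hC : C = 2 ^ (2 * c0 + 30)) :
    2 ^ ((c0 + 1) * n) * (4 * (2 * c0 + 35)) ≤ C ^ n := by
  have e1 : C ^ n = 2 ^ ((c0 + 1) * n) * 2 ^ ((c0 + 29) * n) := by
    rw [hC, ← pow_mul, ← pow_add]
    congr 1
    ring
  rw [e1]
  apply Nat.mul_le_mul_left
  have e2 : 2 ^ (c0 + 29) ≤ 2 ^ ((c0 + 29) * n) :=
    Nat.pow_le_pow_right (by norm_num) (Nat.le_mul_of_pos_right _ hn)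
  have e3 : 4 * (2 * c0 + 35) ≤ 2 ^ (c0 + 29) := by
    have e4 : c0 + 1 ≤ 2 ^ c0 := Nat.lt_two_pow_self
    have e5 : 2 ^ (c0 + 29) = 2 ^ c0 * 536870912 := by
      rw [pow_add]
      norm_num
    rw [e5]
    omega
  exact e3.trans e2

theorem hsel_logC (c0 C : ℕ) (hC : C = 2 ^ (2 * c0 + 30)) :
    Real.log (C : ℝ) ≤ 2 * c0 + 30 := by
  have h0 : (C : ℝ) = (2 : ℝ) ^ (2 * c0 + 30) := by rw [hC, Nat.cast_pow, Nat.cast_ofNat]
  have h1 : ((2 * c0 + 30 : ℕ) : ℝ) = 2 * (c0 : ℝ) + 30 := by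
    rw [Nat.cast_add, Nat.cast_mul, Nat.cast_ofNat, Nat.cast_ofNat]
  rw [h0, Real.log_pow, h1]
  clear hC h0 h1
  have h4 := Real.log_two_lt_d9
  have hc0 : (0 : ℝ) ≤ (c0 : ℝ) := Nat.cast_nonneg _
  have h6 : (0 : ℝ) ≤ 2 * (c0 : ℝ) + 30 := by linarith
  calc (2 * (c0 : ℝ) + 30) * Real.log 2 ≤ (2 * (c0 : ℝ) + 30) * 1 :=
        mul_le_mul_of_nonneg_left (by linarith) h6
    _ = 2 * (c0 : ℝ) + 30 := mul_one _

theorem supply (c0 : ℕ) : ∃ C : ℕ, 1 ≤ C ∧ ∀ n y s M : ℕ, 1 ≤ n → 1 ≤ y → s ≤ 2 ^ (c0 * n) →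
    M ≤ n * 2 ^ (c0 * n) → ∃ η : Fin s → ℕ, Function.Injective η ∧
      ∀ h, (η h).Prime ∧ M < η h ∧ y < η h ∧ η h ≤ C ^ n * y := by
  obtain ⟨C, hC⟩ : ∃ C : ℕ, C = 2 ^ (2 * c0 + 30) := ⟨_, rfl⟩
  have hC30 : 2 ^ 30 ≤ C := by
    rw [hC]
    exact Nat.pow_le_pow_right (by norm_num) (by omega)
  have hC1 : 1 ≤ C := le_trans Nat.one_le_two_pow hC30
  refine ⟨C, hC1, ?_⟩
  intro n y s M hn hy hs hM
  obtain ⟨x, hx⟩ : ∃ x : ℕ, x = C ^ n * y := ⟨_, rfl⟩
  obtain ⟨Y, hY⟩ : ∃ Y : ℕ, Y = M + y := ⟨_, rfl⟩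
  obtain ⟨A, hA⟩ : ∃ A : ℕ, A = 2 ^ ((c0 + 1) * n) := ⟨_, rfl⟩
  obtain ⟨P, hP⟩ : ∃ P : Finset ℕ, P = (Finset.Ioc Y x).filter Nat.Prime := ⟨_, rfl⟩
  have hn2 : n ≤ 2 ^ n := Nat.lt_two_pow_self.le
  have hCn : A * (4 * (2 * c0 + 35)) ≤ C ^ n := by
    rw [hA]
    exact hsel_pow c0 n C hn hC
  have hA1 : 1 ≤ A := by rw [hA]; exact Nat.one_le_two_pow
  have hCnC : C ≤ C ^ n := Nat.le_self_pow (by omega) C
  have hx30 : 2 ^ 30 ≤ x := by
    rw [hx]
    exact hC30.trans (hCnC.trans (Nat.le_mul_of_pos_right _ hy))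
  have hpw : n * 2 ^ (c0 * n) ≤ A := by
    rw [hA]
    calc n * 2 ^ (c0 * n) ≤ 2 ^ n * 2 ^ (c0 * n) := Nat.mul_le_mul_right _ hn2
      _ = 2 ^ ((c0 + 1) * n) := by
        rw [← pow_add]
        congr 1
        ring
  have hMA : M ≤ A := hM.trans hpw
  have hYx : Y ≤ x := by
    rw [hY, hx]
    have h2 : A * (4 * (2 * c0 + 35)) * y ≤ C ^ n * y := Nat.mul_le_mul_right _ hCn
    have h4 : A * 140 * y ≤ A * (4 * (2 * c0 + 35)) * y := by
      apply Nat.mul_le_mul_right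
      apply Nat.mul_le_mul_left
      omega
    have h5 : A ≤ A * y := Nat.le_mul_of_pos_right _ hy
    have h6 : y ≤ A * y := Nat.le_mul_of_pos_left _ hA1
    have h7 : A * 140 * y = 140 * (A * y) := by ring
    omega
  have hcard : s ≤ P.card := by
    have h1 := hsel_theta_lower x hx30
    have h2 := hsel_count Y x hYx
    rw [← hP] at h2
    have h3 := Chebyshev.theta_le_log4_mul_x (x := (Y : ℝ)) (Nat.cast_nonneg _)
    have hx1 : 1 < x := lt_of_lt_of_le (by norm_num) hx30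
    have hxpos : (0 : ℝ) < (x : ℝ) := by exact_mod_cast (show 0 < x by omega)
    have hlogx : 0 < Real.log (x : ℝ) := Real.log_pos (by exact_mod_cast hx1)
    have hlog4 : Real.log 4 ≤ 2 := by
      rw [show (4 : ℝ) = 2 ^ 2 by norm_num, Real.log_pow]
      have := Real.log_two_lt_d9
      push_cast
      linarith
    have hyp : (0 : ℝ) < (y : ℝ) := by exact_mod_cast hy
    have hyr : (1 : ℝ) ≤ (y : ℝ) := by exact_mod_cast hy
    have hnr : (1 : ℝ) ≤ (n : ℝ) := by exact_mod_cast hn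
    have hc0 : (0 : ℝ) ≤ (c0 : ℝ) := Nat.cast_nonneg _
    have hCr0 : (0 : ℝ) < (C : ℝ) := by exact_mod_cast hC1
    have hlogC : Real.log (C : ℝ) ≤ 2 * c0 + 30 := hsel_logC c0 C hC
    have hxr : (x : ℝ) = (C : ℝ) ^ n * y := by rw [hx]; push_cast; ring
    have hlogxle : Real.log (x : ℝ) ≤ (n : ℝ) * (2 * c0 + 30) + y := by
      rw [hxr, Real.log_mul (pow_pos hCr0 n).ne' hyp.ne', Real.log_pow]
      have h5 := Real.log_le_sub_one_of_pos hyp
      have h6 : (n : ℝ) * Real.log C ≤ n * (2 * c0 + 30) :=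
        mul_le_mul_of_nonneg_left hlogC (by linarith)
      linarith
    obtain ⟨a, ha⟩ : ∃ a : ℝ, a = (A : ℝ) := ⟨_, rfl⟩
    have hMr : (M : ℝ) ≤ a := by rw [ha]; exact_mod_cast hMA
    have ha1 : (1 : ℝ) ≤ a := by rw [ha]; exact_mod_cast hA1
    have hsr : (s : ℝ) * n ≤ a := by
      have : s * n ≤ A := by
        calc s * n ≤ 2 ^ (c0 * n) * n := Nat.mul_le_mul_right _ hs
          _ = n * 2 ^ (c0 * n) := mul_comm _ _
          _ ≤ _ := hpw
      rw [ha]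
      exact_mod_cast this
    have hs0 : (0 : ℝ) ≤ (s : ℝ) := Nat.cast_nonneg _
    have hsr2 : (s : ℝ) ≤ a := le_trans (le_mul_of_one_le_right hs0 hnr) hsr
    have hCr : a * (4 * (2 * c0 + 35)) ≤ (C : ℝ) ^ n := by
      rw [ha]
      exact_mod_cast hCn
    have hYr : (Y : ℝ) = M + y := by rw [hY]; push_cast; ring
    have h4 : a * (4 * (2 * c0 + 35)) * y ≤ x := by
      rw [hxr]
      exact mul_le_mul_of_nonneg_right hCr (by linarith)
    have h5 : Chebyshev.theta (Y : ℝ) ≤ 2 * (a + y) := by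
      have h6 : (0 : ℝ) ≤ (Y : ℝ) := Nat.cast_nonneg _
      have h7 : Real.log 4 * (Y : ℝ) ≤ 2 * Y := mul_le_mul_of_nonneg_right hlog4 h6
      rw [hYr] at h3 h7
      rw [hYr]
      linarith
    have h6 : (s : ℝ) * Real.log x ≤ a * (2 * c0 + 30) + a * y := by
      calc (s : ℝ) * Real.log x ≤ s * ((n : ℝ) * (2 * c0 + 30) + y) :=
            mul_le_mul_of_nonneg_left hlogxle hs0
        _ = (s * n) * (2 * c0 + 30) + s * y := by ring
        _ ≤ a * (2 * c0 + 30) + a * y := by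
            have hc : (0 : ℝ) ≤ 2 * (c0 : ℝ) + 30 := by linarith
            have e1 := mul_le_mul_of_nonneg_right hsr hc
            have e2 := mul_le_mul_of_nonneg_right hsr2 (by linarith : (0 : ℝ) ≤ (y : ℝ))
            linarith
    have h7 : a * (2 * c0 + 35) * y ≤ Chebyshev.theta (x : ℝ) := by
      have : a * (4 * (2 * c0 + 35)) * y = 4 * (a * (2 * c0 + 35) * y) := by ring
      linarith
    have h8 : a ≤ a * y := le_mul_of_one_le_right (by linarith) hyr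
    have h9 : (y : ℝ) ≤ a * y := le_mul_of_one_le_left (by linarith) ha1
    have h10 : a * (2 * c0 + 30) ≤ (a * y) * (2 * c0 + 30) :=
      mul_le_mul_of_nonneg_right h8 (by linarith)
    have h11 : a * (2 * c0 + 35) * y = (a * y) * (2 * c0 + 30) + 5 * (a * y) := by ring
    have hmain : (s : ℝ) * Real.log x ≤ Chebyshev.theta (x : ℝ) - Chebyshev.theta (Y : ℝ) := by
      linarith
    have h12 : (s : ℝ) * Real.log x ≤ (P.card : ℝ) * Real.log x := hmain.trans h2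
    have h13 : (s : ℝ) ≤ (P.card : ℝ) := le_of_mul_le_mul_right h12 hlogx
    exact_mod_cast h13
  obtain ⟨Q, hQP, hQs⟩ := Finset.exists_subset_card_eq hcard
  have e : Fin s ≃ Q := by
    rw [← hQs]
    exact Q.equivFin.symm
  refine ⟨fun i => ((e i : Q) : ℕ), ?_, ?_⟩
  · intro i j hij
    exact e.injective (Subtype.ext hij)
  · intro h
    have h1 : ((e h : Q) : ℕ) ∈ P := hQP (e h).2
    rw [hP, Finset.mem_filter, Finset.mem_Ioc] at h1
    obtain ⟨⟨h2, h3⟩, h4⟩ := h1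
    have h5 : ((e h : Q) : ℕ) ≤ C ^ n * y := by rw [← hx]; exact h3
    refine ⟨h4, ?_, ?_, h5⟩
    · show M < ((e h : Q) : ℕ)
      omega
    · show y < ((e h : Q) : ℕ)
      omega

end Pool.DL
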