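import Pool.Agent.Lib.MP_c77da8_nt.DL.Main
import Pool.Agent.Lib.MP_c77da8_nt.DL.Hit
import Pool.Agent.Lib.MP_c77da8_nt.DL.Adm
import Pool.Agent.Lib.MP_c77da8_nt.DL.Hsel

/-!
# DL-Fin: assembly

PROOF.  `C1` from `main_sums`, `c0 = 16 C1`, `C` from `supply c0`.  Given `k, T, y, a`: `ℓ = 16 C1 k T`,
`s = 2^ℓ = 2^(c0 k T)`, `M = k s ≤ (k T) 2^(c0 k T)`; `η` from `supply` with `n = k T`.  `D` = sum of `y`, of all
`a i * η h` and of `1000 (k s)² + 12`.  `adm` gives `ν` and `Forms`.  `main_sums` with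
`J = Fin k × Fin s` (`card = k s ≥ 2^ℓ`), for every `N` gives `X ≥ N`, `w`, `κ`, `W`;
`s κ ≥ s ℓ/(C1 k s) = 16 T`.  `hit` with `M = Ioc X (2X)`, `χ i h m = (A (i,h) m + B (i,h)).Prime`.  With
`n = Wp m + ν ≥ m > N`: `A (i,h) m + B (i,h) = a i n + η h ∈ [a i n, a i n + C^(k T) y]`, different for different `h`.
-/

set_option autoImplicit false

namespace Pool.DL

open Finset

theorem dilates_nat : ∃ C : ℕ, ∀ k T y : ℕ, 1 ≤ k → 1 ≤ T → 1 ≤ y →
    ∀ a : Fin k → ℕ, Function.Injective a → (∀ i, a i ≠ 0) →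
    (∀ i p, p.Prime → p ∣ a i → p ≤ y) →
    {n : ℕ | k ≤ 3000 * (univ.filter (fun i : Fin k =>
      T ≤ ((Icc (a i * n) (a i * n + C ^ (k * T) * y)).filter Nat.Prime).card)).card}.Infinite := by
  obtain ⟨C1, hC1, hmain⟩ := main_sums
  obtain ⟨C, hC, hsup⟩ := supply (16 * C1)
  refine ⟨C, fun k T y hk hT hy a ha ha0 hay => ?_⟩
  obtain ⟨ℓ, hℓ⟩ : ∃ ℓ, ℓ = 16 * C1 * (k * T) := ⟨_, rfl⟩
  obtain ⟨s, hs⟩ : ∃ s, s = 2 ^ ℓ := ⟨_, rfl⟩
  have hkT : 1 ≤ k * T := Nat.succ_le_of_lt (by positivity)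
  have hℓ1 : 1 ≤ ℓ := by rw [hℓ]; nlinarith
  have hs1 : 1 ≤ s := by rw [hs]; exact Nat.one_le_two_pow
  have hks : k * s ≤ k * T * 2 ^ (16 * C1 * (k * T)) := by
    rw [← hℓ, ← hs]
    exact Nat.mul_le_mul_right _ (Nat.le_mul_of_pos_right _ hT)
  obtain ⟨η, hη, hηp⟩ := hsup (k * T) y s (k * s) hkT hy (by rw [hs, hℓ]) hks
  obtain ⟨D, hD⟩ : ∃ D, D = y + (∑ i, ∑ h, a i * η h) + (1000 * (k * s) ^ 2 + 12) := ⟨_, rfl⟩
  have hyD : y ≤ D := by omega
  have haD : ∀ i h, a i * η h ≤ D := by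
    intro i h
    have h1 : a i * η h ≤ ∑ h, a i * η h :=
      Finset.single_le_sum (f := fun h => a i * η h) (fun _ _ => Nat.zero_le _) (mem_univ h)
    have h2 : ∑ h, a i * η h ≤ ∑ i, ∑ h, a i * η h :=
      Finset.single_le_sum (f := fun i => ∑ h, a i * η h) (fun _ _ => Nat.zero_le _) (mem_univ i)
    omega
  obtain ⟨ν, hF⟩ := adm k s y D a ha ha0 hay η hη (fun h => ⟨(hηp h).1, (hηp h).2.1, (hηp h).2.2.1⟩)
    hyD haD
  obtain ⟨Wp, hWp⟩ : ∃ Wp, Wp = ∏ p ∈ (Icc 1 D).filter Nat.Prime, p := ⟨_, rfl⟩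
  have hWp1 : 1 ≤ Wp := by
    rw [hWp]
    apply Nat.succ_le_of_lt
    apply Finset.prod_pos
    intro p hp
    exact (mem_filter.1 hp).2.pos
  rw [← hWp] at hF
  have hcard : Fintype.card (Fin k × Fin s) = k * s := by
    rw [Fintype.card_prod, Fintype.card_fin, Fintype.card_fin]
  have h2ℓ : 2 ^ ℓ ≤ Fintype.card (Fin k × Fin s) := by
    rw [hcard, ← hs]
    exact Nat.le_mul_of_pos_left _ hk
  have hDD : 1000 * Fintype.card (Fin k × Fin s) ^ 2 + 12 ≤ D := by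
    rw [hcard]
    omega
  apply Set.infinite_of_forall_exists_gt
  intro N
  obtain ⟨X, hNX, w, κ, W, hw, hW, hκ, hS1, hS2, hS3⟩ := hmain (Fin k × Fin s) ℓ D _ _ hℓ1 h2ℓ hDD hF N
  have hκ' : 16 * (T : ℝ) ≤ s * κ := by
    have hk0 : (0 : ℝ) < k := by exact_mod_cast hk
    have hs0 : (0 : ℝ) < s := by exact_mod_cast hs1
    have hC10 : (0 : ℝ) < C1 := by exact_mod_cast hC1
    have h1 : (s : ℝ) * ((ℓ : ℝ) / (C1 * (Fintype.card (Fin k × Fin s) : ℝ))) = 16 * T := by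
      rw [hcard, hℓ]
      push_cast
      field_simp
    rw [← h1]
    exact mul_le_mul_of_nonneg_left hκ hs0.le
  obtain ⟨m, hm, hcnt⟩ := hit (Ioc X (2 * X)) w hw k s T hk hT
    (fun i h m => (a i * Wp * m + (a i * ν + η h)).Prime) κ W hW hκ' hS1
    (fun i h => (hS2 (i, h)).1) (fun i h => (hS2 (i, h)).2)
    (fun i h h' hne => hS3 (i, h) (i, h') (by simpa using hne))
  rw [mem_Ioc] at hm
  refine ⟨Wp * m + ν, ?_, by nlinarith⟩
  simp only [Set.mem_setOf_eq]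
  have h3 : (univ.filter (fun i : Fin k => T ≤ (univ.filter (fun h : Fin s =>
      (a i * Wp * m + (a i * ν + η h)).Prime)).card)).card ≤
      (univ.filter (fun i : Fin k => T ≤ ((Icc (a i * (Wp * m + ν))
        (a i * (Wp * m + ν) + C ^ (k * T) * y)).filter Nat.Prime).card)).card := by
    apply Finset.card_le_card
    intro i hi
    rw [mem_filter] at hi ⊢
    refine ⟨mem_univ _, hi.2.trans ?_⟩
    apply Finset.card_le_card_of_injOn (fun h => a i * (Wp * m + ν) + η h)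
    · intro h hh
      simp only [coe_filter, mem_univ, true_and, Set.mem_setOf_eq] at hh
      simp only [coe_filter, mem_Icc, Set.mem_setOf_eq]
      have h4 : a i * (Wp * m + ν) + η h = a i * Wp * m + (a i * ν + η h) := by ring
      refine ⟨⟨Nat.le_add_right _ _, Nat.add_le_add_left (hηp h).2.2.2 _⟩, ?_⟩
      rw [h4]
      exact hh
    · intro h _ h' _ heq
      apply hη
      simpa using heq
  have h5 : (k : ℝ) ≤ 3000 * ((univ.filter (fun i : Fin k => T ≤ ((Icc (a i * (Wp * m + ν))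
        (a i * (Wp * m + ν) + C ^ (k * T) * y)).filter Nat.Prime).card)).card : ℝ) := by
    have h6 : ((univ.filter (fun i : Fin k => T ≤ (univ.filter (fun h : Fin s =>
      (a i * Wp * m + (a i * ν + η h)).Prime)).card)).card : ℝ) ≤ ((univ.filter (fun i : Fin k => T ≤ ((Icc (a i * (Wp * m + ν))
        (a i * (Wp * m + ν) + C ^ (k * T) * y)).filter Nat.Prime).card)).card : ℝ) := by
      exact_mod_cast h3
    linarith
  exact_mod_cast h5

end Pool.DL
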