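import Pool.Agent.Lib.MP_c77da8_nt.DL.Loc

/-!
# DL-IntUp: upper bound for the integer model

PROOF.  Start from `EI_sq`.  Write `cprod x r * cprod x s * ∏ eI` as `∏_p w_p (r p, s p)` with
`w_p (a, b) = x(a) x(b) eI a b`, `x(none) = 1`, `x(some j) = x_p = 1/(q_p-2)`.  Since `y ≥ 0`,

  `E_I(Λ²) ≤ ∑_{r,s} y r y s ∏_p |w_p (r p, s p)|`.

Let `τ (a, b) = a` if `a = b`, otherwise `none`, and `t = τ ∘ (r, s)`; then `le t r`, `le t s`, so
`y r y s ≤ (y t)^2`, and by `sum_pair`, `push`:
`E_I(Λ²) ≤ ∑_t (y t)^2 ∏_p ∑_{τ (a,b) = t p} |w_p (a,b)|`.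
For `t p = some j` the inner sum is `x² eI = x² (t²-3t+3)/t ≤ x (1 + K x)`  (`x = 1/(t-2)`, `K ≥ 1`);
for `t p = none` it is `1 + 2 K x/t + K (K-1) x² (t-2)/t ≤ 1 + 3 K² x²` (`1/t ≤ x`).
(Here `t = q p`; the pairs with `τ (a,b) = none` are `(none,none)`, `(some j, none)`, `(none, some j)` and
`(some j, some l)` with `j ≠ l`; it is enough to bound the sum over `j ≠ l` by the sum over all `j, l`.)
Finally pull the factor `∏ (1 + 3 K² x²)` out: each local factor is
`≤ (1 + 3 K² x²) * (if t p = none then 1 else x (1 + K x))`.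
-/

set_option autoImplicit false

namespace Pool.DL

open Finset

variable {P J : Type} [Fintype P] [DecidableEq P] [Fintype J] [DecidableEq J]

/-- the local factor `x(a) x(b) eI a b` -/
private noncomputable def iuW (t : ℝ) (z : Option J × Option J) : ℝ :=
  (if z.1 = none then 1 else 1 / (t - 2)) * (if z.2 = none then 1 else 1 / (t - 2)) * eI t z.1 z.2

/-- the common part of two colours -/
private def iuT (z : Option J × Option J) : Option J := if z.1 = z.2 then z.1 else none

private theorem iu_some (t : ℝ) (ht : 12 ≤ t) (j : J) :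
    ∑ z ∈ univ.filter (fun z : Option J × Option J => iuT z = some j), |iuW t z| ≤
      (1 + 3 * KK J ^ 2 * (1 / (t - 2)) ^ 2) * ((1 / (t - 2)) * (1 + KK J * (1 / (t - 2)))) := by
  have hset : univ.filter (fun z : Option J × Option J => iuT z = some j) = {(some j, some j)} := by
    ext z
    simp only [mem_filter, mem_univ, true_and, mem_singleton]
    constructor
    · intro h
      unfold iuT at h
      split_ifs at h with h1
      exact Prod.ext h (h1 ▸ h)
    · rintro rfl
      simp [iuT]
  rw [hset, sum_singleton]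
  have hK : (1:ℝ) ≤ KK J := by
    unfold KK
    have : 0 < Fintype.card J := Fintype.card_pos_iff.2 ⟨j⟩
    exact_mod_cast this
  have h2 : 0 < t - 2 := by linarith
  set x := 1 / (t - 2) with hx
  have hx0 : 0 < x := by positivity
  have hW : iuW t ((some j, some j) : Option J × Option J) = x * x * ((t ^ 2 - 3 * t + 3) / t) := by
    unfold iuW eI
    simp [← hx]
  have h3 : 0 < t := by linarith
  have h4 : 0 ≤ (t ^ 2 - 3 * t + 3) / t := by
    apply div_nonneg _ h3.le
    nlinarith
  rw [hW, abs_of_nonneg (by positivity)]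
  have h5 : x * ((t ^ 2 - 3 * t + 3) / t) ≤ 1 + x := by
    rw [hx]
    rw [div_mul_div_comm, one_mul, div_le_iff₀ (by positivity)]
    field_simp
    nlinarith
  have h6 : x * ((t ^ 2 - 3 * t + 3) / t) ≤ 1 + KK J * x := by
    have : x ≤ KK J * x := by nlinarith
    linarith
  calc x * x * ((t ^ 2 - 3 * t + 3) / t) = x * (x * ((t ^ 2 - 3 * t + 3) / t)) := by ring
    _ ≤ x * (1 + KK J * x) := mul_le_mul_of_nonneg_left h6 hx0.le
    _ = 1 * (x * (1 + KK J * x)) := by ring
    _ ≤ (1 + 3 * KK J ^ 2 * x ^ 2) * (x * (1 + KK J * x)) := by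
        apply mul_le_mul_of_nonneg_right
        · have : 0 ≤ 3 * KK J ^ 2 * x ^ 2 := by positivity
          linarith
        · have : 0 ≤ KK J := by linarith
          positivity

private theorem iu_none (t : ℝ) (ht : 12 ≤ t) :
    ∑ z ∈ univ.filter (fun z : Option J × Option J => iuT z = none), |iuW t z| ≤
      1 + 3 * KK J ^ 2 * (1 / (t - 2)) ^ 2 := by
  have h2 : 0 < t - 2 := by linarith
  have h3 : 0 < t := by linarith
  set x := 1 / (t - 2) with hx
  have hx0 : 0 < x := by positivity
  have htx : 1 / t ≤ x := by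
    rw [hx]
    exact one_div_le_one_div_of_le h2 (by linarith)
  have hxt : x * (t - 2) = 1 := by
    rw [hx]
    field_simp
  have hle : ∀ z : Option J × Option J,
      (if iuT z = none then |iuW t z| else 0) ≤
        (if z.1 = none then (if z.2 = none then 1 else x ^ 2) else x ^ 2) := by
    rintro ⟨a, b⟩
    rcases a with _ | j
    · rcases b with _ | l
      · simp [iuT, iuW, eI]
      · simp only [iuT, iuW, eI, reduceCtorEq, if_false, if_true, one_mul, ← hx]
        rw [abs_of_nonneg (by positivity)]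
        nlinarith
    · rcases b with _ | l
      · simp only [iuT, iuW, eI, reduceCtorEq, if_false, if_true, mul_one, ← hx]
        rw [abs_of_nonneg (by positivity)]
        nlinarith
      · by_cases hjl : j = l
        · subst hjl
          simp only [iuT, if_true, reduceCtorEq, if_false]
          positivity
        · have hne : (some j : Option J) ≠ some l := fun h => hjl (Option.some.inj h)
          simp only [iuT, iuW, eI, reduceCtorEq, if_false, if_neg hne, if_true, ← hx]
          have h5 : x * x * ((2 - t) / t) = -(x * (1 / t)) := by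
            have : x * x * ((2 - t) / t) = -(x * (x * (t - 2)) * (1 / t)) := by ring
            rw [this, hxt]
            ring
          rw [h5, abs_neg, abs_of_nonneg (by positivity)]
          nlinarith
  rw [Finset.sum_filter]
  refine (Finset.sum_le_sum fun z _ => hle z).trans ?_
  rw [Fintype.sum_prod_type, Fintype.sum_option]
  simp only [Fintype.sum_option, if_true, reduceCtorEq, if_false, sum_const, card_univ, nsmul_eq_mul,
    Fintype.card_option]
  push_cast
  change 1 + KK J * x ^ 2 + KK J * ((KK J + 1) * x ^ 2) ≤ _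
  have hK0 : 0 ≤ KK J := by unfold KK; positivity
  have hK : KK J ≤ KK J ^ 2 := by
    unfold KK
    have : Fintype.card J ≤ Fintype.card J ^ 2 := Nat.le_self_pow two_ne_zero _
    exact_mod_cast this
  nlinarith [sq_nonneg x]

theorem int_up (q : P → ℝ) (hq : ∀ p, 12 ≤ q p) (y : (P → Option J) → ℝ) (hy : ∀ r, 0 ≤ y r)
    (hm : ∀ r s, le s r → y r ≤ y s) :
    EI q (fun ξ => Lam q y ξ ^ 2) ≤ (∏ p, (1 + 3 * KK J ^ 2 * xx q p ^ 2)) *
      ∑ t : P → Option J, y t ^ 2 * cprod (fun p => xx q p * (1 + KK J * xx q p)) t := by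
  rw [EI_sq q (fun p => by linarith [hq p]) y]
  have h1 : ∀ r s : P → Option J, cprod (xx q) r * cprod (xx q) s * ∏ p, eI (q p) (r p) (s p) =
      ∏ p, iuW (q p) (r p, s p) := by
    intro r s
    unfold cprod iuW xx
    rw [← Finset.prod_mul_distrib, ← Finset.prod_mul_distrib]
  have h2 : ∀ r s : P → Option J, y r * y s *
      (cprod (xx q) r * cprod (xx q) s * ∏ p, eI (q p) (r p) (s p)) ≤
      y (fun p => iuT (r p, s p)) ^ 2 * ∏ p, |iuW (q p) (r p, s p)| := by
    intro r s
    rw [h1, ← Finset.abs_prod]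
    have h3 : y r ≤ y (fun p => iuT (r p, s p)) := by
      apply hm
      intro p
      unfold iuT
      by_cases h : r p = s p
      · right; simp [h]
      · left; simp [h]
    have h4 : y s ≤ y (fun p => iuT (r p, s p)) := by
      apply hm
      intro p
      unfold iuT
      by_cases h : r p = s p
      · right; simp [h]
      · left; simp [h]
    have h5 : y r * y s ≤ y (fun p => iuT (r p, s p)) ^ 2 := by
      rw [sq]
      exact mul_le_mul h3 h4 (hy s) (hy _)
    calc y r * y s * ∏ p, iuW (q p) (r p, s p)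
        ≤ y r * y s * |∏ p, iuW (q p) (r p, s p)| :=
          mul_le_mul_of_nonneg_left (le_abs_self _) (mul_nonneg (hy r) (hy s))
      _ ≤ _ := mul_le_mul_of_nonneg_right h5 (abs_nonneg _)
  refine (Finset.sum_le_sum fun r _ => Finset.sum_le_sum fun s _ => h2 r s).trans ?_
  rw [sum_pair (fun r s : P → Option J =>
      y (fun p => iuT (r p, s p)) ^ 2 * ∏ p, |iuW (q p) (r p, s p)|)]
  have h6 := push (P := P) (iuT : Option J × Option J → Option J) (fun p z => |iuW (q p) z|)
    (fun t => y t ^ 2)
  have h7 : ∑ z : P → Option J × Option J, y (fun p => iuT ((z p).1, (z p).2)) ^ 2 *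
      ∏ p, |iuW (q p) ((z p).1, (z p).2)| =
      ∑ t : P → Option J, y t ^ 2 *
        ∏ p, ∑ z ∈ univ.filter (fun z : Option J × Option J => iuT z = t p), |iuW (q p) z| := h6
  rw [h7, Finset.mul_sum]
  refine Finset.sum_le_sum fun t _ => ?_
  have h8 : ∏ p, ∑ z ∈ univ.filter (fun z : Option J × Option J => iuT z = t p), |iuW (q p) z| ≤
      ∏ p, ((1 + 3 * KK J ^ 2 * xx q p ^ 2) *
        (if t p = none then 1 else xx q p * (1 + KK J * xx q p))) := by
    refine Finset.prod_le_prod (fun p _ => Finset.sum_nonneg fun z _ => abs_nonneg _) fun p _ => ?_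
    rcases ht : t p with _ | j
    · rw [if_pos rfl, mul_one]
      exact iu_none (q p) (hq p)
    · rw [if_neg (by simp)]
      exact iu_some (q p) (hq p) j
  calc y t ^ 2 * ∏ p, ∑ z ∈ univ.filter (fun z : Option J × Option J => iuT z = t p), |iuW (q p) z|
      ≤ y t ^ 2 * ∏ p, ((1 + 3 * KK J ^ 2 * xx q p ^ 2) *
        (if t p = none then 1 else xx q p * (1 + KK J * xx q p))) :=
        mul_le_mul_of_nonneg_left h8 (sq_nonneg _)
    _ = _ := by
        rw [Finset.prod_mul_distrib]
        unfold cprod
        ring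

end Pool.DL
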