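import Pool.Agent.Lib.MP_c77da8_nt.DL.Sum

/-!
# DL-Loc: local expectations

PROOF.  `EE_prod`: unfold `EE`, merge the products, `sum_prod`.  `loc_I`, `loc_P`: finite sums over `Option J`.
`EI_sq`: expand the square of `Lam`, exchange the sums, merge the products over `p`, `EE_prod`, `loc_I`.
-/

set_option autoImplicit false

namespace Pool.DL

open Finset

variable {P J : Type} [Fintype P] [DecidableEq P] [Fintype J] [DecidableEq J]

theorem EE_prod (μ : P → Option J → ℝ) (f : P → Option J → ℝ) :
    EE μ (fun ξ => ∏ p, f p (ξ p)) = ∏ p, ∑ b, μ p b * f p b := by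
  unfold EE
  rw [← sum_prod]
  refine Finset.sum_congr rfl fun ξ _ => ?_
  rw [Finset.prod_mul_distrib]

theorem loc_I (t : ℝ) (ht : 0 < t) (a b : Option J) :
    ∑ c, muI J t c * (vl t a c * vl t b c) = eI t a b := by
  rw [Fintype.sum_option]
  unfold muI vl eI
  rcases a with _ | i
  · rcases b with _ | l
    · simp
      field_simp
      ring
    · simp only [reduceCtorEq, if_true, if_false, Option.some.injEq, one_mul, mul_one]
      have h1 : ∀ x : J, (1 / t) * (if x = l then -(t - 2) else 1) = 1 / t + (if x = l then -(t - 1) / t else 0) := by
        intro x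
        split_ifs
        · field_simp
          ring
        · simp
      rw [Finset.sum_congr rfl fun x _ => h1 x, Finset.sum_add_distrib, Finset.sum_ite_eq']
      simp
      field_simp
      ring
  · rcases b with _ | l
    · simp only [reduceCtorEq, if_true, if_false, Option.some.injEq, one_mul, mul_one]
      have h1 : ∀ x : J, (1 / t) * (if x = i then -(t - 2) else 1) = 1 / t + (if x = i then -(t - 1) / t else 0) := by
        intro x
        split_ifs
        · field_simp
          ring
        · simp
      rw [Finset.sum_congr rfl fun x _ => h1 x, Finset.sum_add_distrib, Finset.sum_ite_eq']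
      simp
      field_simp
      ring
    · simp only [reduceCtorEq, if_true, if_false, Option.some.injEq, one_mul, mul_one]
      by_cases hil : i = l
      · subst hil
        simp only [if_true]
        have h1 : ∀ x : J, (1 / t) * ((if x = i then -(t - 2) else 1) * (if x = i then -(t - 2) else 1)) =
            1 / t + (if x = i then ((t - 2) ^ 2 - 1) / t else 0) := by
          intro x
          split_ifs
          · field_simp
            ring
          · simp
        rw [Finset.sum_congr rfl fun x _ => h1 x, Finset.sum_add_distrib, Finset.sum_ite_eq']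
        simp
        field_simp
        ring
      · rw [if_neg hil]
        have h1 : ∀ x : J, (1 / t) * ((if x = i then -(t - 2) else 1) * (if x = l then -(t - 2) else 1)) =
            1 / t + (if x = i then -(t - 1) / t else 0) + (if x = l then -(t - 1) / t else 0) := by
          intro x
          by_cases h2 : x = i
          · have h3 : x ≠ l := fun h => hil (h2.symm.trans h)
            rw [if_pos h2, if_pos h2, if_neg h3, if_neg h3]
            field_simp
            ring
          · rw [if_neg h2, if_neg h2]
            split_ifs
            · field_simp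
              ring
            · simp
        rw [Finset.sum_congr rfl fun x _ => h1 x, Finset.sum_add_distrib, Finset.sum_add_distrib,
          Finset.sum_ite_eq', Finset.sum_ite_eq']
        simp
        field_simp
        ring

/-- the sum over the colours of the prime measure -/
theorem sum_muP (i : J) (t : ℝ) (f : Option J → ℝ) :
    ∑ c, muP i t c * f c = (1 - ((Fintype.card J : ℝ) - 1) / (t - 1)) * f none +
      (1 / (t - 1)) * (∑ j, f (some j) - f (some i)) := by
  rw [Fintype.sum_option]
  have h0 : muP i t none = 1 - ((Fintype.card J : ℝ) - 1) / (t - 1) := by simp [muP]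
  have h1 : ∀ j : J, muP i t (some j) * f (some j) =
      (1 / (t - 1)) * f (some j) - (if j = i then (1 / (t - 1)) * f (some j) else 0) := by
    intro j
    by_cases h : j = i
    · simp [muP, h]
    · simp [muP, h]
  rw [h0, Finset.sum_congr rfl fun j _ => h1 j, Finset.sum_sub_distrib, Finset.sum_ite_eq',
    ← Finset.mul_sum]
  simp only [mem_univ, if_true]
  ring

theorem vl_none (t : ℝ) (b : Option J) : vl t none b = 1 := by simp [vl]

theorem vl_some (t : ℝ) (j l : J) : vl t (some j) (some l) = if l = j then -(t - 2) else 1 := by
  simp [vl]

theorem vl_some_none (t : ℝ) (j : J) : vl t (some j) none = 1 := by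
  simp [vl]

theorem sum_vl (t : ℝ) (j : J) : ∑ l, vl t (some j) (some l) = (Fintype.card J : ℝ) - (t - 1) := by
  have h1 : ∀ x : J, vl t (some j) (some x) = 1 + (if x = j then -(t - 1) else 0) := by
    intro x
    rw [vl_some]
    by_cases h : x = j
    · simp [h]
      ring
    · simp [h]
  rw [Finset.sum_congr rfl fun x _ => h1 x, Finset.sum_add_distrib, Finset.sum_ite_eq']
  simp
  ring

theorem loc_P (i : J) (t : ℝ) (ht : 1 < t) (a b : Option J) (ha : a ≠ some i) (hb : b ≠ some i) :
    ∑ c, muP i t c * (vl t a c * vl t b c) = eP t a b := by
  have ht1 : t - 1 ≠ 0 := by linarith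
  rw [sum_muP i t (fun c => vl t a c * vl t b c)]
  rcases a with _ | j
  · rcases b with _ | l
    · simp only [vl_none, eP, mul_one, if_true, Finset.sum_const, Finset.card_univ, nsmul_eq_mul]
      field_simp
      ring
    · have hl : i ≠ l := fun h => hb (by rw [h])
      simp only [vl_none, one_mul]
      rw [sum_vl]
      simp only [vl_some_none, vl_some, if_neg hl]
      simp only [eP, reduceCtorEq, if_true, if_false]
      field_simp
      ring
  · have hj : i ≠ j := fun h => ha (by rw [h])
    rcases b with _ | l
    · simp only [vl_none, mul_one]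
      rw [sum_vl]
      simp only [vl_some_none, vl_some, if_neg hj]
      simp only [eP, reduceCtorEq, if_true, if_false]
      field_simp
      ring
    · have hl : i ≠ l := fun h => hb (by rw [h])
      by_cases hjl : j = l
      · subst hjl
        have h1 : ∀ x : J, vl t (some j) (some x) * vl t (some j) (some x) =
            1 + (if x = j then (t - 2) ^ 2 - 1 else 0) := by
          intro x
          rw [vl_some]
          by_cases h : x = j
          · simp [h]
            ring
          · simp [h]
        rw [Finset.sum_congr rfl fun x _ => h1 x, Finset.sum_add_distrib, Finset.sum_ite_eq']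
        simp only [vl_some_none, vl_some, if_neg hj, Finset.sum_const, Finset.card_univ, nsmul_eq_mul,
          mem_univ, if_true, mul_one]
        simp only [eP, reduceCtorEq, if_true, if_false]
        field_simp
        ring
      · have h1 : ∀ x : J, vl t (some j) (some x) * vl t (some l) (some x) =
            1 + (if x = j then -(t - 1) else 0) + (if x = l then -(t - 1) else 0) := by
          intro x
          rw [vl_some, vl_some]
          by_cases h : x = j
          · have h3 : x ≠ l := fun h' => hjl (h.symm.trans h')
            simp [h, hjl]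
            ring
          · by_cases h' : x = l
            · simp [h', Ne.symm hjl]
              ring
            · simp [h, h']
        rw [Finset.sum_congr rfl fun x _ => h1 x, Finset.sum_add_distrib, Finset.sum_add_distrib,
          Finset.sum_ite_eq', Finset.sum_ite_eq']
        simp only [vl_some_none, vl_some, if_neg hj, if_neg hl, Finset.sum_const, Finset.card_univ,
          nsmul_eq_mul, mem_univ, if_true, mul_one]
        simp only [eP, reduceCtorEq, if_false, Option.some.injEq, if_neg hjl]
        field_simp
        ring

theorem EI_sq (q : P → ℝ) (hq : ∀ p, 0 < q p) (y : (P → Option J) → ℝ) :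
    EI q (fun ξ => Lam q y ξ ^ 2) = ∑ r, ∑ s, y r * y s *
      (cprod (xx q) r * cprod (xx q) s * ∏ p, eI (q p) (r p) (s p)) := by
  have h1 : ∀ r s : P → Option J, ∏ p, eI (q p) (r p) (s p) =
      ∑ ξ : P → Option J, (∏ p, muI J (q p) (ξ p)) * ((∏ p, vl (q p) (r p) (ξ p)) *
        ∏ p, vl (q p) (s p) (ξ p)) := by
    intro r s
    have h2 := EE_prod (fun p => muI J (q p)) (fun p b => vl (q p) (r p) b * vl (q p) (s p) b)
    rw [Finset.prod_congr rfl fun p _ => (loc_I (q p) (hq p) (r p) (s p)).symm, ← h2]
    unfold EE
    refine Finset.sum_congr rfl fun ξ _ => ?_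
    simp only [Finset.prod_mul_distrib]
  unfold EI EE
  have h3 : ∀ ξ : P → Option J, (∏ p, muI J (q p) (ξ p)) * Lam q y ξ ^ 2 =
      ∑ r, ∑ s, y r * y s * (cprod (xx q) r * cprod (xx q) s) *
        ((∏ p, muI J (q p) (ξ p)) * ((∏ p, vl (q p) (r p) (ξ p)) * ∏ p, vl (q p) (s p) (ξ p))) := by
    intro ξ
    unfold Lam
    rw [sq, Finset.sum_mul_sum, Finset.mul_sum]
    refine Finset.sum_congr rfl fun r _ => ?_
    rw [Finset.mul_sum]
    refine Finset.sum_congr rfl fun s _ => ?_
    ring
  rw [Finset.sum_congr rfl fun ξ _ => h3 ξ, Finset.sum_comm]
  refine Finset.sum_congr rfl fun r _ => ?_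
  rw [Finset.sum_comm]
  refine Finset.sum_congr rfl fun s _ => ?_
  rw [← Finset.mul_sum, ← h1 r s]
  ring

end Pool.DL
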