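import Pool.Agent.Lib.MP_c77da8_nt.DL.Defs
import Pool.Agent.Lib.MP_dd84fd_nt.SW.PNT

/-!
# DL-PiC: the number of primes in `(A X + B, 2 A X + B]`

PROOF.  From the prime number theorem `Pool.MP_dd84fd_nt.SW.pnt` (for `ψ`, with `A = 1` or `2`).  With `U0 = A X + B`,
`U1 = 2 A X + B`: `∑_{U0 < n ≤ U1} Λ(n) = A X + o(X)`; the proper prime powers contribute at most
`√U1 (log U1)²` or `ψ - θ ≤ 2 √U1 log U1` (in Mathlib: `Chebyshev.abs_psi_sub_theta_le_sqrt_mul_log`, or similar); so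
`∑_{U0 < p ≤ U1} log p = A X + o(X)`, and every term is between `log U0` and `log U1`, both `= log X + O(1)`.
(`pp U1 - pp U0` is the number of primes in `(U0, U1]`.)
-/

set_option autoImplicit false

namespace Pool.DL

open Finset

private theorem pc_theta (n : ℕ) :
    Chebyshev.theta (n : ℝ) = ∑ p ∈ (Icc 1 n).filter (fun n => n.Prime), Real.log p := by
  unfold Chebyshev.theta
  rw [Nat.floor_natCast]
  rfl

private theorem pc_psi (n : ℕ) :
    Chebyshev.psi (n : ℝ) = ∑ m ∈ Icc 1 n, ArithmeticFunction.vonMangoldt m := by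
  unfold Chebyshev.psi
  rw [Nat.floor_natCast]
  rfl

/-- `θ(n) = n + o(n)` -/
private theorem pc_th : ∃ N0 : ℕ, ∀ n : ℕ, N0 ≤ n →
    |Chebyshev.theta (n : ℝ) - n| ≤ 1 / 100 * n := by
  obtain ⟨N1, h1⟩ := Pool.MP_dd84fd_nt.SW.pnt 1
  have hlog : ∀ᶠ n : ℕ in Filter.atTop, (200 : ℝ) ≤ Real.log n :=
    (Real.tendsto_log_atTop.comp tendsto_natCast_atTop_atTop).eventually_ge_atTop 200
  have h2 := (isLittleO_log_rpow_atTop (r := 1 / 2) (by norm_num)).bound
    (show (0 : ℝ) < 1 / 400 by norm_num)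
  have h3 : ∀ᶠ n : ℕ in Filter.atTop, ‖Real.log (n : ℝ)‖ ≤ 1 / 400 * ‖(n : ℝ) ^ (1 / 2 : ℝ)‖ :=
    tendsto_natCast_atTop_atTop.eventually h2
  obtain ⟨N2, h4⟩ := Filter.eventually_atTop.1 (hlog.and h3)
  refine ⟨max (max N1 N2) 1, fun n hn => ?_⟩
  have hn1 : N1 ≤ n := (le_max_left _ _).trans ((le_max_left _ _).trans hn)
  have hn2 : N2 ≤ n := (le_max_right _ _).trans ((le_max_left _ _).trans hn)
  have hn3 : 1 ≤ n := (le_max_right _ _).trans hn
  have hnR : (1 : ℝ) ≤ n := by exact_mod_cast hn3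
  have a1 := h1 n hn1
  obtain ⟨a2, a3⟩ := h4 n hn2
  rw [← pc_psi, pow_one] at a1
  have a4 := Chebyshev.psi_sub_theta_le hnR
  have a5 := Chebyshev.theta_le_psi (n : ℝ)
  have a6 : (n : ℝ) / Real.log n ≤ n / 200 := by
    apply div_le_div_of_nonneg_left (by linarith) (by norm_num) a2
  have a7 : 2 * Real.sqrt n * Real.log n ≤ n / 200 := by
    rw [Real.norm_eq_abs, Real.norm_eq_abs, ← Real.sqrt_eq_rpow, abs_of_nonneg (Real.sqrt_nonneg _),
      abs_of_nonneg (by linarith)] at a3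
    have a8 := Real.mul_self_sqrt (show (0 : ℝ) ≤ n by linarith)
    have a9 := Real.sqrt_nonneg (n : ℝ)
    calc 2 * Real.sqrt n * Real.log n ≤ 2 * Real.sqrt n * (1 / 400 * Real.sqrt n) := by
          apply mul_le_mul_of_nonneg_left a3 (by positivity)
      _ = (Real.sqrt n * Real.sqrt n) / 200 := by ring
      _ = n / 200 := by rw [a8]
  rw [abs_le] at a1 ⊢
  constructor
  · linarith [a1.1]
  · linarith [a1.2]

/-- the primes in an interval -/
private theorem pc_diff (U V : ℕ) (hUV : U ≤ V) (hU : 1 ≤ U) :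
    (pp V - pp U) * Real.log U ≤ Chebyshev.theta (V : ℝ) - Chebyshev.theta (U : ℝ) ∧
    Chebyshev.theta (V : ℝ) - Chebyshev.theta (U : ℝ) ≤ (pp V - pp U) * Real.log V := by
  have hsub : (Icc 1 U).filter (fun n => n.Prime) ⊆ (Icc 1 V).filter (fun n => n.Prime) :=
    filter_subset_filter _ (Icc_subset_Icc_right hUV)
  have h1 : Chebyshev.theta (V : ℝ) - Chebyshev.theta (U : ℝ) =
      ∑ p ∈ ((Icc 1 V).filter (fun n => n.Prime)) \ ((Icc 1 U).filter (fun n => n.Prime)),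
        Real.log p := by
    rw [pc_theta, pc_theta, ← sum_sdiff hsub]
    ring
  have h2 : pp V - pp U = ((((Icc 1 V).filter (fun n => n.Prime)) \
      ((Icc 1 U).filter (fun n => n.Prime))).card : ℝ) := by
    unfold pp
    rw [card_sdiff_of_subset hsub, Nat.cast_sub (card_le_card hsub)]
  have h3 : ∀ p ∈ ((Icc 1 V).filter (fun n => n.Prime)) \ ((Icc 1 U).filter (fun n => n.Prime)),
      U < p ∧ p ≤ V := by
    intro p hp
    rw [mem_sdiff, mem_filter, mem_filter, mem_Icc, mem_Icc] at hp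
    obtain ⟨⟨⟨h4, h5⟩, h6⟩, h7⟩ := hp
    refine ⟨?_, h5⟩
    by_contra hcon
    exact h7 ⟨⟨h4, by omega⟩, h6⟩
  rw [h1, h2]
  constructor
  · rw [← nsmul_eq_mul]
    refine card_nsmul_le_sum _ _ _ fun p hp => ?_
    exact Real.log_le_log (by exact_mod_cast hU) (by exact_mod_cast (h3 p hp).1.le)
  · rw [← nsmul_eq_mul]
    refine sum_le_card_nsmul _ _ _ fun p hp => ?_
    have := h3 p hp
    exact Real.log_le_log (by exact_mod_cast (by omega : 0 < p)) (by exact_mod_cast this.2)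

theorem pi_cnt (A B : ℕ) (hA : 1 ≤ A) : ∃ X0 : ℕ, ∀ X : ℕ, X0 ≤ X →
    9 / 10 * (A * X / Real.log X) ≤ pp (2 * A * X + B) - pp (A * X + B) ∧
    pp (2 * A * X + B) - pp (A * X + B) ≤ 11 / 10 * (A * X / Real.log X) := by
  obtain ⟨N0, h0⟩ := pc_th
  have hlog : ∀ᶠ n : ℕ in Filter.atTop, (100 * Real.log (3 * A) + 1 : ℝ) ≤ Real.log n :=
    (Real.tendsto_log_atTop.comp tendsto_natCast_atTop_atTop).eventually_ge_atTop _
  obtain ⟨N1, h1⟩ := Filter.eventually_atTop.1 hlog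
  refine ⟨max (max N0 N1) (2 * B + 1), fun X hX => ?_⟩
  have hX0 : N0 ≤ X := (le_max_left _ _).trans ((le_max_left _ _).trans hX)
  have hX1 : N1 ≤ X := (le_max_right _ _).trans ((le_max_left _ _).trans hX)
  have hX2 : 2 * B + 1 ≤ X := (le_max_right _ _).trans hX
  have hL := h1 X hX1
  have hAX : X ≤ A * X := Nat.le_mul_of_pos_left X hA
  have hU0 : X ≤ A * X + B := by omega
  have hU1 : A * X + B ≤ 2 * A * X + B := by nlinarith
  have hU1' : 2 * A * X + B ≤ 3 * A * X := by nlinarith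
  have hAR : (1 : ℝ) ≤ A := by exact_mod_cast hA
  have hXR : (1 : ℝ) ≤ X := by exact_mod_cast (by omega : 1 ≤ X)
  have hBR : (2 : ℝ) * B ≤ X := by exact_mod_cast (by omega : 2 * B ≤ X)
  have hAXR : (X : ℝ) ≤ A * X := by exact_mod_cast hAX
  have hlA : 0 ≤ Real.log (3 * A) := Real.log_nonneg (by linarith)
  have hlX : 0 < Real.log X := by linarith
  have t0 := h0 (A * X + B) (by omega)
  have t1 := h0 (2 * A * X + B) (by omega)
  obtain ⟨d0, d1⟩ := pc_diff (A * X + B) (2 * A * X + B) hU1 (by omega)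
  have l0 : Real.log X ≤ Real.log ((A * X + B : ℕ) : ℝ) :=
    Real.log_le_log (by linarith) (by exact_mod_cast hU0)
  have l1 : Real.log ((2 * A * X + B : ℕ) : ℝ) ≤ 101 / 100 * Real.log X := by
    have h2 : Real.log ((2 * A * X + B : ℕ) : ℝ) ≤ Real.log ((3 * A) * X) := by
      refine Real.log_le_log ?_ ?_
      · exact_mod_cast (by omega : 0 < 2 * A * X + B)
      · exact_mod_cast hU1'
    rw [Real.log_mul (by positivity) (by positivity)] at h2
    linarith
  rw [abs_le] at t0 t1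
  push_cast at t0 t1 d0 d1 l0 l1
  have hpp : 0 ≤ pp (2 * A * X + B) - pp (A * X + B) := by
    unfold pp
    have : ((Icc 1 (A * X + B)).filter (fun n => n.Prime)).card ≤
        ((Icc 1 (2 * A * X + B)).filter (fun n => n.Prime)).card :=
      card_le_card (filter_subset_filter _ (Icc_subset_Icc_right hU1))
    have h2 : (((Icc 1 (A * X + B)).filter (fun n => n.Prime)).card : ℝ) ≤
        ((Icc 1 (2 * A * X + B)).filter (fun n => n.Prime)).card := by exact_mod_cast this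
    linarith
  obtain ⟨D, hD⟩ : ∃ D : ℝ, D = pp (2 * A * X + B) - pp (A * X + B) := ⟨_, rfl⟩
  rw [← hD] at d0 d1 hpp ⊢
  have e1 : 96 / 100 * (A * X : ℝ) ≤ D * (101 / 100 * Real.log X) := by
    have := mul_le_mul_of_nonneg_left l1 hpp
    nlinarith [t0.1, t0.2, t1.1, t1.2]
  have e2 : D * Real.log X ≤ 104 / 100 * (A * X : ℝ) := by
    have := mul_le_mul_of_nonneg_left l0 hpp
    nlinarith [t0.1, t0.2, t1.1, t1.2]
  constructor
  · rw [mul_div_assoc', div_le_iff₀ hlX]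
    nlinarith
  · rw [mul_div_assoc', le_div_iff₀ hlX]
    nlinarith

end Pool.DL
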