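import Pool.Agent.Lib.MP_c77da8_nt.DL.ErrP
import Pool.Agent.Lib.MP_c77da8_nt.DL.Low
import Pool.Agent.Lib.MP_c77da8_nt.DL.PairUp
import Pool.Agent.Lib.MP_c77da8_nt.DL.GW
import Pool.Agent.Lib.MP_c77da8_nt.DL.PiC

/-!
# DL-Main: the three weighted sums

Notation: `K = card J`, `w = wD D ≥ 1`, `CV` from `V_up`, `T = 16 CV (ℓ+1) K`, `u` large, `L = log u`, `R = u^T`,
`X = u^(10 T)`, `log X = 10 T L`, `q = qs D R`, `v = vs D R`, `G = GG ℓ u v`, `y = yy v R G` (`0 ≤ y ≤ 1`, supported on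
norms `≤ R`), `P1 = SS x G`, `P2 = SS x (G²)`, `V = VV v q R ∅`, `w_m = Lam q y (col m)²`,
`κ = w P1²/(P2 log X)`, `W = X P2^K`.  `C1 = 2560 CV²`.
-/

set_option autoImplicit false

namespace Pool.DL

open Finset

/-- the lower bound for `κ` -/
theorem kap_low (w L ℓ K CV T P1 P2 : ℝ) (hw : 0 < w) (hL : 0 < L) (hℓ : 1 ≤ ℓ) (hK : 1 ≤ K)
    (hCV : 1 ≤ CV) (hT : T = 16 * CV * (ℓ + 1) * K) (hP1 : ℓ * L / (2 * w) ≤ P1) (hP2 : 0 < P2)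
    (hP2' : P2 ≤ 2 * CV * L / w) :
    ℓ / (2560 * CV ^ 2 * K) ≤ w * P1 ^ 2 / (P2 * (10 * T * L)) := by
  have hT0 : 0 < T := by rw [hT]; positivity
  have h1 : (ℓ * L / (2 * w)) ^ 2 ≤ P1 ^ 2 := by
    apply pow_le_pow_left₀ (by positivity) hP1
  have h2 : w * (ℓ * L / (2 * w)) ^ 2 / ((2 * CV * L / w) * (10 * T * L)) ≤
      w * P1 ^ 2 / (P2 * (10 * T * L)) := by
    apply div_le_div₀ (by positivity) (by gcongr) (by positivity) (by gcongr)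
  refine le_trans ?_ h2
  have h3 : w * (ℓ * L / (2 * w)) ^ 2 / ((2 * CV * L / w) * (10 * T * L)) = ℓ ^ 2 / (80 * CV * T) := by
    field_simp
    ring
  rw [h3, hT, div_le_div_iff₀ (by positivity) (by positivity)]
  have h4 : ℓ + 1 ≤ 2 * ℓ := by linarith
  have h5 : 0 ≤ ℓ * CV ^ 2 * K := by positivity
  have h6 : ℓ * (80 * CV * (16 * CV * (ℓ + 1) * K)) = 1280 * (ℓ * CV ^ 2 * K) * (ℓ + 1) := by ring
  have h7 : ℓ ^ 2 * (2560 * CV ^ 2 * K) = 1280 * (ℓ * CV ^ 2 * K) * (2 * ℓ) := by ring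
  rw [h6, h7]
  gcongr

/-- the numerical part of the estimate (2) -/
theorem num_two (w X LX P1 P2 κ κ0 ε S Δ E : ℝ) (K : ℕ) (hK : 1 ≤ K) (hw : 0 < w) (hX : 0 < X)
    (hLX : 0 < LX) (hP2 : 1 ≤ P2) (hκ : κ = w * P1 ^ 2 / (P2 * LX)) (hκ0 : κ0 ≤ κ) (hκ00 : 0 < κ0)
    (hε0 : 0 < ε) (hε : ε ≤ κ0 / 5) (hS : |S - Δ * E| ≤ ε * X) (hΔ1 : 9 / 10 * (w * X / LX) ≤ Δ)
    (hΔ2 : Δ ≤ 11 / 10 * (w * X / LX)) (hE1 : 1 / 2 * P1 ^ 2 * P2 ^ (K - 1) ≤ E)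
    (hE2 : E ≤ 51 / 50 * P1 ^ 2 * P2 ^ (K - 1)) :
    κ * (X * P2 ^ K) / 4 ≤ S ∧ S ≤ 2 * κ * (X * P2 ^ K) := by
  have hP20 : 0 < P2 := by linarith
  have hPK : P2 ^ K = P2 * P2 ^ (K - 1) := by
    rw [← pow_succ']
    congr 1
    omega
  obtain ⟨Q, hQ⟩ : ∃ Q, Q = P2 ^ (K - 1) := ⟨_, rfl⟩
  have hQ0 : 0 < Q := by rw [hQ]; positivity
  have hW : κ * (X * P2 ^ K) = (w * X / LX) * (P1 ^ 2 * Q) := by
    rw [hκ, hPK, ← hQ]
    field_simp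
  have hPK1 : 1 ≤ P2 ^ K := one_le_pow₀ hP2
  have hb0 : 0 ≤ w * X / LX := by positivity
  have hE0 : 0 ≤ P1 ^ 2 * Q := by positivity
  rw [← hQ] at hE1 hE2
  have hΔ0 : 0 ≤ Δ := le_trans (by positivity) hΔ1
  have h1 : 9 / 20 * ((w * X / LX) * (P1 ^ 2 * Q)) ≤ Δ * E := by
    calc 9 / 20 * ((w * X / LX) * (P1 ^ 2 * Q)) =
        (9 / 10 * (w * X / LX)) * (1 / 2 * P1 ^ 2 * Q) := by ring
      _ ≤ Δ * E := by
          apply mul_le_mul hΔ1 hE1 (by positivity) hΔ0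
  have h2 : Δ * E ≤ 561 / 500 * ((w * X / LX) * (P1 ^ 2 * Q)) := by
    calc Δ * E ≤ (11 / 10 * (w * X / LX)) * (51 / 50 * P1 ^ 2 * Q) := by
          apply mul_le_mul hΔ2 hE2 _ (by positivity)
          exact le_trans (by positivity) hE1
      _ = _ := by ring
  have hκpos : 0 < κ := lt_of_lt_of_le hκ00 hκ0
  have h3 : ε * X ≤ κ * (X * P2 ^ K) / 5 := by
    calc ε * X ≤ (κ0 / 5) * X := by gcongr
      _ ≤ (κ / 5) * (X * P2 ^ K) := by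
          have : X ≤ X * P2 ^ K := by nlinarith
          gcongr
      _ = _ := by ring
  rw [abs_le] at hS
  rw [hW] at h3 ⊢
  have h4 : 2 * κ * (X * P2 ^ K) = 2 * ((w * X / LX) * (P1 ^ 2 * Q)) := by
    rw [← hW]; ring
  rw [h4]
  have h5 : 0 ≤ (w * X / LX) * (P1 ^ 2 * Q) := by positivity
  constructor
  · linarith [hS.1]
  · linarith [hS.2]

/-- the numerical part of the estimate (3) -/
theorem num_three (w X LX P1 P2 κ κ0 ε S Δ E V : ℝ) (K : ℕ) (hK : 2 ≤ K) (hw : 0 < w) (hX : 0 < X)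
    (hLX : 0 < LX) (hP2 : 1 ≤ P2) (hκ : κ = w * P1 ^ 2 / (P2 * LX)) (hκ0 : κ0 ≤ κ) (hκ00 : 0 < κ0)
    (hε0 : 0 < ε) (hε : ε ≤ κ0 ^ 2) (hS : |S - Δ * E| ≤ ε * X) (hΔ0 : 0 ≤ Δ)
    (hΔ2 : Δ ≤ 11 / 10 * (w * X / LX)) (hE : E * V ≤ 11 / 10 * P1 ^ 4 * P2 ^ (K - 2))
    (hV : LX / (10 * w) ≤ V) :
    S ≤ 20 * κ ^ 2 * (X * P2 ^ K) := by
  have hP20 : 0 < P2 := by linarith
  have hPK : P2 ^ K = P2 ^ 2 * P2 ^ (K - 2) := by
    rw [← pow_add]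
    congr 1
    omega
  obtain ⟨Q, hQ⟩ : ∃ Q, Q = P2 ^ (K - 2) := ⟨_, rfl⟩
  have hQ0 : 0 < Q := by rw [hQ]; positivity
  have hW : κ ^ 2 * (X * P2 ^ K) = (w ^ 2 * X / LX ^ 2) * (P1 ^ 4 * Q) := by
    rw [hκ, hPK, ← hQ]
    field_simp
  have hPK1 : 1 ≤ P2 ^ K := one_le_pow₀ hP2
  rw [← hQ] at hE
  have hV0 : 0 < V := lt_of_lt_of_le (by positivity) hV
  have hE2 : E ≤ 11 * w / LX * (P1 ^ 4 * Q) := by
    have h1 : E ≤ 11 / 10 * P1 ^ 4 * Q / V := by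
      rw [le_div_iff₀ hV0]
      exact hE
    refine h1.trans ?_
    calc 11 / 10 * P1 ^ 4 * Q / V ≤ 11 / 10 * P1 ^ 4 * Q / (LX / (10 * w)) := by
          gcongr
      _ = 11 * w / LX * (P1 ^ 4 * Q) := by
          field_simp
  have h2 : Δ * E ≤ 121 / 10 * ((w ^ 2 * X / LX ^ 2) * (P1 ^ 4 * Q)) := by
    calc Δ * E ≤ Δ * (11 * w / LX * (P1 ^ 4 * Q)) := mul_le_mul_of_nonneg_left hE2 hΔ0
      _ ≤ (11 / 10 * (w * X / LX)) * (11 * w / LX * (P1 ^ 4 * Q)) := by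
          apply mul_le_mul_of_nonneg_right hΔ2
          positivity
      _ = _ := by
          field_simp
          ring
  have h3 : ε * X ≤ κ ^ 2 * (X * P2 ^ K) := by
    calc ε * X ≤ κ0 ^ 2 * X := by gcongr
      _ ≤ κ ^ 2 * (X * P2 ^ K) := by
          have : X ≤ X * P2 ^ K := by nlinarith
          gcongr
  rw [abs_le] at hS
  have h5 : 0 ≤ (w ^ 2 * X / LX ^ 2) * (P1 ^ 4 * Q) := by positivity
  have h4 : 20 * κ ^ 2 * (X * P2 ^ K) = 20 * ((w ^ 2 * X / LX ^ 2) * (P1 ^ 4 * Q)) := by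
    rw [← hW]; ring
  rw [h4]
  rw [hW] at h3
  linarith [hS.2]

/-- the step weight satisfies the assumptions -/
theorem yy_bd {P J : Type} [Fintype P] [DecidableEq P] [Fintype J] [DecidableEq J] (v : P → ℕ)
    (R : ℕ) (G : Finset P → ℝ) (hG : Anti G) (hG1 : ∀ a, G a ≤ 1) (r : P → Option J) :
    0 ≤ yy v R G r ∧ yy v R G r ≤ 1 ∧ (yy v R G r ≠ 0 → nrm v (supp r) ≤ R) := by
  refine ⟨yy_nonneg v R G hG r, ?_, ?_⟩
  · unfold yy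
    split_ifs
    · exact Finset.prod_le_one (fun j _ => hG.1 _) (fun j _ => hG1 _)
    · norm_num
  · intro h
    unfold yy at h
    by_contra h2
    exact h (if_neg h2)

theorem main_core (CV : ℕ) (hCV : 1 ≤ CV)
    (hVu : ∀ D R x : ℕ, 12 ≤ D → D ≤ x → x ≤ R →
      VV (vs D R) (qs D R) x ∅ ≤ CV * Real.log x / wD D)
    (J : Type) [Fintype J] [DecidableEq J] (ℓ D : ℕ)
    (A B : J → ℕ) (hℓ : 1 ≤ ℓ) (hKJ : 2 ^ ℓ ≤ Fintype.card J)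
    (hDK : 1000 * Fintype.card J ^ 2 + 12 ≤ D) (hF : Forms D A B) (N : ℕ) :
    ∃ X : ℕ, N ≤ X ∧ ∃ (w : ℕ → ℝ) (κ W : ℝ), (∀ m, 0 ≤ w m) ∧ 0 < W ∧
      (ℓ : ℝ) / (((2560 * CV ^ 2 : ℕ) : ℝ) * (Fintype.card J : ℝ)) ≤ κ ∧
      ∑ m ∈ Ioc X (2 * X), w m ≤ 2 * W ∧
      (∀ i, κ * W / 4 ≤ ∑ m ∈ (Ioc X (2 * X)).filter (fun m => (A i * m + B i).Prime), w m ∧
        ∑ m ∈ (Ioc X (2 * X)).filter (fun m => (A i * m + B i).Prime), w m ≤ 2 * κ * W) ∧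
      ∀ i j, i ≠ j → ∑ m ∈ (Ioc X (2 * X)).filter
        (fun m => (A i * m + B i).Prime ∧ (A j * m + B j).Prime), w m ≤ 20 * κ ^ 2 * W := by
  have hD12 : 12 ≤ D := by omega
  obtain ⟨K, hK⟩ : ∃ K, K = Fintype.card J := ⟨_, rfl⟩
  rw [← hK] at hKJ hDK
  rw [← hK]
  have hK2 : 2 ≤ K := by
    have : 2 ^ 1 ≤ 2 ^ ℓ := Nat.pow_le_pow_right (by norm_num) hℓ
    omega
  have hKKJ : KK J = (K : ℝ) := by unfold KK; rw [hK]
  obtain ⟨T, hT⟩ : ∃ T, T = 16 * CV * (ℓ + 1) * K := ⟨_, rfl⟩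
  have hKT : K ≤ T := by
    rw [hT]
    have : 1 ≤ 16 * CV * (ℓ + 1) := Nat.succ_le_of_lt (by positivity)
    nlinarith
  have hT1 : 1 ≤ T := by omega
  have h2T : 2 ^ (ℓ + 1) ≤ T := by
    rw [hT, pow_succ]
    have : 2 ≤ 16 * CV * (ℓ + 1) := by nlinarith
    nlinarith
  have hw1 : 1 ≤ wD D := wD_ge D
  have hw0 : 0 < wD D := by linarith
  have hKr : (2 : ℝ) ≤ K := by exact_mod_cast hK2
  have hCVr : (1 : ℝ) ≤ CV := by exact_mod_cast hCV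
  have hℓr : (1 : ℝ) ≤ ℓ := by exact_mod_cast hℓ
  obtain ⟨κ0, hκ0⟩ : ∃ κ0 : ℝ, κ0 = (ℓ : ℝ) / (((2560 * CV ^ 2 : ℕ) : ℝ) * (K : ℝ)) := ⟨_, rfl⟩
  have hκ0pos : 0 < κ0 := by
    rw [hκ0]
    push_cast
    positivity
  obtain ⟨ε, hε⟩ : ∃ ε : ℝ, ε = min (κ0 / 5) (min (κ0 ^ 2) (1 / 10)) := ⟨_, rfl⟩
  have hε0 : 0 < ε := by
    rw [hε]
    refine lt_min (by positivity) (lt_min (by positivity) (by norm_num))
  have hε1 : ε ≤ κ0 / 5 := by rw [hε]; exact min_le_left _ _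
  have hε2 : ε ≤ κ0 ^ 2 := by rw [hε]; exact (min_le_right _ _).trans (min_le_left _ _)
  have hε3 : ε ≤ 1 / 10 := by rw [hε]; exact (min_le_right _ _).trans (min_le_right _ _)
  obtain ⟨u1, hu1⟩ := err_int D hD12 A B hF T hT1 ε hε0
  have hE2 := fun i => err_prime D hD12 A B hF T hT1 i ε hε0
  choose u2 hu2 using hE2
  have hX0 := fun i => pi_cnt (A i) (B i) (hF.pos i)
  choose X0 hX0 using hX0
  obtain ⟨u, huu1, huu2, huX0, huN, huD, hu3, huw⟩ : ∃ u : ℕ, u1 ≤ u ∧ (∀ i, u2 i ≤ u) ∧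
      (∀ i, X0 i ≤ u) ∧ N ≤ u ∧ D ≤ u ∧ 3 ≤ u ∧ wD D ≤ Real.log u := by
    refine ⟨u1 + ∑ i, u2 i + ∑ i, X0 i + N + D + 3 + ⌈Real.exp (wD D)⌉₊, by omega, fun i => ?_,
      fun i => ?_, by omega, by omega, by omega, ?_⟩
    · have := Finset.single_le_sum (f := u2) (fun i _ => Nat.zero_le _) (mem_univ i)
      omega
    · have := Finset.single_le_sum (f := X0) (fun i _ => Nat.zero_le _) (mem_univ i)
      omega
    · rw [Real.le_log_iff_exp_le (by positivity)]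
      have h1 := Nat.le_ceil (Real.exp (wD D))
      push_cast
      have h2 : (0 : ℝ) ≤ (u1 : ℝ) + ∑ i, (u2 i : ℝ) + ∑ i, (X0 i : ℝ) + N + D + 3 := by positivity
      linarith
  have hu0 : 0 < u := by omega
  have hu2' : 2 ≤ u := by omega
  have hur : (3 : ℝ) ≤ u := by exact_mod_cast hu3
  have hL0 : 0 < Real.log u := by linarith
  have hXu : u ≤ u ^ (10 * T) := Nat.le_self_pow (by omega) u
  have hRu : u ≤ u ^ T := Nat.le_self_pow (by omega) u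
  have hRX : u ^ T ≤ u ^ (10 * T) := Nat.pow_le_pow_right hu0 (by omega)
  have hXr : ((u ^ (10 * T) : ℕ) : ℝ) = (u : ℝ) ^ (10 * T) := by push_cast; ring
  have hXpos : (0 : ℝ) < (u : ℝ) ^ (10 * T) := by positivity
  have hlogX : Real.log ((u : ℝ) ^ (10 * T)) = 10 * T * Real.log u := by
    rw [Real.log_pow]
    push_cast
    ring
  have hlogR : Real.log ((u ^ T : ℕ) : ℝ) = T * Real.log u := by
    push_cast
    rw [Real.log_pow]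
  have hqv : ∀ p, 12 ≤ qs D (u ^ T) p := by
    intro p
    have := (mem_Ps D (u ^ T) p).2.1
    unfold qs
    exact_mod_cast (by omega : 12 ≤ p.1)
  have hv : ∀ p, 1 ≤ vs D (u ^ T) p := by
    intro p
    have := (mem_Ps D (u ^ T) p).2.1
    unfold vs
    omega
  have hT0r : (0 : ℝ) < T := by exact_mod_cast hT1
  obtain ⟨hG, hG1, hG0⟩ := GG_basic (vs D (u ^ T)) hv ℓ u hu2'
  have hlogp : ∀ l : ℕ, Real.log ((u ^ 2 ^ l : ℕ) : ℝ) = 2 ^ l * Real.log u := by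
    intro l
    push_cast
    rw [Real.log_pow]
    push_cast
    ring
  have hxl : ∀ l ≤ ℓ, u ^ 2 ^ l ≤ u ^ T := by
    intro l hl
    apply Nat.pow_le_pow_right hu0
    calc 2 ^ l ≤ 2 ^ ℓ := Nat.pow_le_pow_right (by norm_num) hl
      _ ≤ T := by omega
  have hux : ∀ l : ℕ, u ≤ u ^ 2 ^ l := fun l => Nat.le_self_pow (by positivity) u
  obtain ⟨hP2a, hP2b, hP1, hM⟩ := GG_sums (vs D (u ^ T)) hv (qs D (u ^ T)) hqv ℓ u CV hu2' (wD D) hw0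
    (fun l hl => by
      have := V_low D (u ^ T) (u ^ 2 ^ l) hD12 (by have := hux l; omega) (hxl l hl)
      rw [hlogp l] at this
      exact this)
    (fun l hl => by
      have := hVu D (u ^ T) (u ^ 2 ^ l) hD12 (by have := hux l; omega) (hxl l hl)
      rw [hlogp l] at this
      exact this)
  obtain ⟨P1, hP1d⟩ : ∃ P1, P1 = SS (xx (qs D (u ^ T))) (GG ℓ u (vs D (u ^ T))) := ⟨_, rfl⟩
  obtain ⟨P2, hP2d⟩ : ∃ P2, P2 = SS (xx (qs D (u ^ T))) (fun a => GG ℓ u (vs D (u ^ T)) a ^ 2) :=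
    ⟨_, rfl⟩
  rw [← hP2d] at hP2a hP2b
  rw [← hP1d] at hP1
  have hP21 : 1 ≤ P2 := by
    refine le_trans ?_ hP2a
    rw [le_div_iff₀ hw0]
    linarith
  have hδ : KK J ^ 2 * ∑ p, xx (qs D (u ^ T)) p ^ 2 ≤ 1 / 100 := by
    rw [hKKJ]
    have h1 := sq_sum D (u ^ T) hD12
    have hDr : (1000 : ℝ) * K ^ 2 + 12 ≤ D := by exact_mod_cast hDK
    have hD0 : (0 : ℝ) < D := by nlinarith
    calc (K : ℝ) ^ 2 * ∑ p, xx (qs D (u ^ T)) p ^ 2 ≤ (K : ℝ) ^ 2 * (2 / (D : ℝ)) := by gcongr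
      _ = 2 * (K : ℝ) ^ 2 / (D : ℝ) := by ring
      _ ≤ 1 / 100 := by
          rw [div_le_div_iff₀ hD0 (by norm_num)]
          nlinarith [sq_nonneg (K : ℝ)]
  have hM2 : 16 * KK J * MM (vs D (u ^ T)) (xx (qs D (u ^ T))) (GG ℓ u (vs D (u ^ T))) ≤
      SS (xx (qs D (u ^ T))) (fun a => GG ℓ u (vs D (u ^ T)) a ^ 2) *
        Real.log ((u ^ T : ℕ) : ℝ) := by
    rw [← hP2d, hlogR, hKKJ]
    have hTr : (T : ℝ) = 16 * CV * (ℓ + 1) * K := by rw [hT]; push_cast; ring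
    calc 16 * (K : ℝ) * MM (vs D (u ^ T)) (xx (qs D (u ^ T))) (GG ℓ u (vs D (u ^ T))) ≤
        16 * (K : ℝ) * ((ℓ + 1) * CV * Real.log u ^ 2 / wD D) := by gcongr
      _ = (Real.log u / wD D) * (T * Real.log u) := by
          rw [hTr]
          ring
      _ ≤ P2 * (T * Real.log u) := by gcongr
  have hYR : (u ^ 2 ^ ℓ) ^ 2 ≤ u ^ T := by
    rw [← pow_mul]
    apply Nat.pow_le_pow_right hu0
    rw [← pow_succ]
    exact h2T
  obtain ⟨κ, hκ⟩ : ∃ κ : ℝ, κ = wD D * P1 ^ 2 / (P2 * (10 * T * Real.log u)) := ⟨_, rfl⟩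
  have hκlow : κ0 ≤ κ := by
    rw [hκ0, hκ]
    have := kap_low (wD D) (Real.log u) ℓ K CV T P1 P2 hw0 hL0 hℓr (by linarith) hCVr
      (by rw [hT]; push_cast; ring) hP1 (by linarith) hP2b
    push_cast
    exact this
  have hyb := yy_bd (J := J) (vs D (u ^ T)) (u ^ T) (GG ℓ u (vs D (u ^ T))) hG hG1
  have hyabs : ∀ r : {p // p ∈ Ps D (u ^ T)} → Option J,
      |yy (vs D (u ^ T)) (u ^ T) (GG ℓ u (vs D (u ^ T))) r| ≤ 1 := by
    intro r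
    rw [abs_of_nonneg (hyb r).1]
    exact (hyb r).2.1
  have hR1 : 1 ≤ u ^ T := by omega
  have hΔ : ∀ i, 9 / 10 * (wD D * (u : ℝ) ^ (10 * T) / (10 * T * Real.log u)) ≤
      (pp (2 * A i * u ^ (10 * T) + B i) - pp (A i * u ^ (10 * T) + B i)) / (Nat.totient (A i) : ℝ) ∧
      (pp (2 * A i * u ^ (10 * T) + B i) - pp (A i * u ^ (10 * T) + B i)) / (Nat.totient (A i) : ℝ) ≤
      11 / 10 * (wD D * (u : ℝ) ^ (10 * T) / (10 * T * Real.log u)) := by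
    intro i
    obtain ⟨h1, h2⟩ := hX0 i (u ^ (10 * T)) ((huX0 i).trans hXu)
    rw [hXr, hlogX] at h1 h2
    have h3 := tot_wD D A B hF i
    have h4 : (0 : ℝ) < Nat.totient (A i) := by exact_mod_cast Nat.totient_pos.2 (hF.pos i)
    have h5 : (A i : ℝ) * (u : ℝ) ^ (10 * T) / (10 * T * Real.log u) =
        (wD D * (u : ℝ) ^ (10 * T) / (10 * T * Real.log u)) * (Nat.totient (A i) : ℝ) := by
      rw [h3]
      ring
    rw [h5] at h1 h2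
    rw [le_div_iff₀ h4, div_le_iff₀ h4]
    constructor
    · linarith
    · linarith
  refine ⟨u ^ (10 * T), huN.trans hXu,
    fun m => Lam (qs D (u ^ T)) (yy (vs D (u ^ T)) (u ^ T) (GG ℓ u (vs D (u ^ T))))
      (col A B D (u ^ T) m) ^ 2, κ, (u : ℝ) ^ (10 * T) * P2 ^ K, fun m => sq_nonneg _,
    by positivity, by rw [← hκ0]; exact hκlow, ?_, ?_, ?_⟩
  · have h1 := hu1 u huu1 _ hyabs (fun r => (hyb r).2.2)
    have h2 := EI_up (J := J) (vs D (u ^ T)) hv (qs D (u ^ T)) hqv (u ^ T) (GG ℓ u (vs D (u ^ T))) hG hδ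
    rw [← hP2d, ← hK] at h2
    rw [abs_le] at h1
    have hPK1 : 1 ≤ P2 ^ K := one_le_pow₀ hP21
    have h3 : (u : ℝ) ^ (10 * T) * EI (qs D (u ^ T)) (fun ξ : {p // p ∈ Ps D (u ^ T)} → Option J =>
        Lam (qs D (u ^ T))
        (yy (vs D (u ^ T)) (u ^ T) (GG ℓ u (vs D (u ^ T)))) ξ ^ 2) ≤
        (u : ℝ) ^ (10 * T) * (11 / 10 * P2 ^ K) := by gcongr
    have h4 : ε * (u : ℝ) ^ (10 * T) ≤ 1 / 10 * ((u : ℝ) ^ (10 * T) * P2 ^ K) := by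
      have : (u : ℝ) ^ (10 * T) ≤ (u : ℝ) ^ (10 * T) * P2 ^ K := by nlinarith
      calc ε * (u : ℝ) ^ (10 * T) ≤ 1 / 10 * (u : ℝ) ^ (10 * T) := by gcongr
        _ ≤ _ := by gcongr
    have h5 : 0 ≤ (u : ℝ) ^ (10 * T) * P2 ^ K := by positivity
    linarith [h1.2]
  · intro i
    have h1 := hu2 i u (huu2 i) (yy (vs D (u ^ T)) (u ^ T) (GG ℓ u (vs D (u ^ T)))) hyabs
      (fun r hr => ((hyb r).2.2 hr).trans (Nat.le_self_pow (by norm_num) _))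
    have hEl := EP_low i (vs D (u ^ T)) hv (qs D (u ^ T)) hqv (u ^ T) (u ^ 2 ^ ℓ)
      (GG ℓ u (vs D (u ^ T))) hG hG0 hYR (by omega) hδ hM2
    have hEu := EP_up i (vs D (u ^ T)) (qs D (u ^ T)) hqv (u ^ T)
      (GG ℓ u (vs D (u ^ T))) hG hδ
    rw [← hP1d, ← hP2d, ← hK] at hEl hEu
    exact num_two (wD D) _ (10 * T * Real.log u) P1 P2 κ κ0 ε _ _ _ K (by omega) hw0 hXpos
      (by positivity) hP21 hκ hκlow hκ0pos hε0 hε1 h1 (hΔ i).1 (hΔ i).2 hEl hEu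
  · intro i j hij
    have hyj := fun r => yj_bd j (vs D (u ^ T)) hv (qs D (u ^ T)) hqv (u ^ T) hR1
      (yy (vs D (u ^ T)) (u ^ T) (GG ℓ u (vs D (u ^ T)))) (fun r => (hyb r).1)
      (fun r => (hyb r).2.1) (fun r => (hyb r).2.2) r
    have h1 := hu2 i u (huu2 i) (yj j (vs D (u ^ T)) (qs D (u ^ T)) (u ^ T)
      (yy (vs D (u ^ T)) (u ^ T) (GG ℓ u (vs D (u ^ T)))))
      (fun r => by rw [abs_of_nonneg (hyj r).1]; exact (hyj r).2)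
      (fun r hr => yj_supp j (vs D (u ^ T)) hv (qs D (u ^ T)) (u ^ T) _
        (fun r => (hyb r).2.2) r hr)
    have hE := pair_up i j hij (vs D (u ^ T)) hv (qs D (u ^ T)) hqv (u ^ T) hR1
      (GG ℓ u (vs D (u ^ T))) hG hδ
    have hV := V_low D (u ^ T) (u ^ T) hD12 hR1 le_rfl
    rw [← hP1d, ← hP2d, ← hK] at hE
    rw [hlogR] at hV
    have hV' : 10 * T * Real.log u / (10 * wD D) ≤ VV (vs D (u ^ T)) (qs D (u ^ T)) (u ^ T) ∅ := by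
      refine le_trans (le_of_eq ?_) hV
      field_simp
    have hΔ0 : 0 ≤ (pp (2 * A i * u ^ (10 * T) + B i) - pp (A i * u ^ (10 * T) + B i)) /
        (Nat.totient (A i) : ℝ) := le_trans (by positivity) (hΔ i).1
    have h3 := num_three (wD D) _ (10 * T * Real.log u) P1 P2 κ κ0 ε _ _ _ _ K hK2 hw0 hXpos
      (by positivity) hP21 hκ hκlow hκ0pos hε0 hε2 h1 hΔ0 (hΔ i).2 hE hV'
    refine le_trans ?_ h3
    have h4 : ∀ m ∈ (Ioc (u ^ (10 * T)) (2 * u ^ (10 * T))).filter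
        (fun m => (A i * m + B i).Prime ∧ (A j * m + B j).Prime),
        Lam (qs D (u ^ T)) (yy (vs D (u ^ T)) (u ^ T) (GG ℓ u (vs D (u ^ T))))
          (col A B D (u ^ T) m) ^ 2 =
        Lam (qs D (u ^ T)) (yj j (vs D (u ^ T)) (qs D (u ^ T)) (u ^ T)
          (yy (vs D (u ^ T)) (u ^ T) (GG ℓ u (vs D (u ^ T))))) (col A B D (u ^ T) m) ^ 2 := by
      intro m hm
      rw [mem_filter, mem_Ioc] at hm
      rw [Lam_yj j (vs D (u ^ T)) (qs D (u ^ T)) hqv (u ^ T) hR1 _ _ ?_]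
      intro p hp
      rw [col_eq D (u ^ T) A B hF m p j] at hp
      have h5 := mem_Ps D (u ^ T) p
      rcases (Nat.dvd_prime hm.2.2).1 hp with h6 | h6
      · exact h5.1.ne_one h6
      · have h7 : m ≤ A j * m + B j := by
          have := hF.pos j
          nlinarith
        omega
    rw [Finset.sum_congr rfl h4]
    apply Finset.sum_le_sum_of_subset_of_nonneg
    · intro m hm
      rw [mem_filter] at hm ⊢
      exact ⟨hm.1, hm.2.1⟩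
    · intro m _ _
      exact sq_nonneg _

theorem main_sums : ∃ C1 : ℕ, 1 ≤ C1 ∧ ∀ (J : Type) [Fintype J] [DecidableEq J] (ℓ D : ℕ)
    (A B : J → ℕ), 1 ≤ ℓ → 2 ^ ℓ ≤ Fintype.card J → 1000 * Fintype.card J ^ 2 + 12 ≤ D →
    Forms D A B → ∀ N : ℕ, ∃ X : ℕ, N ≤ X ∧ ∃ (w : ℕ → ℝ) (κ W : ℝ), (∀ m, 0 ≤ w m) ∧ 0 < W ∧
      (ℓ : ℝ) / (C1 * (Fintype.card J : ℝ)) ≤ κ ∧
      ∑ m ∈ Ioc X (2 * X), w m ≤ 2 * W ∧
      (∀ i, κ * W / 4 ≤ ∑ m ∈ (Ioc X (2 * X)).filter (fun m => (A i * m + B i).Prime), w m ∧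
        ∑ m ∈ (Ioc X (2 * X)).filter (fun m => (A i * m + B i).Prime), w m ≤ 2 * κ * W) ∧
      ∀ i j, i ≠ j → ∑ m ∈ (Ioc X (2 * X)).filter
        (fun m => (A i * m + B i).Prime ∧ (A j * m + B j).Prime), w m ≤ 20 * κ ^ 2 * W := by
  obtain ⟨CV, hCV, hVu, -⟩ := V_up
  refine ⟨2560 * CV ^ 2, Nat.succ_le_of_lt (by positivity), ?_⟩
  intro J _ _ ℓ D A B hℓ hKJ hDK hF N
  exact main_core CV hCV hVu J ℓ D A B hℓ hKJ hDK hF N

end Pool.DL
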