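import Pool.Agent.Lib.MP_c77da8_nt.DL.Words
import Pool.Agent.Lib.MP_c77da8_nt.DL.Hsel

/-!
# DL-Short: primes in short intervals to the right of `(m j)^d n`, for given `m 0, ..., m (k-1)`

PROOF.  As in `DL/Words`, with the forms `(wt w) n + η`, where all the shifts `η` (`s` for each word `w`) are different primes
`> K s`, `> y` and `≤ C^(K T) y` (`supply`).  They are pairwise non-proportional: if `(wt w) η' = (wt w') η` then `η`, which does
not divide `wt w` (all prime factors of which are `≤ y`), divides `η'`.  Admissible: for `p ≤ max (K s, y)` take `n = 0`; for larger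
`p` every form has one zero modulo `p`, and there are `K s < p` forms.
-/

set_option autoImplicit false

namespace Pool.DL

open Finset

theorem exists_avoid {ι : Type} [Fintype ι] (p : ℕ) [Fact p.Prime] (A H : ι → ZMod p) (hA : ∀ i, A i ≠ 0)
    (hc : Fintype.card ι < p) : ∃ n : ZMod p, ∀ i, A i * n + H i ≠ 0 := by
  classical
  obtain ⟨n, hn⟩ : ∃ n, n ∉ univ.image (fun i => - H i / A i) := by
    by_contra hcon
    push Not at hcon
    have h1 : (univ : Finset (ZMod p)) ⊆ univ.image (fun i => - H i / A i) := fun n _ => hcon n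
    have h2 := card_le_card h1
    rw [card_univ, ZMod.card] at h2
    have h3 := h2.trans card_image_le
    rw [card_univ] at h3
    omega
  refine ⟨n, fun i h => hn ?_⟩
  rw [mem_image]
  refine ⟨i, mem_univ _, ?_⟩
  rw [div_eq_iff (hA i)]
  linear_combination -h

theorem wt_smooth {k N : ℕ} (m : Fin k → ℕ) (r : Fin N → ℕ) (y : ℕ) (hy : ∀ j p, p.Prime → p ∣ m j → p ≤ y)
    (w : Fin N → Fin k) (p : ℕ) (hp : p.Prime) (h : p ∣ wt m r w) : p ≤ y := by
  unfold wt at h
  obtain ⟨x, -, hx⟩ := (hp.prime.dvd_finsetProd_iff _).1 h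
  exact hy _ p hp (hp.dvd_of_dvd_pow hx)

theorem short_pos (k : ℕ) : ∃ C N : ℕ, ∀ (y : ℕ) (m : Fin (k + 1) → ℕ), 1 ≤ y → (∀ j, 1 ≤ m j) →
    (∀ j p, p.Prime → p ∣ m j → p ≤ y) → ∀ (r : Fin N → ℕ) (T : ℕ), 1 ≤ T →
    ∃ X : Finset (Fin N), X.Nonempty ∧
      {n : ℕ | ∀ j, T ≤ ((Icc (m j ^ (∑ x ∈ X, r x) * n) (m j ^ (∑ x ∈ X, r x) * n + C ^ T * y)).filter
        Nat.Prime).card}.Infinite := by
  obtain ⟨C₀, hC₀, hcl⟩ := classes
  obtain ⟨N, hN⟩ := Pool.SZ.dhj_fin k (1 / 3000) (by norm_num)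
  obtain ⟨K, hK⟩ : ∃ K, K = Fintype.card (Fin N → Fin (k + 1)) := ⟨_, rfl⟩
  have hK1 : 1 ≤ K := by
    rw [hK]
    exact Fintype.card_pos
  have e : Fin K ≃ (Fin N → Fin (k + 1)) := by
    rw [hK]
    exact (Fintype.equivFin _).symm
  obtain ⟨C₁, hC₁, hsup⟩ := supply (C₀ + 1)
  refine ⟨C₁ ^ K, N, fun y m hy1 hm hy r T hT => ?_⟩
  obtain ⟨s, hs⟩ : ∃ s, s = C₀ ^ (K * T) := ⟨_, rfl⟩
  have hKT : 1 ≤ K * T := Nat.succ_le_of_lt (by positivity)
  have hKs : K * s ≤ 2 ^ ((C₀ + 1) * (K * T)) := by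
    have h1 : K ≤ 2 ^ (K * T) := by
      refine Nat.lt_two_pow_self.le.trans (Nat.pow_le_pow_right (by norm_num) ?_)
      exact Nat.le_mul_of_pos_right _ hT
    have h2 : s ≤ 2 ^ (C₀ * (K * T)) := by
      rw [hs, pow_mul 2 C₀ (K * T)]
      exact Nat.pow_le_pow_left Nat.lt_two_pow_self.le _
    calc K * s ≤ 2 ^ (K * T) * 2 ^ (C₀ * (K * T)) := Nat.mul_le_mul h1 h2
      _ = 2 ^ ((C₀ + 1) * (K * T)) := by rw [← pow_add]; congr 1; ring
  obtain ⟨η, hηi, hη⟩ := hsup (K * T) y (K * s) (K * s) hKT hy1 hKs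
    (hKs.trans (Nat.le_mul_of_pos_left _ hKT))
  obtain ⟨β, hβ, hβi⟩ : ∃ β : Fin K → Fin s → ℕ, (∀ i h, (β i h).Prime ∧ K * s < β i h ∧ y < β i h ∧
      β i h ≤ C₁ ^ (K * T) * y) ∧ ∀ i h i' h', β i h = β i' h' → i = i' ∧ h = h' := by
    refine ⟨fun i h => η (finProdFinEquiv (i, h)), fun i h => hη _, fun i h i' h' heq => ?_⟩
    have h2 := finProdFinEquiv.injective (hηi heq)
    rw [Prod.mk.injEq] at h2
    exact h2
  have hnd : ∀ i i' h, ¬ β i h ∣ wt m r (e i') := fun i i' h hd =>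
    absurd (wt_smooth m r y hy _ _ (hβ i h).1 hd) (not_le.2 (hβ i h).2.2.1)
  have h := hcl K T s hs.ge (fun i _ => wt m r (e i)) (fun i h => (β i h : ℤ))
    (fun i _ => wt_pos m r hm _)
    (fun i h i' h' hne heq => by
      have h1 : wt m r (e i) * β i' h' = wt m r (e i') * β i h := by exact_mod_cast heq
      have h2 : β i h ∣ wt m r (e i) * β i' h' := by
        rw [h1]
        exact Dvd.intro_left _ rfl
      rcases ((hβ i h).1.dvd_mul).1 h2 with h3 | h3
      · exact hnd i i h h3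
      · have h4 := (Nat.prime_dvd_prime_iff_eq (hβ i h).1 (hβ i' h').1).1 h3
        obtain ⟨h5, h6⟩ := hβi _ _ _ _ h4
        apply hne
        rw [h5, h6])
    (fun p hp => by
      have : Fact p.Prime := ⟨hp⟩
      by_cases hpl : p ≤ K * s ∨ p ≤ y
      · refine ⟨0, fun i h hd => ?_⟩
        rw [mul_zero, zero_add, Int.natCast_dvd_natCast, Nat.prime_dvd_prime_iff_eq hp (hβ i h).1] at hd
        have h3 := (hβ i h).2
        omega
      · push Not at hpl
        obtain ⟨n, hn⟩ := exists_avoid (ι := Fin K × Fin s) p (fun j => ((wt m r (e j.1) : ℕ) : ZMod p))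
          (fun j => ((β j.1 j.2 : ℕ) : ZMod p)) (fun j h0 => by
            rw [ZMod.natCast_eq_zero_iff] at h0
            exact absurd (wt_smooth m r y hy _ _ hp h0) (not_le.2 hpl.2))
          (by
            rw [Fintype.card_prod, Fintype.card_fin, Fintype.card_fin]
            exact hpl.1)
        refine ⟨(n.val : ℤ), fun i h hd => hn (i, h) ?_⟩
        have h2 : ((wt m r (e i) * n.val + β i h : ℕ) : ZMod p) = 0 := by
          rw [ZMod.natCast_eq_zero_iff]
          exact_mod_cast hd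
        push_cast at h2
        rw [ZMod.natCast_zmod_val] at h2
        exact h2)
  -- one set of good words
  obtain ⟨S, hS⟩ : ∃ S : Finset (Fin K), {n : ℕ | (univ.filter (fun i : Fin K =>
      T ≤ (univ.filter (fun h : Fin s =>
        (((wt m r (e i) : ℕ) : ℤ) * n + (β i h : ℤ)).toNat.Prime)).card)) = S ∧
      K ≤ 3000 * S.card}.Infinite := by
    by_contra hcon
    push Not at hcon
    apply h
    have h2 : {n : ℕ | K ≤ 3000 * (univ.filter (fun i : Fin K =>
        T ≤ (univ.filter (fun h : Fin s =>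
          (((wt m r (e i) : ℕ) : ℤ) * n + (β i h : ℤ)).toNat.Prime)).card)).card} ⊆
        ⋃ S : Finset (Fin K), {n : ℕ | (univ.filter (fun i : Fin K =>
          T ≤ (univ.filter (fun h : Fin s =>
            (((wt m r (e i) : ℕ) : ℤ) * n + (β i h : ℤ)).toNat.Prime)).card)) = S ∧
          K ≤ 3000 * S.card} := by
      intro n hn
      exact Set.mem_iUnion.2 ⟨_, rfl, hn⟩
    refine (Set.finite_iUnion fun S => ?_).subset h2
    exact hcon S
  obtain ⟨n0, hn0⟩ := hS.nonempty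
  have hKS : K ≤ 3000 * S.card := hn0.2
  obtain ⟨W, hW, hWS⟩ := hN (Fin N) (by rw [Fintype.card_fin]) (S.map e.toEmbedding) (by
    unfold Pool.SZ.dn Pool.SZ.nn
    rw [card_map, ← hK, le_div_iff₀ (by exact_mod_cast hK1)]
    have : (K : ℝ) ≤ 3000 * (S.card : ℝ) := by exact_mod_cast hKS
    linarith)
  refine ⟨univ.filter (fun x => W x = Sum.inr ()), ?_, ?_⟩
  · obtain ⟨x, hx⟩ := hW ()
    exact ⟨x, mem_filter.2 ⟨mem_univ _, hx⟩⟩
  · obtain ⟨c, hc⟩ : ∃ c, c = ∏ x, Sum.elim m (fun _ => 1) (W x) ^ r x := ⟨_, rfl⟩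
    have hc1 : 1 ≤ c := by
      rw [hc]
      refine Finset.one_le_prod' fun x _ => ?_
      have h5 : 1 ≤ Sum.elim m (fun _ => 1) (W x) := by
        cases W x with
        | inl a => exact hm a
        | inr u => exact le_rfl
      exact Nat.one_le_pow _ _ h5
    have hinj : Function.Injective (fun n : ℕ => c * n) := by
      intro x y hxy
      exact Nat.eq_of_mul_eq_mul_left (by omega) hxy
    refine (hS.image hinj.injOn).mono ?_
    rintro _ ⟨n, ⟨hn, -⟩, rfl⟩
    intro j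
    have h3 := hWS (fun _ => j)
    rw [mem_map] at h3
    obtain ⟨i, hi, hi2⟩ := h3
    have hi3 : e i = Pool.SZ.ev W (fun _ => j) := hi2
    rw [← hn, mem_filter] at hi
    refine hi.2.trans ?_
    obtain ⟨q, hq⟩ : ∃ q, q = ∑ x ∈ univ.filter (fun x => W x = Sum.inr ()), r x := ⟨_, rfl⟩
    rw [← hq]
    apply Finset.card_le_card_of_injOn (fun h => m j ^ q * (c * n) + β i h)
    · intro h hh
      simp only [coe_filter, mem_univ, true_and, Set.mem_ofPred_eq] at hh
      simp only [coe_filter, mem_Icc, Set.mem_ofPred_eq]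
      refine ⟨⟨Nat.le_add_right _ _, Nat.add_le_add_left ?_ _⟩, ?_⟩
      · rw [← pow_mul]
        exact (hβ i h).2.2.2
      · rw [hi3, wt_line, ← hc, ← hq] at hh
        have h7 : (((c * m j ^ q : ℕ) : ℤ) * (n : ℤ) + (β i h : ℤ)).toNat
            = m j ^ q * (c * n) + β i h := by
          have h8 : ((c * m j ^ q : ℕ) : ℤ) * (n : ℤ) + (β i h : ℤ)
              = ((m j ^ q * (c * n) + β i h : ℕ) : ℤ) := by
            push_cast
            ring
          rw [h8, Int.toNat_natCast]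
        rw [h7] at hh
        exact hh
    · intro h _ h' _ heq
      exact (hβi i h i h' (by simpa using heq)).2

/-- **Primes in short intervals at powers.** -/
theorem short (k : ℕ) : ∃ C N : ℕ, ∀ (y : ℕ) (m : Fin k → ℕ), (∀ j, 1 ≤ m j) →
    (∀ j p, p.Prime → p ∣ m j → p ≤ y) → 1 ≤ y → ∀ (r : Fin N → ℕ) (T : ℕ),
    ∃ X : Finset (Fin N), X.Nonempty ∧
      {n : ℕ | ∀ j, T ≤ ((Icc (m j ^ (∑ x ∈ X, r x) * n) (m j ^ (∑ x ∈ X, r x) * n + C ^ T * y)).filter
        Nat.Prime).card}.Infinite := by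
  rcases k with _ | k
  · refine ⟨0, 1, fun y m _ _ _ r T => ⟨univ, univ_nonempty, ?_⟩⟩
    convert Set.infinite_univ (α := ℕ) using 1
    ext n
    simp
  obtain ⟨C, N, hCN⟩ := short_pos k
  refine ⟨C, N + 1, fun y m hm hy hy1 r T => ?_⟩
  rcases Nat.eq_zero_or_pos T with hT | hT
  · refine ⟨univ, univ_nonempty, ?_⟩
    convert Set.infinite_univ (α := ℕ) using 1
    ext n
    simp [hT]
  · obtain ⟨X, hX, hinf⟩ := hCN y m hy1 hm hy (fun x => r x.castSucc) T hT
    refine ⟨X.map Fin.castSuccEmb, hX.map, ?_⟩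
    simp only [sum_map, Fin.coe_castSuccEmb]
    exact hinf

end Pool.DL
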