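import Pool.Agent.Lib.MP_c77da8_nt.DL.Loc

/-!
# DL-Strip: the prime model and the colourings without the colour `i`

PROOF.  `Lam_strip`: split the sum over `r` by `s = strip i r` (`s ∈ noc i`).  If `ξ` avoids `i`, then
`vl (q p) (some i) (ξ p) = 1`, hence `∏ vl (q p) (r p) (ξ p) = ∏ vl (q p) (s p) (ξ p)`, and
`cprod x r = cprod x s * ∏_{r p = some i} x_p`.
`EP_sq`: `muP i t (some i) = 0`, so in `EP i q F` only the `ξ` avoiding `i` count (the product of the weights is `0`
otherwise); for these use `Lam_strip`, expand the square, exchange the sums, merge products, `EE_prod`, `loc_P`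
(`s p ≠ some i` for `s ∈ noc i`).  It may be convenient first to prove: if `F ξ = F' ξ` for all `ξ` avoiding `i`,
then `EP i q F = EP i q F'` (`EP_congr`).
-/

set_option autoImplicit false

namespace Pool.DL

open Finset

variable {P J : Type} [Fintype P] [DecidableEq P] [Fintype J] [DecidableEq J]

theorem EP_congr (i : J) (q : P → ℝ) (F F' : (P → Option J) → ℝ)
    (h : ∀ ξ : P → Option J, (∀ p, ξ p ≠ some i) → F ξ = F' ξ) : EP i q F = EP i q F' := by
  unfold EP EE
  refine Finset.sum_congr rfl fun ξ _ => ?_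
  by_cases hξ : ∀ p, ξ p ≠ some i
  · rw [h ξ hξ]
  · push Not at hξ
    obtain ⟨p, hp⟩ := hξ
    have h0 : ∏ p, muP i (q p) (ξ p) = 0 := by
      apply Finset.prod_eq_zero (mem_univ p)
      rw [hp]
      simp [muP]
    rw [h0, zero_mul, zero_mul]

theorem strip_noc (i : J) (r : P → Option J) : strip i r ∈ noc i := by
  unfold noc
  rw [mem_filter]
  refine ⟨mem_univ _, fun p => ?_⟩
  unfold strip
  by_cases h : r p = some i
  · rw [if_pos h]
    simp
  · rw [if_neg h]
    exact h

theorem cprod_strip (i : J) (x : P → ℝ) (r : P → Option J) :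
    cprod x r = cprod x (strip i r) * ∏ p, (if r p = some i then x p else 1) := by
  unfold cprod
  rw [← Finset.prod_mul_distrib]
  refine Finset.prod_congr rfl fun p _ => ?_
  unfold strip
  by_cases h : r p = some i
  · simp [h]
  · rw [if_neg h, if_neg h, mul_one]

theorem vl_strip (i : J) (t : ℝ) (r : P → Option J) (p : P) (b : Option J) (hb : b ≠ some i) :
    vl t (r p) b = vl t (strip i r p) b := by
  unfold strip
  by_cases h : r p = some i
  · rw [if_pos h, h]
    simp [vl, hb]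
  · rw [if_neg h]

theorem Lam_strip (i : J) (q : P → ℝ) (y : (P → Option J) → ℝ) (ξ : P → Option J)
    (hξ : ∀ p, ξ p ≠ some i) :
    Lam q y ξ = ∑ s ∈ noc i, zz i q y s * (cprod (xx q) s * ∏ p, vl (q p) (s p) (ξ p)) := by
  unfold Lam
  rw [← Finset.sum_fiberwise_of_maps_to (s := (univ : Finset (P → Option J))) (t := noc i)
    (g := fun r => strip i r) (fun r _ => strip_noc i r)]
  refine Finset.sum_congr rfl fun s _ => ?_
  unfold zz
  rw [Finset.sum_mul]
  refine Finset.sum_congr rfl fun r hr => ?_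
  have hs : strip i r = s := (mem_filter.1 hr).2
  rw [← hs, cprod_strip i (xx q) r, Finset.prod_congr rfl fun p _ => vl_strip i (q p) r p (ξ p) (hξ p)]
  ring

theorem EP_sq (i : J) (q : P → ℝ) (hq : ∀ p, 1 < q p) (y : (P → Option J) → ℝ) :
    EP i q (fun ξ => Lam q y ξ ^ 2) = ∑ s ∈ noc i, ∑ s' ∈ noc i, zz i q y s * zz i q y s' *
      (cprod (xx q) s * cprod (xx q) s' * ∏ p, eP (q p) (s p) (s' p)) := by
  rw [EP_congr i q (fun ξ => Lam q y ξ ^ 2)
    (fun ξ => (∑ s ∈ noc i, zz i q y s * (cprod (xx q) s * ∏ p, vl (q p) (s p) (ξ p))) ^ 2)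
    (fun ξ hξ => by simp only [Lam_strip i q y ξ hξ])]
  have h1 : ∀ r ∈ noc (P := P) i, ∀ s ∈ noc (P := P) i, ∏ p, eP (q p) (r p) (s p) =
      ∑ ξ : P → Option J, (∏ p, muP i (q p) (ξ p)) * ((∏ p, vl (q p) (r p) (ξ p)) *
        ∏ p, vl (q p) (s p) (ξ p)) := by
    intro r hr s hs
    have hr1 := (mem_filter.1 hr).2
    have hs1 := (mem_filter.1 hs).2
    have h2 := EE_prod (fun p => muP i (q p)) (fun p b => vl (q p) (r p) b * vl (q p) (s p) b)
    rw [Finset.prod_congr rfl fun p _ => (loc_P i (q p) (hq p) (r p) (s p) (hr1 p) (hs1 p)).symm, ← h2]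
    unfold EE
    refine Finset.sum_congr rfl fun ξ _ => ?_
    simp only [Finset.prod_mul_distrib]
  unfold EP EE
  have h3 : ∀ ξ : P → Option J, (∏ p, muP i (q p) (ξ p)) *
      (∑ s ∈ noc i, zz i q y s * (cprod (xx q) s * ∏ p, vl (q p) (s p) (ξ p))) ^ 2 =
      ∑ r ∈ noc i, ∑ s ∈ noc i, zz i q y r * zz i q y s * (cprod (xx q) r * cprod (xx q) s) *
        ((∏ p, muP i (q p) (ξ p)) * ((∏ p, vl (q p) (r p) (ξ p)) * ∏ p, vl (q p) (s p) (ξ p))) := by
    intro ξ
    rw [sq, Finset.sum_mul_sum, Finset.mul_sum]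
    refine Finset.sum_congr rfl fun r _ => ?_
    rw [Finset.mul_sum]
    refine Finset.sum_congr rfl fun s _ => ?_
    ring
  rw [Finset.sum_congr rfl fun ξ _ => h3 ξ, Finset.sum_comm]
  refine Finset.sum_congr rfl fun r hr => ?_
  rw [Finset.sum_comm]
  refine Finset.sum_congr rfl fun s hs => ?_
  rw [← Finset.mul_sum, ← h1 r hr s hs]
  ring

end Pool.DL
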